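import Pool.Agent.H54.RF.IsTPr

/-!
# Project RF (MP_35eb49): basic facts about abelian subgroups
-/

set_option autoImplicit false

namespace Pool.Agent.H54.RF

namespace Gar

variable {G : Type} [Group G] [Gar G]

section ab

variable {r : ℕ} {κ : (Fin r → ℤ) → G} {ω : Fin r → ℤ} {W : ℤ}

theorem Ab.zero (h : Ab κ ω W) : κ 0 = 1 := by
  have h1 := h.add 0 0
  rw [add_zero] at h1
  exact left_eq_mul.mp h1

theorem Ab.neg (h : Ab κ ω W) (x : Fin r → ℤ) : κ (-x) = (κ x)⁻¹ := by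
  have h1 := h.add (-x) x
  rw [neg_add_cancel, h.zero] at h1
  exact eq_inv_of_mul_eq_one_left h1.symm

theorem Ab.sub (h : Ab κ ω W) (x y : Fin r → ℤ) : κ (x - y) = κ x * (κ y)⁻¹ := by
  rw [sub_eq_add_neg, h.add, h.neg]

theorem Ab.comm (h : Ab κ ω W) (x y : Fin r → ℤ) : Commute (κ x) (κ y) := by
  change κ x * κ y = κ y * κ x
  rw [← h.add, ← h.add, add_comm]

theorem Ab.nsmul (h : Ab κ ω W) (n : ℕ) (x : Fin r → ℤ) : κ (n • x) = κ x ^ n := by
  induction n with
  | zero => rw [zero_smul, h.zero, pow_zero]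
  | succ n ih => rw [succ_nsmul, h.add, ih, pow_succ]

theorem Ab.zsmul (h : Ab κ ω W) (n : ℤ) (x : Fin r → ℤ) : κ (n • x) = κ x ^ n := by
  obtain ⟨m, rfl | rfl⟩ := n.eq_nat_or_neg
  · rw [natCast_zsmul, h.nsmul, zpow_natCast]
  · rw [neg_smul, natCast_zsmul, h.neg, h.nsmul, zpow_neg, zpow_natCast]

theorem Ab.injective (h : Ab κ ω W) : Function.Injective κ := by
  intro x y hxy
  have h1 := h.sub x y
  rw [hxy, mul_inv_cancel] at h1
  exact sub_eq_zero.mp (h.inj _ h1)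

theorem Ab.zpow_om (h : Ab κ ω W) (n : ℤ) : κ (n • ω) = δ ^ (W * n) := by
  rw [h.zsmul, h.om, ← zpow_mul]

theorem Ab.cen (h : Ab κ ω W) (x : Fin r → ℤ) : Cen κ (κ x) := fun y => h.comm y x

/-- it is enough to commute with the generators -/
theorem Ab.cen_of (h : Ab κ ω W) {u : G} (hu : ∀ i, Commute (κ (Pi.single i 1)) u) : Cen κ u := by
  classical
  intro x
  have h1 : ∀ s : Finset (Fin r), Commute (κ (∑ i ∈ s, x i • Pi.single i (1 : ℤ))) u := by
    intro s
    induction s using Finset.induction_on with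
    | empty =>
      rw [Finset.sum_empty, h.zero]
      exact Commute.one_left u
    | insert a s ha ih =>
      rw [Finset.sum_insert ha, h.add, h.zsmul]
      exact ((hu a).zpow_left _).mul_left ih
  have h2 : x = ∑ i, x i • Pi.single i (1 : ℤ) := by
    funext j
    rw [Finset.sum_apply]
    simp [Pi.single_apply]
  rw [h2]
  exact h1 _

theorem Cen.mul {u v : G} (hu : Cen κ u) (hv : Cen κ v) : Cen κ (u * v) :=
  fun x => (hu x).mul_right (hv x)

theorem Cen.inv {u : G} (hu : Cen κ u) : Cen κ u⁻¹ := fun x => (hu x).inv_right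

theorem ML_one (κ : (Fin r → ℤ) → G) : (1 : G) ∈ ML κ := fun _ => MM_one _

theorem ML_zpow {y : G} (hy : y ∈ ML κ) (k : ℤ) : y * δ ^ k ∈ ML κ :=
  fun i => MM_zpow (hy i) k

theorem ML_cen {z y : G} (hz : Cen κ z) (hy : y ∈ ML κ) : z * y ∈ ML κ :=
  fun i => MM_comm (hz _) (hy i)

theorem ML_inf {x y : G} (hx : x ∈ ML κ) (hy : y ∈ ML κ) : x ⊓ y ∈ ML κ :=
  fun i => MM_inf (hx i) (hy i)

theorem ML_sup {x y : G} (hx : x ∈ ML κ) (hy : y ∈ ML κ) : x ⊔ y ∈ ML κ :=
  fun i => MM_sup (hx i) (hy i)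

theorem ML_kap (h : Ab κ ω W) (x : Fin r → ℤ) {y : G} (hy : y ∈ ML κ) : κ x * y ∈ ML κ :=
  ML_cen (h.cen x) hy

theorem ML_kap_zpow (h : Ab κ ω W) (x : Fin r → ℤ) (c : ℤ) : κ x * δ ^ c ∈ ML κ := by
  have h1 := ML_zpow (ML_kap h x (ML_one κ)) c
  rwa [mul_one] at h1

/-- the conjugates of the generators by the points of `ML κ` -/
theorem ML_finite (κ : (Fin r → ℤ) → G) :
    {h : Fin r → G | ∃ y ∈ ML κ, h = fun i => y⁻¹ * κ (Pi.single i 1) * y}.Finite := by
  refine Set.Finite.subset (Set.Finite.pi' (fun i : Fin r => MM_finite (κ (Pi.single i 1)))) ?_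
  rintro h ⟨y, hy, rfl⟩ i
  exact ⟨y, hy i, rfl⟩

/-- points with the same conjugates differ by an element that commutes with everything -/
theorem cen_of_conj (h : Ab κ ω W) {y z : G}
    (hyz : ∀ i, y⁻¹ * κ (Pi.single i 1) * y = z⁻¹ * κ (Pi.single i 1) * z) : Cen κ (y * z⁻¹) := by
  refine h.cen_of fun i => ?_
  have h1 := congrArg (fun w => y * w * z⁻¹) (hyz i)
  simp only [mul_assoc] at h1
  rw [mul_inv_cancel_left, mul_inv_cancel, mul_one] at h1
  change κ (Pi.single i 1) * (y * z⁻¹) = y * z⁻¹ * κ (Pi.single i 1)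
  rw [h1, mul_assoc]

end ab

theorem dd_nonneg (x y : G) : 0 ≤ dd x y := d_add_nonneg x y

theorem dd_triangle (x y z : G) : dd x z ≤ dd x y + dd y z := by
  have h1 := d_triangle x y z
  have h2 := d_triangle z y x
  unfold dd
  linarith

theorem dd_mul_left (z x y : G) : dd (z * x) (z * y) = dd x y := by
  unfold dd
  rw [d_mul_left, d_mul_left]

theorem dd_zpow (x y : G) (k : ℤ) : dd x (y * δ ^ k) = dd x y := by
  unfold dd
  rw [d_mul_zpow, d_zpow_mul]
  ring

end Gar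

end Pool.Agent.H54.RF
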