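import Pool.Agent.H54.RF.SpecC

/-!
# Project RF (MP_35eb49), row C3: the action of a germ on bi-infinite normal words
-/

set_option autoImplicit false

namespace Pool.Agent.H54.RF

namespace NC

variable {S : Type} [NC S]

theorem c3_tau_mod (hb : Basic S) (s : S) (i : ℤ) :
    tau^[((i + 1) % (per S : ℤ)).toNat] s = tau (tau^[(i % (per S : ℤ)).toNat] s) := by
  rw [← Function.iterate_succ_apply' tau]
  have hP : (0 : ℤ) < (per S : ℤ) := by exact_mod_cast hb.per_pos
  have h0 := Int.emod_nonneg i hP.ne'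
  have h1 := Int.emod_lt_of_pos i hP
  have h2 : (i + 1) % (per S : ℤ) = (i % (per S : ℤ) + 1) % (per S : ℤ) :=
    (Int.emod_add_emod i (per S : ℤ) 1).symm
  rcases lt_or_eq_of_le (show i % (per S : ℤ) + 1 ≤ (per S : ℤ) by omega) with h3 | h3
  · rw [h2, Int.emod_eq_of_lt (by omega) h3]
    congr 1
    omega
  · rw [h2, h3, Int.emod_self]
    have h4 : (i % (per S : ℤ)).toNat + 1 = per S := by omega
    show tau^[0] s = tau^[(i % (per S : ℤ)).toNat + 1] s
    rw [h4, hb.per_tau]
    rfl

theorem carry (S : Type) [NC S] (hb : Basic S) (hl : Laws S) : SpCarry S := by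
  intro s f
  obtain ⟨f, -, k, hk⟩ := f
  let g : ℕ → S := fun n =>
    Nat.rec (tau^[(k % (per S : ℤ)).toNat] s) (fun m x => N2 x (f (k + m))) n
  refine ⟨fun i => if i ≤ k then tau^[(i % (per S : ℤ)).toNat] s else g (i - k).toNat, ?_, k, ?_⟩
  · intro i
    show (if i + 1 ≤ k then tau^[((i + 1) % (per S : ℤ)).toNat] s else g (i + 1 - k).toNat) =
      N2 (if i ≤ k then tau^[(i % (per S : ℤ)).toNat] s else g (i - k).toNat) (f i)
    rcases lt_trichotomy i k with h | h | h
    · have h1 : i + 1 ≤ k := h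
      rw [if_pos h1, if_pos h.le, hk i h.le, c3_tau_mod hb, hl.C4]
    · subst h
      have h1 : ¬ (i + 1 ≤ i) := by omega
      have h2 : (i + 1 - i).toNat = 1 := by omega
      rw [if_neg h1, if_pos le_rfl, h2]
      show N2 (tau^[(i % (per S : ℤ)).toNat] s) (f (i + (0 : ℕ))) = _
      simp
    · have h1 : ¬ (i + 1 ≤ k) := by omega
      have h2 : (i + 1 - k).toNat = (i - k).toNat + 1 := by omega
      rw [if_neg h1, if_neg (not_le.mpr h), h2]
      show N2 (g (i - k).toNat) (f (k + ((i - k).toNat : ℕ))) = _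
      have h3 : k + (((i - k).toNat : ℕ) : ℤ) = i := by omega
      rw [h3]
  · intro i hi
    show (if i ≤ k then tau^[(i % (per S : ℤ)).toNat] s else g (i - k).toNat) = _
    rw [if_pos hi]

/-- Upward induction from minus infinity. -/
theorem c3_ind {p : ℤ → Prop} (h0 : ∃ k : ℤ, ∀ i ≤ k, p i) (h1 : ∀ i, p i → p (i + 1))
    (i : ℤ) : p i := by
  obtain ⟨k, hk⟩ := h0
  rcases le_or_gt i k with h | h
  · exact hk i h
  · have h2 : ∀ n : ℕ, p (k + n) := by
      intro n
      induction n with
      | zero => simpa using hk k le_rfl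
      | succ n ih =>
        have := h1 _ ih
        push_cast
        rwa [add_assoc] at this
    have h3 := h2 (i - k).toNat
    have h4 : k + (((i - k).toNat : ℕ) : ℤ) = i := by omega
    rwa [h4] at h3

theorem c3_unique {s : S} {f c d : ℤ → S} (hc : Carry s f c) (hd : Carry s f d) (i : ℤ) :
    c i = d i := by
  refine c3_ind (p := fun i => c i = d i) ?_ ?_ i
  · obtain ⟨k, hk⟩ := hc.init
    obtain ⟨l, hl⟩ := hd.init
    exact ⟨min k l, fun i hi => by
      show c i = d i
      rw [hk i (hi.trans (min_le_left _ _)), hl i (hi.trans (min_le_right _ _))]⟩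
  · intro i h
    show c (i + 1) = d (i + 1)
    have h' : c i = d i := h
    rw [hc.step, hd.step, h']

section act

variable (hb : Basic S) (hl : Laws S)

/-- The carry. -/
noncomputable def c3_c (hb : Basic S) (hl : Laws S) (s : S) (f : Str S) : ℤ → S :=
  (carry S hb hl s f).choose

theorem c3_c_spec (s : S) (f : Str S) : Carry s f.1 (c3_c hb hl s f) :=
  (carry S hb hl s f).choose_spec

/-- The action of a simple element. -/
noncomputable def c3_act (s : S) (f : Str S) : Str S :=
  ⟨fun i => N1 (c3_c hb hl s f i) (f.1 i),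
    fun i => by
      show N1 (N1 (c3_c hb hl s f i) (f.1 i)) (N1 (c3_c hb hl s f (i + 1)) (f.1 (i + 1))) =
        N1 (c3_c hb hl s f i) (f.1 i)
      rw [(c3_c_spec hb hl s f).step i]
      exact hl.B2 (f.2.1 i) _,
    by
      obtain ⟨k, hk⟩ := f.2.2
      exact ⟨k, fun i hi => by
        show N1 (c3_c hb hl s f i) (f.1 i) = ⊤
        rw [hk i hi]
        exact hl.C3 _⟩⟩

theorem c3_act_apply (s : S) (f : Str S) (c : ℤ → S) (hc : Carry s f.1 c) (i : ℤ) :
    (c3_act hb hl s f).1 i = N1 (c i) (f.1 i) := by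
  show N1 (c3_c hb hl s f i) (f.1 i) = _
  rw [c3_unique (c3_c_spec hb hl s f) hc]

include hb in
theorem c3_tau_mul {s t m : S} (h : IsMul s t m) (j : ℕ) :
    IsMul (tau^[j] s) (tau^[j] t) (tau^[j] m) := by
  induction j with
  | zero => exact h
  | succ j ih =>
    rw [Function.iterate_succ_apply', Function.iterate_succ_apply',
      Function.iterate_succ_apply']
    exact ⟨(hb.tau_le _ _).2 ih.1, by rw [← hb.dv_tau, ih.2]⟩

/-- The product of simple elements is compatible with the action. -/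
theorem c3_mul {s t m : S} (h : IsMul s t m) (f : Str S) :
    c3_act hb hl m f = c3_act hb hl s (c3_act hb hl t f) := by
  have key : ∀ i, IsMul (c3_c hb hl s (c3_act hb hl t f) i) (c3_c hb hl t f i)
      (c3_c hb hl m f i) := by
    refine c3_ind ?_ ?_
    · obtain ⟨k, hk⟩ := (c3_c_spec hb hl s (c3_act hb hl t f)).init
      obtain ⟨l, hl'⟩ := (c3_c_spec hb hl t f).init
      obtain ⟨q, hq⟩ := (c3_c_spec hb hl m f).init
      refine ⟨min (min k l) q, fun i hi => ?_⟩
      rw [hk i (by omega), hl' i (by omega), hq i (by omega)]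
      exact c3_tau_mul hb h _
    · intro i hi
      have h2 : (c3_act hb hl t f).1 i = N1 (c3_c hb hl t f i) (f.1 i) := rfl
      rw [(c3_c_spec hb hl s (c3_act hb hl t f)).step, (c3_c_spec hb hl t f).step,
        (c3_c_spec hb hl m f).step, h2, ← hi.2]
      exact hl.A2 (f.1 i) hi.1
  apply Subtype.ext
  funext i
  show N1 (c3_c hb hl m f i) (f.1 i) = N1 (c3_c hb hl s (c3_act hb hl t f) i)
    (N1 (c3_c hb hl t f i) (f.1 i))
  have hi := key i
  rw [← hi.2]
  exact hl.A1 (f.1 i) hi.1

/-- `δ` acts as the shift. -/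
theorem c3_top (f : Str S) (i : ℤ) : (c3_act hb hl ⊤ f).1 i = f.1 (i - 1) := by
  have hc : Carry (⊤ : S) f.1 (fun i => f.1 (i - 1)) := by
    refine ⟨fun i => ?_, ?_⟩
    · show f.1 (i + 1 - 1) = N2 (f.1 (i - 1)) (f.1 i)
      have h := f.2.1 (i - 1)
      rw [sub_add_cancel] at h
      rw [add_sub_cancel_right]
      exact (hl.B1 h).symm
    · obtain ⟨k, hk⟩ := f.2.2
      refine ⟨k, fun i hi => ?_⟩
      have : ∀ j : ℕ, tau^[j] (⊤ : S) = ⊤ := by
        intro j
        induction j with
        | zero => rfl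
        | succ j ih => rw [Function.iterate_succ_apply', ih, hb.tau_top]
      show f.1 (i - 1) = _
      rw [hk (i - 1) (by omega)]
      exact (this _).symm
  rw [c3_act_apply hb hl ⊤ f _ hc i]
  have h := f.2.1 (i - 1)
  rwa [sub_add_cancel] at h

theorem c3_top_bij : Function.Bijective (c3_act hb hl (⊤ : S)) := by
  constructor
  · intro f g h
    apply Subtype.ext
    funext i
    have h1 := congrArg (fun x : Str S => x.1 (i + 1)) h
    simpa only [c3_top, add_sub_cancel_right] using h1
  · intro f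
    refine ⟨⟨fun i => f.1 (i + 1), fun i => f.2.1 _, ?_⟩, ?_⟩
    · obtain ⟨k, hk⟩ := f.2.2
      exact ⟨k - 1, fun i hi => hk _ (by omega)⟩
    · apply Subtype.ext
      funext i
      rw [c3_top]
      simp only [sub_add_cancel]

theorem c3_bij (s : S) : Function.Bijective (c3_act hb hl s) := by
  constructor
  · obtain ⟨t, -, h⟩ := hb.left (t := s) (m := ⊤) le_top
    have h' : IsMul t s ⊤ := ⟨le_top, h⟩
    intro f g hfg
    apply (c3_top_bij hb hl).1
    rw [c3_mul hb hl h' f, c3_mul hb hl h' g, hfg]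
  · have h' : IsMul s (K s) ⊤ := ⟨le_top, hb.dv_top s⟩
    intro f
    obtain ⟨g, hg⟩ := (c3_top_bij hb hl).2 f
    exact ⟨c3_act hb hl (K s) g, by rw [← c3_mul hb hl h', hg]⟩

end act

theorem act (S : Type) [NC S] (hb : Basic S) (hl : Laws S) : SpAct S := by
  refine ⟨fun s => Equiv.ofBijective _ (c3_bij hb hl s), fun s m hs => ?_,
    fun s f c hc i => c3_act_apply hb hl s f c hc i⟩
  ext f : 1
  exact (c3_mul hb hl ⟨hs, rfl⟩ f).symm

end NC

end Pool.Agent.H54.RF
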