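import Pool.Agent.H54.RF.SpecA

/-!
# Project RF (MP_35eb49), row A11: horofunctions of cones

Adapted from `Pool/Agent/H88/GH/BusEx.lean`.
-/

set_option autoImplicit false

namespace Pool.Agent.H54.RF

open Gar

theorem sp_bus (G : Type) [Group G] [Gar G] : SpBus G := by
  intro r κ ω W τ hab hs hlow C hC φ hcone
  obtain ⟨hle, hgen⟩ := hcone
  have kadd := hab.add
  set K : Set (Fin r → ℤ) := {x | φ x = τ x} with hK
  have hτ0 : τ 0 = 0 := by
    have h := hs.hom 0 0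
    simpa using h
  have hK0 : (0 : Fin r → ℤ) ∈ K := by
    change φ 0 = τ 0
    rw [map_zero, hτ0]
  have hKadd : ∀ x ∈ K, ∀ y ∈ K, x + y ∈ K := by
    intro x hx y hy
    change φ x = τ x at hx
    change φ y = τ y at hy
    change φ (x + y) = τ (x + y)
    have h1 := hs.add x y
    have h2 := hle (x + y)
    have h3 := map_add φ x y
    linarith
  have hKdiff : ∀ y : Fin r → ℤ, ∃ x ∈ K, ∃ z ∈ K, y + x = z := by
    intro y
    obtain ⟨p, h1, h2⟩ := hgen y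
    exact ⟨p, h1, p + y, h2, add_comm y p⟩
  have hup : ∀ x ∈ K, d 1 (κ x) ≤ φ x + C := by
    intro x hx
    change φ x = τ x at hx
    rw [hx]
    exact hC x
  set I0 : Set G := {z | ∃ q ∈ K, ∀ x ∈ K, κ (x + q) * z ≤ δ ^ (φ (x + q))} with hI0
  have hdown : ∀ x ∈ I0, ∀ y ≤ x, y ∈ I0 := by
    rintro x ⟨q, hq, hx⟩ y hyx
    exact ⟨q, hq, fun z hz => ((mul_le_mul_iff _).mpr hyx).trans (hx z hz)⟩
  have hmove : ∀ z : G, ∀ q ∈ K, (∀ x ∈ K, κ (x + q) * z ≤ δ ^ (φ (x + q))) →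
      ∀ s ∈ K, ∀ x ∈ K, κ (x + (q + s)) * z ≤ δ ^ (φ (x + (q + s))) := by
    intro z q hq hz s hs x hx
    have h1 := hz (x + s) (hKadd x hx s hs)
    have h2 : x + s + q = x + (q + s) := by abel
    rwa [h2] at h1
  have hsup : ∀ x ∈ I0, ∀ y ∈ I0, x ⊔ y ∈ I0 := by
    rintro x ⟨q, hq, hx⟩ y ⟨s, hs, hy⟩
    refine ⟨q + s, hKadd q hq s hs, fun z hz => ?_⟩
    rw [mul_sup']
    refine sup_le (hmove x q hq hx s hs z hz) ?_
    rw [add_comm q s]
    exact hmove y s hs hy q hq z hz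
  have hshiftK : ∀ y ∈ K, ∀ z, κ y * z * δ ^ (-φ y) ∈ I0 ↔ z ∈ I0 := by
    intro y hy z
    have key : ∀ x, κ x * (κ y * z * δ ^ (-φ y)) ≤ δ ^ (φ x) ↔
        κ (x + y) * z ≤ δ ^ (φ (x + y)) := by
      intro x
      have h1 : κ x * (κ y * z * δ ^ (-φ y)) = κ (x + y) * z * δ ^ (-φ y) := by
        rw [kadd]
        simp only [mul_assoc]
      rw [h1, ← le_mul_zpow_iff (φ y), ← zpow_add, map_add]
    constructor
    · rintro ⟨q, hq, hz⟩
      refine ⟨q + y, hKadd q hq y hy, fun x hx => ?_⟩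
      have h1 := (key (x + q)).mp (hz x hx)
      rwa [add_assoc] at h1
    · rintro ⟨q, hq, hz⟩
      refine ⟨q, hq, fun x hx => ?_⟩
      rw [key]
      have h1 := hz (x + y) (hKadd x hx y hy)
      have h2 : x + y + q = x + q + y := by abel
      rwa [h2] at h1
  have hshift : ∀ y z, κ y * z * δ ^ (-φ y) ∈ I0 ↔ z ∈ I0 := by
    intro y z
    obtain ⟨x, hx, x', hx', hxx⟩ := hKdiff y
    rw [← hshiftK x hx (κ y * z * δ ^ (-φ y)), ← hshiftK x' hx' z]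
    have h1 : κ x * (κ y * z * δ ^ (-φ y)) * δ ^ (-φ x) = κ x' * z * δ ^ (-φ x') := by
      rw [← hxx, add_comm y x, kadd, map_add, neg_add_rev, zpow_add]
      simp only [mul_assoc]
    rw [h1]
  have hdelta : ∀ c : ℤ, δ ^ c ∈ I0 → c ≤ 0 := by
    rintro c ⟨q, hq, hz⟩
    have h1 := hz 0 hK0
    rw [zero_add] at h1
    have h2 : d 1 (κ q * δ ^ c) ≤ φ q := by
      rw [d_le_iff, one_mul]
      exact h1
    rw [d_mul_zpow] at h2
    have h3 := hlow q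
    change φ q = τ q at hq
    linarith
  have hdelta' : δ ^ (-C) ∈ I0 := by
    refine ⟨0, hK0, fun x hx => ?_⟩
    rw [add_zero]
    have h1 : d 1 (κ x * δ ^ (-C)) ≤ φ x := by
      rw [d_mul_zpow]
      have := hup x hx
      linarith
    rwa [d_le_iff, one_mul] at h1
  obtain ⟨c0, hc0, hmax⟩ : ∃ c0 : ℤ, δ ^ c0 ∈ I0 ∧ ∀ c : ℤ, δ ^ c ∈ I0 → c ≤ c0 :=
    Int.exists_greatest_of_bdd (P := fun c : ℤ => (δ : G) ^ c ∈ I0) ⟨0, hdelta⟩ ⟨_, hdelta'⟩
  refine ⟨{z | z * δ ^ c0 ∈ I0}, ?_, ?_, ?_, ?_⟩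
  · intro x hx y hyx
    exact hdown _ hx _ ((mul_zpow_le_iff c0).mpr hyx)
  · intro x hx y hy
    change (x ⊔ y) * δ ^ c0 ∈ I0
    rw [sup_zpow]
    exact hsup _ hx _ hy
  · intro x z
    change κ x * z * δ ^ (-φ x) * δ ^ c0 ∈ I0 ↔ z * δ ^ c0 ∈ I0
    rw [← hshift x (z * δ ^ c0)]
    have h1 : κ x * z * δ ^ (-φ x) * δ ^ c0 = κ x * (z * δ ^ c0) * δ ^ (-φ x) := by
      rw [mul_assoc, ← zpow_add, ← mul_assoc, mul_assoc _ (δ ^ c0), ← zpow_add, add_comm]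
    rw [h1]
  · intro c
    change δ ^ c * δ ^ c0 ∈ I0 ↔ c ≤ 0
    rw [← zpow_add]
    constructor
    · intro h
      have := hmax _ h
      linarith
    · intro h
      refine hdown _ hc0 _ ?_
      have := mul_zpow_mono (1 : G) (show c + c0 ≤ c0 by linarith)
      rwa [one_mul, one_mul] at this

end Pool.Agent.H54.RF
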