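import Pool.Agent.H54.RF.SpecA

/-!
# Project RF (MP_35eb49): extension of an abelian subgroup
-/

set_option autoImplicit false

namespace Pool.Agent.H54.RF

open Gar

/-- the extended map -/
def a5_k {G : Type} [Group G] {r : ℕ} (κ : (Fin r → ℤ) → G) (u : G) (x : Fin (r + 1) → ℤ) : G :=
  κ (fun i => x i.castSucc) * u ^ x (Fin.last r)

theorem a5_snoc {G : Type} [Group G] {r : ℕ} (κ : (Fin r → ℤ) → G) (u : G) (x : Fin r → ℤ) :
    a5_k κ u (Fin.snoc (α := fun _ => ℤ) x 0) = κ x := by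
  unfold a5_k
  rw [Fin.snoc_last, zpow_zero, mul_one]
  simp only [Fin.snoc_castSucc]

theorem a5_zero {G : Type} [Group G] [Gar G] {r : ℕ} {κ : (Fin r → ℤ) → G} {ω : Fin r → ℤ}
    {W : ℤ} (h : Ab κ ω W) (u : G)
    (hu : ∀ (b : ℕ) (x : Fin r → ℤ), 0 < b → u ^ b ≠ κ x) (x : Fin r → ℤ) (c : ℤ)
    (hc : κ x * u ^ c = 1) : c = 0 := by
  obtain ⟨n, rfl | rfl⟩ := c.eq_nat_or_neg
  · rcases Nat.eq_zero_or_pos n with h0 | h0
    · rw [h0]
      rfl
    · exfalso
      refine hu n (-x) h0 ?_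
      rw [h.neg, ← zpow_natCast]
      exact (inv_eq_of_mul_eq_one_right hc).symm
  · rcases Nat.eq_zero_or_pos n with h0 | h0
    · rw [h0]
      rfl
    · exfalso
      refine hu n x h0 ?_
      rw [zpow_neg, zpow_natCast] at hc
      exact (mul_inv_eq_one.mp hc).symm

theorem sp_ext (G : Type) [Group G] [Gar G] : SpExt G := by
  intro r κ ω W h u hcu hu
  refine ⟨a5_k κ u, Fin.snoc (α := fun _ => ℤ) ω 0, ?_, fun x => ⟨_, a5_snoc κ u x⟩⟩
  refine ⟨?_, ?_, h.pos, h.dvd, ?_⟩
  · intro x y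
    unfold a5_k
    have h1 : (fun i : Fin r => (x + y) i.castSucc)
        = (fun i : Fin r => x i.castSucc) + (fun i : Fin r => y i.castSucc) := by
      funext i
      rfl
    rw [h1, h.add, Pi.add_apply, zpow_add]
    have h2 : κ (fun i : Fin r => y i.castSucc) * u ^ x (Fin.last r)
        = u ^ x (Fin.last r) * κ (fun i : Fin r => y i.castSucc) :=
      ((hcu _).zpow_right _).eq
    calc κ (fun i : Fin r => x i.castSucc) * κ (fun i : Fin r => y i.castSucc)
          * (u ^ x (Fin.last r) * u ^ y (Fin.last r))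
        = κ (fun i : Fin r => x i.castSucc) * (κ (fun i : Fin r => y i.castSucc)
          * u ^ x (Fin.last r)) * u ^ y (Fin.last r) := by group
      _ = _ := by rw [h2]; group
  · intro x hx
    have h1 : x (Fin.last r) = 0 := a5_zero h u hu _ _ hx
    have h2 : κ (fun i : Fin r => x i.castSucc) = 1 := by
      unfold a5_k at hx
      rwa [h1, zpow_zero, mul_one] at hx
    have h3 := h.inj _ h2
    funext i
    refine Fin.lastCases ?_ (fun j => ?_) i
    · exact h1
    · exact congrFun h3 j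
  · rw [a5_snoc]
    exact h.om

end Pool.Agent.H54.RF
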