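import Pool.Agent.H54.RF.SpecA

/-!
# Project RF (MP_35eb49), row A4: cocompactness in the torsion case
-/

set_option autoImplicit false

namespace Pool.Agent.H54.RF

open Gar

theorem a4_central {G : Type} [Group G] [Gar G] {W : ℤ} (h : (ord G : ℤ) ∣ W) (n : ℤ) (x : G) :
    (δ : G) ^ (W * n) * x = x * δ ^ (W * n) := by
  obtain ⟨c, rfl⟩ := h
  rw [mul_assoc]
  exact central_zpow _ x

theorem sp_fin (G : Type) [Group G] [Gar G] (h1 : SpRay G) (h2 : SpNoRay G) : SpFin G := by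
  intro r κ ω W hA hT
  have hN : ∃ N : ℤ, ∀ z ∈ ML κ, ∃ x, dd 1 (κ x * z) < N := by
    by_contra hcon
    push Not at hcon
    obtain ⟨y, hy⟩ := h1 r κ ω W hA hcon
    exact h2 r κ ω W hA hT y hy
  obtain ⟨N, hN⟩ := hN
  have hW := hA.pos
  refine ⟨Set.Icc (δ ^ (-N) : G) (δ ^ W), finite_Icc _ _, fun z hz => ?_⟩
  obtain ⟨x, hx⟩ := hN z hz
  set m := d 1 (κ x * z) / W with hm
  have hf : κ (x + (-m) • ω) * z = κ x * z * δ ^ (W * (-m)) := by
    rw [hA.add, hA.zpow_om, mul_assoc, a4_central hA.dvd, ← mul_assoc]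
  have hd : d 1 (κ x * z * δ ^ (W * (-m))) = d 1 (κ x * z) - W * m := by
    rw [d_mul_zpow]
    ring
  have hmod := Int.emod_add_mul_ediv (d 1 (κ x * z)) W
  have hmod0 := Int.emod_nonneg (d 1 (κ x * z)) hW.ne'
  have hmod1 := Int.emod_lt_of_pos (d 1 (κ x * z)) hW
  rw [← hm] at hmod
  have h3 : d 1 (κ x * z * δ ^ (W * (-m))) ≤ W := by
    rw [hd]
    linarith
  have h4 : 0 ≤ d 1 (κ x * z * δ ^ (W * (-m))) := by
    rw [hd]
    linarith
  refine ⟨-(x + (-m) • ω), κ (x + (-m) • ω) * z, ?_, ?_⟩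
  · rw [hf]
    constructor
    · have h5 : dd 1 (κ x * z * δ ^ (W * (-m))) < N := by
        rw [dd_zpow]
        exact hx
      have h6 : d (κ x * z * δ ^ (W * (-m))) 1 ≤ N := by
        unfold dd at h5
        linarith
      rw [d_le_iff] at h6
      have h7 := (mul_zpow_le_iff (-N)).mpr h6
      rwa [one_mul, mul_assoc, ← zpow_add, add_neg_cancel, zpow_zero, mul_one] at h7
    · rw [d_le_iff, one_mul] at h3
      exact h3
  · rw [hA.neg, inv_mul_cancel_left]

end Pool.Agent.H54.RF
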