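import Pool.Agent.H54.RF.SpecA

/-!
# Project RF (MP_35eb49): periodic flats
-/

set_option autoImplicit false

namespace Pool.Agent.H54.RF

open Gar

/-- the index of the block -/
def a19_p {k : ℕ} (i : Fin k) : Fin 3 := ⟨min i.val 2, by omega⟩

/-- the vector that is constant on the blocks -/
def a19_f {k : ℕ} (v : Fin 3 → ℤ) : Fin k → ℤ := fun i => v (a19_p i)

theorem a19_surj {k : ℕ} (hk : 3 ≤ k) (i : Fin 3) : ∃ j : Fin k, a19_p j = i := by
  refine ⟨⟨i.val, by omega⟩, ?_⟩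
  apply Fin.ext
  change min i.val 2 = i.val
  omega

theorem a19_dvd (n : Fin 3 → ℕ) (i : Fin 3) : n i ∣ n 0 * n 1 * n 2 := by
  fin_cases i
  · exact Dvd.intro _ (by simp only [Fin.zero_eta]; exact (mul_assoc _ _ _).symm)
  · exact Dvd.intro (n 0 * n 2) (by simp only [Fin.mk_one]; ring)
  · exact Dvd.intro_left _ rfl

/-- The result of the general part: a large centralizer yields a periodic flat. -/
theorem sp_flat3 (G : Type) [Group G] [Gar G] (h1 : SpMax G) (h2 : SpFin G) (h3 : SpFrame G)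
    (h4 : SpY G) (h5 : SpPer G) (h6 : SpLin) : SpFlat3 G := by
  intro g hg hc
  obtain ⟨r, κ, ω, W, hab, hr, htor, ⟨N, x0, hN, hx0⟩, hIT⟩ := h1 g hg hc
  choose τ hτ using hIT
  obtain ⟨k, φ, I, hF⟩ := h3 r κ ω W τ hab hτ
  have hk : 3 ≤ k := hr.trans (h6 r k φ hF.inj)
  obtain ⟨F, hFfin, hFcov⟩ := h2 r κ ω W hab htor
  obtain ⟨Y, hML, hinf, hone, hper, hle⟩ := h4 r κ ω W hab F hFfin hFcov k φ I hF
  have hinj : Function.Injective Y := fun v w hvw =>
    le_antisymm (hle v w hvw.le) (hle w v hvw.ge)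
  have hmul := h5 r κ F hFfin k φ Y hab.add (fun v => hFcov _ (hML v)) hper hinj
  choose n x hn hx using fun i : Fin 3 => hmul (a19_f (e i))
  have hD : 0 < n 0 * n 1 * n 2 := Nat.mul_pos (Nat.mul_pos (hn 0) (hn 1)) (hn 2)
  refine ⟨fun v => Y (a19_f v), n 0 * n 1 * n 2,
    fun i => κ (((n 0 * n 1 * n 2 / n i : ℕ) : ℤ) • x i), N, ⟨hD, ?_, ?_, ?_, ?_⟩, hN, ?_⟩
  · intro v w
    exact hinf _ _
  · intro v i
    refine lt_of_le_not_ge ?_ ?_
    · have hv : (a19_f v : Fin k → ℤ) ≤ a19_f (v + e i) := by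
        intro j
        change v (a19_p j) ≤ v (a19_p j) + e i (a19_p j)
        have : (0 : ℤ) ≤ e i (a19_p j) := by
          unfold e
          rw [Pi.single_apply]
          split_ifs <;> norm_num
        linarith
      have h := hinf (a19_f v) (a19_f (v + e i))
      rw [inf_eq_left.mpr hv] at h
      exact inf_eq_left.mp h.symm
    · intro h
      obtain ⟨j, hj⟩ := a19_surj hk i
      have h' := hle _ _ h j
      change v (a19_p j) + e i (a19_p j) ≤ v (a19_p j) at h'
      rw [hj] at h'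
      unfold e at h'
      rw [Pi.single_eq_same] at h'
      linarith
  · intro v
    exact hone _
  · intro v i
    have h := hper (a19_f v) (((n 0 * n 1 * n 2 / n i : ℕ) : ℤ) • x i)
    rw [← h]
    congr 1
    funext j
    change v (a19_p j) + ((n 0 * n 1 * n 2 : ℕ) : ℤ) • e i (a19_p j) = v (a19_p j) +
      φ j (((n 0 * n 1 * n 2 / n i : ℕ) : ℤ) • x i)
    rw [map_zsmul, hx i j]
    have h' : ((n 0 * n 1 * n 2 : ℕ) : ℤ) = ((n 0 * n 1 * n 2 / n i : ℕ) : ℤ) * (n i : ℤ) := by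
      rw [← Nat.cast_mul, Nat.div_mul_cancel (a19_dvd n i)]
    rw [h']
    simp only [smul_eq_mul]
    change _ = v (a19_p j) + _ * ((n i : ℤ) * e i (a19_p j))
    ring
  · intro i
    rw [← hx0]
    exact hab.comm _ _

end Pool.Agent.H54.RF
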