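import Pool.Agent.H54.RF.SpecA

/-!
# Project RF (MP_35eb49), row A14: frames exist
-/

set_option autoImplicit false

namespace Pool.Agent.H54.RF

open Gar

/-- an injective family of cone functionals has at most `rk G` members -/
theorem a14_bound (G : Type) [Group G] [Gar G] (h3 : SpBus G) (h4 : SpMany G) (h6 : SpSep)
    {r : ℕ} {κ : (Fin r → ℤ) → G} {ω : Fin r → ℤ} {W : ℤ} {τ : (Fin r → ℤ) → ℤ}
    (hab : Ab κ ω W) (hS : Sublin τ) (hle : ∀ x, τ x ≤ d 1 (κ x)) {C : ℤ}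
    (hC : ∀ x, d 1 (κ x) ≤ τ x + C) (k : ℕ) (φ : Fin k → (Fin r → ℤ) →+ ℤ)
    (hcone : ∀ i, IsCone τ (φ i)) (hinj : Function.Injective φ) : k ≤ rk G := by
  choose I hI using fun i : Fin k => h3 r κ ω W τ hab hS hle C hC (φ i) (hcone i)
  exact h4 r κ ω W hab k φ I hI (h6 r τ hS k φ hcone hinj)

theorem sp_frame (G : Type) [Group G] [Gar G] (h1 : SpTau G) (h2 : SpUnif G) (h3 : SpBus G)
    (h4 : SpMany G) (h5 : SpCone) (h6 : SpSep) : SpFrame G := by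
  classical
  intro r κ ω W τ hab ht
  obtain ⟨hS, -, hker⟩ := h1 r κ ω W τ hab ht
  obtain ⟨C, hC⟩ := h2 r κ ω W τ hab ht
  have hle : ∀ x, τ x ≤ d 1 (κ x) := by
    intro x
    obtain ⟨E, hE⟩ := ht x
    have h := (hE 1).1
    rwa [Nat.cast_one, one_mul, pow_one] at h
  have hb := a14_bound G h3 h4 h6 hab hS hle hC
  have hfin : {φ : (Fin r → ℤ) →+ ℤ | IsCone τ φ}.Finite := by
    by_contra hinf
    have hinf' : {φ : (Fin r → ℤ) →+ ℤ | IsCone τ φ}.Infinite := hinf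
    have f := hinf'.natEmbedding
    have h := hb (rk G + 1) (fun i => (f i : (Fin r → ℤ) →+ ℤ)) (fun i => (f i).2) (by
      intro i j hij
      have h7 : f i = f j := Subtype.ext hij
      exact Fin.ext (f.injective h7))
    omega
  have e : Fin hfin.toFinset.card ≃ hfin.toFinset := hfin.toFinset.equivFin.symm
  have hcone : ∀ i, IsCone τ ((e i : (Fin r → ℤ) →+ ℤ)) := fun i =>
    hfin.mem_toFinset.mp (e i).2
  have hinj : Function.Injective (fun i => (e i : (Fin r → ℤ) →+ ℤ)) := by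
    intro i j hij
    exact e.injective (Subtype.ext hij)
  have hsurj : ∀ ψ, IsCone τ ψ → ∃ i, (e i : (Fin r → ℤ) →+ ℤ) = ψ := by
    intro ψ hψ
    obtain ⟨i, hi⟩ := e.surjective ⟨ψ, hfin.mem_toFinset.mpr hψ⟩
    exact ⟨i, by rw [hi]⟩
  choose I hI using fun i => h3 r κ ω W τ hab hS hle C hC (e i : (Fin r → ℤ) →+ ℤ) (hcone i)
  refine ⟨hfin.toFinset.card, fun i => (e i : (Fin r → ℤ) →+ ℤ), I, hI,
    h6 r τ hS _ _ hcone hinj, ?_, C, ?_⟩
  · intro x hx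
    refine hker x ?_ ?_
    · obtain ⟨ψ, hψ, hx'⟩ := h5 r τ hS x
      obtain ⟨i, rfl⟩ := hsurj ψ hψ
      rw [← hx']
      exact (hx i).le
    · obtain ⟨ψ, hψ, hx'⟩ := h5 r τ hS (-x)
      obtain ⟨i, rfl⟩ := hsurj ψ hψ
      have h7 : (e i : (Fin r → ℤ) →+ ℤ) x = 0 := hx i
      rw [← hx', map_neg, h7, neg_zero]
  · intro x
    obtain ⟨ψ, hψ, hx'⟩ := h5 r τ hS x
    obtain ⟨i, rfl⟩ := hsurj ψ hψ
    refine ⟨i, ?_⟩
    have h7 := hC x
    rw [← hx'] at h7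
    exact h7

end Pool.Agent.H54.RF
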