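import Pool.Agent.H54.RF.SpecA

/-!
# Project RF, row A13: the rank bound by functionals (helper78)
-/

set_option autoImplicit false

namespace Pool.Agent.H54.RF

open Gar

theorem sp_lin : SpLin := by
  intro r k φ h
  let L : (Fin r → ℤ) →ₗ[ℤ] (Fin k → ℤ) := LinearMap.pi fun i => (φ i).toIntLinearMap
  have hL : Function.Injective L := by
    rw [injective_iff_map_eq_zero]
    intro x hx
    refine h x fun i => ?_
    have := congrFun hx i
    simpa [L] using this
  have h1 := LinearMap.finrank_le_finrank_of_injective hL
  simpa using h1

end Pool.Agent.H54.RF
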