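import Pool.Agent.H54.RF.SpecA

/-!
# Project RF (MP_35eb49), row RF-A12: at most `rk` horofunctions
-/

set_option autoImplicit false

namespace Pool.Agent.H54.RF

open Gar

section

variable {G : Type} [Group G] [Gar G]

theorem a12_mem_zpow {r : ℕ} {κ : (Fin r → ℤ) → G} {φ : (Fin r → ℤ) →+ ℤ} {I : Set G}
    (h : Bus κ φ I) (x : Fin r → ℤ) (c : ℤ) : κ x * δ ^ c ∈ I ↔ φ x + c ≤ 0 := by
  rw [← h.delta, ← h.shift x (δ ^ (φ x + c)), mul_assoc, ← zpow_add]
  have h1 : φ x + c + -φ x = c := by ring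
  rw [h1]

/-- the height of the flat over the vertex `s` of the cube -/
noncomputable def a12_E {k : ℕ} (hk : 0 < k) (z : Fin k → G) (s : Finset (Fin k)) : G :=
  (Finset.univ : Finset (Fin k)).sup' ⟨⟨0, hk⟩, Finset.mem_univ _⟩
    (fun i => z i * δ ^ (if i ∈ s then (1 : ℤ) else 0))

theorem a12_le {k : ℕ} (hk : 0 < k) (z : Fin k → G) (s : Finset (Fin k)) (i : Fin k) :
    z i * δ ^ (if i ∈ s then (1 : ℤ) else 0) ≤ a12_E hk z s :=
  Finset.le_sup' (fun i => z i * δ ^ (if i ∈ s then (1 : ℤ) else 0)) (Finset.mem_univ i)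

theorem a12_mono {k : ℕ} (hk : 0 < k) (z : Fin k → G) {s t : Finset (Fin k)} (h : s ⊆ t) :
    a12_E hk z s ≤ a12_E hk z t := by
  refine Finset.sup'_le _ _ fun i _ => ?_
  refine le_trans ?_ (a12_le hk z t i)
  apply mul_zpow_mono
  by_cases h1 : i ∈ s
  · rw [if_pos h1, if_pos (h h1)]
  · rw [if_neg h1]
    split_ifs <;> norm_num

theorem a12_mem {k : ℕ} (hk : 0 < k) (z : Fin k → G) (s : Finset (Fin k)) (J : Set G)
    (hJ : ∀ x ∈ J, ∀ y ∈ J, x ⊔ y ∈ J)
    (h : ∀ i, z i * δ ^ (if i ∈ s then (1 : ℤ) else 0) ∈ J) : a12_E hk z s ∈ J :=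
  Finset.sup'_induction _ _ (p := fun x => x ∈ J) (fun x hx y hy => hJ x hx y hy) (fun i _ => h i)

end

theorem sp_many (G : Type) [Group G] [Gar G] : SpMany G := by
  intro r κ ω W hab k φ I hI hx
  rcases Nat.eq_zero_or_pos k with hk | hk
  · rw [hk]
    exact Nat.zero_le _
  choose x hx using hx
  set z : Fin k → G := fun i => κ (x i) * δ ^ (-φ i (x i)) with hz
  have hmem : ∀ i j (c : ℤ), z i * δ ^ c ∈ I j ↔ c ≤ φ i (x i) - φ j (x i) := by
    intro i j c
    rw [hz]
    simp only
    rw [mul_assoc, ← zpow_add, a12_mem_zpow (hI j)]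
    constructor <;> intro h <;> linarith
  have hE : ∀ (s : Finset (Fin k)) (i : Fin k), i ∉ s → a12_E hk z s ∈ I i := by
    intro s i his
    refine a12_mem hk z s (I i) (hI i).sup fun j => ?_
    rw [hmem]
    by_cases hji : j = i
    · subst hji
      rw [if_neg his, sub_self]
    · have h1 := hx j i (Ne.symm hji)
      split_ifs <;> omega
  have hE' : ∀ (s : Finset (Fin k)) (i : Fin k), i ∈ s → a12_E hk z s ∉ I i := by
    intro s i his hc
    have h1 := (hI i).down _ hc _ (a12_le hk z s i)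
    rw [hmem, if_pos his, sub_self] at h1
    omega
  have hlen : ∀ s : Finset (Fin k), len (a12_E hk z ∅) + s.card ≤ len (a12_E hk z s) := by
    intro s
    induction s using Finset.induction_on with
    | empty => simp
    | insert i s his ih =>
      have h1 : a12_E hk z s ≤ a12_E hk z (insert i s) := a12_mono hk z (Finset.subset_insert i s)
      have h2 : a12_E hk z s ≠ a12_E hk z (insert i s) := by
        intro heq
        apply hE' (insert i s) i (Finset.mem_insert_self i s)
        rw [← heq]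
        exact hE s i his
      have h3 := len_lt (lt_of_le_of_ne h1 h2)
      rw [Finset.card_insert_of_notMem his]
      push_cast
      omega
  have h1 := hlen Finset.univ
  have h2 : a12_E hk z Finset.univ ≤ a12_E hk z ∅ * δ := by
    refine Finset.sup'_le _ _ fun i _ => ?_
    rw [if_pos (Finset.mem_univ i), zpow_one, mul_δ_le_iff]
    have h3 := a12_le hk z ∅ i
    rw [if_neg (Finset.notMem_empty i), zpow_zero, mul_one] at h3
    exact h3
  have h3 := len_le h2
  rw [len_mul, len_δ] at h3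
  rw [Finset.card_univ, Fintype.card_fin] at h1
  have h4 : (k : ℤ) ≤ (rk G : ℤ) := by linarith
  exact_mod_cast h4

end Pool.Agent.H54.RF
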