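import Pool.Agent.H54.RF.SpecA

/-!
# Project RF (MP_35eb49), row A16 (helper89): maximal abelian subgroups
-/

set_option autoImplicit false

namespace Pool.Agent.H54.RF

open Gar

section

variable {G : Type} [Group G] [Gar G]

/-- the multiples of an abelian subgroup -/
theorem a16_mul {r : ℕ} {κ : (Fin r → ℤ) → G} {ω : Fin r → ℤ} {W : ℤ} (h : Ab κ ω W) (n : ℕ)
    (hn : 0 < n) : Ab (fun x => κ (n • x)) ω (W * n) := by
  refine ⟨fun x y => ?_, fun x hx => ?_, mul_pos h.pos (by exact_mod_cast hn),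
    Dvd.dvd.mul_right h.dvd _, ?_⟩
  · rw [smul_add, h.add]
  · have h1 := h.inj _ hx
    exact (smul_eq_zero.1 h1).resolve_left (by omega)
  · rw [h.nsmul, h.om, zpow_mul, zpow_natCast]

end

theorem sp_max (G : Type) [Group G] [Gar G] (h1 : SpIsT G) (h2 : SpExt G) (h3 : SpThree G)
    (h4 : SpRank G) : SpMax G := by
  classical
  intro g hg hi
  let Q : ℕ → Prop := fun r => ∃ (κ : (Fin r → ℤ) → G) (ω : Fin r → ℤ) (W : ℤ), Ab κ ω W ∧
    ∃ (N : ℕ) (x : Fin r → ℤ), 0 < N ∧ κ x = g ^ N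
  have hQ3 : Q 3 := by
    obtain ⟨κ, ω, W, hA, x, hx⟩ := h3 g hg hi
    exact ⟨κ, ω, W, hA, 1, x, Nat.one_pos, by rw [pow_one, hx]⟩
  have hle : ∀ r, Q r → r ≤ rk G := by
    rintro r ⟨κ, ω, W, hA, -⟩
    exact h4 r κ ω W hA
  let r := Nat.findGreatest Q (rk G)
  have hQr : Q r := Nat.findGreatest_spec (hle 3 hQ3) hQ3
  have h3r : 3 ≤ r := Nat.le_findGreatest (hle 3 hQ3) hQ3
  have hmax : ∀ s, Q s → s ≤ r := fun s hs => Nat.le_findGreatest (hle s hs) hs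
  obtain ⟨κ, ω, W, hA, N, x, hN, hx⟩ := hQr
  have hn : 0 < (rk G).factorial := Nat.factorial_pos _
  have hA' := a16_mul hA _ hn
  have hx' : κ ((rk G).factorial • x) = g ^ (N * (rk G).factorial) := by
    rw [hA.nsmul, hx, pow_mul]
  refine ⟨r, fun y => κ ((rk G).factorial • y), ω, W * (rk G).factorial, hA', h3r, ?_,
    ⟨N * (rk G).factorial, x, Nat.mul_pos hN hn, hx'⟩, fun y => ?_⟩
  · intro u hu
    by_contra hc
    push Not at hc
    obtain ⟨κ2, ω2, hA2, hκ2⟩ := h2 r _ ω _ hA' u hu fun b y hb => hc b y hb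
    obtain ⟨x2, hx2⟩ := hκ2 x
    have h5 : Q (r + 1) := ⟨κ2, ω2, _, hA2, N * (rk G).factorial, x2, Nat.mul_pos hN hn, by
      rw [hx2]
      exact hx'⟩
    have h6 := hmax (r + 1) h5
    omega
  · obtain ⟨t, ht⟩ := h1 (κ y)
    refine ⟨t, ?_⟩
    change IsT (κ ((rk G).factorial • y)) t
    rw [hA.nsmul]
    exact ht

end Pool.Agent.H54.RF
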