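import Pool.Agent.H54.RF.SpecA

/-!
# Project RF (MP_35eb49), row A3: there is no ray in the torsion case
-/

set_option autoImplicit false

namespace Pool.Agent.H54.RF

open Gar

section ray

variable {G : Type} [Group G] [Gar G] {r : ℕ} {κ : (Fin r → ℤ) → G} {ω : Fin r → ℤ} {W : ℤ}
  {y : ℕ → G}

theorem a3_one_le (h : Ray κ y) (i : ℕ) : 1 ≤ y i := by
  have h1 := h.pre 0 i (Nat.zero_le i)
  rw [pow_zero, h.zero] at h1
  rw [← h1]
  exact inf_le_left

theorem a3_le_pow (h : Ray κ y) (i : ℕ) : y i ≤ δ ^ i := by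
  rw [← h.pre i i le_rfl]
  exact inf_le_right

theorem a3_mono (h : Ray κ y) {i j : ℕ} (hij : i ≤ j) : y i ≤ y j := by
  rw [← h.pre i j hij]
  exact inf_le_left

theorem a3_dd (h : Ray κ y) (i : ℕ) : dd 1 (y i) ≤ i := by
  unfold dd
  have h1 : d 1 (y i) ≤ i := by
    rw [d_le_iff, one_mul, zpow_natCast]
    exact a3_le_pow h i
  have h2 : d (y i) 1 ≤ 0 := by
    rw [d_le_iff, zpow_zero, mul_one]
    exact a3_one_le h i
  linarith

theorem a3_far (hab : Ab κ ω W) (h : Ray κ y) (i : ℕ) : (i : ℤ) ≤ dd 1 (y i) := by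
  have := h.far i 0
  rwa [hab.zero, one_mul] at this

theorem a3_next (h : Ray κ y) (i : ℕ) : y i * δ = (y (i + 1) * δ) ⊓ δ ^ (i + 1) := by
  have h1 := h.pre i (i + 1) (Nat.le_succ i)
  have h2 : y i * δ ^ (1 : ℤ) = (y (i + 1) ⊓ δ ^ i) * δ ^ (1 : ℤ) := by rw [h1]
  rwa [inf_zpow, zpow_one, ← pow_succ] at h2

theorem a3_st_le (h : Ray κ y) (i : ℕ) : y (i + 1) ≤ y i * δ := by
  rw [a3_next h i]
  exact le_inf (le_mul_δ _) (a3_le_pow h (i + 1))

theorem a3_one_lt (hab : Ab κ ω W) (h : Ray κ y) (i : ℕ) : 1 < st y i := by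
  have h1 : (1 : G) ≤ st y i := by
    unfold st
    rw [← mul_le_mul_iff (y i), mul_one, mul_inv_cancel_left]
    exact a3_mono h (Nat.le_succ i)
  refine lt_of_le_of_ne h1 fun hc => ?_
  have h2 : y (i + 1) = y i := by
    unfold st at hc
    rw [eq_inv_mul_iff_mul_eq, mul_one] at hc
    exact hc.symm
  have h3 := a3_far hab h (i + 1)
  have h4 := a3_dd h i
  rw [h2] at h3
  push_cast at h3
  linarith

theorem a3_lt (hab : Ab κ ω W) (h : Ray κ y) (i : ℕ) : st y i < δ := by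
  have h1 : st y i ≤ δ := by
    unfold st
    rw [← mul_le_mul_iff (y i), mul_inv_cancel_left]
    exact a3_st_le h i
  refine lt_of_le_of_ne h1 fun hc => ?_
  have h2 : y (i + 1) = y i * δ := by
    unfold st at hc
    rw [inv_mul_eq_iff_eq_mul] at hc
    exact hc
  have h3 := a3_far hab h (i + 1)
  have h4 := a3_dd h i
  have h5 : dd 1 (y i * δ) = dd 1 (y i) := by
    have h6 := dd_zpow 1 (y i) 1
    rwa [zpow_one] at h6
  rw [h2, h5] at h3
  push_cast at h3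
  linarith

theorem a3_greedy (h : Ray κ y) (i : ℕ) : (st y i * st y (i + 1)) ⊓ δ = st y i := by
  have h1 : st y i * st y (i + 1) = (y i)⁻¹ * y (i + 2) := by
    unfold st
    group
  have h2 : y (i + 2) ⊓ (y i * δ) = y (i + 1) := by
    apply le_antisymm
    · rw [← h.pre (i + 1) (i + 2) (Nat.le_succ _)]
      refine inf_le_inf le_rfl ?_
      rw [a3_next h i]
      exact inf_le_right
    · exact le_inf (a3_mono h (Nat.le_succ _)) (a3_st_le h i)
  have h3 := congrArg (fun z => (y i)⁻¹ * z) h2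
  simp only [mul_inf', inv_mul_cancel_left] at h3
  rw [h1, h3]
  rfl

/-- The pieces of a ray are greedy words. -/
theorem a3_gr (hab : Ab κ ω W) (h : Ray κ y) {i j : ℕ} (hij : i ≤ j) :
    Gr (st y i) ((y (i + 1))⁻¹ * y (j + 1)) (st y j) (j - i) := by
  obtain ⟨n, rfl⟩ := Nat.exists_eq_add_of_le hij
  rw [Nat.add_sub_cancel_left]
  clear hij
  induction n generalizing i with
  | zero =>
    rw [add_zero, inv_mul_cancel]
    exact Gr.nil _
  | succ n ih =>
    have h1 : (y (i + 1))⁻¹ * y (i + (n + 1) + 1) =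
        st y (i + 1) * ((y (i + 1 + 1))⁻¹ * y (i + 1 + n + 1)) := by
      unfold st
      have : i + (n + 1) + 1 = i + 1 + n + 1 := by omega
      rw [this]
      group
    have h2 : i + (n + 1) = i + 1 + n := by omega
    rw [h1, h2]
    exact Gr.cons (a3_one_lt hab h _) (a3_lt hab h _) (a3_greedy h i) ih

end ray

theorem sp_noRay (G : Type) [Group G] [Gar G] : SpNoRay G := by
  intro r κ ω W hab htor y hy
  -- a recurrent state
  obtain ⟨h, s, hinf⟩ : ∃ (h : Fin r → G) (s : G),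
      {i : ℕ | (fun l => (y (i + 1))⁻¹ * κ (Pi.single l 1) * y (i + 1)) = h ∧
        st y i = s}.Infinite := by
    have hfin : (({h : Fin r → G | ∃ y ∈ ML κ, h = fun i => y⁻¹ * κ (Pi.single i 1) * y} ×ˢ
        (Set.Icc (1 : G) δ)) : Set ((Fin r → G) × G)).Finite :=
      (ML_finite κ).prod (finite_Icc _ _)
    have hF : Finite (({h : Fin r → G | ∃ y ∈ ML κ, h = fun i => y⁻¹ * κ (Pi.single i 1) * y} ×ˢ
        (Set.Icc (1 : G) δ)) : Set ((Fin r → G) × G)) := hfin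
    obtain ⟨σ, hσ⟩ := Finite.exists_infinite_fiber (fun i : ℕ =>
      (⟨(fun l => (y (i + 1))⁻¹ * κ (Pi.single l 1) * y (i + 1), st y i),
        ⟨y (i + 1), hy.mem (i + 1), rfl⟩, (a3_one_lt hab hy i).le, (a3_lt hab hy i).le⟩ :
        (({h : Fin r → G | ∃ y ∈ ML κ, h = fun i => y⁻¹ * κ (Pi.single i 1) * y} ×ˢ
        (Set.Icc (1 : G) δ)) : Set ((Fin r → G) × G))))
    refine ⟨σ.1.1, σ.1.2, ?_⟩
    refine Set.infinite_coe_iff.mp hσ |>.mono ?_
    intro i hi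
    have h1 := congrArg Subtype.val hi
    exact ⟨congrArg Prod.fst h1, congrArg Prod.snd h1⟩
  -- loops
  have hloop : ∀ i j : ℕ, i < j →
      ((fun l => (y (i + 1))⁻¹ * κ (Pi.single l 1) * y (i + 1)) = h ∧ st y i = s) →
      ((fun l => (y (j + 1))⁻¹ * κ (Pi.single l 1) * y (j + 1)) = h ∧ st y j = s) →
      Gr s ((y (i + 1))⁻¹ * y (j + 1)) s (j - i) ∧ ∃ (b : ℕ) (x : Fin r → ℤ), 0 < b ∧
        ((y (i + 1))⁻¹ * y (j + 1)) ^ b = (y (i + 1))⁻¹ * κ x * y (i + 1) := by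
    rintro i j hij ⟨hi1, hi2⟩ ⟨hj1, hj2⟩
    have hcu : Cen κ (y (j + 1) * (y (i + 1))⁻¹) :=
      cen_of_conj hab fun l => congrFun (hj1.trans hi1.symm) l
    obtain ⟨b, x, hb, hx⟩ := htor _ hcu
    refine ⟨?_, b, x, hb, ?_⟩
    · have := a3_gr hab hy hij.le
      rwa [hi2, hj2] at this
    · rw [← hx]
      have := conj_pow (i := b) (a := (y (i + 1))⁻¹) (b := y (j + 1) * (y (i + 1))⁻¹)
      rw [inv_inv] at this
      rw [← this]
      congr 1
      group
  -- the first loop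
  obtain ⟨i0, hi0⟩ := hinf.nonempty
  obtain ⟨i1, hi1, hlt1⟩ := hinf.exists_gt i0
  obtain ⟨G0, b, x, hb, hx⟩ := hloop i0 i1 hlt1 hi0 hi1
  obtain ⟨iK, hiK, hltK⟩ := hinf.exists_gt (i0 + b * (i1 - i0))
  have hi0K : i0 < iK := by omega
  obtain ⟨GK, B, X, hB, hX⟩ := hloop i0 iK hi0K hi0 hiK
  set w := (y (i0 + 1))⁻¹ * y (i1 + 1) with hw
  set V := (y (i0 + 1))⁻¹ * y (iK + 1) with hV
  set n0 := b * (i1 - i0) with hn0
  have hn0pos : 0 < n0 := Nat.mul_pos hb (by omega)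
  -- the two powers commute
  have hcomm : w ^ b * V ^ B = V ^ B * w ^ b := by
    rw [hx, hX]
    have h1 : κ x * κ X = κ X * κ x := hab.comm x X
    calc (y (i0 + 1))⁻¹ * κ x * y (i0 + 1) * ((y (i0 + 1))⁻¹ * κ X * y (i0 + 1))
        = (y (i0 + 1))⁻¹ * (κ x * κ X) * y (i0 + 1) := by group
      _ = (y (i0 + 1))⁻¹ * (κ X * κ x) * y (i0 + 1) := by rw [h1]
      _ = (y (i0 + 1))⁻¹ * κ X * y (i0 + 1) * ((y (i0 + 1))⁻¹ * κ x * y (i0 + 1)) := by group
  -- prefixes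
  have p1 : (w ^ b * V ^ B) ⊓ δ ^ n0 = w ^ b := (G0.pow b).pre (GK.pow B)
  have p2 : (V ^ B * w ^ b) ⊓ δ ^ n0 = (y (i0 + 1))⁻¹ * y (i0 + n0 + 1) := by
    obtain ⟨m, hm⟩ := Nat.exists_eq_succ_of_ne_zero hB.ne'
    have g1 := a3_gr hab hy (show i0 ≤ i0 + n0 by omega)
    have g2 := a3_gr hab hy (show i0 + n0 ≤ iK by omega)
    have g3 := (GK.pow m).append (G0.pow b)
    rw [hi0.2, Nat.add_sub_cancel_left] at g1
    rw [hiK.2] at g2
    have h1 : V ^ B * w ^ b = (y (i0 + 1))⁻¹ * y (i0 + n0 + 1) *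
        ((y (i0 + n0 + 1))⁻¹ * y (iK + 1) * (V ^ m * w ^ b)) := by
      rw [hm, Nat.succ_eq_add_one, pow_succ', hV]
      group
    rw [h1]
    exact g1.pre (g2.append g3)
  rw [← hcomm, p1, hx] at p2
  -- the contradiction
  have h6 : y (i0 + n0 + 1) = κ x * y (i0 + 1) := by
    have h8 := congrArg (fun z => y (i0 + 1) * z) p2
    simp only [mul_assoc, mul_inv_cancel_left] at h8
    exact h8.symm
  have h9 := hy.far (i0 + n0 + 1) (-x)
  have h10 := a3_dd hy (i0 + 1)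
  rw [h6, ← mul_assoc, ← hab.add, neg_add_cancel, hab.zero, one_mul] at h9
  push_cast at h9 h10
  linarith [(show (0 : ℤ) < n0 by exact_mod_cast hn0pos)]

end Pool.Agent.H54.RF
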