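import Pool.Agent.H54.RF.SpecA

/-!
# Project RF (MP_35eb49): rank of abelian subgroups (row A15)
-/

set_option autoImplicit false

namespace Pool.Agent.H54.RF

open Gar

variable {G : Type} [Group G] [Gar G]

/-- the subgroup of the powers with a positive exponent -/
theorem a15_ab {r : ℕ} {κ : (Fin r → ℤ) → G} {ω : Fin r → ℤ} {W : ℤ} (h : Ab κ ω W) {N : ℕ}
    (hN : 0 < N) : Ab (fun x => κ (N • x)) ω ((N : ℤ) * W) := by
  refine ⟨fun x y => ?_, fun x hx => ?_, mul_pos (by exact_mod_cast hN) h.pos,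
    Dvd.dvd.mul_left h.dvd _, ?_⟩
  · change κ (N • (x + y)) = κ (N • x) * κ (N • y)
    rw [smul_add, h.add]
  · have h1 := h.inj _ hx
    exact (smul_eq_zero.mp h1).resolve_left hN.ne'
  · change κ (N • ω) = δ ^ ((N : ℤ) * W)
    rw [h.nsmul, h.om, ← zpow_natCast, ← zpow_mul, mul_comm]

theorem sp_rank (G : Type) [Group G] [Gar G] (h1 : SpIsT G) (h2 : SpFrame G) (h3 : SpMany G)
    (h4 : SpLin) : SpRank G := by
  intro r κ ω W h
  have hab := a15_ab h (Nat.factorial_pos (rk G))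
  have hτ : ∀ x : Fin r → ℤ, ∃ t : ℤ, IsT (κ ((rk G).factorial • x)) t := by
    intro x
    rw [h.nsmul]
    exact h1 (κ x)
  choose τ hτ' using hτ
  obtain ⟨k, φ, I, hF⟩ := h2 r _ ω _ τ hab hτ'
  exact (h4 r k φ hF.inj).trans (h3 r _ ω _ hab k φ I hF.bus hF.sep)

end Pool.Agent.H54.RF
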