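import Pool.Agent.H54.RF.SpecA

/-!
# Project RF (MP_35eb49), row A2: existence of rays
-/

set_option autoImplicit false

namespace Pool.Agent.H54.RF

open Gar

theorem a2_min {α : Type} [Nonempty α] (f : α → ℤ) (hf : ∀ a, 0 ≤ f a) :
    ∃ a, ∀ b, f a ≤ f b := by
  obtain ⟨a, -, ha⟩ := WellFounded.has_min (measure (fun a : α => (f a).toNat)).wf Set.univ
    ⟨Classical.arbitrary α, Set.mem_univ _⟩
  refine ⟨a, fun b => ?_⟩
  have h1 : (f a).toNat ≤ (f b).toNat := not_lt.mp (ha b (Set.mem_univ b))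
  have h2 := hf a
  have h3 := hf b
  omega

/-- good points of `ML κ` -/
theorem a2_point {G : Type} [Group G] [Gar G] {r : ℕ} {κ : (Fin r → ℤ) → G} {ω : Fin r → ℤ}
    {W : ℤ} (hA : Ab κ ω W) (hfar : ∀ N : ℤ, ∃ z ∈ ML κ, ∀ x, N ≤ dd 1 (κ x * z)) (N : ℕ) :
    ∃ w : G, w ∈ ML κ ∧ 1 ≤ w ∧ (N : ℤ) ≤ d 1 w ∧ ∀ x, d 1 w ≤ dd 1 (κ x * w) := by
  obtain ⟨z, hz, hN⟩ := hfar N
  obtain ⟨k0, hk0⟩ := a2_min (fun x : Fin r → ℤ => dd 1 (κ x * z)) (fun k => dd_nonneg _ _)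
  have hmem : κ k0 * z ∈ ML κ := ML_kap hA k0 hz
  have hd : d (κ k0 * z * δ ^ d (κ k0 * z) 1) 1 = 0 := by
    rw [d_zpow_mul, sub_self]
  have hdd : dd 1 (κ k0 * z * δ ^ d (κ k0 * z) 1) = d 1 (κ k0 * z * δ ^ d (κ k0 * z) 1) := by
    unfold dd
    rw [hd, add_zero]
  refine ⟨κ k0 * z * δ ^ d (κ k0 * z) 1, ML_zpow hmem _, ?_, ?_, fun k => ?_⟩
  · have h := d_le_iff.mp hd.le
    rwa [zpow_zero, mul_one] at h
  · rw [← hdd, dd_zpow]
    exact hN k0
  · rw [← hdd, dd_zpow, ← mul_assoc, dd_zpow, ← mul_assoc, ← hA.add]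
    exact hk0 (k + k0)

theorem sp_ray (G : Type) [Group G] [Gar G] : SpRay G := by
  intro r κ ω W hA hfar
  choose w hmem hone hN hmin using a2_point hA hfar
  have hlim : ∀ i : ℕ, ∃ x : G, ∀ᶠ N in (Filter.hyperfilter ℕ : Filter ℕ), w N ⊓ δ ^ i = x := by
    intro i
    have hfin : (Set.Icc (1 : G) (δ ^ i)).Finite := finite_Icc _ _
    have h1 : ∀ᶠ N in (Filter.hyperfilter ℕ : Filter ℕ), ∃ x ∈ Set.Icc (1 : G) (δ ^ i),
        w N ⊓ δ ^ i = x := by
      refine Filter.Eventually.of_forall fun N => ⟨w N ⊓ δ ^ i, ⟨le_inf (hone N) ?_, inf_le_right⟩,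
        rfl⟩
      have := le_mul_pow (1 : G) i
      rwa [one_mul] at this
    rw [Ultrafilter.eventually_exists_mem_iff hfin] at h1
    obtain ⟨x, -, hx⟩ := h1
    exact ⟨x, hx⟩
  choose y hy using hlim
  refine ⟨y, ⟨?_, ?_, ?_, ?_⟩⟩
  · obtain ⟨N, h1⟩ := (hy 0).exists
    rw [← h1, pow_zero]
    exact inf_eq_right.mpr (hone N)
  · intro i j hij
    obtain ⟨N, h1, h2⟩ := ((hy i).and (hy j)).exists
    rw [← h1, ← h2, inf_assoc]
    congr 1
    apply inf_eq_right.mpr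
    have := mul_zpow_mono (1 : G) (show (i : ℤ) ≤ j by exact_mod_cast hij)
    rwa [one_mul, one_mul, zpow_natCast, zpow_natCast] at this
  · intro i
    obtain ⟨N, h1⟩ := (hy i).exists
    rw [← h1]
    refine ML_inf (hmem N) ?_
    have := ML_zpow (ML_one κ) (i : ℤ)
    rwa [one_mul, zpow_natCast] at this
  · intro i k
    have hge : ∀ᶠ N in (Filter.hyperfilter ℕ : Filter ℕ), i ≤ N :=
      Nat.hyperfilter_le_atTop (Filter.eventually_ge_atTop i)
    obtain ⟨N, h1, h2⟩ := ((hy i).and hge).exists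
    rw [← h1]
    have hL : (i : ℤ) ≤ d 1 (w N) := le_trans (by exact_mod_cast h2) (hN N)
    have h3 := dd_triangle 1 (κ k * (w N ⊓ δ ^ i)) (κ k * w N)
    rw [dd_mul_left] at h3
    have h4 := hmin N k
    have h5 : dd (w N ⊓ δ ^ i) (w N) ≤ d 1 (w N) - i := by
      have h6 : d (w N ⊓ δ ^ i) (w N) ≤ d 1 (w N) - i := by
        rw [d_le_iff, inf_zpow]
        refine le_inf ?_ ?_
        · have := mul_zpow_mono (w N) (show (0 : ℤ) ≤ d 1 (w N) - i by linarith)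
          rwa [zpow_zero, mul_one] at this
        · rw [← zpow_natCast, ← zpow_add, add_sub_cancel]
          have := le_mul_d 1 (w N)
          rwa [one_mul] at this
      have h7 : d (w N) (w N ⊓ δ ^ i) ≤ 0 := by
        rw [d_le_iff, zpow_zero, mul_one]
        exact inf_le_left
      unfold dd
      linarith
    linarith

end Pool.Agent.H54.RF
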