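import Pool.Agent.H54.RF.SpecA

set_option autoImplicit false

namespace Pool.Agent.H54.RF

open Gar

theorem sp_sep : SpSep := by
  intro r τ _ k φ hφ hinj i
  have key : ∀ j, ∃ x, j ≠ i → φ i x = τ x ∧ φ j x < φ i x := by
    intro j
    by_cases hj : j = i
    · exact ⟨0, fun h => absurd hj h⟩
    · have hne : φ j ≠ φ i := fun h => hj (hinj h)
      obtain ⟨y, hy⟩ : ∃ y, φ j y ≠ φ i y := by
        by_contra hcon
        push Not at hcon
        exact hne (AddMonoidHom.ext hcon)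
      obtain ⟨p, hp1, hp2⟩ := (hφ i).2 y
      by_cases hjp : φ j p < φ i p
      · exact ⟨p, fun _ => ⟨hp1, hjp⟩⟩
      · refine ⟨p + y, fun _ => ⟨hp2, ?_⟩⟩
        have h1 : φ j p = φ i p :=
          le_antisymm (((hφ j).1 p).trans hp1.ge) (not_lt.1 hjp)
        have h2 : φ j (p + y) ≤ φ i (p + y) := ((hφ j).1 (p + y)).trans hp2.ge
        refine lt_of_le_of_ne h2 fun h3 => hy ?_
        rw [map_add, map_add, h1] at h3
        exact add_left_cancel h3
  choose x hx using key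
  refine ⟨∑ j ∈ Finset.univ.erase i, x j, fun l hl => ?_⟩
  rw [map_sum, map_sum]
  refine Finset.sum_lt_sum (fun j hj => ?_)
    ⟨l, Finset.mem_erase.2 ⟨hl, Finset.mem_univ l⟩, (hx l hl).2⟩
  rw [(hx j (Finset.ne_of_mem_erase hj)).1]
  exact (hφ l).1 (x j)

end Pool.Agent.H54.RF
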