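import Pool.Agent.H54.RF.SpecA

/-!
# Project RF (MP_35eb49), row RF-A7: the translation numbers are sublinear
-/

set_option autoImplicit false

namespace Pool.Agent.H54.RF

open Gar

section

variable {G : Type} [Group G] [Gar G]

/-- the translation number of a power of the Garside element -/
theorem a7_isT_zpow (W : ℤ) : IsT ((δ : G) ^ W) W := by
  refine ⟨0, fun n => ?_⟩
  have h1 : ((δ : G) ^ W) ^ n = δ ^ ((n : ℤ) * W) := by
    rw [← zpow_natCast, ← zpow_mul, mul_comm]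
  rw [h1, d_one_zpow, add_zero]
  exact ⟨le_refl _, le_refl _⟩

theorem a7_sublin {r : ℕ} {κ : (Fin r → ℤ) → G} {ω : Fin r → ℤ} {W : ℤ} {τ : (Fin r → ℤ) → ℤ}
    (h : Ab κ ω W) (hτ : ∀ x, IsT (κ x) (τ x)) : Sublin τ := by
  constructor
  · intro n x
    have h1 := hτ (n • x)
    rw [h.nsmul] at h1
    exact h1.unique ((hτ x).pow n)
  · intro x y
    have h1 := hτ (x + y)
    rw [h.add] at h1
    exact IsT.mul_le (h.comm x y) (hτ x) (hτ y) h1

theorem a7_om {r : ℕ} {κ : (Fin r → ℤ) → G} {ω : Fin r → ℤ} {W : ℤ} {τ : (Fin r → ℤ) → ℤ}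
    (h : Ab κ ω W) (hτ : ∀ x, IsT (κ x) (τ x)) : τ ω = W := by
  have h1 := hτ ω
  rw [h.om] at h1
  exact h1.unique (a7_isT_zpow W)

/-- a multiple of `x` is a multiple of `ω` only if the multiple of `ω` is zero -/
theorem a7_aux {r : ℕ} {τ : (Fin r → ℤ) → ℤ} (hs : Sublin τ) {ω x : Fin r → ℤ} {W : ℤ}
    (hW : 0 < W) (hω : τ ω = W) (hx : τ x = 0) {N k : ℕ} (hk : N • x = k • ω) : k = 0 := by
  have h1 := hs.hom N x
  rw [hk, hs.hom, hω, hx, mul_zero] at h1
  rcases mul_eq_zero.mp h1 with h2 | h2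
  · exact_mod_cast h2
  · omega

theorem a7_zero {r : ℕ} {κ : (Fin r → ℤ) → G} {ω : Fin r → ℤ} {W : ℤ} {τ : (Fin r → ℤ) → ℤ}
    (h : Ab κ ω W) (hτ : ∀ x, IsT (κ x) (τ x)) (x : Fin r → ℤ) (h1 : τ x ≤ 0)
    (h2 : τ (-x) ≤ 0) : x = 0 := by
  have hs := a7_sublin h hτ
  have hω := a7_om h hτ
  have hn := hτ (-x)
  rw [h.neg] at hn
  have h3 := (hτ x).add_nonneg hn
  have h4 : τ x + τ (-x) = 0 := by omega
  have h5 : τ x = 0 := by omega
  have h6 : τ (-x) = 0 := by omega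
  obtain ⟨m, hm, k, hk⟩ := (hτ x).periodic hn h4
  have hW := h.pos
  obtain ⟨V, rfl⟩ : ∃ V : ℕ, W = (V : ℤ) := ⟨W.toNat, (Int.toNat_of_nonneg hW.le).symm⟩
  have hV : 0 < V := by exact_mod_cast hW
  have h7 : (m * V) • x = k • ω := by
    apply h.injective
    rw [h.nsmul, h.zpow_om, pow_mul, hk, ← zpow_natCast, ← zpow_mul, mul_comm]
  have h8 : k = 0 := by
    obtain ⟨n, rfl | rfl⟩ := k.eq_nat_or_neg
    · rw [natCast_zsmul] at h7
      have := a7_aux hs hW hω h5 h7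
      exact_mod_cast this
    · rw [neg_smul, natCast_zsmul] at h7
      have h9 : (m * V) • (-x) = n • ω := by
        rw [smul_neg, h7, neg_neg]
      have := a7_aux hs hW hω h6 h9
      simp [this]
  rw [h8, zero_smul] at h7
  have h9 : m * V ≠ 0 := by positivity
  exact (smul_eq_zero.mp h7).resolve_left h9

end

theorem sp_tau (G : Type) [Group G] [Gar G] : SpTau G := by
  intro r κ ω W τ h hτ
  exact ⟨a7_sublin h hτ, a7_om h hτ, a7_zero h hτ⟩

end Pool.Agent.H54.RF
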