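import Pool.Agent.H54.RF.SpecA

/-!
# Project RF (MP_35eb49), row RF-A6: rank three from infinite index
-/

set_option autoImplicit false

namespace Pool.Agent.H54.RF

open Gar

section

variable {G : Type} [Group G] [Gar G]

/-- The homomorphism from `ℤ²` given by `g` and the central power of `δ`. -/
def a6_κ (g : G) (x : Fin 2 → ℤ) : G := g ^ x 0 * δ ^ ((ord G : ℤ) * x 1)

theorem a6_central (k : ℤ) : (δ : G) ^ ((ord G : ℤ) * k) ∈ Subgroup.center G := by
  rw [Subgroup.mem_center_iff]
  intro x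
  exact (central_zpow k x).symm

theorem a6_zpow_eq_one {c : ℤ} (h : (δ : G) ^ c = 1) : c = 0 := by
  have h1 := congrArg (fun x : G => len x) h
  simp only [len_zpow, len_one, len_δ] at h1
  have h2 := rkZ_pos (G := G)
  rcases mul_eq_zero.mp h1 with h3 | h3
  · exact h3
  · omega

theorem a6_ab (g : G) (hg : ∀ m : ℕ, 0 < m → ∀ k : ℤ, g ^ m ≠ δ ^ k) :
    Ab (a6_κ g) (Pi.single 1 1) (ord G : ℤ) where
  add x y := by
    unfold a6_κ
    rw [Pi.add_apply, Pi.add_apply, zpow_add, mul_add, zpow_add]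
    have h : g ^ y 0 * δ ^ ((ord G : ℤ) * x 1) = δ ^ ((ord G : ℤ) * x 1) * g ^ y 0 :=
      (central_zpow (x 1) (g ^ y 0)).symm
    calc g ^ x 0 * g ^ y 0 * (δ ^ ((ord G : ℤ) * x 1) * δ ^ ((ord G : ℤ) * y 1))
        = g ^ x 0 * (g ^ y 0 * δ ^ ((ord G : ℤ) * x 1)) * δ ^ ((ord G : ℤ) * y 1) := by
          simp only [mul_assoc]
      _ = g ^ x 0 * (δ ^ ((ord G : ℤ) * x 1) * g ^ y 0) * δ ^ ((ord G : ℤ) * y 1) := by rw [h]
      _ = _ := by simp only [mul_assoc]
  inj x hx := by
    unfold a6_κ at hx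
    have h0 : x 0 = 0 := by
      by_contra hne
      obtain ⟨n, hn | hn⟩ := (x 0).eq_nat_or_neg
      · have hpos : 0 < n := by omega
        have h1 : g ^ n = δ ^ (-((ord G : ℤ) * x 1)) := by
          rw [hn, zpow_natCast] at hx
          rw [zpow_neg]
          exact eq_inv_of_mul_eq_one_left hx
        exact hg n hpos _ h1
      · have hpos : 0 < n := by omega
        have h1 : g ^ n = δ ^ ((ord G : ℤ) * x 1) := by
          rw [hn, zpow_neg, zpow_natCast] at hx
          exact (inv_mul_eq_one.mp hx)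
        exact hg n hpos _ h1
    have h1 : x 1 = 0 := by
      rw [h0, zpow_zero, one_mul] at hx
      have h2 := a6_zpow_eq_one hx
      rcases mul_eq_zero.mp h2 with h3 | h3
      · exact absurd (by exact_mod_cast h3) (ord_pos (G := G)).ne'
      · exact h3
    funext i
    fin_cases i
    · exact h0
    · exact h1
  pos := by
    have h4 := ord_pos (G := G)
    exact_mod_cast h4
  dvd := dvd_refl _
  om := by
    unfold a6_κ
    simp

theorem a6_κ_mem (g : G) (x : Fin 2 → ℤ) :
    a6_κ g x ∈ Subgroup.zpowers g ⊔ Subgroup.center G :=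
  Subgroup.mul_mem _ (Subgroup.mem_sup_left (Subgroup.zpow_mem_zpowers g _))
    (Subgroup.mem_sup_right (a6_central _))

theorem a6_κ_single (g : G) : a6_κ g (Pi.single 0 1) = g := by
  unfold a6_κ
  simp

/-- elements of the centralizer of `g` commute with everything -/
theorem a6_cen (g : G) {z : G} (hz : Commute g z) : Cen (a6_κ g) z := by
  intro x
  unfold a6_κ
  refine (hz.zpow_left _).mul_left ?_
  exact central_zpow (x 1) z

/-- If the centralizer of `g` is contained in finitely many cosets, the index is finite. -/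
theorem a6_index (g : G) (F : Set G) (hF : F.Finite)
    (h : ∀ z : G, Commute g z → ∃ x, ∃ f ∈ F, z = a6_κ g x * f) :
    (Subgroup.zpowers g ⊔ Subgroup.center G).relIndex (Subgroup.centralizer {g}) ≠ 0 := by
  set H := Subgroup.zpowers g ⊔ Subgroup.center G with hH
  set K := Subgroup.centralizer {g} with hK
  have hrep : ∀ z : G, z ∈ K → ∃ h ∈ H, h * z⁻¹ ∈ F := by
    intro z hz
    have hz' : Commute g z := by
      rw [hK, Subgroup.mem_centralizer_singleton_iff] at hz
      exact hz.symm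
    obtain ⟨x, f, hf, hx⟩ := h z⁻¹ hz'.inv_right
    refine ⟨(a6_κ g x)⁻¹, H.inv_mem (a6_κ_mem g x), ?_⟩
    rw [hx, inv_mul_cancel_left]
    exact hf
  have hfi : Finite (K ⧸ H.subgroupOf K) := by
    let f : K → G := fun z => (hrep z.1 z.2).choose * z.1⁻¹
    have hf : ∀ z : K, f z ∈ F := fun z => (hrep z.1 z.2).choose_spec.2
    have hf' : ∀ z w : K, f z = f w → z⁻¹ * w ∈ H.subgroupOf K := by
      intro z w hzw
      rw [Subgroup.mem_subgroupOf]
      have h1 := (hrep z.1 z.2).choose_spec.1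
      have h2 := (hrep w.1 w.2).choose_spec.1
      have h3 : ((z⁻¹ * w : K) : G) = (hrep z.1 z.2).choose⁻¹ * (hrep w.1 w.2).choose := by
        have h4 : (hrep z.1 z.2).choose * z.1⁻¹ = (hrep w.1 w.2).choose * w.1⁻¹ := hzw
        rw [Subgroup.coe_mul, Subgroup.coe_inv, eq_inv_mul_iff_mul_eq, ← mul_assoc, h4,
          inv_mul_cancel_right]
      rw [h3]
      exact H.mul_mem (H.inv_mem h1) h2
    have hfin' : Finite F := hF
    refine Finite.of_injective (β := F) (fun q => ⟨f q.out, hf q.out⟩) ?_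
    intro q r hqr
    have h5 := hf' q.out r.out (congrArg Subtype.val hqr)
    have h6 : (QuotientGroup.mk q.out : K ⧸ H.subgroupOf K) = QuotientGroup.mk r.out :=
      QuotientGroup.eq.mpr h5
    rw [QuotientGroup.out_eq', QuotientGroup.out_eq'] at h6
    exact h6
  have h7 : (H.subgroupOf K).FiniteIndex := Subgroup.finiteIndex_of_finite_quotient
  exact h7.index_ne_zero

end

theorem sp_three (G : Type) [Group G] [Gar G] (h1 : SpFin G) (h2 : SpExt G) : SpThree G := by
  intro g hg hi
  have hab := a6_ab g hg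
  by_cases hT : Tor (a6_κ g)
  · exfalso
    obtain ⟨F, hF, hFz⟩ := h1 2 _ _ _ hab hT
    refine a6_index g F hF (fun z hz => ?_) hi
    have hz1 := ML_cen (a6_cen g hz) (ML_one (a6_κ g))
    rw [mul_one] at hz1
    exact hFz z hz1
  · unfold Tor at hT
    push Not at hT
    obtain ⟨u, hu, hub⟩ := hT
    obtain ⟨κ', ω', hab', hκ'⟩ := h2 2 _ _ _ hab u hu (fun b x hb => hub b x hb)
    obtain ⟨x', hx'⟩ := hκ' (Pi.single 0 1)
    exact ⟨κ', ω', _, hab', x', by rw [hx', a6_κ_single]⟩

end Pool.Agent.H54.RF
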