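import Pool.Agent.H54.RF.SpecA

/-!
# Project RF (MP_35eb49), row RF-A8: the error of the translation numbers is uniformly bounded
-/

set_option autoImplicit false

namespace Pool.Agent.H54.RF

open Gar

/-- a point of `ML κ` that `κ x` moves by at most `τ x` -/
theorem a8_point {G : Type} [Group G] [Gar G] {r : ℕ} {κ : (Fin r → ℤ) → G} {ω : Fin r → ℤ}
    {W : ℤ} (h : Ab κ ω W) (x : Fin r → ℤ) {t : ℤ} (ht : IsT (κ x) t) :
    ∃ m ∈ ML κ, d m (κ x * m) ≤ t := by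
  obtain ⟨C, hC⟩ := ht
  obtain ⟨m, h1, h2, h3⟩ := exists_lub
    (Set.range (fun n : ℕ => κ x ^ n * δ ^ (-((n : ℤ) * t)))) (Set.range_nonempty _) (δ ^ C)
    (by
      rintro _ ⟨n, rfl⟩
      have h : d 1 (κ x ^ n * δ ^ (-((n : ℤ) * t))) ≤ C := by
        rw [d_mul_zpow]
        have := (hC n).2
        omega
      rw [d_le_iff, one_mul] at h
      exact h)
  refine ⟨m, h3 (ML κ) (fun a ha b hb => ML_sup ha hb) ?_, ?_⟩
  · rintro _ ⟨n, rfl⟩
    change κ x ^ n * δ ^ (-((n : ℤ) * t)) ∈ ML κ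
    rw [← h.nsmul]
    exact ML_kap_zpow h _ _
  · rw [d_le_iff]
    have h5 : m ≤ (κ x)⁻¹ * (m * δ ^ t) := by
      apply h2
      rintro _ ⟨n, rfl⟩
      change κ x ^ n * δ ^ (-((n : ℤ) * t)) ≤ (κ x)⁻¹ * (m * δ ^ t)
      rw [← mul_le_mul_iff (κ x), mul_inv_cancel_left]
      have h6 : κ x ^ (n + 1) * δ ^ (-(((n + 1 : ℕ) : ℤ) * t)) ≤ m := h1 _ ⟨n + 1, rfl⟩
      have h7 := (mul_zpow_le_iff t).mpr h6
      have h8 : κ x ^ (n + 1) * δ ^ (-(((n + 1 : ℕ) : ℤ) * t)) * δ ^ t =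
          κ x * (κ x ^ n * δ ^ (-((n : ℤ) * t))) := by
        rw [mul_assoc, ← zpow_add, pow_succ', mul_assoc]
        congr 3
        push_cast
        ring
      rw [h8] at h7
      exact h7
    have h9 := (mul_le_mul_iff (κ x)).mpr h5
    rwa [mul_inv_cancel_left] at h9

theorem sp_unif (G : Type) [Group G] [Gar G] : SpUnif G := by
  intro r κ ω W τ h hτ
  have hF := ML_finite κ
  have hch : ∀ f ∈ {f : Fin r → G | ∃ y ∈ ML κ, f = fun i => y⁻¹ * κ (Pi.single i 1) * y},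
      ∃ y : G, f = fun i => y⁻¹ * κ (Pi.single i 1) * y := by
    rintro f ⟨y, _, hy⟩
    exact ⟨y, hy⟩
  choose! Y hY using hch
  obtain ⟨C, hC⟩ := (hF.image (fun f => d 1 (Y f) + d (Y f) 1)).bddAbove
  refine ⟨C, fun x => ?_⟩
  obtain ⟨m, hm, hmx⟩ := a8_point h x (hτ x)
  have hmem : (fun i => m⁻¹ * κ (Pi.single i 1) * m) ∈
      {f : Fin r → G | ∃ y ∈ ML κ, f = fun i => y⁻¹ * κ (Pi.single i 1) * y} := ⟨m, hm, rfl⟩
  set f : Fin r → G := fun i => m⁻¹ * κ (Pi.single i 1) * m with hf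
  have h1 := hY f hmem
  have h2 : Cen κ (m * (Y f)⁻¹) := by
    refine cen_of_conj h fun i => ?_
    have h3 := congrFun h1 i
    exact h3
  have h4 : d (Y f) (κ x * Y f) ≤ τ x := by
    have h5 := d_mul_left (m * (Y f)⁻¹) (Y f) (κ x * Y f)
    rw [inv_mul_cancel_right, ← mul_assoc, ← (h2 x).eq, mul_assoc, inv_mul_cancel_right] at h5
    rw [← h5]
    exact hmx
  have h6 := d_triangle 1 (Y f) (κ x)
  have h7 := d_triangle (Y f) (κ x * Y f) (κ x)
  have h8 := d_mul_left (κ x) (Y f) 1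
  rw [mul_one] at h8
  have h9 : d 1 (Y f) + d (Y f) 1 ≤ C := hC ⟨f, hmem, rfl⟩
  omega

end Pool.Agent.H54.RF
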