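import Pool.Agent.H54.RF.SpecA

/-!
# Project RF (MP_35eb49), row A17: the meet-preserving map of a frame
-/

set_option autoImplicit false

namespace Pool.Agent.H54.RF

open Gar

variable {G : Type} [Group G] [Gar G]

/-- the points of `ML κ` that are in the horoballs translated by `v` -/
def a17_S {r : ℕ} (κ : (Fin r → ℤ) → G) {k : ℕ} (I : Fin k → Set G) (v : Fin k → ℤ) : Set G :=
  {z | z ∈ ML κ ∧ ∀ i, z * δ ^ (-v i) ∈ I i}

section

variable {r : ℕ} {κ : (Fin r → ℤ) → G} {ω : Fin r → ℤ} {W : ℤ}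

theorem a17_shift {φ : (Fin r → ℤ) →+ ℤ} {I : Set G} (hB : Bus κ φ I) (x : Fin r → ℤ) (z : G)
    (c : ℤ) : κ x * z * δ ^ c ∈ I ↔ z * δ ^ (c + φ x) ∈ I := by
  rw [← hB.shift x (z * δ ^ (c + φ x))]
  have h : κ x * (z * δ ^ (c + φ x)) * δ ^ (-φ x) = κ x * z * δ ^ c := by
    simp only [mul_assoc]
    rw [← zpow_add]
    congr 3
    ring
  rw [h]

theorem a17_kap {φ : (Fin r → ℤ) →+ ℤ} {I : Set G} (hB : Bus κ φ I) (x : Fin r → ℤ)
    (m : ℤ) : κ x * δ ^ m ∈ I ↔ m + φ x ≤ 0 := by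
  have h := a17_shift hB x 1 m
  rw [mul_one, one_mul] at h
  rw [h, hB.delta]

variable {k : ℕ} {φ : Fin k → (Fin r → ℤ) →+ ℤ} {I : Fin k → Set G}

theorem a17_sup (hF : Frame κ k φ I) {v : Fin k → ℤ} {x y : G} (hx : x ∈ a17_S κ I v)
    (hy : y ∈ a17_S κ I v) : x ⊔ y ∈ a17_S κ I v := by
  refine ⟨ML_sup hx.1 hy.1, fun i => ?_⟩
  rw [sup_zpow]
  exact (hF.bus i).sup _ (hx.2 i) _ (hy.2 i)

theorem a17_ne (hF : Frame κ k φ I) (v : Fin k → ℤ) : (a17_S κ I v).Nonempty := by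
  obtain ⟨c, hc⟩ := (Set.finite_range v).bddBelow
  refine ⟨δ ^ c, ?_, fun i => ?_⟩
  · have h := ML_zpow (ML_one κ) c
    rwa [one_mul] at h
  · rw [← zpow_add, (hF.bus i).delta]
    have h : c ≤ v i := hc (Set.mem_range_self i)
    linarith

theorem a17_low {F : Set G} (hfin : F.Finite) :
    ∃ c : ℕ, ∀ f ∈ F, δ ^ (-(c : ℤ)) ≤ f ∧ f ≤ δ ^ (c : ℤ) := by
  classical
  choose a ha using fun f : G => exists_zpow_le (1 : G) f
  choose b hb using fun f : G => exists_le_zpow f (1 : G)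
  refine ⟨hfin.toFinset.sup (fun f => a f ⊔ b f), fun f hf => ?_⟩
  have h1 : a f ⊔ b f ≤ hfin.toFinset.sup (fun f => a f ⊔ b f) :=
    Finset.le_sup (f := fun f => a f ⊔ b f) (hfin.mem_toFinset.mpr hf)
  generalize hfin.toFinset.sup (fun f => a f ⊔ b f) = c at *
  have h2 : a f ≤ c := le_trans le_sup_left h1
  have h3 : b f ≤ c := le_trans le_sup_right h1
  have h4 := ha f
  have h5 := hb f
  rw [one_mul] at h4 h5
  constructor
  · have h6 := mul_zpow_mono (1 : G) (show -(c : ℤ) ≤ -(a f : ℤ) by omega)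
    rw [one_mul, one_mul] at h6
    exact h6.trans h4
  · have h6 := mul_zpow_mono (1 : G) (show (b f : ℤ) ≤ c by omega)
    rw [one_mul, one_mul, zpow_natCast δ (b f)] at h6
    exact h5.trans h6

theorem a17_bdd {F : Set G} (hfin : F.Finite) (hF : Frame κ k φ I)
    (hML : ∀ z ∈ ML κ, ∃ x, ∃ f ∈ F, z = κ x * f) (v : Fin k → ℤ) :
    ∃ u, ∀ z ∈ a17_S κ I v, z ≤ u := by
  obtain ⟨c, hc⟩ := a17_low hfin
  obtain ⟨M, hM⟩ := (Set.finite_range v).bddAbove
  obtain ⟨C, hC⟩ := hF.bdd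
  refine ⟨δ ^ (M + c + C) * δ ^ (c : ℤ), fun z hz => ?_⟩
  obtain ⟨x, f, hf, rfl⟩ := hML z hz.1
  obtain ⟨h1, h2⟩ := hc f hf
  obtain ⟨i, hi⟩ := hC x
  have h3 : κ x * δ ^ (-(c : ℤ) + -v i) ∈ I i := by
    refine (hF.bus i).down _ (hz.2 i) _ ?_
    rw [zpow_add, ← mul_assoc, mul_zpow_le_iff, mul_le_mul_iff]
    exact h1
  rw [a17_kap (hF.bus i)] at h3
  have h4 : v i ≤ M := hM (Set.mem_range_self i)
  have h5 : d 1 (κ x) ≤ M + c + C := by linarith
  rw [d_le_iff, one_mul] at h5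
  calc κ x * f ≤ κ x * δ ^ (c : ℤ) := (mul_le_mul_iff _).mpr h2
    _ ≤ _ := (mul_zpow_le_iff _).mpr h5

theorem a17_tight (hF : Frame κ k φ I) (hab : Ab κ ω W) (v : Fin k → ℤ) (i : Fin k) :
    ∃ z ∈ a17_S κ I v, z * δ ^ (-v i + 1) ∉ I i := by
  obtain ⟨x, hx⟩ := hF.sep i
  obtain ⟨M, hM⟩ := (Set.finite_range (fun j => v i - v j)).bddAbove
  have hM' : ∀ j, v i - v j ≤ (M.toNat : ℤ) := fun j =>
    (hM (Set.mem_range_self j)).trans (Int.self_le_toNat M)
  generalize M.toNat = m at *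
  refine ⟨κ (m • x) * δ ^ (v i - m * φ i x), ⟨ML_kap_zpow hab _ _, fun j => ?_⟩, ?_⟩
  · rw [mul_assoc, ← zpow_add, a17_kap (hF.bus j), map_nsmul, nsmul_eq_mul]
    by_cases hj : j = i
    · subst hj
      linarith
    · have h1 := hx j hj
      have h2 := hM' j
      have h3 : (0 : ℤ) ≤ m := Int.natCast_nonneg m
      nlinarith
  · rw [mul_assoc, ← zpow_add, a17_kap (hF.bus i), map_nsmul, nsmul_eq_mul]
    intro h
    linarith

end

theorem sp_Y (G : Type) [Group G] [Gar G] : SpY G := by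
  intro r κ ω W hab F hfin hML k φ I hF
  have hex : ∀ v : Fin k → ℤ, ∃ m ∈ a17_S κ I v, ∀ z ∈ a17_S κ I v, z ≤ m := by
    intro v
    obtain ⟨u, hu⟩ := a17_bdd hfin hF hML v
    exact exists_greatest (a17_S κ I v) (a17_ne hF v)
      (fun x hx y hy => ⟨x ⊔ y, a17_sup hF hx hy, le_sup_left, le_sup_right⟩) u hu
  choose Y hY hmax using hex
  refine ⟨Y, fun v => (hY v).1, ?_, ?_, ?_, ?_⟩
  · intro v w
    apply le_antisymm
    · have h1 : ∀ u : Fin k → ℤ, v ⊓ w ≤ u → Y (v ⊓ w) ≤ Y u := by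
        intro u hu
        refine hmax u _ ⟨(hY (v ⊓ w)).1, fun i => ?_⟩
        exact (hF.bus i).down _ ((hY (v ⊓ w)).2 i) _
          (mul_zpow_mono _ (neg_le_neg (hu i)))
      exact le_inf (h1 v inf_le_left) (h1 w inf_le_right)
    · refine hmax _ _ ⟨ML_inf (hY v).1 (hY w).1, fun i => ?_⟩
      rw [Pi.inf_apply]
      rcases min_choice (v i) (w i) with h | h
      · rw [h]
        exact (hF.bus i).down _ ((hY v).2 i) _ ((mul_zpow_le_iff _).mpr inf_le_left)
      · rw [h]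
        exact (hF.bus i).down _ ((hY w).2 i) _ ((mul_zpow_le_iff _).mpr inf_le_right)
  · intro v
    apply le_antisymm
    · have h1 : Y (v + 1) * δ ^ (-1 : ℤ) ≤ Y v := by
        refine hmax v _ ⟨ML_zpow (hY (v + 1)).1 _, fun i => ?_⟩
        have h2 := (hY (v + 1)).2 i
        rw [Pi.add_apply, Pi.one_apply] at h2
        rw [mul_assoc, ← zpow_add]
        have h3 : (-1 : ℤ) + -v i = -(v i + 1) := by ring
        rw [h3]
        exact h2
      rwa [← le_mul_zpow_iff, zpow_one] at h1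
    · refine hmax (v + 1) _ ⟨?_, fun i => ?_⟩
      · have h2 := ML_zpow (hY v).1 1
        rwa [zpow_one] at h2
      · have h2 := (hY v).2 i
        rw [Pi.add_apply, Pi.one_apply]
        have h3 : Y v * δ * δ ^ (-(v i + 1)) = Y v * δ ^ (-v i) := by
          rw [mul_assoc, ← zpow_one_add]
          congr 2
          ring
        rw [h3]
        exact h2
  · intro v x
    apply le_antisymm
    · have h1 : κ (-x) * Y (v + fun i => φ i x) ≤ Y v := by
        refine hmax v _ ⟨ML_kap hab _ (hY _).1, fun i => ?_⟩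
        rw [a17_shift (hF.bus i), map_neg]
        have h2 := (hY (v + fun i => φ i x)).2 i
        rw [Pi.add_apply] at h2
        have h3 : -v i + -φ i x = -(v i + φ i x) := by ring
        rw [h3]
        exact h2
      rw [← mul_le_mul_iff (κ x), hab.neg, mul_inv_cancel_left] at h1
      exact h1
    · refine hmax _ _ ⟨ML_kap hab _ (hY v).1, fun i => ?_⟩
      rw [a17_shift (hF.bus i), Pi.add_apply]
      have h2 := (hY v).2 i
      have h3 : -(v i + φ i x) + φ i x = -v i := by ring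
      rw [h3]
      exact h2
  · intro v w hvw i
    obtain ⟨z, hz, hz'⟩ := a17_tight hF hab v i
    by_contra hlt
    have hlt' : w i < v i := not_le.mp hlt
    apply hz'
    have h1 : z ≤ Y w := (hmax v z hz).trans hvw
    have h2 : z * δ ^ (-w i) ∈ I i :=
      (hF.bus i).down _ ((hY w).2 i) _ ((mul_zpow_le_iff _).mpr h1)
    exact (hF.bus i).down _ h2 _ (mul_zpow_mono _ (by omega))

end Pool.Agent.H54.RF
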