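import Pool.Agent.H54.RF.IsTEx
import Pool.Agent.H54.RF.RayEx
import Pool.Agent.H54.RF.NoRay
import Pool.Agent.H54.RF.FinF
import Pool.Agent.H54.RF.Ext
import Pool.Agent.H54.RF.Three
import Pool.Agent.H54.RF.Tau
import Pool.Agent.H54.RF.Unif
import Pool.Agent.H54.RF.Sep
import Pool.Agent.H54.RF.BusEx
import Pool.Agent.H54.RF.Many
import Pool.Agent.H54.RF.Lin
import Pool.Agent.H54.RF.FrameEx
import Pool.Agent.H54.RF.Rank
import Pool.Agent.H54.RF.Max
import Pool.Agent.H54.RF.YEx
import Pool.Agent.H54.RF.PerF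
import Pool.Agent.H54.RF.FlatEx

/-!
# Project RF (MP_35eb49): a large centralizer yields a periodic flat
-/

set_option autoImplicit false

namespace Pool.Agent.H54.RF

/-- A large centralizer yields a periodic flat. -/
theorem flat3_of (hc : SpCone) (G : Type) [Group G] [Gar G] : SpFlat3 G := by
  have hF : SpFin G := sp_fin G (sp_ray G) (sp_noRay G)
  have hT : SpThree G := sp_three G hF (sp_ext G)
  have hFr : SpFrame G := sp_frame G (sp_tau G) (sp_unif G) (sp_bus G) (sp_many G) hc sp_sep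
  have hR : SpRank G := sp_rank G (sp_isT G) hFr (sp_many G) sp_lin
  exact sp_flat3 G (sp_max G (sp_isT G) (sp_ext G) hT hR) hF hFr (sp_Y G) (sp_per G) sp_lin

end Pool.Agent.H54.RF
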