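import Pool.Agent.H54.RF.Dat

/-!
# Project RF (MP_35eb49): soundness of the mask checks
-/

set_option autoImplicit false

namespace Pool.Agent.H54.RF

theorem c6_beq (a b : ℕ) : Nat.beq a b = true ↔ a = b := by
  rw [Nat.beq_eq]

theorem c6_bt (u r : ℕ) : Dat.bt u r = u.testBit r := by
  rw [Bool.eq_iff_iff, Nat.testBit_eq_decide_div_mod_eq, decide_eq_true_iff]
  unfold Dat.bt
  rw [c6_beq]
  show (u >>> r) % 2 = 1 ↔ _
  rw [Nat.shiftRight_eq_div_pow]

theorem c6_mod (u r : ℕ) : Nat.mod (Nat.shiftRight u r) 2 = (u.testBit r).toNat := by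
  show (u >>> r) % 2 = _
  rw [Nat.testBit_eq_decide_div_mod_eq, Nat.shiftRight_eq_div_pow]
  have := Nat.mod_two_eq_zero_or_one (u / 2 ^ r)
  rcases this with h | h <;> simp [h]

theorem c6_allL {α : Type} (p : α → Bool) (l : List α) :
    Dat.allL p l = true ↔ ∀ x ∈ l, p x = true := by
  induction l with
  | nil => simp [Dat.allL]
  | cons x xs ih =>
    unfold Dat.allL
    cases hx : p x
    · simp [hx]
    · simp [hx, ih]

theorem c6_allI (p : ℕ → ℕ → Bool) (l : List ℕ) : ∀ i,
    Dat.allI p i l = true ↔ ∀ j < l.length, p (i + j) (l.getD j 0) = true := by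
  induction l with
  | nil => intro i; simp [Dat.allI]
  | cons x xs ih =>
    intro i
    unfold Dat.allI
    constructor
    · intro h j hj
      cases hx : p i x
      · rw [hx] at h; exact absurd h (by simp)
      · rw [hx] at h
        have h2 := (ih (Nat.succ i)).1 h
        cases j with
        | zero => simpa using hx
        | succ j =>
          have := h2 j (by simpa using hj)
          rw [show i + (j + 1) = Nat.succ i + j by omega]
          simpa using this
    · intro h
      have h0 := h 0 (by simp)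
      simp only [Nat.add_zero, List.getD_cons_zero] at h0
      rw [h0]
      show Dat.allI p (Nat.succ i) xs = true
      rw [ih]
      intro j hj
      have := h (j + 1) (by simpa using hj)
      rw [show i + (j + 1) = Nat.succ i + j by omega] at this
      simpa using this

theorem c6_exI (p : ℕ → ℕ → Bool) (l : List ℕ) : ∀ i,
    Dat.exI p i l = true ↔ ∃ j < l.length, p (i + j) (l.getD j 0) = true := by
  induction l with
  | nil => intro i; simp [Dat.exI]
  | cons x xs ih =>
    intro i
    unfold Dat.exI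
    constructor
    · intro h
      cases hx : p i x
      · rw [hx] at h
        obtain ⟨j, hj, hj2⟩ := (ih (Nat.succ i)).1 h
        refine ⟨j + 1, by simpa using hj, ?_⟩
        rw [show i + (j + 1) = Nat.succ i + j by omega]
        simpa using hj2
      · exact ⟨0, by simp, by simpa using hx⟩
    · rintro ⟨j, hj, h⟩
      cases hx : p i x
      · show Dat.exI p (Nat.succ i) xs = true
        rw [ih]
        cases j with
        | zero => simp [hx] at h
        | succ j =>
          refine ⟨j, by simpa using hj, ?_⟩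
          rw [show i + (j + 1) = Nat.succ i + j by omega] at h
          simpa using h
      · rfl

theorem c6_mem (L : List (ℕ × ℕ)) (u : ℕ) : Dat.mem L u = true ↔ ∃ p ∈ L, p.1 = u := by
  induction L with
  | nil => simp [Dat.mem]
  | cons p ps ih =>
    unfold Dat.mem
    cases hx : Nat.beq p.1 u
    · have hne : p.1 ≠ u := by
        intro h
        rw [(c6_beq _ _).2 h] at hx
        exact absurd hx (by simp)
      show Dat.mem ps u = true ↔ _
      rw [ih]
      simp [hne]
    · have he : p.1 = u := (c6_beq _ _).1 hx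
      simp [he]

theorem c6_land (x y i : ℕ) : (Nat.land x y).testBit i = (x.testBit i && y.testBit i) :=
  Nat.testBit_and x y i

theorem c6_lor (x y i : ℕ) : (Nat.lor x y).testBit i = (x.testBit i || y.testBit i) :=
  Nat.testBit_or x y i

theorem c6_le (x y : ℕ) : Nat.land x y = x ↔
    ∀ i, x.testBit i = true → y.testBit i = true := by
  constructor
  · intro h i hi
    rw [← h, c6_land] at hi
    simp only [Bool.and_eq_true] at hi
    exact hi.2
  · intro h
    apply Nat.eq_of_testBit_eq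
    intro i
    rw [c6_land]
    have := h i
    cases hx : x.testBit i <;> simp_all

theorem c6_ext {x y : ℕ} (h : ∀ i, x.testBit i = true ↔ y.testBit i = true) : x = y :=
  Nat.eq_of_testBit_eq (fun i => by rw [Bool.eq_iff_iff]; exact h i)

theorem c6_Kf (ks : List ℕ) : ∀ (u acc s : ℕ), (Dat.Kf ks u acc).testBit s = true ↔
    acc.testBit s = true ∧ ∀ i < ks.length, u.testBit i = true →
      (ks.getD i 0).testBit s = true := by
  induction ks with
  | nil => intro u acc s; simp [Dat.Kf]
  | cons k ks ih =>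
    intro u acc s
    unfold Dat.Kf
    rw [ih]
    have hu : Nat.beq (Nat.mod u 2) 1 = u.testBit 0 := by
      rw [Nat.testBit_zero, Bool.eq_iff_iff, c6_beq, decide_eq_true_iff]
      rfl
    rw [hu]
    have hs : ∀ i, (Nat.div u 2).testBit i = u.testBit (i + 1) := fun i =>
      (Nat.testBit_succ u i).symm
    constructor
    · rintro ⟨h1, h2⟩
      cases h0 : u.testBit 0
      · rw [h0] at h1
        refine ⟨h1, ?_⟩
        intro i hi hb
        cases i with
        | zero => rw [h0] at hb; exact absurd hb (by simp)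
        | succ i =>
          have := h2 i (by simpa using hi) (by rw [hs]; exact hb)
          simpa using this
      · rw [h0] at h1
        simp only [cond_true, c6_land, Bool.and_eq_true] at h1
        refine ⟨h1.1, ?_⟩
        intro i hi hb
        cases i with
        | zero => simpa using h1.2
        | succ i =>
          have := h2 i (by simpa using hi) (by rw [hs]; exact hb)
          simpa using this
    · rintro ⟨h1, h2⟩
      refine ⟨?_, ?_⟩
      · cases h0 : u.testBit 0
        · exact h1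
        · simp only [cond_true, c6_land, Bool.and_eq_true]
          exact ⟨h1, by simpa using h2 0 (by simp) h0⟩
      · intro i hi hb
        rw [hs] at hb
        simpa using h2 (i + 1) (by simpa using hi) hb

theorem c6_tf (ks : List ℕ) : ∀ (u acc s : ℕ), (Dat.tf ks u acc).testBit s = true ↔
    acc.testBit s = true ∨ ∃ i < ks.length, u.testBit i = true ∧ ks.getD i 0 = s := by
  induction ks with
  | nil => intro u acc s; simp [Dat.tf]
  | cons k ks ih =>
    intro u acc s
    unfold Dat.tf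
    rw [ih]
    have hu : Nat.beq (Nat.mod u 2) 1 = u.testBit 0 := by
      rw [Nat.testBit_zero, Bool.eq_iff_iff, c6_beq, decide_eq_true_iff]
      rfl
    rw [hu]
    have hs : ∀ i, (Nat.div u 2).testBit i = u.testBit (i + 1) := fun i =>
      (Nat.testBit_succ u i).symm
    have hp : ∀ i, (Nat.pow 2 k).testBit i = decide (k = i) := fun i => Nat.testBit_two_pow
    constructor
    · rintro (h1 | ⟨i, hi, hb, he⟩)
      · cases h0 : u.testBit 0
        · rw [h0] at h1
          exact Or.inl h1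
        · rw [h0] at h1
          simp only [cond_true, c6_lor, Bool.or_eq_true, hp, decide_eq_true_iff] at h1
          rcases h1 with h1 | h1
          · exact Or.inl h1
          · exact Or.inr ⟨0, by simp, h0, by simpa using h1⟩
      · exact Or.inr ⟨i + 1, by simpa using hi, by rw [← hs]; exact hb, by simpa using he⟩
    · rintro (h1 | ⟨i, hi, hb, he⟩)
      · left
        cases h0 : u.testBit 0
        · exact h1
        · simp only [cond_true, c6_lor, Bool.or_eq_true]
          exact Or.inl h1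
      · cases i with
        | zero =>
          left
          rw [hb]
          simp only [cond_true, c6_lor, Bool.or_eq_true, hp, decide_eq_true_iff]
          right
          simpa using he
        | succ i =>
          right
          exact ⟨i, by simpa using hi, by rw [hs]; exact hb, by simpa using he⟩

/-- A mask for a decidable set of atoms. -/
theorem c6_mask (P : ℕ → Prop) (N : ℕ) : ∃ w : ℕ, ∀ i, w.testBit i = true ↔ i < N ∧ P i := by
  classical
  induction N with
  | zero => exact ⟨0, fun i => by simp⟩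
  | succ N ih =>
    obtain ⟨w, hw⟩ := ih
    by_cases hP : P N
    · refine ⟨w ||| 2 ^ N, fun i => ?_⟩
      rw [Nat.testBit_or, Bool.or_eq_true, hw, Nat.testBit_two_pow, decide_eq_true_iff]
      constructor
      · rintro (⟨h1, h2⟩ | h)
        · exact ⟨by omega, h2⟩
        · subst h; exact ⟨by omega, hP⟩
      · rintro ⟨h1, h2⟩
        rcases Nat.lt_succ_iff_lt_or_eq.1 h1 with h | h
        · exact Or.inl ⟨h, h2⟩
        · exact Or.inr h.symm
    · refine ⟨w, fun i => ?_⟩
      rw [hw]
      constructor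
      · rintro ⟨h1, h2⟩; exact ⟨by omega, h2⟩
      · rintro ⟨h1, h2⟩
        rcases Nat.lt_succ_iff_lt_or_eq.1 h1 with h | h
        · exact ⟨h, h2⟩
        · subst h; exact absurd h2 hP

/-- The facts contained in the check. -/
structure C6F (D : Dat) : Prop where
  tl : D.tb.length = D.N
  kl : D.Kr.length = D.N
  tlt : ∀ r < D.N, D.tb.getD r 0 < D.N
  tinj : ∀ r < D.N, ∀ s < D.N, D.tb.getD r 0 = D.tb.getD s 0 → r = s
  klt : ∀ r < D.N, D.Kr.getD r 0 < 2 ^ D.N
  sym : ∀ r < D.N, ∀ s < D.N,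
    (D.Kr.getD r 0).testBit s = (D.Kr.getD s 0).testBit (D.tb.getD r 0)
  mf : Dat.mem D.L D.full = true
  ult : ∀ u, Dat.mem D.L u = true → u < 2 ^ D.N
  KK : ∀ u, Dat.mem D.L u = true → D.Km (D.Km u) = D.tm u
  one : ∀ u, Dat.mem D.L u = true → Dat.rf D.L u = 1 → ∃ r < D.N, u = 2 ^ r
  cl : ∀ u, Dat.mem D.L u = true → ∀ r < D.N,
    Dat.mem D.L (Nat.land u (D.Kr.getD r 0)) = true
  st : ∀ u, Dat.mem D.L u = true → ∀ r < D.N, u.testBit r = true →
    Nat.land (D.Km (Nat.land (D.Kr.getD r 0) u)) (D.Kr.getD r 0) = D.Km u ∧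
    Dat.rf D.L (Nat.land (D.Kr.getD r 0) u) + 1 = Dat.rf D.L u
  pos : ∀ u, Dat.mem D.L u = true → u ≠ 0 → 0 < Dat.rf D.L u
  r0 : Dat.rf D.L 0 = 0
  m0 : Dat.mem D.L 0 = true
  am : ∀ r < D.N, Dat.mem D.L (2 ^ r) = true
  ar : ∀ r < D.N, Dat.rf D.L (2 ^ r) = 1
  c3 : ∀ u, Dat.mem D.L u = true → 3 ≤ Dat.rf D.L u → ∀ r < D.N, u.testBit r = true →
    ∀ s < D.N, u.testBit s = true → ∃ t < D.N, u.testBit t = true ∧
      Nat.land (D.Kr.getD r 0) (D.Kr.getD t 0) ≠ D.Km u ∧
      Nat.land (D.Kr.getD s 0) (D.Kr.getD t 0) ≠ D.Km u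
  c2 : ∀ u, Dat.mem D.L u = true → Dat.rf D.L u = 2 → ∀ r < D.N, u.testBit r = true →
    Dat.orb D u 8 (2 ^ r) 0 = u

theorem c6_facts (D : Dat) (h : D.check = true) : C6F D := by
  unfold Dat.check at h
  simp only [Bool.and_eq_true] at h
  obtain ⟨⟨⟨hs, hc⟩, ht⟩, hn⟩ := h
  unfold Dat.ckSym at hs
  simp only [Bool.and_eq_true, c6_beq, c6_allL, c6_allI, Nat.zero_add, Bool.or_eq_true,
    Bool.not_eq_true'] at hs
  obtain ⟨⟨⟨⟨h1, h2⟩, h3⟩, h4⟩, h5⟩ := hs
  unfold Dat.ckCl at hc
  simp only [Bool.and_eq_true, c6_beq, c6_allL] at hc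
  obtain ⟨h6, h7⟩ := hc
  unfold Dat.ckStar at ht
  simp only [Bool.and_eq_true, c6_beq, c6_allL, c6_allI, Nat.zero_add, Bool.or_eq_true] at ht
  obtain ⟨⟨⟨⟨h8, h9⟩, h10⟩, h11⟩, h12⟩ := ht
  unfold Dat.ckConn at hn
  simp only [c6_allL] at hn
  have hrf : ∀ u, Dat.mem D.L u = true → ∃ p ∈ D.L, p.1 = u ∧ p.2 = Dat.rf D.L u := by
    intro u hu
    obtain ⟨p, hp, hpu⟩ := (c6_mem _ _).1 hu
    refine ⟨p, hp, hpu, ?_⟩
    rw [← hpu]
    exact (h9 p hp).2.symm
  have hble : ∀ a b : ℕ, Nat.ble a b = true ↔ a ≤ b := fun a b => by rw [Nat.ble_eq]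
  have hlt : ∀ a b : ℕ, Nat.blt a b = true ↔ a < b := fun a b => by
    unfold Nat.blt
    rw [Nat.ble_eq]
    exact Iff.rfl
  refine
    { tl := h2
      kl := h1
      tlt := ?_
      tinj := ?_
      klt := ?_
      sym := ?_
      mf := h6
      ult := ?_
      KK := ?_
      one := ?_
      cl := ?_
      st := ?_
      pos := ?_
      r0 := h10
      m0 := h11
      am := ?_
      ar := ?_
      c3 := ?_
      c2 := ?_ }
  · intro r hr
    have hr' : r < D.tb.length := by rw [h2]; exact hr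
    have := h3 (D.tb.getD r 0) (by
      rw [List.getD_eq_getElem _ _ hr']
      exact List.getElem_mem hr')
    exact (hlt _ _).1 this
  · intro r hr s hs he
    rcases h4 r (by rw [h2]; exact hr) s (by rw [h2]; exact hs) with h | h
    · exact h
    · rw [← Bool.not_eq_true, c6_beq] at h
      exact absurd he h
  · intro r hr
    exact (hlt _ _).1 (h5 r (by rw [h1]; exact hr)).1
  · intro r hr s hs
    have := (h5 r (by rw [h1]; exact hr)).2 s (by rw [h1]; exact hs)
    rw [c6_mod, c6_mod] at this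
    revert this
    cases (D.Kr.getD r 0).testBit s <;> cases (D.Kr.getD s 0).testBit (D.tb.getD r 0) <;> simp
  · intro u hu
    obtain ⟨p, hp, rfl, -⟩ := hrf u hu
    exact (hlt _ _).1 (h7 p hp).1.1.1
  · intro u hu
    obtain ⟨p, hp, rfl, -⟩ := hrf u hu
    exact (h7 p hp).1.1.2
  · intro u hu hu1
    obtain ⟨p, hp, rfl, hp2⟩ := hrf u hu
    have := (h7 p hp).1.2
    rw [hp2, hu1] at this
    have h13 : Dat.exI (fun r _ => Nat.beq p.1 (Nat.pow 2 r)) 0 D.Kr = true := this
    rw [c6_exI] at h13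
    obtain ⟨j, hj, hj2⟩ := h13
    rw [c6_beq, Nat.zero_add] at hj2
    exact ⟨j, by rw [← h1]; exact hj, hj2⟩
  · intro u hu r hr
    obtain ⟨p, hp, rfl, -⟩ := hrf u hu
    have hr' : r < D.Kr.length := by rw [h1]; exact hr
    exact (h7 p hp).2 (D.Kr.getD r 0) (by
      rw [List.getD_eq_getElem _ _ hr']
      exact List.getElem_mem hr')
  · intro u hu r hr hb
    obtain ⟨p, hp, rfl, hp2⟩ := hrf u hu
    have := h8 p hp r (by rw [h1]; exact hr)
    rw [c6_bt, hb] at this
    simp only [cond_true, Bool.and_eq_true, c6_beq] at this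
    refine ⟨this.1, ?_⟩
    rw [← hp2, ← this.2]
  · intro u hu hu0
    obtain ⟨p, hp, rfl, hp2⟩ := hrf u hu
    rcases (h9 p hp).1 with h | h
    · exact absurd h hu0
    · rw [← hp2]; exact (hlt _ _).1 h
  · intro r hr
    exact (h12 r (by rw [h1]; exact hr)).1
  · intro r hr
    exact (h12 r (by rw [h1]; exact hr)).2
  · intro u hu hu3 r hr hbr s hs hbs
    obtain ⟨p, hp, rfl, hp2⟩ := hrf u hu
    have := hn p hp
    rw [hp2, show Nat.ble 3 (Dat.rf D.L p.1) = true from (hble _ _).2 hu3] at this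
    simp only [cond_true, c6_allI, Nat.zero_add] at this
    have := this r (by rw [h1]; exact hr)
    rw [c6_bt, hbr] at this
    simp only [cond_true, c6_allI, Nat.zero_add] at this
    have := this s (by rw [h1]; exact hs)
    rw [c6_bt, hbs] at this
    simp only [cond_true, c6_exI, Nat.zero_add] at this
    obtain ⟨t, ht, ht2⟩ := this
    simp only [Bool.and_eq_true, c6_bt, Bool.not_eq_true', ← Bool.not_eq_true, c6_beq] at ht2
    exact ⟨t, by rw [← h1]; exact ht, ht2.1.1, ht2.1.2, ht2.2⟩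
  · intro u hu hu2 r hr hbr
    obtain ⟨p, hp, rfl, hp2⟩ := hrf u hu
    have := hn p hp
    rw [hp2, hu2] at this
    have h13 : Dat.allI (fun r _ => cond (Dat.bt p.1 r)
      (Nat.beq (Dat.orb D p.1 8 (Nat.pow 2 r) 0) p.1) true) 0 D.Kr = true := this
    rw [c6_allI] at h13
    have h14 := h13 r (by rw [h1]; exact hr)
    rw [Nat.zero_add, c6_bt, hbr] at h14
    exact (c6_beq _ _).1 h14

section

variable {D : Dat} (F : C6F D)

include F

theorem c6_Km (u s : ℕ) : (D.Km u).testBit s = true ↔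
    s < D.N ∧ ∀ r < D.N, u.testBit r = true → (D.Kr.getD r 0).testBit s = true := by
  unfold Dat.Km
  rw [c6_Kf, F.kl]
  unfold Dat.full
  rw [Nat.testBit_two_pow_sub_one, decide_eq_true_iff]

theorem c6_tm (u t : ℕ) : (D.tm u).testBit t = true ↔
    ∃ r < D.N, u.testBit r = true ∧ D.tb.getD r 0 = t := by
  unfold Dat.tm
  rw [c6_tf, F.tl]
  simp

theorem c6_bit_lt {u : ℕ} (hu : Dat.mem D.L u = true) {i : ℕ} (hi : u.testBit i = true) :
    i < D.N := by
  by_contra hc
  have h1 := F.ult u hu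
  have h2 : u < 2 ^ i := lt_of_lt_of_le h1 (Nat.pow_le_pow_right (by norm_num) (by omega))
  rw [Nat.testBit_lt_two_pow h2] at hi
  exact absurd hi (by simp)

theorem c6_surj (q : ℕ) (hq : q < D.N) : ∃ r < D.N, D.tb.getD r 0 = q := by
  let f : Fin D.N → Fin D.N := fun r => ⟨D.tb.getD r 0, F.tlt r r.2⟩
  have hf : Function.Injective f := by
    intro a b hab
    apply Fin.ext
    exact F.tinj a a.2 b b.2 (by simpa [f] using hab)
  obtain ⟨r, hr⟩ := (Finite.injective_iff_surjective.1 hf) ⟨q, hq⟩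
  exact ⟨r, r.2, by simpa [f] using congrArg Fin.val hr⟩

theorem c6_sym2 (r s : ℕ) (hr : r < D.N) (hs : s < D.N) :
    ((D.Kr.getD r 0).testBit s = true ↔ (D.Kr.getD s 0).testBit (D.tb.getD r 0) = true) := by
  rw [F.sym r hr s hs]

/-- Every element of the list is a complement of a mask. -/
theorem c6_cover {u : ℕ} (hu : Dat.mem D.L u = true) : ∃ w, D.Km w = u := by
  obtain ⟨w, hw⟩ := c6_mask (fun r => (D.Km u).testBit (D.tb.getD r 0) = true) D.N
  refine ⟨w, c6_ext (fun s => ?_)⟩
  rw [c6_Km F]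
  constructor
  · rintro ⟨hs, h⟩
    have h1 : (D.Km (D.Km u)).testBit (D.tb.getD s 0) = true := by
      rw [c6_Km F]
      refine ⟨F.tlt s hs, ?_⟩
      intro q hq hqb
      obtain ⟨r, hr, rfl⟩ := c6_surj F q hq
      have h2 := h r hr ((hw r).2 ⟨hr, hqb⟩)
      rw [c6_sym2 F r s hr hs, c6_sym2 F s _ hs hq] at h2
      exact h2
    rw [F.KK u hu, c6_tm F] at h1
    obtain ⟨t, ht, htb, hts⟩ := h1
    rw [← F.tinj t ht s hs hts]
    exact htb
  · intro hs
    have hsN := c6_bit_lt F hu hs
    refine ⟨hsN, ?_⟩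
    intro r hr hrw
    have h1 := ((hw r).1 hrw).2
    rw [c6_Km F] at h1
    rw [c6_sym2 F r s hr hsN]
    exact h1.2 s hsN hs

theorem c6_KfL (ks : List ℕ) (hks : ∀ k ∈ ks, ∃ r < D.N, k = D.Kr.getD r 0) :
    ∀ u acc, Dat.mem D.L acc = true → Dat.mem D.L (Dat.Kf ks u acc) = true := by
  induction ks with
  | nil => intro u acc h; exact h
  | cons k ks ih =>
    intro u acc h
    unfold Dat.Kf
    apply ih (fun k' hk' => hks k' (List.mem_cons_of_mem _ hk'))
    cases Nat.beq (Nat.mod u 2) 1
    · exact h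
    · obtain ⟨r, hr, rfl⟩ := hks k List.mem_cons_self
      exact F.cl acc h r hr

theorem c6_KfL' (u acc : ℕ) (h : Dat.mem D.L acc = true) :
    Dat.mem D.L (Dat.Kf D.Kr u acc) = true := by
  apply c6_KfL F _ _ u acc h
  intro k hk
  obtain ⟨r, hr, hrk⟩ := List.mem_iff_getElem.1 hk
  refine ⟨r, by rw [← F.kl]; exact hr, ?_⟩
  rw [List.getD_eq_getElem _ _ hr, hrk]

theorem c6_memK (u : ℕ) : Dat.mem D.L (D.Km u) = true := c6_KfL' F u _ F.mf

theorem c6_memland {u v : ℕ} (hu : Dat.mem D.L u = true) (hv : Dat.mem D.L v = true) :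
    Dat.mem D.L (Nat.land u v) = true := by
  obtain ⟨w, rfl⟩ := c6_cover F hv
  have h1 : Nat.land u (D.Km w) = Dat.Kf D.Kr w u := by
    apply c6_ext
    intro i
    rw [c6_land, Bool.and_eq_true, c6_Km F, c6_Kf, F.kl]
    constructor
    · rintro ⟨h1, -, h2⟩; exact ⟨h1, h2⟩
    · rintro ⟨h1, h2⟩; exact ⟨h1, c6_bit_lt F hu h1, h2⟩
  rw [h1]
  exact c6_KfL' F w u hu

theorem c6_anti {u v : ℕ} (h : ∀ i, u.testBit i = true → v.testBit i = true) :
    ∀ i, (D.Km v).testBit i = true → (D.Km u).testBit i = true := by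
  intro i hi
  rw [c6_Km F] at hi ⊢
  exact ⟨hi.1, fun r hr hur => hi.2 r hr (h r hur)⟩

theorem c6_anti2 {u v : ℕ} (hu : Dat.mem D.L u = true) (hv : Dat.mem D.L v = true)
    (h : ∀ i, (D.Km v).testBit i = true → (D.Km u).testBit i = true) :
    ∀ i, u.testBit i = true → v.testBit i = true := by
  intro i hi
  have hiN := c6_bit_lt F hu hi
  have h1 := c6_anti F h (D.tb.getD i 0)
  rw [F.KK u hu, F.KK v hv, c6_tm F, c6_tm F] at h1
  obtain ⟨r, hr, hrv, hri⟩ := h1 ⟨i, hiN, hi, rfl⟩
  rw [F.tinj r hr i hiN hri] at hrv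
  exact hrv

theorem c6_K0 : D.Km 0 = D.full := by
  apply c6_ext
  intro i
  rw [c6_Km F]
  unfold Dat.full
  rw [Nat.testBit_two_pow_sub_one, decide_eq_true_iff]
  simp

theorem c6_Kfull : D.Km D.full = 0 := by
  rw [← c6_K0 F, F.KK 0 F.m0]
  apply c6_ext
  intro i
  rw [c6_tm F]
  simp

theorem c6_Katom (r : ℕ) (hr : r < D.N) : D.Km (2 ^ r) = D.Kr.getD r 0 := by
  apply c6_ext
  intro i
  rw [c6_Km F]
  constructor
  · rintro ⟨-, h⟩
    exact h r hr (by rw [Nat.testBit_two_pow]; simp)
  · intro h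
    refine ⟨?_, ?_⟩
    · by_contra hc
      have h2 : D.Kr.getD r 0 < 2 ^ i :=
        lt_of_lt_of_le (F.klt r hr) (Nat.pow_le_pow_right (by norm_num) (by omega))
      rw [Nat.testBit_lt_two_pow h2] at h
      exact absurd h (by simp)
    · intro q hq hqr
      rw [Nat.testBit_two_pow, decide_eq_true_iff] at hqr
      subst hqr
      exact h

theorem c6_starrk (n : ℕ) : ∀ s m, Dat.rf D.L s = n → Dat.mem D.L s = true →
    Dat.mem D.L m = true → (∀ i, s.testBit i = true → m.testBit i = true) →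
    Nat.land (D.Km (Nat.land (D.Km s) m)) (D.Km s) = D.Km m ∧
    Dat.rf D.L s + Dat.rf D.L (Nat.land (D.Km s) m) = Dat.rf D.L m := by
  induction n with
  | zero =>
    intro s m hn hs hm hsm
    have hs0 : s = 0 := by
      by_contra hc
      have := F.pos s hs hc
      omega
    subst hs0
    have h1 : Nat.land (D.Km 0) m = m := by
      rw [c6_K0 F]
      apply c6_ext
      intro i
      rw [c6_land, Bool.and_eq_true]
      unfold Dat.full
      rw [Nat.testBit_two_pow_sub_one, decide_eq_true_iff]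
      exact ⟨fun h => h.2, fun h => ⟨c6_bit_lt F hm h, h⟩⟩
    rw [h1]
    refine ⟨?_, by rw [F.r0]; omega⟩
    apply c6_ext
    intro i
    rw [c6_land, Bool.and_eq_true, c6_K0 F]
    unfold Dat.full
    rw [Nat.testBit_two_pow_sub_one, decide_eq_true_iff]
    exact ⟨fun h => h.1, fun h => ⟨h, ((c6_Km F m i).1 h).1⟩⟩
  | succ n ih =>
    intro s m hn hs hm hsm
    have hs0 : s ≠ 0 := by
      intro hc
      rw [hc, F.r0] at hn
      omega
    obtain ⟨r, hr⟩ : ∃ r, s.testBit r = true := by
      by_contra hc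
      apply hs0
      apply Nat.eq_of_testBit_eq
      intro i
      rw [Nat.zero_testBit]
      by_contra h
      exact hc ⟨i, by simpa using h⟩
    have hrN := c6_bit_lt F hs hr
    set k := D.Kr.getD r 0 with hk
    obtain ⟨h1, h2⟩ := F.st s hs r hrN hr
    obtain ⟨h3, h4⟩ := F.st m hm r hrN (hsm r hr)
    rw [← hk] at h1 h2 h3 h4
    have hkm : Dat.mem D.L k = true := by
      rw [hk, ← c6_Katom F r hrN]; exact c6_memK F _
    have hs1 : Dat.mem D.L (Nat.land k s) = true := c6_memland F hkm hs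
    have hm1 : Dat.mem D.L (Nat.land k m) = true := c6_memland F hkm hm
    obtain ⟨h5, h6⟩ := ih (Nat.land k s) (Nat.land k m) (by omega) hs1 hm1 (by
      intro i hi
      rw [c6_land, Bool.and_eq_true] at hi ⊢
      exact ⟨hi.1, hsm i hi.2⟩)
    have h7 : Nat.land (D.Km (Nat.land k s)) (Nat.land k m) = Nat.land (D.Km s) m := by
      rw [← h1]
      apply c6_ext
      intro i
      simp only [c6_land, Bool.and_eq_true]
      tauto
    rw [h7] at h5 h6
    refine ⟨?_, by omega⟩
    rw [← h3, ← h5]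
    apply c6_ext
    intro i
    have h8 : (D.Km s).testBit i = true ↔
        (D.Km (Nat.land k s)).testBit i = true ∧ k.testBit i = true := by
      rw [← h1, c6_land, Bool.and_eq_true]
    simp only [c6_land, Bool.and_eq_true] at h8 ⊢
    tauto

end

/-- The lattice of the data. -/
@[instance_reducible]
noncomputable def c6_inst (D : Dat) (F : C6F D) : NC D.S where
  le x y := Nat.land x.1 y.1 = x.1
  le_refl x := (c6_le _ _).2 (fun i h => h)
  le_trans x y z h1 h2 := (c6_le _ _).2 (fun i h => (c6_le _ _).1 h2 i ((c6_le _ _).1 h1 i h))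
  le_antisymm x y h1 h2 := Dat.S.ext (c6_ext (fun i =>
    ⟨(c6_le _ _).1 h1 i, (c6_le _ _).1 h2 i⟩))
  inf x y := ⟨Nat.land x.1 y.1, c6_memland F x.2 y.2⟩
  inf_le_left x y := (c6_le _ _).2 (fun i h => by
    rw [c6_land, Bool.and_eq_true] at h; exact h.1)
  inf_le_right x y := (c6_le _ _).2 (fun i h => by
    rw [c6_land, Bool.and_eq_true] at h; exact h.2)
  le_inf x y z h1 h2 := (c6_le _ _).2 (fun i h => by
    rw [c6_land, Bool.and_eq_true]
    exact ⟨(c6_le _ _).1 h1 i h, (c6_le _ _).1 h2 i h⟩)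
  top := ⟨D.full, F.mf⟩
  le_top x := (c6_le _ _).2 (fun i h => by
    unfold Dat.full
    rw [Nat.testBit_two_pow_sub_one, decide_eq_true_iff]
    exact c6_bit_lt F x.2 h)
  fin := by
    have hf : Function.Injective (fun x : D.S => (⟨x.1, F.ult x.1 x.2⟩ : Fin (2 ^ D.N))) := by
      intro a b hab
      apply Dat.S.ext
      simpa using hab
    exact Finite.of_injective _ hf
  K x := ⟨D.Km x.1, c6_memK F _⟩
  K_le x y := ⟨fun h => (c6_le _ _).2 (c6_anti2 F x.2 y.2 ((c6_le _ _).1 h)),
    fun h => (c6_le _ _).2 (c6_anti F ((c6_le _ _).1 h))⟩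
  star s m h := Dat.S.ext (c6_starrk F _ s.1 m.1 rfl s.2 m.2 ((c6_le _ _).1 h)).1
  rk x := Dat.rf D.L x.1
  rk_quo s m h := (c6_starrk F _ s.1 m.1 rfl s.2 m.2 ((c6_le _ _).1 h)).2
  rk_pos s h := F.pos s.1 s.2 (fun hc => h (Dat.S.ext (by
    show s.1 = D.Km D.full
    rw [c6_Kfull F, hc])))

theorem c6_ok (D : Dat) (F : C6F D) : @Dat.Ok D (c6_inst D F) := by
  let _ := c6_inst D F
  exact
    { le := fun x y => Iff.rfl
      inf := fun x y => rfl
      top := rfl
      bo := c6_Kfull F
      K := fun x => rfl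
      tau := fun x => F.KK x.1 x.2
      rk := fun x => rfl
      atom := F.am
      rk_one := fun x => ⟨fun h => F.one x.1 x.2 h, by
        rintro ⟨r, hr, hx⟩
        show Dat.rf D.L x.1 = 1
        rw [hx]
        exact F.ar r hr⟩ }

theorem c6_conn (hb : ∀ (S : Type) [NC S], NC.Basic S) (D : Dat) (F : C6F D) :
    @NC.Conn D.S (c6_inst D F) := by
  let inst := c6_inst D F
  have B := hb D.S
  have hO : Dat.Ok D := c6_ok D F
  have hpow : ∀ a b : ℕ, (2 ^ a : ℕ).testBit b = true ↔ a = b := fun a b => by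
    rw [Nat.testBit_two_pow, decide_eq_true_iff]
  refine { one := ?_, two := ?_, three := ?_ }
  · intro m hm
    have hm0 : m.1 ≠ 0 := by
      intro hc
      apply hm
      apply Dat.S.ext
      rw [hO.bo, hc]
    obtain ⟨r, hr⟩ : ∃ r, m.1.testBit r = true := by
      by_contra hc
      apply hm0
      apply Nat.eq_of_testBit_eq
      intro i
      rw [Nat.zero_testBit]
      by_contra h
      exact hc ⟨i, by simpa using h⟩
    have hrN := c6_bit_lt F m.2 hr
    refine ⟨⟨2 ^ r, F.am r hrN⟩, ?_, ?_⟩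
    · rw [hO.rk_one]
      exact ⟨r, hrN, rfl⟩
    · rw [hO.le]
      refine (c6_le _ _).2 (fun i hi => ?_)
      have := (hpow r i).1 hi
      rw [← this]
      exact hr
  · intro m hm r s hr hs hrm hsm
    obtain ⟨a, ha, hra⟩ := (hO.rk_one r).1 hr
    obtain ⟨b, hbN, hsb⟩ := (hO.rk_one s).1 hs
    have hit : ∀ k, NC.rk ((fun x => NC.dv x m)^[k] r) = 1 ∧
        ((fun x => NC.dv x m)^[k] r) ≤ m := by
      intro k
      induction k with
      | zero => exact ⟨hr, hrm⟩
      | succ k ih =>
        rw [Function.iterate_succ_apply']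
        refine ⟨?_, inf_le_right⟩
        have := NC.rk_quo _ m ih.2
        rw [ih.1, hm] at this
        show NC.rk (NC.K _ ⊓ m) = 1
        omega
    have horb : ∀ (f : ℕ) (x : D.S) (acc c : ℕ),
        (Dat.orb D m.1 f x.1 acc).testBit c = true → acc.testBit c = true ∨
        ∃ k, ((fun x => NC.dv x m)^[k] x).1.testBit c = true := by
      intro f
      induction f with
      | zero => intro x acc c h; exact Or.inl h
      | succ f ih =>
        intro x acc c h
        have h1 : (Dat.orb D m.1 f (NC.dv x m).1 (Nat.lor acc x.1)).testBit c = true := h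
        rcases ih _ _ _ h1 with h2 | ⟨k, hk⟩
        · rw [c6_lor, Bool.or_eq_true] at h2
          rcases h2 with h2 | h2
          · exact Or.inl h2
          · exact Or.inr ⟨0, h2⟩
        · exact Or.inr ⟨k + 1, hk⟩
    have hma : m.1.testBit a = true :=
      (c6_le _ _).1 ((hO.le r m).1 hrm) a (by rw [hra, hpow])
    have hmb : m.1.testBit b = true :=
      (c6_le _ _).1 ((hO.le s m).1 hsm) b (by rw [hsb, hpow])
    have h1 := F.c2 m.1 m.2 hm a ha hma
    rw [← hra] at h1
    rw [← h1] at hmb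
    rcases horb _ _ _ _ hmb with h2 | ⟨k, hk⟩
    · rw [Nat.zero_testBit] at h2
      exact absurd h2 (by simp)
    · refine ⟨k, Dat.S.ext ?_⟩
      obtain ⟨c, hc, hc2⟩ := (hO.rk_one _).1 (hit k).1
      rw [hc2, hpow] at hk
      rw [hc2, hsb, hk]
  · intro m hm r s hr hs hrm hsm
    obtain ⟨a, ha, hra⟩ := (hO.rk_one r).1 hr
    obtain ⟨b, hbN, hsb⟩ := (hO.rk_one s).1 hs
    have hma : m.1.testBit a = true :=
      (c6_le _ _).1 ((hO.le r m).1 hrm) a (by rw [hra, hpow])
    have hmb : m.1.testBit b = true :=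
      (c6_le _ _).1 ((hO.le s m).1 hsm) b (by rw [hsb, hpow])
    obtain ⟨c, hc, hcm, h1, h2⟩ := F.c3 m.1 m.2 hm a ha hma b hbN hmb
    let t : D.S := ⟨2 ^ c, F.am c hc⟩
    have htm : t ≤ m := by
      rw [hO.le]
      refine (c6_le _ _).2 (fun i hi => ?_)
      have := (hpow c i).1 hi
      rw [← this]
      exact hcm
    have key : ∀ x : D.S, x ≤ m → NC.K x ⊓ NC.K t ≠ NC.K m →
        ∃ j, x ≤ j ∧ t ≤ j ∧ j < m := by
      intro x hxm hne
      obtain ⟨j, hj1, hj2, hj3⟩ := B.sup x t
      refine ⟨j, hj1, hj2, lt_of_le_of_ne (hj3 m hxm htm) ?_⟩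
      rintro rfl
      apply hne
      obtain ⟨z, hz⟩ := B.K_bij.2 (NC.K x ⊓ NC.K t)
      apply le_antisymm
      · rw [← hz]
        refine B.K_anti (hj3 z ?_ ?_)
        · rw [← NC.K_le, hz]; exact inf_le_left
        · rw [← NC.K_le, hz]; exact inf_le_right
      · exact le_inf (B.K_anti hj1) (B.K_anti hj2)
    have ht1 : t.val = 2 ^ c := rfl
    refine ⟨t, ?_, htm, key r hrm ?_, key s hsm ?_⟩
    · rw [hO.rk_one]
      exact ⟨c, hc, rfl⟩
    · intro h3
      apply h1
      have := congrArg Dat.S.val h3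
      rw [hO.inf, hO.K, hO.K, hO.K, hra, ht1, c6_Katom F a ha, c6_Katom F c hc] at this
      exact this
    · intro h3
      apply h2
      have := congrArg Dat.S.val h3
      rw [hO.inf, hO.K, hO.K, hO.K, hsb, ht1, c6_Katom F b hbN, c6_Katom F c hc] at this
      exact this

/-- The checks are sound. -/
theorem sp_dat (hb : ∀ (S : Type) [NC S], NC.Basic S) : SpDat := by
  intro D hD
  have F := c6_facts D hD
  exact ⟨c6_inst D F, c6_ok D F, c6_conn hb D F⟩

end Pool.Agent.H54.RF
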