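import Pool.Agent.H54.RF.SpecR
import Pool.Agent.H54.RF.DatOk

/-!
# Project RF (MP_35eb49): soundness of the certificates of a realisation
-/

set_option autoImplicit false

namespace Pool.Agent.H54.RF

open NC

/-! ### Tests -/

theorem c10_anyL {α : Type} (p : α → Bool) (l : List α) :
    Cert.anyL p l = true ↔ ∃ x ∈ l, p x = true := by
  induction l with
  | nil => simp [Cert.anyL]
  | cons x xs ih =>
    unfold Cert.anyL
    cases hx : p x
    · simp [hx, ih]
    · simp [hx]

theorem c10_allN (n : ℕ) (p : ℕ → Bool) : Cert.allN n p = true ↔ ∀ k < n, p k = true := by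
  induction n with
  | zero => simp [Cert.allN]
  | succ n ih =>
    have h1 : Cert.allN (n + 1) p = cond (p n) (Cert.allN n p) false := rfl
    rw [h1]
    cases hx : p n
    · simp only [cond_false, Bool.false_eq_true, false_iff, not_forall]
      exact ⟨n, Nat.lt_succ_self n, by simp [hx]⟩
    · simp only [cond_true]
      rw [ih]
      constructor
      · intro h k hk
        rcases Nat.lt_succ_iff_lt_or_eq.1 hk with h2 | h2
        · exact h k h2
        · rw [h2]; exact hx
      · intro h k hk
        exact h k (by omega)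

theorem c10_it {α : Type} (f : α → α) : ∀ (k : ℕ) (x : α), Cert.it f k x = f^[k] x := by
  intro k
  induction k with
  | zero => intro x; rfl
  | succ k ih => intro x; exact ih (f x)

theorem c10_eqL : ∀ l l' : List ℕ, Wd.eqL l l' = true → l = l' := by
  intro l
  induction l with
  | nil =>
    intro l' h
    cases l' with
    | nil => rfl
    | cons b l' => simp [Wd.eqL] at h
  | cons a l ih =>
    intro l' h
    cases l' with
    | nil => simp [Wd.eqL] at h
    | cons b l' =>
      unfold Wd.eqL at h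
      cases hx : Nat.beq a b
      · rw [hx] at h; simp at h
      · rw [hx] at h
        rw [(c6_beq _ _).1 hx, ih l' h]

theorem c10_blt (a b : ℕ) : Nat.blt a b = true ↔ a < b := by
  unfold Nat.blt
  rw [Nat.ble_eq]
  exact Iff.rfl

/-! ### Words -/

section

variable {n : ℕ} (M : CoxeterMatrix (Fin n))

/-- the generator of a number -/
def c10_g (x : ℕ) : Art M := if h : x < n then ge M ⟨x, h⟩ else 1

/-- the element of a word of numbers -/
def c10_phi (l : List ℕ) : Art M := (l.map (c10_g M)).prod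

theorem c10_phi_nil : c10_phi M [] = 1 := rfl

theorem c10_phi_cons (x : ℕ) (l : List ℕ) : c10_phi M (x :: l) = c10_g M x * c10_phi M l := by
  unfold c10_phi
  rw [List.map_cons, List.prod_cons]

theorem c10_phi_append (l l' : List ℕ) :
    c10_phi M (l ++ l') = c10_phi M l * c10_phi M l' := by
  unfold c10_phi
  rw [List.map_append, List.prod_append]

theorem c10_g_val (i : Fin n) : c10_g M i = ge M i := by
  unfold c10_g
  rw [dif_pos i.2]

theorem c10_phi_map (l : List (Fin n)) : c10_phi M (l.map Fin.val) = wd M l := by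
  unfold c10_phi wd
  rw [List.map_map]
  congr 1
  apply List.map_congr_left
  intro i _
  exact c10_g_val M i

theorem c10_phi_pw (l : List ℕ) (k : ℕ) : c10_phi M (Wd.pw l k) = c10_phi M l ^ k := by
  induction k with
  | zero => rw [pow_zero]; rfl
  | succ k ih => rw [Wd.pw, c10_phi_append, ih, pow_succ']

theorem c10_pw_lt (l : List ℕ) (hl : ∀ x ∈ l, x < n) (k : ℕ) : ∀ x ∈ Wd.pw l k, x < n := by
  induction k with
  | zero => intro x hx; simp [Wd.pw] at hx
  | succ k ih =>
    intro x hx
    rw [Wd.pw, List.mem_append] at hx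
    rcases hx with h | h
    · exact hl x h
    · exact ih x h

/-- alternating words of Mathlib -/
theorem c10_alt (i j : Fin n) : ∀ k : ℕ, Wd.alt k i j =
    (if Even k then CoxeterSystem.alternatingWord i j k
      else CoxeterSystem.alternatingWord j i k).map Fin.val := by
  intro k
  induction k generalizing i j with
  | zero => rfl
  | succ k ih =>
    rw [Wd.alt, ih j i]
    by_cases hk : Even k
    · have h1 : ¬ Even (k + 1) := by
        rw [Nat.even_add_one]; exact not_not.2 hk
      rw [if_pos hk, if_neg h1, CoxeterSystem.alternatingWord_succ', if_pos hk, List.map_cons]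
    · have h1 : Even (k + 1) := by
        rw [Nat.even_add_one]; exact hk
      rw [if_neg hk, if_pos h1, CoxeterSystem.alternatingWord_succ', if_neg hk, List.map_cons]

theorem c10_rel (i j : Fin n) : wd M (CoxeterSystem.alternatingWord i j (M i j)) =
    wd M (CoxeterSystem.alternatingWord j i (M i j)) := by
  have h1 : ∀ l : List (Fin n), wd M l = PresentedGroup.mk (Rel M) ((l.map FreeGroup.of).prod) := by
    intro l
    unfold wd
    rw [map_list_prod, List.map_map]
    rfl
  rw [h1, h1]
  have h2 : PresentedGroup.mk (Rel M)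
      (((CoxeterSystem.alternatingWord i j (M i j)).map FreeGroup.of).prod *
      (((CoxeterSystem.alternatingWord j i (M i j)).map FreeGroup.of).prod)⁻¹) = 1 :=
    PresentedGroup.one_of_mem ⟨(i, j), rfl⟩
  rw [map_mul, map_inv, mul_inv_eq_one] at h2
  exact h2

theorem c10_alt_phi (i j : Fin n) :
    c10_phi M (Wd.alt (M i j) i j) = c10_phi M (Wd.alt (M i j) j i) := by
  rw [c10_alt, c10_alt, c10_phi_map, c10_phi_map]
  split_ifs
  · exact c10_rel M i j
  · exact (c10_rel M i j).symm

theorem c10_alt_mem (k : ℕ) : ∀ a b x : ℕ, x ∈ Wd.alt k a b → x = a ∨ x = b := by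
  induction k with
  | zero => intro a b x h; simp [Wd.alt] at h
  | succ k ih =>
    intro a b x h
    rw [Wd.alt, List.mem_cons] at h
    rcases h with h | h
    · exact Or.inl h
    · exact (ih b a x h).symm

theorem c10_dropA (k : ℕ) : ∀ (a b : ℕ) (l l' : List ℕ), Wd.dropA k a b l = some l' →
    l = Wd.alt k a b ++ l' := by
  induction k with
  | zero =>
    intro a b l l' h
    simp only [Wd.dropA, Option.some.injEq] at h
    rw [h]
    rfl
  | succ k ih =>
    intro a b l l' h
    cases l with
    | nil => simp [Wd.dropA] at h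
    | cons x l =>
      unfold Wd.dropA at h
      cases hx : Nat.beq x a
      · rw [hx] at h; simp at h
      · rw [hx] at h
        rw [(c6_beq _ _).1 hx, Wd.alt, ih b a l l' h]
        rfl

variable (m : List (List ℕ)) (hm : ∀ i j : Fin n, M i j = Wd.en m i j)

include hm

theorem c10_front (l : List ℕ) (hl : ∀ x ∈ l, x < n) :
    (∀ x ∈ Wd.front m l, x < n) ∧ c10_phi M (Wd.front m l) = c10_phi M l := by
  match l with
  | [] => exact ⟨hl, rfl⟩
  | [a] => exact ⟨hl, rfl⟩
  | a :: b :: l =>
    have ha : a < n := hl a (by simp)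
    have hb : b < n := hl b (by simp)
    have hM : M ⟨a, ha⟩ ⟨b, hb⟩ = Wd.en m a b := hm ⟨a, ha⟩ ⟨b, hb⟩
    rcases hd : Wd.dropA (Wd.en m a b) a b (a :: b :: l) with _ | l'
    · have hf : Wd.front m (a :: b :: l) = a :: b :: l := by
        simp only [Wd.front, hd]
      rw [hf]
      exact ⟨hl, rfl⟩
    · have h1 := c10_dropA _ a b _ l' hd
      have hf : Wd.front m (a :: b :: l) = Wd.alt (Wd.en m a b) b a ++ l' := by
        simp only [Wd.front, hd]
      rw [hf]
      constructor
      · intro x hx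
        rw [List.mem_append] at hx
        rcases hx with hx | hx
        · rcases c10_alt_mem _ _ _ _ hx with h | h
          · rw [h]; exact hb
          · rw [h]; exact ha
        · apply hl
          rw [h1, List.mem_append]
          exact Or.inr hx
      · rw [h1, c10_phi_append, c10_phi_append, ← hM]
        congr 1
        exact (c10_alt_phi M ⟨a, ha⟩ ⟨b, hb⟩).symm

theorem c10_stp : ∀ (p : ℕ) (l : List ℕ), (∀ x ∈ l, x < n) →
    (∀ x ∈ Wd.stp m p l, x < n) ∧ c10_phi M (Wd.stp m p l) = c10_phi M l := by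
  intro p
  induction p with
  | zero => intro l hl; exact c10_front M m hm l hl
  | succ p ih =>
    intro l hl
    cases l with
    | nil => exact ⟨hl, rfl⟩
    | cons a l =>
      obtain ⟨h1, h2⟩ := ih l (fun x hx => hl x (List.mem_cons_of_mem _ hx))
      rw [Wd.stp]
      constructor
      · intro x hx
        rw [List.mem_cons] at hx
        rcases hx with hx | hx
        · rw [hx]; exact hl a (by simp)
        · exact h1 x hx
      · rw [c10_phi_cons, c10_phi_cons, h2]

theorem c10_run : ∀ (ps : List ℕ) (l : List ℕ), (∀ x ∈ l, x < n) →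
    c10_phi M (Wd.run m ps l) = c10_phi M l := by
  intro ps
  induction ps with
  | nil => intro l _; rfl
  | cons p ps ih =>
    intro l hl
    obtain ⟨h1, h2⟩ := c10_stp M m hm p l hl
    rw [Wd.run, ih _ h1, h2]

end

/-! ### Masks -/

section

variable {D : Dat} [NC D.S] (hO : D.Ok) (F : C6F D)

/-- the atom of a number -/
def c10_at (hO : D.Ok) (q : ℕ) (hq : q < D.N) : D.S := ⟨2 ^ q, hO.atom q hq⟩

theorem c10_at_congr (hO : D.Ok) {q q' : ℕ} (h : q = q') (hq : q < D.N) (hq' : q' < D.N) :
    c10_at hO q hq = c10_at hO q' hq' := by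
  subst h
  rfl

theorem c10_pow (a b : ℕ) : (2 ^ a : ℕ).testBit b = true ↔ a = b := by
  rw [Nat.testBit_two_pow, decide_eq_true_iff]

theorem c10_le (hO : D.Ok) (q : ℕ) (hq : q < D.N) (w : D.S) :
    c10_at hO q hq ≤ w ↔ w.1.testBit q = true := by
  rw [hO.le, c6_le]
  constructor
  · intro h
    exact h q ((c10_pow q q).2 rfl)
  · intro h i hi
    have := (c10_pow q i).1 hi
    rw [← this]
    exact h

include F in
theorem c10_K (hO : D.Ok) (q : ℕ) (hq : q < D.N) :
    (NC.K (c10_at hO q hq)).1 = D.Kr.getD q 0 := by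
  rw [hO.K]
  exact c6_Katom F q hq

include F in
theorem c10_dv (hO : D.Ok) (q : ℕ) (hq : q < D.N) (w : D.S) :
    (NC.dv (c10_at hO q hq) w).1 = Nat.land (D.Kr.getD q 0) w.1 := by
  unfold NC.dv
  rw [hO.inf, c10_K F hO q hq]

include F in
theorem c10_itlt (k : ℕ) : ∀ q : ℕ, q < D.N → (fun x => D.tb.getD x 0)^[k] q < D.N := by
  induction k with
  | zero => intro q hq; exact hq
  | succ k ih => intro q hq; exact ih _ (F.tlt q hq)

include F in
theorem c10_tau (hO : D.Ok) (k : ℕ) : ∀ (q : ℕ) (hq : q < D.N),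
    NC.tau^[k] (c10_at hO q hq) =
      c10_at hO ((fun x => D.tb.getD x 0)^[k] q) (c10_itlt F k q hq) := by
  induction k with
  | zero => intro q hq; rfl
  | succ k ih =>
    intro q hq
    have h1 : NC.tau (c10_at hO q hq) = c10_at hO (D.tb.getD q 0) (F.tlt q hq) := by
      apply Dat.S.ext
      rw [hO.tau]
      apply c6_ext
      intro i
      rw [c6_tm F]
      show (∃ r < D.N, (2 ^ q : ℕ).testBit r = true ∧ D.tb.getD r 0 = i) ↔
        (2 ^ (D.tb.getD q 0) : ℕ).testBit i = true
      rw [c10_pow]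
      constructor
      · rintro ⟨r, _, h2, h3⟩
        rw [c10_pow] at h2
        rw [h2]
        exact h3
      · intro h
        exact ⟨q, hq, (c10_pow q q).2 rfl, h⟩
    rw [Function.iterate_succ_apply, h1]
    exact ih _ (F.tlt q hq)

include F in
theorem c10_taubits (hO : D.Ok) (k : ℕ) (s : D.S) (i : ℕ) :
    (NC.tau^[k] s).1.testBit i = true ↔
      ∃ r < D.N, s.1.testBit r = true ∧ (fun x => D.tb.getD x 0)^[k] r = i := by
  induction k generalizing i with
  | zero =>
    constructor
    · intro h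
      exact ⟨i, c6_bit_lt F s.2 h, h, rfl⟩
    · rintro ⟨r, _, h1, h2⟩
      have : r = i := h2
      rw [← this]
      exact h1
  | succ k ih =>
    rw [Function.iterate_succ_apply', hO.tau, c6_tm F]
    constructor
    · rintro ⟨r, _, h1, h2⟩
      obtain ⟨r', hr', h3, h4⟩ := (ih r).1 h1
      refine ⟨r', hr', h3, ?_⟩
      rw [Function.iterate_succ_apply', h4]
      exact h2
    · rintro ⟨r', hr', h3, h4⟩
      rw [Function.iterate_succ_apply'] at h4
      exact ⟨_, c10_itlt F k r' hr', (ih _).2 ⟨r', hr', h3, rfl⟩, h4⟩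

theorem c10_dvit (hO : D.Ok) (w : D.S) (k : ℕ) : ∀ x : D.S,
    ((fun x => NC.dv x w)^[k] x).1 = (fun y => Nat.land (D.Km y) w.1)^[k] x.1 := by
  induction k with
  | zero => intro x; rfl
  | succ k ih =>
    intro x
    have h1 : (NC.dv x w).1 = Nat.land (D.Km x.1) w.1 := by
      unfold NC.dv
      rw [hO.inf, hO.K]
    rw [Function.iterate_succ_apply, Function.iterate_succ_apply, ih, h1]

include F in
theorem c10_chain (hO : D.Ok) {n : ℕ} (A : ℕ → ℕ) (hA : ∀ i : Fin n, A i < D.N)
    (l : List (Fin n)) : ∀ m : D.S,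
    (l.map Fin.val).foldr (fun i f m => cond (Dat.bt m (A i))
      (f (Nat.land (D.Kr.getD (A i) 0) m)) 1) (fun m => m) m.1 = 0 →
    NC.Chain (fun i : Fin n => c10_at hO (A i) (hA i)) l m := by
  induction l with
  | nil =>
    intro m h
    apply Dat.S.ext
    rw [hO.bo]
    exact h
  | cons i l ih =>
    intro m h
    rw [List.map_cons, List.foldr_cons] at h
    cases hb : Dat.bt m.1 (A i)
    · rw [hb] at h
      simp at h
    · rw [hb] at h
      simp only [cond_true] at h
      rw [c6_bt] at hb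
      refine ⟨(c10_le hO _ (hA i) m).2 hb, ih _ ?_⟩
      rw [c10_dv F hO]
      exact h

end

theorem c10_list (n : ℕ) (l : List ℕ) (hl : ∀ x ∈ l, x < n) :
    ∃ l' : List (Fin n), l'.map Fin.val = l := by
  induction l with
  | nil => exact ⟨[], rfl⟩
  | cons a l ih =>
    obtain ⟨l', h⟩ := ih (fun x hx => hl x (List.mem_cons_of_mem _ hx))
    refine ⟨⟨a, hl a (by simp)⟩ :: l', ?_⟩
    rw [List.map_cons, h]

/-- The checks are sound. -/
theorem sp_cert : SpCert := by
  intro D _ _hB hO hD X hX n M hn hM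
  have F := c6_facts D hD
  unfold Cert.check at hX
  simp only [Bool.and_eq_true] at hX
  obtain ⟨⟨⟨h1, h2⟩, h3⟩, h4⟩ := hX
  unfold Cert.ck1 at h1
  simp only [Bool.and_eq_true, c6_beq, c6_allL, c6_allI, c10_anyL, c10_blt, c10_it,
    Nat.zero_add] at h1
  obtain ⟨⟨⟨⟨⟨⟨h11, h12⟩, h13⟩, h14⟩, h15⟩, h16⟩, h17⟩ := h1
  rw [F.kl] at h15 h16
  have hlen : X.a.length = n := by rw [h11, hn]
  have hAm : ∀ i < n, X.a.getD i 0 ∈ X.a := by
    intro i hi
    have hi' : i < X.a.length := by rw [hlen]; exact hi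
    rw [List.getD_eq_getElem _ _ hi']
    exact List.getElem_mem hi'
  have hA : ∀ i < n, X.a.getD i 0 < D.N := fun i hi => h12 _ (hAm i hi)
  have hol : ∀ x ∈ X.ol, x < n := by
    intro x hx
    rw [← hn]
    exact h13 x hx
  obtain ⟨ol, hol2⟩ := c10_list n X.ol hol
  have hphi : c10_phi M X.ol = wd M ol := by rw [← hol2, c10_phi_map]
  let a : Fin n → D.S := fun i => c10_at hO (X.a.getD i 0) (hA i i.2)
  have ha : ∀ i : Fin n, a i = c10_at hO (X.a.getD i 0) (hA i i.2) := fun i => rfl
  have hinj : ∀ {q q' : ℕ} (hq : q < D.N) (hq' : q' < D.N),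
      c10_at hO q hq = c10_at hO q' hq' → q = q' := by
    intro q q' hq hq' h
    have h5 : (2 ^ q : ℕ) = 2 ^ q' := congrArg Dat.S.val h
    exact Nat.pow_right_injective (le_refl 2) h5
  refine ⟨a, ol, ?_, fun i => rfl, hol2⟩
  constructor
  · -- rk_a
    intro i
    rw [hO.rk_one]
    exact ⟨X.a.getD i 0, hA i i.2, rfl⟩
  · exact h14
  · -- per
    intro s
    apply Dat.S.ext
    apply c6_ext
    intro i
    rw [c10_taubits F hO]
    constructor
    · rintro ⟨r, hr, h5, h6⟩
      rw [h15 r hr] at h6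
      rw [← h6]
      exact h5
    · intro h
      have hi := c6_bit_lt F s.2 h
      exact ⟨i, hi, h, h15 i hi⟩
  · -- orb
    intro r hr
    obtain ⟨q, hq, hrq⟩ := (hO.rk_one r).1 hr
    obtain ⟨q', hq', h5⟩ := h16 q hq
    have h6 : ∃ k, (fun x => D.tb.getD x 0)^[k] q' = q := by
      by_contra hcon
      rw [Bool.not_eq_true', ← Bool.not_eq_true, c10_allN] at h5
      apply h5
      intro k _
      rw [Bool.not_eq_true', ← Bool.not_eq_true, c6_beq]
      intro h7
      exact hcon ⟨k, h7⟩
    obtain ⟨k, hk⟩ := h6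
    obtain ⟨i, hi, hiq⟩ := List.mem_iff_getElem.1 hq'
    have hin : i < n := by rw [← hlen]; exact hi
    refine ⟨k, ⟨i, hin⟩, ?_⟩
    rw [ha, c10_tau F hO]
    apply Dat.S.ext
    rw [hrq]
    show 2 ^ q = 2 ^ ((fun x => D.tb.getD x 0)^[k] (X.a.getD i 0))
    rw [List.getD_eq_getElem _ _ hi, hiq, hk]
  · -- top
    have h5 := c10_chain F hO (fun i => X.a.getD i 0) (fun i => hA i i.2) ol ⊤
    apply h5
    rw [hol2, hO.top]
    exact h17
  · -- dih
    intro i j hij
    unfold Cert.ck2 at h2
    rw [c6_allI] at h2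
    have h5 := h2 i (by rw [hlen]; exact i.2)
    rw [c6_allI] at h5
    have h6 := h5 j (by rw [hlen]; exact j.2)
    simp only [Nat.zero_add, Bool.or_eq_true, c6_beq, c10_anyL, Bool.and_eq_true, c6_bt,
      c10_it] at h6
    rcases h6 with h6 | ⟨t, _, ⟨⟨⟨⟨⟨h7, h8⟩, h9⟩, h10⟩, h10'⟩, h18⟩, h19⟩
    · exact absurd (Fin.ext h6) hij
    · refine ⟨⟨t.2.2, h9⟩, ?_, ?_, ?_, ?_⟩
      · rw [ha, c10_le]
        exact h10
      · rw [ha, c10_le]
        exact h10'
      · rcases h18 with h | h
        · left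
          apply Dat.S.ext
          rw [ha, c10_dv F hO]
          exact h
        · right
          apply Dat.S.ext
          rw [ha j, c10_dv F hO]
          exact h
      · apply Dat.S.ext
        rw [c10_dvit hO, hM]
        exact h19
  · -- P
    intro i j k hk0 hk hij
    obtain ⟨k, rfl⟩ : ∃ k', k = k' + 1 := ⟨k - 1, by omega⟩
    unfold Cert.ck3 at h3
    rw [c6_allI] at h3
    have h5 := h3 j (by rw [hlen]; exact j.2)
    rw [c6_allI] at h5
    have h6 := h5 i (by rw [hlen]; exact i.2)
    rw [c10_allN] at h6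
    have h7 := h6 k (by omega)
    simp only [Nat.zero_add, Bool.or_eq_true, Bool.not_eq_true', ← Bool.not_eq_true, c6_beq,
      c10_anyL, Bool.and_eq_true, c10_it] at h7
    rw [ha, ha, c10_tau F hO] at hij
    have h8 := hinj _ _ hij
    rcases h7 with h7 | ⟨e, _, _, h9⟩
    · exact absurd h8 h7
    · have h10 := c10_eqL _ _ h9
      have h18 := c10_run M X.m hM e.mv (j :: Wd.pw X.ol (k + 1)) (by
        intro x hx
        rw [List.mem_cons] at hx
        rcases hx with hx | hx
        · rw [hx]; exact j.2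
        · exact c10_pw_lt X.ol hol _ x hx)
      rw [h10, c10_phi_append, c10_phi_cons, c10_phi_cons, c10_phi_nil, mul_one, c10_phi_pw,
        hphi, c10_g_val, c10_g_val] at h18
      exact h18.symm
  · -- R
    intro i r hr hri
    obtain ⟨q, hq, hrq⟩ := (hO.rk_one r).1 hr
    have hrat : r = c10_at hO q hq := Dat.S.ext hrq
    unfold Cert.ck4 at h4
    rw [c6_allI] at h4
    have h5 := h4 i (by rw [hlen]; exact i.2)
    rw [c6_allI] at h5
    have h6 := h5 q (by rw [F.kl]; exact hq)
    simp only [Nat.zero_add, Bool.or_eq_true, Bool.not_eq_true', ← Bool.not_eq_true, c6_beq,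
      c10_anyL, Bool.and_eq_true, c6_bt, c10_it, c10_blt] at h6
    rw [hrat, c10_le, ha, c10_K F hO] at hri
    rcases h6 with h6 | ⟨e, _, ⟨⟨⟨⟨⟨⟨⟨⟨⟨⟨_, _⟩, e3⟩, e4⟩, e5⟩, e6⟩, e7⟩, e8⟩, e9⟩, e10⟩, e11⟩⟩
    · exact absurd hri h6
    · rw [hn] at e5 e6
      refine ⟨⟨e.j, e5⟩, ⟨e.l, e6⟩, e.b, e.c, ⟨e.w, e3⟩, ?_, ?_, ?_, ?_⟩
      · rw [hrat, c10_tau F hO, ha]
        exact c10_at_congr hO e8 _ _
      · refine ⟨?_, ?_⟩
        · rw [ha, c10_le]
          exact e4
        · apply Dat.S.ext
          rw [ha, c10_dv F hO, hrq]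
          exact e7
      · rw [ha, c10_tau F hO]
        refine ⟨?_, ?_⟩
        · rw [c10_le]
          exact e9
        · apply Dat.S.ext
          rw [c10_dv F hO]
          exact e10
      · have h10 := c10_eqL _ _ e11
        have h18 := c10_run M X.m hM e.mv
          (Wd.pw X.ol e.c ++ (i : ℕ) :: (Wd.pw X.ol e.b ++ [e.j])) (by
          intro x hx
          rw [List.mem_append, List.mem_cons, List.mem_append, List.mem_singleton] at hx
          rcases hx with hx | hx | hx | hx
          · exact c10_pw_lt X.ol hol _ x hx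
          · rw [hx]; exact i.2
          · exact c10_pw_lt X.ol hol _ x hx
          · rw [hx]; exact e5)
        rw [h10] at h18
        simp only [c10_phi_append, c10_phi_cons, c10_phi_nil, mul_one, c10_phi_pw, hphi,
          c10_g_val] at h18
        have hj : c10_g M e.j = ge M ⟨e.j, e5⟩ := c10_g_val M ⟨e.j, e5⟩
        have hl : c10_g M e.l = ge M ⟨e.l, e6⟩ := c10_g_val M ⟨e.l, e6⟩
        rw [hj, hl] at h18
        simp only [mul_assoc]
        exact h18.symm

end Pool.Agent.H54.RF
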