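import Pool.Agent.H54.RF.SpecR

/-!
# Project RF (MP_35eb49): extension of functions on the atoms
-/

set_option autoImplicit false

namespace Pool.Agent.H54.RF

open NC

section

variable {S : Type} [NC S] {H : Type} [Group H]

theorem c7_rk_dv {s m : S} (h : s ≤ m) : NC.rk s + NC.rk (dv s m) = NC.rk m := rk_quo s m h

theorem c7_ne_bo (hB : Basic S) {m : S} (h : 0 < NC.rk m) : m ≠ bo S := by
  intro e
  rw [e, hB.rk_bo] at h
  exact absurd h (lt_irrefl 0)

theorem c7_eq_bo {s : S} (h : NC.rk s = 0) : s = bo S := by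
  by_contra hc
  exact absurd (rk_pos s hc) (by omega)

/-- the statement of the induction -/
def c7_P (va : S → H) (n : ℕ) (val : S → H) : Prop :=
  val (bo S) = 1 ∧ (∀ r, NC.rk r = 1 → val r = va r) ∧
    ∀ m, NC.rk m ≤ n → ∀ s, s ≤ m → val s * val (dv s m) = val m

theorem c7_base (hB : Basic S) (va : S → H) : ∃ val : S → H, c7_P va 1 val := by
  classical
  refine ⟨fun s => if NC.rk s = 1 then va s else 1, ?_, ?_, ?_⟩
  · refine if_neg ?_
    rw [hB.rk_bo]
    exact zero_ne_one
  · intro r hr
    exact if_pos hr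
  · intro m hm s hs
    have h0 : (if NC.rk (bo S) = 1 then va (bo S) else 1) = 1 := by
      rw [if_neg]
      rw [hB.rk_bo]
      exact zero_ne_one
    have h1 := c7_rk_dv hs
    by_cases h2 : NC.rk s = 0
    · have h3 := c7_eq_bo h2
      subst h3
      rw [hB.dv_bo]
      simp only [h0, one_mul]
    · have h3 : dv s m = bo S := c7_eq_bo (by omega)
      have h4 : s = m := by
        apply hB.cancel hs le_rfl
        rw [h3, hB.dv_self]
      subst h4
      rw [h3]
      simp only [h0, mul_one]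

/-- independence of the atom -/
theorem c7_indep (hB : Basic S) (hC : Conn S) (va : S → H) (hD : DualRel va) {n : ℕ} (hn : 1 ≤ n)
    {val : S → H} (hP : c7_P va n val) {m : S} (hm : NC.rk m = n + 1) {r t : S} (hr : NC.rk r = 1)
    (ht : NC.rk t = 1) (hrm : r ≤ m) (htm : t ≤ m) :
    va r * val (dv r m) = va t * val (dv t m) := by
  have key : ∀ x : S, NC.rk x = 1 → x ≤ m → ∀ j, x ≤ j → j < m →
      va x * val (dv x m) = val j * val (dv j m) := by
    intro x hx hxm j hxj hjm
    have h1 : NC.rk j ≤ n := by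
      have := hB.rk_lt hjm
      omega
    have h2 := hP.2.2 j h1 x hxj
    have h3 : NC.rk (dv x m) ≤ n := by
      have := c7_rk_dv hxm
      omega
    have h4 := hP.2.2 (dv x m) h3 (dv x j) ((hB.dv_le_iff hxj hxm).2 hjm.le)
    rw [hB.dv_dv hxj hjm.le] at h4
    rw [← h4, ← h2, hP.2.1 x hx, mul_assoc]
  by_cases h2 : n = 1
  · subst h2
    have hm2 : NC.rk m = 2 := hm
    have hat : ∀ x : S, NC.rk x = 1 → x ≤ m → NC.rk (dv x m) = 1 ∧ dv x m ≤ m := by
      intro x hx hxm
      have := c7_rk_dv hxm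
      exact ⟨by omega, inf_le_right⟩
    obtain ⟨k, hk⟩ := hC.two m hm2 r t hr ht hrm htm
    have hit : ∀ k : ℕ, NC.rk ((fun x => dv x m)^[k] r) = 1 ∧ (fun x => dv x m)^[k] r ≤ m ∧
        va ((fun x => dv x m)^[k] r) * val (dv ((fun x => dv x m)^[k] r) m) =
          va r * val (dv r m) := by
      intro k
      induction k with
      | zero => exact ⟨hr, hrm, rfl⟩
      | succ k ih =>
        obtain ⟨i1, i2, i3⟩ := ih
        obtain ⟨a1, a2⟩ := hat _ i1 i2
        obtain ⟨b1, b2⟩ := hat _ a1 a2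
        rw [Function.iterate_succ_apply']
        refine ⟨a1, a2, ?_⟩
        rw [← i3, hP.2.1 _ b1, hP.2.1 _ a1]
        exact hD _ _ m _ a1 b1 i1 ⟨a2, rfl⟩ ⟨i2, rfl⟩
    have := (hit k).2.2
    rw [hk] at this
    exact this.symm
  · obtain ⟨u, hu, hum, ⟨j, hj1, hj2, hj3⟩, j', hj1', hj2', hj3'⟩ :=
      hC.three m (by omega) r t hr ht hrm htm
    rw [key r hr hrm j hj1 hj3, ← key u hu hum j hj2 hj3, key u hu hum j' hj2' hj3',
      ← key t ht htm j' hj1' hj3']

theorem c7_step (hB : Basic S) (hC : Conn S) (va : S → H) (hD : DualRel va) {n : ℕ} (hn : 1 ≤ n)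
    {val : S → H} (hP : c7_P va n val) : ∃ val' : S → H, c7_P va (n + 1) val' := by
  classical
  set val' : S → H := fun m => if h : NC.rk m = n + 1 then
    (fun r => va r * val (dv r m))
      (hC.one m (c7_ne_bo hB (by rw [h]; exact Nat.succ_pos n))).choose else val m with hv
  have hlow : ∀ m, NC.rk m ≤ n → val' m = val m := by
    intro m hm
    rw [hv]
    exact dif_neg (by omega)
  have hhigh : ∀ m, NC.rk m = n + 1 → ∀ r, NC.rk r = 1 → r ≤ m → va r * val (dv r m) = val' m := by
    intro m hm r hr hrm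
    have hne : m ≠ bo S := c7_ne_bo hB (by rw [hm]; exact Nat.succ_pos n)
    have hs := (hC.one m hne).choose_spec
    have e : val' m = va (hC.one m hne).choose * val (dv (hC.one m hne).choose m) := by
      rw [hv]
      exact dif_pos hm
    rw [e]
    exact c7_indep hB hC va hD hn hP hm hr hs.1 hrm hs.2
  have hbo : val' (bo S) = 1 := by
    rw [hlow _ (by rw [hB.rk_bo]; exact Nat.zero_le n)]
    exact hP.1
  refine ⟨val', hbo, ?_, ?_⟩
  · intro r hr
    rw [hlow r (by omega)]
    exact hP.2.1 r hr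
  · intro m hm s hs
    have h1 := c7_rk_dv hs
    by_cases h2 : NC.rk m ≤ n
    · rw [hlow m h2, hlow s (by omega), hlow (dv s m) (by omega)]
      exact hP.2.2 m h2 s hs
    · have hm' : NC.rk m = n + 1 := by omega
      by_cases h3 : NC.rk s = 0
      · have h4 := c7_eq_bo h3
        subst h4
        rw [hB.dv_bo, hbo, one_mul]
      · by_cases h5 : NC.rk (dv s m) = 0
        · have h6 := c7_eq_bo h5
          have h7 : s = m := by
            apply hB.cancel hs le_rfl
            rw [h6, hB.dv_self]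
          rw [h6, hbo, mul_one, h7]
        · obtain ⟨r, hr, hrs⟩ := hC.one s (c7_ne_bo hB (Nat.pos_of_ne_zero h3))
          have hrm := hrs.trans hs
          have h8 := c7_rk_dv hrm
          rw [hlow s (by omega), hlow (dv s m) (by omega), ← hhigh m hm' r hr hrm]
          have e1 := hP.2.2 s (by omega) r hrs
          have e2 := hP.2.2 (dv r m) (by omega) (dv r s) ((hB.dv_le_iff hrs hrm).2 hs)
          rw [hB.dv_dv hrs hs] at e2
          rw [← e1, ← e2, hP.2.1 r hr, mul_assoc]

end

theorem sp_extV : SpExtV := by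
  intro S _ H _ va hB hC hD
  have h : ∀ n : ℕ, 1 ≤ n → ∃ val : S → H, c7_P va n val := by
    intro n hn
    induction n, hn using Nat.le_induction with
    | base => exact c7_base hB va
    | succ n hn ih =>
      obtain ⟨val, hval⟩ := ih
      exact c7_step hB hC va hD hn hval
  obtain ⟨val, hval⟩ := h (NC.rk (⊤ : S) + 1) (Nat.succ_le_succ (Nat.zero_le _))
  refine ⟨val, fun s m hs => hval.2.2 m ?_ s hs, hval.2.1⟩
  exact (hB.rk_le le_top).trans (Nat.le_succ _)

end Pool.Agent.H54.RF
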