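import Pool.Agent.H54.RF.SpecC
import Pool.Agent.H88.GH.Lcm

/-!
# Project RF (MP_35eb49), row C5: the Garside structure of the group of a germ
-/

set_option autoImplicit false

namespace Pool.Agent.H54.RF

namespace NC

section c5

variable {S : Type} [NC S] {A : Type} [Group A] {val : S → A}

theorem c5_bo (hg : IsGrp val) (B : Basic S) : val (bo S) = 1 := by
  have h := hg.mult (bo S) (bo S) le_rfl
  rw [B.dv_self] at h
  exact mul_eq_left.mp h

theorem c5_K (hg : IsGrp val) (B : Basic S) (s : S) : val s * val (K s) = val ⊤ := by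
  have h := hg.mult s ⊤ le_top
  rwa [B.dv_top] at h

theorem c5_tau (hg : IsGrp val) (B : Basic S) (s : S) :
    (val ⊤)⁻¹ * val s * val ⊤ = val (tau s) := by
  have h1 := c5_K hg B s
  have h2 := c5_K hg B (K s)
  have h3 : (val ⊤)⁻¹ * val s = (val (K s))⁻¹ := by
    rw [← h1]
    group
  rw [h3, ← h2, inv_mul_cancel_left]
  rfl

theorem c5_tau_pow (hg : IsGrp val) (B : Basic S) (s : S) (n : ℕ) :
    (val ⊤ ^ n)⁻¹ * val s * val ⊤ ^ n = val (tau^[n] s) := by
  induction n with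
  | zero => simp
  | succ n ih =>
    have h1 : (val ⊤ ^ (n + 1))⁻¹ * val s * val ⊤ ^ (n + 1) =
        (val ⊤)⁻¹ * ((val ⊤ ^ n)⁻¹ * val s * val ⊤ ^ n) * val ⊤ := by
      rw [pow_succ, mul_inv_rev]
      simp only [mul_assoc]
    rw [h1, ih, c5_tau hg B, ← Function.iterate_succ_apply' tau n s]

theorem c5_central (hg : IsGrp val) (B : Basic S) (x : A) :
    val ⊤ ^ per S * x = x * val ⊤ ^ per S := by
  have hx : x ∈ Subgroup.closure (Set.range val) := by
    rw [hg.gen]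
    exact Subgroup.mem_top x
  induction hx using Subgroup.closure_induction with
  | mem y hy =>
    obtain ⟨s, rfl⟩ := hy
    have h := c5_tau_pow hg B s (per S)
    rw [B.per_tau] at h
    have h2 := congrArg (fun w => val ⊤ ^ per S * w) h
    simp only [mul_assoc, mul_inv_cancel_left] at h2
    exact h2.symm
  | one => rw [mul_one, one_mul]
  | mul y z _ _ hy hz => rw [← mul_assoc, hy, mul_assoc, hz, mul_assoc]
  | inv y _ hy =>
    have h : Commute (val ⊤ ^ per S) y := hy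
    exact h.inv_right

theorem c5_exists_len (hg : IsGrp val) :
    ∃ l : A →* Multiplicative ℤ, ∀ s, l (val s) = Multiplicative.ofAdd (rk s : ℤ) := by
  refine hg.lift (Multiplicative ℤ) (fun s => Multiplicative.ofAdd (rk s : ℤ)) ?_
  intro s m h
  have h1 := rk_quo s m h
  rw [← ofAdd_add]
  congr 1
  change (rk s : ℤ) + (rk (K s ⊓ m) : ℤ) = rk m
  exact_mod_cast h1

/-- the length -/
noncomputable def c5_len (hg : IsGrp val) (x : A) : ℤ :=
  Multiplicative.toAdd ((c5_exists_len hg).choose x)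

theorem c5_len_mul (hg : IsGrp val) (x y : A) :
    c5_len hg (x * y) = c5_len hg x + c5_len hg y := by
  unfold c5_len
  rw [map_mul, toAdd_mul]

theorem c5_len_val (hg : IsGrp val) (s : S) : c5_len hg (val s) = rk s := by
  unfold c5_len
  rw [(c5_exists_len hg).choose_spec s]
  rfl

theorem c5_len_one (hg : IsGrp val) : c5_len hg 1 = 0 := by
  have h := c5_len_mul hg 1 1
  rw [mul_one] at h
  omega

theorem c5_len_inv (hg : IsGrp val) (x : A) : c5_len hg x⁻¹ = -c5_len hg x := by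
  have h := c5_len_mul hg x⁻¹ x
  rw [inv_mul_cancel, c5_len_one] at h
  omega

theorem c5_mem (s : S) : val s ∈ Pos val := Submonoid.subset_closure ⟨s, rfl⟩

theorem c5_induct {p : A → Prop} (h1 : p 1) (h2 : ∀ s, ∀ x ∈ Pos val, p x → p (val s * x))
    {x : A} (hx : x ∈ Pos val) : p x := by
  have key : ∀ x (hx : x ∈ Pos val), x ∈ Pos val ∧ p x := by
    intro x hx
    induction hx using Submonoid.closure_induction_left with
    | one => exact ⟨one_mem _, h1⟩
    | mul_left a ha y hy ih =>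
      obtain ⟨s, rfl⟩ := ha
      exact ⟨mul_mem (c5_mem s) ih.1, h2 s y ih.1 ih.2⟩
  exact (key x hx).2

theorem c5_len_nonneg (hg : IsGrp val) {x : A} (hx : x ∈ Pos val) : 0 ≤ c5_len hg x := by
  refine c5_induct (p := fun x => 0 ≤ c5_len hg x) (by rw [c5_len_one]) ?_ hx
  intro s x _ h
  rw [c5_len_mul, c5_len_val]
  omega

theorem c5_cases (hg : IsGrp val) (B : Basic S) {x : A} (hx : x ∈ Pos val) :
    x = 1 ∨ ∃ s, s ≠ bo S ∧ ∃ y ∈ Pos val, x = val s * y := by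
  refine c5_induct (p := fun x => x = 1 ∨ ∃ s, s ≠ bo S ∧ ∃ y ∈ Pos val, x = val s * y)
    (Or.inl rfl) ?_ hx
  intro s x hx ih
  by_cases hs : s = bo S
  · subst hs
    rw [c5_bo hg B, one_mul]
    exact ih
  · exact Or.inr ⟨s, hs, x, hx, rfl⟩

theorem c5_rk_pos {s : S} (hs : s ≠ bo S) : 0 < rk s := rk_pos s hs

theorem c5_eq_one (hg : IsGrp val) (B : Basic S) {x : A} (hx : x ∈ Pos val)
    (h : c5_len hg x = 0) : x = 1 := by
  rcases c5_cases hg B hx with h1 | ⟨s, hs, y, hy, rfl⟩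
  · exact h1
  · rw [c5_len_mul, c5_len_val] at h
    have h1 := c5_len_nonneg hg hy
    have h2 := c5_rk_pos hs
    omega

theorem c5_conj (hg : IsGrp val) (B : Basic S) {x : A} (hx : x ∈ Pos val) :
    (val ⊤)⁻¹ * x * val ⊤ ∈ Pos val := by
  refine c5_induct (p := fun x => (val ⊤)⁻¹ * x * val ⊤ ∈ Pos val) ?_ ?_ hx
  · rw [mul_one, inv_mul_cancel]
    exact one_mem _
  · intro s x _ h
    have h1 : (val ⊤)⁻¹ * (val s * x) * val ⊤ =
        ((val ⊤)⁻¹ * val s * val ⊤) * ((val ⊤)⁻¹ * x * val ⊤) := by group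
    rw [h1, c5_tau hg B]
    exact mul_mem (c5_mem _) h

theorem c5_conj_pow (hg : IsGrp val) (B : Basic S) {x : A} (hx : x ∈ Pos val) (k : ℕ) :
    (val ⊤ ^ k)⁻¹ * x * val ⊤ ^ k ∈ Pos val := by
  induction k with
  | zero => simpa using hx
  | succ k ih =>
    have h1 : (val ⊤ ^ (k + 1))⁻¹ * x * val ⊤ ^ (k + 1) =
        (val ⊤)⁻¹ * ((val ⊤ ^ k)⁻¹ * x * val ⊤ ^ k) * val ⊤ := by
      rw [pow_succ, mul_inv_rev]
      simp only [mul_assoc]
    rw [h1]
    exact c5_conj hg B ih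

theorem c5_conj_iff (hg : IsGrp val) (B : Basic S) (x : A) :
    (val ⊤)⁻¹ * x * val ⊤ ∈ Pos val ↔ x ∈ Pos val := by
  refine ⟨fun h => ?_, c5_conj hg B⟩
  obtain ⟨n, hn⟩ := Nat.exists_eq_succ_of_ne_zero (B.per_pos.ne')
  have h1 := c5_conj_pow hg B h n
  have h2 : (val ⊤ ^ n)⁻¹ * ((val ⊤)⁻¹ * x * val ⊤) * val ⊤ ^ n =
      (val ⊤ ^ per S)⁻¹ * (x * val ⊤ ^ per S) := by
    rw [hn, Nat.succ_eq_add_one, pow_succ', mul_inv_rev]
    simp only [mul_assoc]
  rw [h2, ← c5_central hg B, inv_mul_cancel_left] at h1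
  exact h1

theorem c5_conj_pow' (hg : IsGrp val) (B : Basic S) {x : A} (hx : x ∈ Pos val) (k : ℕ) :
    val ⊤ ^ k * x * (val ⊤ ^ k)⁻¹ ∈ Pos val := by
  induction k with
  | zero => simpa using hx
  | succ k ih =>
    rw [← c5_conj_iff hg B]
    have h1 : (val ⊤)⁻¹ * (val ⊤ ^ (k + 1) * x * (val ⊤ ^ (k + 1))⁻¹) * val ⊤ =
        val ⊤ ^ k * x * (val ⊤ ^ k)⁻¹ := by
      rw [pow_succ']
      group
    rw [h1]
    exact ih

theorem c5_compl (hg : IsGrp val) (B : Basic S) (s : S) : (val s)⁻¹ * val ⊤ ∈ Pos val := by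
  rw [← c5_K hg B s, inv_mul_cancel_left]
  exact c5_mem _

theorem c5_cof (hg : IsGrp val) (B : Basic S) (x : A) :
    (∃ k : ℕ, x⁻¹ * val ⊤ ^ k ∈ Pos val) ∧ ∃ k : ℕ, x * val ⊤ ^ k ∈ Pos val := by
  have hx : x ∈ Subgroup.closure (Set.range val) := by
    rw [hg.gen]
    exact Subgroup.mem_top x
  induction hx using Subgroup.closure_induction with
  | mem y hy =>
    obtain ⟨s, rfl⟩ := hy
    refine ⟨⟨1, ?_⟩, ⟨0, ?_⟩⟩
    · rw [pow_one]
      exact c5_compl hg B s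
    · rw [pow_zero, mul_one]
      exact c5_mem s
  | one => exact ⟨⟨0, by simp⟩, ⟨0, by simp⟩⟩
  | mul y z _ _ hy hz =>
    obtain ⟨⟨k, hk⟩, ⟨k', hk'⟩⟩ := hy
    obtain ⟨⟨l, hl⟩, ⟨l', hl'⟩⟩ := hz
    refine ⟨⟨k + l, ?_⟩, ⟨k' + l', ?_⟩⟩
    · have h1 : (y * z)⁻¹ * val ⊤ ^ (k + l) = (z⁻¹ * val ⊤ ^ l) *
          ((val ⊤ ^ l)⁻¹ * (y⁻¹ * val ⊤ ^ k) * val ⊤ ^ l) := by
        rw [pow_add]; group
      rw [h1]
      exact mul_mem hl (c5_conj_pow hg B hk l)
    · have h1 : y * z * val ⊤ ^ (k' + l') = (y * val ⊤ ^ k') *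
          ((val ⊤ ^ k')⁻¹ * (z * val ⊤ ^ l') * val ⊤ ^ k') := by
        rw [add_comm k', pow_add]
        simp only [mul_assoc, mul_inv_cancel_left]
      rw [h1]
      exact mul_mem hk' (c5_conj_pow hg B hl' k')
  | inv y _ hy =>
    refine ⟨?_, hy.1⟩
    rw [inv_inv]
    exact hy.2

theorem c5_finite (hg : IsGrp val) (B : Basic S) (n : ℕ) :
    {x | x ∈ Pos val ∧ c5_len hg x ≤ n}.Finite := by
  induction n with
  | zero =>
    refine Set.Finite.subset (Set.finite_singleton (1 : A)) ?_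
    rintro x ⟨hx, h⟩
    have h1 := c5_len_nonneg hg hx
    push_cast at h
    exact c5_eq_one hg B hx (by omega)
  | succ n ih =>
    have : Finite S := NC.fin
    have h1 : (Set.range val).Finite := Set.finite_range val
    refine Set.Finite.subset (((h1.prod ih).image fun p : A × A => p.1 * p.2).insert 1) ?_
    rintro x ⟨hx, h⟩
    rcases c5_cases hg B hx with rfl | ⟨s, hs, y, hy, rfl⟩
    · exact Set.mem_insert _ _
    · right
      refine ⟨(val s, y), ⟨⟨s, rfl⟩, hy, ?_⟩, rfl⟩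
      rw [c5_len_mul, c5_len_val] at h
      have h2 := c5_rk_pos hs
      push_cast at h
      simp only
      omega

theorem c5_le (hg : IsGrp val) {s t : S} (h : s ≤ t) : (val s)⁻¹ * val t ∈ Pos val := by
  rw [← hg.mult s t h, inv_mul_cancel_left]
  exact c5_mem _

theorem c5_sup (hg : IsGrp val) (B : Basic S)
    (hH : ∀ x ∈ Pos val, ∃ h : S, (∃ y ∈ Pos val, x = val h * y) ∧
      ∀ s, (val s)⁻¹ * x ∈ Pos val → s ≤ h) (x y : A) :
    ∃ j, x⁻¹ * j ∈ Pos val ∧ y⁻¹ * j ∈ Pos val ∧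
      ∀ u, x⁻¹ * u ∈ Pos val → y⁻¹ * u ∈ Pos val → j⁻¹ * u ∈ Pos val := by
  refine Pool.Agent.H88.GH.exists_sup (Pos val) (c5_len hg) (c5_len_mul hg)
    (fun x hx => c5_len_nonneg hg hx) {a | ∃ s, s ≠ bo S ∧ a = val s} ?_ ?_ ?_ ?_ ?_ x y
  · rintro a ⟨s, hs, rfl⟩
    refine ⟨c5_mem s, ?_⟩
    rw [c5_len_val]
    exact_mod_cast c5_rk_pos hs
  · intro x hx hx1
    rcases c5_cases hg B hx with h | ⟨s, hs, y, hy, rfl⟩
    · exact absurd h hx1
    · exact ⟨val s, ⟨s, hs, rfl⟩, y, hy, rfl⟩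
  · rintro a ⟨s, hs, rfl⟩ b ⟨t, ht, rfl⟩
    obtain ⟨j, hsj, htj, hj⟩ := B.sup s t
    refine ⟨val j, c5_le hg hsj, c5_le hg htj, fun w hw h1 h2 => ?_⟩
    obtain ⟨h, ⟨z, hz, rfl⟩, hh⟩ := hH w hw
    have h3 := mul_mem (c5_le hg (hj h (hh s h1) (hh t h2))) hz
    rwa [mul_assoc] at h3
  · intro x y
    obtain ⟨k, hk⟩ := (c5_cof hg B x).2
    obtain ⟨l, hl⟩ := (c5_cof hg B y).2
    refine ⟨(val ⊤ ^ (k + l))⁻¹, ?_, ?_⟩
    · rw [inv_inv]
      have h1 : val ⊤ ^ (k + l) * x =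
          val ⊤ ^ l * (val ⊤ ^ k * (x * val ⊤ ^ k) * (val ⊤ ^ k)⁻¹) := by
        rw [add_comm, pow_add]
        group
      rw [h1]
      exact mul_mem (pow_mem (c5_mem _) l) (c5_conj_pow' hg B hk k)
    · rw [inv_inv]
      have h1 : val ⊤ ^ (k + l) * y =
          val ⊤ ^ k * (val ⊤ ^ l * (y * val ⊤ ^ l) * (val ⊤ ^ l)⁻¹) := by
        rw [pow_add]
        group
      rw [h1]
      exact mul_mem (pow_mem (c5_mem _) k) (c5_conj_pow' hg B hl l)
  · intro x y
    obtain ⟨k, hk⟩ := (c5_cof hg B x).1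
    obtain ⟨l, hl⟩ := (c5_cof hg B y).1
    refine ⟨val ⊤ ^ (k + l), ?_, ?_⟩
    · rw [pow_add, ← mul_assoc]
      exact mul_mem hk (pow_mem (c5_mem _) l)
    · rw [add_comm, pow_add, ← mul_assoc]
      exact mul_mem hl (pow_mem (c5_mem _) k)

theorem c5_refl (hg : IsGrp val) (B : Basic S) (hinj : Function.Injective val)
    (hH : ∀ x ∈ Pos val, ∃ h : S, (∃ y ∈ Pos val, x = val h * y) ∧
      ∀ s, (val s)⁻¹ * x ∈ Pos val → s ≤ h) {s t : S} (h : (val s)⁻¹ * val t ∈ Pos val) :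
    s ≤ t := by
  obtain ⟨k, ⟨y, hy, hky⟩, hk⟩ := hH (val t) (c5_mem t)
  have h1 : t ≤ k := hk t (by rw [inv_mul_cancel]; exact one_mem _)
  have h2 := B.rk_le h1
  have h3 := c5_len_nonneg hg hy
  have h4 := congrArg (c5_len hg) hky
  rw [c5_len_mul, c5_len_val, c5_len_val] at h4
  have h5 : y = 1 := c5_eq_one hg B hy (by omega)
  rw [h5, mul_one] at hky
  rw [hinj hky]
  exact hk s h

theorem c5_low (hg : IsGrp val) (B : Basic S) (hinj : Function.Injective val)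
    (hH : ∀ x ∈ Pos val, ∃ h : S, (∃ y ∈ Pos val, x = val h * y) ∧
      ∀ s, (val s)⁻¹ * x ∈ Pos val → s ≤ h) :
    ∀ (n : ℕ) (x : A), x ∈ Pos val → ∀ m : S, x⁻¹ * val m ∈ Pos val → c5_len hg x ≤ n →
      ∃ s, s ≤ m ∧ x = val s := by
  intro n
  induction n with
  | zero =>
    intro x hx m _ hn
    have h1 := c5_len_nonneg hg hx
    push_cast at hn
    have h2 := c5_eq_one hg B hx (by omega)
    exact ⟨bo S, B.bo_le m, by rw [h2, c5_bo hg B]⟩
  | succ n ih =>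
    intro x hx m hm hn
    rcases c5_cases hg B hx with h1 | ⟨s, hs, y, hy, hxy⟩
    · exact ⟨bo S, B.bo_le m, by rw [h1, c5_bo hg B]⟩
    · have hsm : s ≤ m := by
        refine c5_refl hg B hinj hH ?_
        have h2 := mul_mem hy hm
        rwa [hxy, mul_inv_rev, mul_assoc, mul_inv_cancel_left] at h2
      have h3 : y⁻¹ * val (dv s m) ∈ Pos val := by
        have h4 := hg.mult s m hsm
        rw [hxy, mul_inv_rev, ← h4, mul_assoc, inv_mul_cancel_left] at hm
        exact hm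
      have h5 := c5_rk_pos hs
      have h6 : c5_len hg y ≤ n := by
        rw [hxy, c5_len_mul, c5_len_val] at hn
        push_cast at hn
        omega
      obtain ⟨u, hu, rfl⟩ := ih y hy (dv s m) h3 h6
      have hK : u ≤ K s := hu.trans inf_le_left
      obtain ⟨h7, h8⟩ := B.mu_spec hK
      have h9 := hg.mult s (mu s u) h7
      rw [h8] at h9
      refine ⟨mu s u, ?_, by rw [hxy, h9]⟩
      refine c5_refl hg B hinj hH ?_
      rwa [← h9, ← hxy]

/-- the Garside structure -/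
@[reducible] noncomputable def c5_gar (hg : IsGrp val) (B : Basic S) (hne : bo S ≠ ⊤)
    (hH : ∀ x ∈ Pos val, ∃ h : S, (∃ y ∈ Pos val, x = val h * y) ∧
      ∀ s, (val s)⁻¹ * x ∈ Pos val → s ≤ h) : Gar A where
  P := Pos val
  δ := val ⊤
  rk := rk (⊤ : S)
  ord := per S
  rk_pos := c5_rk_pos hne.symm
  ord_pos := B.per_pos
  len := c5_len hg
  len_mul := c5_len_mul hg
  len_nonneg x hx := c5_len_nonneg hg hx
  eq_one x hx h := c5_eq_one hg B hx h
  len_δ := c5_len_val hg ⊤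
  δ_mem := c5_mem ⊤
  conj := c5_conj_iff hg B
  central := c5_central hg B
  cof x := (c5_cof hg B x).1
  fin := by
    refine Set.Finite.subset (c5_finite hg B (rk (⊤ : S))) ?_
    rintro x ⟨hx, hx'⟩
    refine ⟨hx, ?_⟩
    have h := c5_len_nonneg hg hx'
    rw [c5_len_mul, c5_len_inv, c5_len_val] at h
    omega
  sup := c5_sup hg B hH

end c5

theorem gar_of (hB : ∀ (S : Type) [NC S], Basic S) (hH : ∀ (S : Type) [NC S], SpHead S) :
    SpGar := by
  intro S _ A _ val hg hne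
  have B := hB S
  obtain ⟨hinj, hH⟩ := hH S A val hg hne
  refine ⟨c5_gar hg B hne hH, ?_⟩
  let _ := c5_gar hg B hne hH
  have hle : ∀ s t, val s ≤ val t ↔ s ≤ t := by
    intro s t
    constructor
    · intro h
      exact c5_refl hg B hinj hH h
    · intro h
      exact c5_le hg h
  have hlow : ∀ (x : A) (m : S), 1 ≤ x → x ≤ val m → ∃ s, s ≤ m ∧ x = val s := by
    intro x m h1 h2
    exact c5_low hg B hinj hH (c5_len hg x).toNat x (Gar.one_le_iff.mp h1) m h2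
      (Int.self_le_toNat _)
  refine ⟨rfl, rfl, c5_len_val hg, hinj, ?_, hle, ?_⟩
  · intro x
    constructor
    · rintro ⟨h1, h2⟩
      obtain ⟨s, -, hs⟩ := hlow x ⊤ h1 h2
      exact ⟨s, hs⟩
    · rintro ⟨s, rfl⟩
      exact ⟨Gar.one_le_iff.mpr (c5_mem s), c5_compl hg B s⟩
  · intro s t
    apply le_antisymm
    · exact le_inf ((hle _ _).mpr inf_le_left) ((hle _ _).mpr inf_le_right)
    · have h1 : (1 : A) ≤ val s ⊓ val t :=
        le_inf (Gar.one_le_iff.mpr (c5_mem s)) (Gar.one_le_iff.mpr (c5_mem t))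
      obtain ⟨u, hu, he⟩ := hlow (val s ⊓ val t) s h1 inf_le_left
      have h2 : val u ≤ val t := by
        rw [← he]
        exact inf_le_right
      rw [he]
      exact (hle _ _).mpr (le_inf hu ((hle _ _).mp h2))

end NC

end Pool.Agent.H54.RF
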