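import Pool.Agent.H54.RF.SpecC

/-!
# Project RF (MP_35eb49), row C4 (helper89): heads of positive elements

Adapted from `Pool/Agent/H88/GH/Head.lean`.
-/

set_option autoImplicit false

namespace Pool.Agent.H54.RF

namespace NC

variable {S : Type} [NC S]

section grp

variable {A : Type} [Group A] {val : S → A}

/-- normal form of a product of two simple elements -/
theorem c4_val_mul (hl : Laws S) (hv : Mult val) (s t : S) :
    val s * val t = val (N1 s t) * val (N2 s t) := by
  obtain ⟨h1, h2⟩ := hl.D1 s t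
  obtain ⟨h3, h4⟩ := hl.D2 s t
  have e1 := hv s (N1 s t) h1
  have e2 := hv (K s ⊓ t) t h3
  rw [h2] at e1
  rw [h4] at e2
  rw [← e1, mul_assoc, e2]

theorem c4_val_bo (hb : Basic S) (hv : Mult val) : val (bo S) = 1 := by
  have h := hv (bo S) ⊤ (hb.bo_le _)
  rw [hb.dv_bo] at h
  exact mul_eq_right.mp h

end grp

/-! ### carries -/

/-- the carry at `0` of a word which is `δ` on the left of `0` -/
theorem c4_carry_zero (hb : Basic S) (hl : Laws S) {s : S} {f c : ℤ → S} (hf : ∀ i < 0, f i = ⊤)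
    (hc : Carry s f c) : c 0 = s := by
  obtain ⟨k, hk⟩ := hc.init
  have hp : (0 : ℤ) < (per S : ℤ) := by exact_mod_cast hb.per_pos
  have key : ∀ n : ℕ, ∀ i : ℤ, i ≤ 0 → i ≤ k + n → c i = tau^[(i % (per S : ℤ)).toNat] s := by
    intro n
    induction n with
    | zero =>
      intro i _ hi
      exact hk i (by simpa using hi)
    | succ n ih =>
      intro i hi0 hi
      rcases le_or_gt i (k + n) with h | h
      · exact ih i hi0 h
      · have hi' : i = (i - 1) + 1 := by ring
        have h1 := ih (i - 1) (by omega) (by push_cast at hi; omega)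
        rw [hi', hc.step, hf (i - 1) (by omega), hl.C4, h1, ← Function.iterate_succ_apply' tau]
        have h2 : 0 ≤ (i - 1) % (per S : ℤ) := Int.emod_nonneg _ hp.ne'
        have h3 : (i - 1) % (per S : ℤ) < per S := Int.emod_lt_of_pos _ hp
        have h5 : ((i - 1) + 1) % (per S : ℤ) = ((i - 1) % (per S : ℤ) + 1) % (per S : ℤ) := by
          rw [Int.emod_add_emod]
        by_cases h4 : (i - 1) % (per S : ℤ) = per S - 1
        · have e1 : ((i - 1) % (per S : ℤ)).toNat.succ = per S := by omega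
          have e2 : (((i - 1) + 1) % (per S : ℤ)).toNat = 0 := by
            rw [h5, h4, sub_add_cancel, Int.emod_self]
            rfl
          rw [e1, e2, hb.per_tau]
          rfl
        · have e1 : ((i - 1) % (per S : ℤ)).toNat.succ = (((i - 1) + 1) % (per S : ℤ)).toNat := by
            have h6 : ((i - 1) % (per S : ℤ) + 1) % (per S : ℤ) = (i - 1) % (per S : ℤ) + 1 :=
              Int.emod_eq_of_lt (by omega) (by omega)
            rw [h5, h6]
            omega
          rw [e1]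
  have h := key (0 - k).toNat 0 le_rfl (by omega)
  simpa using h

/-! ### the words of positive elements -/

/-- the word of `1` -/
def c4_f0 (hl : Laws S) : Str S := ⟨fun i => if i < 0 then ⊤ else bo S, by
  refine ⟨fun i => ?_, ⟨-1, fun i hi => if_pos (by omega)⟩⟩
  dsimp only
  by_cases h : i < 0
  · rw [if_pos h]
    exact hl.C1 _
  · rw [if_neg h, if_neg (by omega)]
    exact hl.C5 _⟩

section grp

variable {A : Type} [Group A]

/-- the product of the letters at `0, …, n - 1` -/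
def c4_P (val : S → A) (f : ℤ → S) : ℕ → A
  | 0 => 1
  | n + 1 => c4_P val f n * val (f n)

variable {val : S → A}

theorem c4_push (hl : Laws S) (hv : Mult val) {s : S} (f g : Str S) {c : ℤ → S}
    (hc : Carry s f.1 c) (hg : ∀ i, g.1 i = N1 (c i) (f.1 i)) (n : ℕ) :
    val (c 0) * c4_P val f.1 n = c4_P val g.1 n * val (c n) := by
  induction n with
  | zero => simp [c4_P]
  | succ n ih =>
    have e : ((n + 1 : ℕ) : ℤ) = (n : ℤ) + 1 := by push_cast; ring
    rw [e, hc.step, c4_P, c4_P, ← mul_assoc, ih, mul_assoc, mul_assoc, hg,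
      c4_val_mul hl hv]

/-- `f` is the word of the positive element `x` -/
structure c4_W (val : S → A) (x : A) (f : Str S) : Prop where
  neg : ∀ i < 0, f.1 i = ⊤
  fin : ∃ N : ℕ, ∀ i : ℤ, (N : ℤ) ≤ i → f.1 i = bo S
  prod : ∃ N : ℕ, ∀ n : ℕ, N ≤ n → x = c4_P val f.1 n

theorem c4_W_one (hb : Basic S) (hl : Laws S) (hv : Mult val) : c4_W val 1 (c4_f0 hl) := by
  have h0 : ∀ i : ℤ, 0 ≤ i → (c4_f0 hl).1 i = bo S := fun i hi => if_neg (by omega)
  refine ⟨fun i hi => if_pos hi, ⟨0, fun i hi => h0 i (by simpa using hi)⟩, ⟨0, fun n _ => ?_⟩⟩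
  induction n with
  | zero => rfl
  | succ n ih =>
    have e : val ((c4_f0 hl).1 n) = 1 := by
      rw [h0 n (by positivity)]
      exact c4_val_bo hb hv
    rw [c4_P, ← ih (Nat.zero_le n), e, mul_one]

theorem c4_W_mul (hb : Basic S) (hl : Laws S) (hv : Mult val) {s : S} {y : A} {f g : Str S}
    (hf : c4_W val y f) {c : ℤ → S} (hc : Carry s f.1 c)
    (hg : ∀ i, g.1 i = N1 (c i) (f.1 i)) : c4_W val (val s * y) g := by
  obtain ⟨N, hN⟩ := hf.fin
  obtain ⟨N', hN'⟩ := hf.prod
  have hcN : ∀ i : ℤ, (N : ℤ) + 1 ≤ i → c i = bo S := by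
    intro i hi
    have e : i = (i - 1) + 1 := by ring
    rw [e, hc.step, hN (i - 1) (by omega)]
    exact hl.C6 _
  refine ⟨fun i hi => ?_, ⟨N + 1, fun i hi => ?_⟩, ⟨max N' (N + 1), fun n hn => ?_⟩⟩
  · rw [hg, hf.neg i hi]
    exact hl.C3 _
  · push_cast at hi
    rw [hg, hN i (by omega), hcN i hi]
    exact hl.C5 _
  · have h1 : c 0 = s := c4_carry_zero hb hl hf.neg hc
    have h2 := c4_push hl hv f g hc hg n
    have h3 : c n = bo S := hcN n (by
      have := (le_max_right N' (N + 1)).trans hn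
      exact_mod_cast this)
    rw [h1, h3, ← hN' n ((le_max_left N' (N + 1)).trans hn), c4_val_bo hb hv, mul_one] at h2
    exact h2

omit [NC S] in
theorem c4_val_mem (s : S) : val s ∈ Pos val := Submonoid.subset_closure ⟨s, rfl⟩

/-- the word of a positive element is the translate of the word of `1` -/
theorem c4_word (hb : Basic S) (hl : Laws S) (hv : Mult val) (hC : SpCarry S)
    {ρ : A →* Equiv.Perm (Str S)} (hρ : ∀ (s : S) (f : Str S) (c : ℤ → S),
    Carry s f.1 c → ∀ i, (ρ (val s) f).1 i = N1 (c i) (f.1 i)) {x : A} (hx : x ∈ Pos val) :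
    c4_W val x (ρ x (c4_f0 hl)) := by
  unfold Pos at hx
  induction hx using Submonoid.closure_induction_left with
  | one =>
    rw [map_one]
    exact c4_W_one hb hl hv
  | mul_left x hx y hy ih =>
    obtain ⟨s, rfl⟩ := hx
    rw [map_mul, Equiv.Perm.mul_apply]
    obtain ⟨c, hc⟩ := hC s (ρ y (c4_f0 hl))
    exact c4_W_mul hb hl hv ih hc (hρ s _ c hc)

theorem c4_P_head (f : Str S) (n : ℕ) :
    ∃ y ∈ Pos val, c4_P val f.1 (n + 1) = val (f.1 0) * y := by
  induction n with
  | zero => exact ⟨1, one_mem _, by simp [c4_P]⟩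
  | succ n ih =>
    obtain ⟨y, hy, h⟩ := ih
    refine ⟨y * val (f.1 ((n + 1 : ℕ) : ℤ)), mul_mem hy (c4_val_mem _), ?_⟩
    rw [c4_P, h, mul_assoc]

end grp

theorem head (S : Type) [NC S] (hb : Basic S) (hl : Laws S) (h1 : SpCarry S) (h2 : SpAct S) :
    SpHead S := by
  intro A _ val hA _
  obtain ⟨p, hp, hpa⟩ := h2
  obtain ⟨ρ, hρ0⟩ := hA.lift _ p hp
  have hρ : ∀ (s : S) (f : Str S) (c : ℤ → S),
      Carry s f.1 c → ∀ i, (ρ (val s) f).1 i = N1 (c i) (f.1 i) := by
    intro s f c hc i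
    rw [hρ0]
    exact hpa s f c hc i
  refine ⟨?_, fun x hx => ⟨(ρ x (c4_f0 hl)).1 0, ?_, ?_⟩⟩
  · have key : ∀ s : S, (ρ (val s) (c4_f0 hl)).1 0 = s := by
      intro s
      obtain ⟨c, hc⟩ := h1 s (c4_f0 hl)
      rw [hρ s (c4_f0 hl) c hc 0, c4_carry_zero hb hl (c4_W_one hb hl hA.mult).neg hc]
      exact hl.C5 s
    intro s t hst
    rw [← key s, ← key t, hst]
  · obtain ⟨N, hN⟩ := (c4_word hb hl hA.mult h1 hρ hx).prod
    obtain ⟨y, hy, h⟩ := c4_P_head (val := val) (ρ x (c4_f0 hl)) N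
    exact ⟨y, hy, by rw [← h]; exact hN (N + 1) (Nat.le_succ N)⟩
  · intro s hs
    have hW := c4_word hb hl hA.mult h1 hρ hs
    obtain ⟨c, hc⟩ := h1 s (ρ ((val s)⁻¹ * x) (c4_f0 hl))
    have e : (ρ x (c4_f0 hl)).1 0 = N1 s ((ρ ((val s)⁻¹ * x) (c4_f0 hl)).1 0) := by
      have e1 : ρ x (c4_f0 hl) = ρ (val s) (ρ ((val s)⁻¹ * x) (c4_f0 hl)) := by
        rw [← Equiv.Perm.mul_apply, ← map_mul, mul_inv_cancel_left]
      rw [e1, hρ s _ c hc 0, c4_carry_zero hb hl hW.neg hc]
    rw [e]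
    exact (hl.D1 s _).1

end NC

end Pool.Agent.H54.RF
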