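import Pool.Agent.H54.RF.SpecC

/-!
# Project RF (MP_35eb49), row C2: normal forms of products of two simple elements
-/

set_option autoImplicit false

namespace Pool.Agent.H54.RF

namespace NC

variable {S : Type} [NC S]

theorem c2_mul {s t m : S} (h1 : s ≤ m) (h2 : dv s m = t) : IsMul s t m := ⟨h1, h2⟩

theorem c2_dv_K (s m : S) : dv s m ≤ K s := inf_le_left

theorem c2_mu_eq (hb : Basic S) {s t m : S} (h1 : s ≤ m) (h2 : dv s m = t) : mu s t = m :=
  (hb.mu_uniq (c2_mul h1 h2)).1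

/-- the comparison of the two ways to multiply three simple elements -/
theorem c2_key (hb : Basic S) {s m : S} (u : S) (h : s ≤ m) :
    N1 m u = N1 s (N1 (dv s m) u) ∧ K m ⊓ u ≤ K (dv s m) ⊓ u ∧
      dv (K s ⊓ N1 (dv s m) u) (N1 (dv s m) u) = dv (K m ⊓ u) (K (dv s m) ⊓ u) := by
  obtain ⟨t, ht⟩ : ∃ t, t = dv s m := ⟨_, rfl⟩
  obtain ⟨a, ha⟩ : ∃ a, a = K t ⊓ u := ⟨_, rfl⟩
  obtain ⟨n, hn⟩ : ∃ n, n = mu t a := ⟨_, rfl⟩
  obtain ⟨b, hbb⟩ : ∃ b, b = K s ⊓ n := ⟨_, rfl⟩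
  obtain ⟨c, hc⟩ : ∃ c, c = K m ⊓ u := ⟨_, rfl⟩
  have e1 : N1 t u = n := by
    unfold N1
    rw [← ha, ← hn]
  have e2 : N1 s n = mu s b := by
    unfold N1
    rw [← hbb]
  have e3 : N1 m u = mu m c := by
    unfold N1
    rw [← hc]
  have htK : t ≤ K s := by
    rw [ht]
    exact c2_dv_K s m
  have haK : a ≤ K t := by
    rw [ha]
    exact inf_le_left
  obtain ⟨h1, h2⟩ := hb.mu_spec haK
  rw [← hn] at h1 h2
  have htb : t ≤ b := by
    rw [hbb]
    exact le_inf htK h1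
  have hbn : b ≤ n := by
    rw [hbb]
    exact inf_le_right
  have hbK : b ≤ K s := by
    rw [hbb]
    exact inf_le_left
  obtain ⟨h3, h4⟩ := hb.mu_spec hbK
  have h5 : dv t b ≤ a := by
    rw [← h2]
    exact (hb.dv_le_iff htb h1).mpr hbn
  have h6 : m ≤ mu s b := by
    rw [← hb.dv_le_iff h h3, h4, ← ht]
    exact htb
  have h7 : dv t b = dv m (mu s b) := by
    have h8 := hb.dv_dv h h6
    rwa [← ht, h4] at h8
  have h9 : dv t b ≤ c := by
    rw [hc]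
    refine le_inf ?_ (h5.trans ?_)
    · rw [h7]
      exact c2_dv_K _ _
    · rw [ha]
      exact inf_le_right
  have hcK : c ≤ K m := by
    rw [hc]
    exact inf_le_left
  obtain ⟨h10, h11⟩ := hb.mu_spec hcK
  have h12 : s ≤ mu m c := h.trans h10
  obtain ⟨v, hv⟩ : ∃ v, v = dv s (mu m c) := ⟨_, rfl⟩
  have h13 : dv t v = c := by
    have h14 := hb.dv_dv h h10
    rwa [← ht, ← hv, h11] at h14
  have h15 : t ≤ v := by
    rw [ht, hv]
    exact (hb.dv_le_iff h h12).mpr h10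
  have h16 : c ≤ K t := (hb.mu_uniq (c2_mul h15 h13)).2
  have h17 : c ≤ a := by
    rw [ha]
    refine le_inf h16 ?_
    rw [hc]
    exact inf_le_right
  have h18 : v ≤ n := by
    rw [← hb.dv_le_iff h15 h1, h13, h2]
    exact h17
  have h19 : v ≤ b := by
    rw [hbb]
    refine le_inf ?_ h18
    rw [hv]
    exact c2_dv_K _ _
  have h20 : b ≤ v := by
    rw [← hb.dv_le_iff htb h15, h13]
    exact h9
  have h21 : b = v := le_antisymm h20 h19
  have h22 : mu s b = mu m c := by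
    rw [h21]
    exact c2_mu_eq hb h12 hv.symm
  rw [← ht, e1, e2, e3, ← ha, ← hc, ← hbb, h22]
  refine ⟨rfl, h17, ?_⟩
  have h23 := hb.dv_dv h15 h18
  rw [h13, h2] at h23
  rw [h21, h23]

theorem laws (S : Type) [NC S] (hb : Basic S) : Laws S where
  A1 u h := (c2_key hb u h).1
  A2 := by
    intro s m u h
    obtain ⟨-, h2, h3⟩ := c2_key hb u h
    have h4 : K (dv s m) ⊓ u ≤ u := inf_le_right
    refine c2_mul ?_ ?_
    · change dv (K s ⊓ N1 (dv s m) u) (N1 (dv s m) u) ≤ dv (K m ⊓ u) u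
      rw [h3, hb.dv_le_iff h2 inf_le_right]
      exact h4
    · change dv (dv (K s ⊓ N1 (dv s m) u) (N1 (dv s m) u)) (dv (K m ⊓ u) u) =
        dv (K (dv s m) ⊓ u) u
      rw [h3, hb.dv_dv h2 h4]
  B1 := by
    intro u v h
    have h1 := (hb.mu_spec (s := u) (t := K u ⊓ v) inf_le_left).2
    change mu u (K u ⊓ v) = u at h
    rw [h, hb.dv_self] at h1
    change dv (K u ⊓ v) v = v
    rw [← h1, hb.dv_bo]
  B2 := by
    intro u v h s
    have h1 := (c2_key hb v (inf_le_right : K s ⊓ u ≤ u)).1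
    obtain ⟨h2, h3⟩ := hb.mu_spec (s := s) (t := K s ⊓ u) inf_le_left
    have h4 := (c2_key hb (N1 (N2 s u) v) h2).1
    rw [h3] at h4
    change N1 (mu s (K s ⊓ u)) (N1 (N2 s u) v) = mu s (K s ⊓ u)
    change N1 u v = N1 (K s ⊓ u) (N1 (N2 s u) v) at h1
    rw [h4, ← h1, h]
    rfl
  C1 s := by
    have h : K (⊤ : S) ⊓ s = bo S := inf_eq_left.mpr (hb.bo_le s)
    change mu ⊤ (K ⊤ ⊓ s) = ⊤
    rw [h]
    exact c2_mu_eq hb le_rfl (hb.dv_self _)
  C2 s := by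
    have h : K (⊤ : S) ⊓ s = bo S := inf_eq_left.mpr (hb.bo_le s)
    change dv (K ⊤ ⊓ s) s = s
    rw [h, hb.dv_bo]
  C3 s := by
    change mu s (K s ⊓ ⊤) = ⊤
    rw [inf_top_eq]
    exact c2_mu_eq hb le_top (hb.dv_top s)
  C4 s := by
    change dv (K s ⊓ ⊤) ⊤ = tau s
    rw [inf_top_eq, hb.dv_top]
    rfl
  C5 s := by
    have h : K s ⊓ bo S = bo S := inf_eq_right.mpr (hb.bo_le _)
    change mu s (K s ⊓ bo S) = s
    rw [h]
    exact c2_mu_eq hb le_rfl (hb.dv_self _)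
  C6 s := by
    have h : K s ⊓ bo S = bo S := inf_eq_right.mpr (hb.bo_le _)
    change dv (K s ⊓ bo S) (bo S) = bo S
    rw [h, hb.dv_self]
  C7 s := by
    change mu (bo S) (K (bo S) ⊓ s) = s
    rw [hb.K_bo, top_inf_eq]
    exact c2_mu_eq hb (hb.bo_le s) (hb.dv_bo s)
  C8 s := by
    change dv (K (bo S) ⊓ s) s = bo S
    rw [hb.K_bo, top_inf_eq, hb.dv_self]
  D1 s u := hb.mu_spec inf_le_left
  D2 s u := c2_mul inf_le_right rfl

end NC

end Pool.Agent.H54.RF
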