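import Pool.Agent.H54.RF.Dat

/-!
# Project RF (MP_35eb49): Artin groups and realisations of dual germs
-/

set_option autoImplicit false

namespace Pool.Agent.H54.RF

section

variable {n : ℕ} (M : CoxeterMatrix (Fin n))

/-- The relations of the Artin group. -/
def Rel : Set (FreeGroup (Fin n)) :=
  Set.range (fun p : Fin n × Fin n =>
    ((CoxeterSystem.alternatingWord p.1 p.2 (M p.1 p.2)).map FreeGroup.of).prod *
      (((CoxeterSystem.alternatingWord p.2 p.1 (M p.1 p.2)).map FreeGroup.of).prod)⁻¹)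

/-- The Artin group. -/
abbrev Art : Type := PresentedGroup (Rel M)

/-- The standard generators. -/
def ge (i : Fin n) : Art M := PresentedGroup.of i

/-- The product of the generators of a word. -/
def wd (l : List (Fin n)) : Art M := (l.map (ge M)).prod

end

namespace NC

variable {S : Type} [NC S] {n : ℕ}

/-- `m` is the product of the atoms of the list. -/
def Chain (a : Fin n → S) : List (Fin n) → S → Prop
  | [], m => m = bo S
  | i :: l, m => a i ≤ m ∧ Chain a l (dv (a i) m)

end NC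

open NC in
/-- The germ `S` is a dual germ of the Artin group: `a i` is the atom of the generator `i`, the
word `ol` is the dual Garside element, `h` is a period of `tau`. -/
structure Rz {n : ℕ} (M : CoxeterMatrix (Fin n)) {S : Type} [NC S] (a : Fin n → S)
    (ol : List (Fin n)) (h : ℕ) : Prop where
  rk_a : ∀ i, NC.rk (a i) = 1
  pos : 0 < h
  per : ∀ s : S, tau^[h] s = s
  orb : ∀ r : S, NC.rk r = 1 → ∃ k i, r = tau^[k] (a i)
  top : Chain a ol ⊤
  dih : ∀ i j, i ≠ j → ∃ w : S, a i ≤ w ∧ a j ≤ w ∧ (dv (a i) w = a j ∨ dv (a j) w = a i) ∧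
    (fun x => dv x w)^[M i j] (a i) = a i
  P : ∀ (i j : Fin n) (k : ℕ), 0 < k → k ≤ h → tau^[k] (a j) = a i →
    ge M j * wd M ol ^ k = wd M ol ^ k * ge M i
  R : ∀ (i : Fin n) (r : S), NC.rk r = 1 → r ≤ K (a i) → ∃ (j l : Fin n) (b c : ℕ) (w : S),
    tau^[b] r = a j ∧ IsMul (a i) r w ∧ IsMul (tau^[c] (a l)) (a i) w ∧
      wd M ol ^ c * ge M i * wd M ol ^ b * ge M j = ge M l * wd M ol ^ c * ge M i * wd M ol ^ b

/-- A realised germ gives the group of the germ. -/
def SpRz : Prop := ∀ (n : ℕ) (M : CoxeterMatrix (Fin n)) (S : Type) [NC S] (a : Fin n → S)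
  (ol : List (Fin n)) (h : ℕ), NC.Basic S → NC.Conn S → Rz M a ol h →
    ∃ val : S → Art M, NC.IsGrp val ∧ (∀ i, val (a i) = ge M i) ∧ val ⊤ = wd M ol

/-! ### Words -/

namespace Wd

/-- The entry of a matrix. -/
def en (m : List (List ℕ)) (a b : ℕ) : ℕ := (m.getD a []).getD b 0

/-- The alternating word of length `k` starting with `a`. -/
def alt : ℕ → ℕ → ℕ → List ℕ
  | 0, _, _ => []
  | k + 1, a, b => a :: alt k b a

/-- Remove the alternating word from the front. -/
def dropA : ℕ → ℕ → ℕ → List ℕ → Option (List ℕ)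
  | 0, _, _, l => some l
  | _ + 1, _, _, [] => none
  | k + 1, a, b, x :: l => cond (Nat.beq x a) (dropA k b a l) none

/-- The braid relation at the front. -/
def front (m : List (List ℕ)) : List ℕ → List ℕ
  | a :: b :: l => match dropA (en m a b) a b (a :: b :: l) with
    | some l' => alt (en m a b) b a ++ l'
    | none => a :: b :: l
  | l => l

/-- The braid relation at a position. -/
def stp (m : List (List ℕ)) : ℕ → List ℕ → List ℕ
  | 0, l => front m l
  | _ + 1, [] => []
  | p + 1, a :: l => a :: stp m p l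

/-- A sequence of braid relations. -/
def run (m : List (List ℕ)) : List ℕ → List ℕ → List ℕ
  | [], l => l
  | p :: ps, l => run m ps (stp m p l)

/-- Equality of lists. -/
def eqL : List ℕ → List ℕ → Bool
  | [], [] => true
  | a :: l, b :: l' => cond (Nat.beq a b) (eqL l l') false
  | _, _ => false

/-- The power of a word. -/
def pw (l : List ℕ) : ℕ → List ℕ
  | 0 => []
  | k + 1 => l ++ pw l k

end Wd

/-- Certificate for `P`. -/
structure PE where
  j : ℕ
  k : ℕ
  i : ℕ
  mv : List ℕ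

/-- Certificate for `R`. -/
structure RE where
  i : ℕ
  r : ℕ
  w : ℕ
  b : ℕ
  j : ℕ
  c : ℕ
  l : ℕ
  mv : List ℕ

/-- Certificates for a realisation: Coxeter matrix, positions of the generators among the atoms,
the dual Garside element, the period, the joins of pairs of generators. -/
structure Cert where
  m : List (List ℕ)
  a : List ℕ
  ol : List ℕ
  h : ℕ
  dh : List (ℕ × ℕ × ℕ)
  P : List PE
  R : List RE

namespace Cert

open Dat

/-- some element of a list satisfies a test -/
def anyL {α : Type} (p : α → Bool) : List α → Bool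
  | [] => false
  | x :: xs => cond (p x) true (anyL p xs)

/-- Bounded quantifier. -/
def allN (n : ℕ) (p : ℕ → Bool) : Bool := Nat.rec true (fun k r => cond (p k) r false) n

/-- iterate -/
def it {α : Type} (f : α → α) : ℕ → α → α
  | 0, x => x
  | k + 1, x => it f k (f x)

/-- periods, orbits, the dual Garside element -/
def ck1 (X : Cert) (D : Dat) : Bool :=
  Nat.beq X.a.length X.m.length && allL (fun r => Nat.blt r D.N) X.a &&
  allL (fun i => Nat.blt i X.m.length) X.ol && Nat.blt 0 X.h &&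
  allI (fun r _ => Nat.beq (it (fun x => D.tb.getD x 0) X.h r) r) 0 D.Kr &&
  allI (fun r _ => anyL (fun q => !(allN X.h fun k =>
    !(Nat.beq (it (fun x => D.tb.getD x 0) k q) r))) X.a) 0 D.Kr &&
  Nat.beq (X.ol.foldr (fun i f m => cond (bt m (X.a.getD i 0))
    (f (Nat.land (D.Kr.getD (X.a.getD i 0) 0) m)) 1) (fun m => m) D.full) 0

/-- pairs of generators -/
def ck2 (X : Cert) (D : Dat) : Bool :=
  allI (fun i q => allI (fun j q' => Nat.beq i j || anyL (fun t =>
    Nat.beq t.1 i && Nat.beq t.2.1 j && mem D.L t.2.2 && bt t.2.2 q && bt t.2.2 q' &&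
    (Nat.beq (Nat.land (D.Kr.getD q 0) t.2.2) (Nat.pow 2 q') ||
      Nat.beq (Nat.land (D.Kr.getD q' 0) t.2.2) (Nat.pow 2 q)) &&
    Nat.beq (it (fun x => Nat.land (D.Km x) t.2.2) (Wd.en X.m i j) (Nat.pow 2 q)) (Nat.pow 2 q))
    X.dh) 0 X.a) 0 X.a

/-- the relations `P` -/
def ck3 (X : Cert) (D : Dat) : Bool :=
  allI (fun j q => allI (fun i q' => allN X.h fun k =>
    !(Nat.beq (it (fun x => D.tb.getD x 0) (k + 1) q) q') || anyL (fun e : PE =>
      Nat.beq e.j j && Nat.beq e.i i && Nat.beq e.k (k + 1) &&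
      Wd.eqL (Wd.run X.m e.mv (j :: Wd.pw X.ol (k + 1))) (Wd.pw X.ol (k + 1) ++ [i])) X.P)
    0 X.a) 0 X.a

/-- the relations `R` -/
def ck4 (X : Cert) (D : Dat) : Bool :=
  allI (fun i q => allI (fun r _ => !(bt (D.Kr.getD q 0) r) || anyL (fun e : RE =>
      Nat.beq e.i i && Nat.beq e.r r && mem D.L e.w && bt e.w q &&
      Nat.blt e.j X.m.length && Nat.blt e.l X.m.length &&
      Nat.beq (Nat.land (D.Kr.getD q 0) e.w) (Nat.pow 2 r) &&
      Nat.beq (it (fun x => D.tb.getD x 0) e.b r) (X.a.getD e.j 0) &&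
      (bt e.w (it (fun x => D.tb.getD x 0) e.c (X.a.getD e.l 0))) &&
      Nat.beq (Nat.land (D.Kr.getD (it (fun x => D.tb.getD x 0) e.c (X.a.getD e.l 0)) 0) e.w)
        (Nat.pow 2 q) &&
      Wd.eqL (Wd.run X.m e.mv (Wd.pw X.ol e.c ++ i :: (Wd.pw X.ol e.b ++ [e.j])))
        (e.l :: (Wd.pw X.ol e.c ++ i :: Wd.pw X.ol e.b))) X.R) 0 D.Kr) 0 X.a

/-- All checks. -/
def check (X : Cert) (D : Dat) : Bool := ck1 X D && ck2 X D && ck3 X D && ck4 X D

end Cert

/-- The checks are sound. -/
def SpCert : Prop := ∀ (D : Dat) [NC D.S], NC.Basic D.S → D.Ok → D.check = true → ∀ X : Cert,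
  X.check D = true → ∀ (n : ℕ) (M : CoxeterMatrix (Fin n)), X.m.length = n →
    (∀ i j : Fin n, M i j = Wd.en X.m i j) →
    ∃ (a : Fin n → D.S) (ol : List (Fin n)), Rz M a ol X.h ∧ (∀ i, (a i).1 = 2 ^ X.a.getD i 0) ∧
      ol.map Fin.val = X.ol

end Pool.Agent.H54.RF
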