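import Pool.Agent.H54.RF.EncD
import Pool.Agent.H54.RF.Art

/-!
# Project RF (MP_35eb49): statements about parabolic subgroups
-/

set_option autoImplicit false

namespace Pool.Agent.H54.RF

open NC

section

variable {S : Type} [NC S]

/-- `j` is the join of `s` and `t`. -/
def IsJ (s t j : S) : Prop := s ≤ j ∧ t ≤ j ∧ ∀ u, s ≤ u → t ≤ u → j ≤ u

/-- `d'` is the quotient of the join of `r` and `d` by `r`. -/
def Ts (r d d' : S) : Prop := ∃ j, IsJ r d j ∧ d' = dv r j

/-- A sequence of steps `Ts`. -/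
inductive Wk : S → List S → S → Prop
  | nil (d : S) : Wk d [] d
  | cons {r d d' d'' : S} {l : List S} (h : Ts r d d') (h' : Wk d' l d'') : Wk d (r :: l) d''

/-- `J` is the join of a list. -/
def Jn (l : List S) (J : S) : Prop := (∀ r ∈ l, r ≤ J) ∧ ∀ J', (∀ r ∈ l, r ≤ J') → J ≤ J'

variable (S) in
/-- The finite property of closed sequences of steps. -/
def KL : Prop := ∀ (J c : S) (l : List S), c ≠ bo S → c ⊓ J = bo S → (∀ r ∈ l, NC.rk r = 1) →
  Jn l J → Wk c l c → c ≤ K J ∧ ∀ r, NC.rk r = 1 → r ≤ J → ∀ d, Ts r c d → d ≤ c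

variable {G : Type} [Group G] [Gar G]

/-- `val` identifies the germ with the simple elements of the Garside structure. -/
structure Gv (val : S → G) : Prop where
  mult : Mult val
  inj : Function.Injective val
  top : (Gar.δ : G) = val ⊤
  simple : ∀ x : G, (1 ≤ x ∧ x ≤ Gar.δ) ↔ ∃ s, x = val s
  le : ∀ s t, val s ≤ val t ↔ s ≤ t
  inf : ∀ s t, val (s ⊓ t) = val s ⊓ val t
  len : ∀ s, Gar.len (val s) = NC.rk s

/-- The parabolic subgroup of `J`. -/
def GJ (val : S → G) (J : S) : Subgroup G := Subgroup.closure (val '' {s | s ≤ J})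

/-- The parabolic submonoid of `J`. -/
def PJ (val : S → G) (J : S) : Submonoid G := Submonoid.closure (val '' {s | s ≤ J})

/-- Facts about the parabolic submonoids. -/
structure PJt (val : S → G) : Prop where
  one_le : ∀ J, ∀ x ∈ PJ val J, 1 ≤ x
  head : ∀ J, ∀ x ∈ PJ val J, ∀ s, val s ≤ x → s ≤ J
  fac : ∀ J, ∀ x ∈ PJ val J, ∀ y, 1 ≤ y → y ≤ x → y ∈ PJ val J ∧ y⁻¹ * x ∈ PJ val J
  all : ∀ x : G, 1 ≤ x → x ∈ PJ val ⊤
  conj : ∀ J, ∀ x ∈ PJ val J, (val J)⁻¹ * x * val J ∈ PJ val J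
  frac : ∀ J, ∀ x ∈ GJ val J, ∃ k : ℕ, val J ^ k * x ∈ PJ val J
  pos : ∀ J, ∀ x ∈ GJ val J, 1 ≤ x → x ∈ PJ val J
  list : ∀ J, ∀ x ∈ PJ val J, ∃ l : List S, (∀ r ∈ l, NC.rk r = 1 ∧ r ≤ J) ∧ x = (l.map val).prod
  ne : ∀ J, J ≠ ⊤ → J ≠ bo S → GJ val J ≠ ⊤ ∧ GJ val J ≠ ⊥

/-- `J` is the support of `x`. -/
def Su (val : S → G) (x : G) (J : S) : Prop := x ∈ PJ val J ∧ ∀ J', x ∈ PJ val J' → J ≤ J'

/-- Facts about supports. -/
structure Sut (val : S → G) : Prop where
  ex : ∀ x : G, 1 ≤ x → ∃ J, Su val x J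
  prod : ∀ (l : List S) (J : S), Jn l J → Su val (l.map val).prod J
  jn : ∀ (l : List S) (J : S), Su val (l.map val).prod J → Jn l J

end

/-- Parabolic submonoids. -/
def SpPJ : Prop := ∀ (S : Type) [NC S] (G : Type) [Group G] [Gar G] (val : S → G),
  NC.Basic S → NC.Conn S → Gv val → PJt val

/-- Supports. -/
def SpSu : Prop := ∀ (S : Type) [NC S] (G : Type) [Group G] [Gar G] (val : S → G),
  NC.Basic S → NC.Conn S → Gv val → PJt val → Sut val

/-- The steps of a word. -/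
def SpWk : Prop := ∀ (S : Type) [NC S] (G : Type) [Group G] [Gar G] (val : S → G),
  NC.Basic S → Gv val → ∀ (l : List S) (c : S), ∃ d, Wk c l d ∧
    ∀ y : G, 1 ≤ y → (val c ≤ (l.map val).prod * y ↔ val d ≤ y)

/-- Conjugation of the support by a minimal element. -/
def SpStep : Prop := ∀ (S : Type) [NC S] (G : Type) [Group G] [Gar G] (val : S → G),
  NC.Basic S → NC.Conn S → Gv val → PJt val → Sut val → KL S →
  ∀ (x : G) (J c J' : S), 1 ≤ x → Su val x J → c ≠ bo S → val c ≤ x * val c →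
    (∀ c' : S, c' ≤ c → val c' ≤ x * val c' → c' = bo S ∨ c' = c) →
    Su val ((val c)⁻¹ * x * val c) J' →
    NC.rk J' ≤ NC.rk J ∧ (NC.rk J' = NC.rk J → ∀ y ∈ GJ val J, (val c)⁻¹ * y * val c ∈ GJ val J')

/-- The centralizer of an element normalizes the parabolic subgroup of its support. -/
def SpNorm : Prop := ∀ (S : Type) [NC S] (G : Type) [Group G] [Gar G] (val : S → G),
  NC.Basic S → NC.Conn S → Gv val → PJt val → Sut val → KL S →
  ∀ (x : G) (J : S) (u : G), 1 ≤ x → Su val x J → Commute u x →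
    (GJ val J).map (MulAut.conj u).toMonoidHom = GJ val J

/-- The line of a flat yields an element with proper support. -/
def SpRowJ : Prop := ∀ (S : Type) [NC S] (G : Type) [Group G] [Gar G] (val : S → G),
  NC.Basic S → NC.Conn S → Gv val →
  ∀ (Y : (Fin 3 → ℤ) → G) (D : ℕ) (Z : Fin 3 → G), Gar.Flat3 Y D Z →
  ∀ F : (Fin 3 → ℤ) → Fin 3 → S, Fl F D → (∀ v d, val (F v d) = (Y v)⁻¹ * Y (v + 1 - e d)) →
  (∀ v d, val (aa F v d) = (Y v)⁻¹ * Y (v + e d)) →
  ∀ (v : Fin 3 → ℤ) (d : Fin 3) (w : S), w ≠ ⊤ → ((∀ n : ℕ, aa F (v + (n : ℤ) • e d) d ≤ w) ∨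
    ∀ n : ℕ, F (v + (n : ℤ) • e d) d ≤ tau^[n] w) →
  ∃ (v' : Fin 3 → ℤ) (l : List S) (J : S), J ≠ ⊤ ∧ J ≠ bo S ∧ Jn l J ∧
    ∀ u : G, Commute u (Z d) → Commute ((Y v')⁻¹ * u * Y v') (l.map val).prod

namespace Ops

variable (O : Ops)

/-- the step -/
noncomputable def tj (r d : ℕ) : ℕ :=
  O.mt (O.kk r) (O.tt (Nat.sub O.h 1) (O.kk (O.mt (O.kk r) (O.kk d))))

/-- the check for the finite property of closed sequences, for one `J` and given atoms
`1, …, at` -/
noncomputable def ckK (na J : ℕ) (cp bd : ℕ → ℕ) : Bool :=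
  ba (allR O.m fun d => frc (cp d) fun a => frc (bd a) fun ba_ => ba (Nat.ble ba_ O.top) <|
    allR na fun r' => frc (Nat.succ r') fun r => bi (Nat.beq (O.mt r J) r)
      (frc (O.tj r d) fun t => frc (cp t) fun b => ba (Nat.ble b a)
        (bi (Nat.beq a b) (Nat.beq (O.mt r ba_) r) true)) true)
  (allR O.m fun c => bo (Nat.beq c 0) <| bo (bi (Nat.beq (O.mt c J) 0) false true) <|
    bo (bi (Nat.beq (O.mt J (bd (cp c))) J) false true) <| ba (Nat.beq (O.mt c (O.kk J)) c) <|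
      allR na fun r' => frc (Nat.succ r') fun r => bi (Nat.beq (O.mt r J) r)
        (frc (O.tj r c) fun t => Nat.beq (O.mt t c) t) true)

/-- the atoms are the elements with the indices `1, …, na` -/
noncomputable def ckN (D : Dat) (el : ℕ → ℕ) (na : ℕ) : Bool :=
  ba (Nat.ble na O.top) <| ba (Nat.ble 2 O.h) <| allR O.m fun i =>
    bi (Nat.beq (Dat.rf D.L (el i)) 1) (ba (Nat.blt 0 i) (Nat.ble i na))
      (bo (Nat.beq i 0) (Nat.blt na i))

end Ops

/-- The atoms are the elements with the indices `1, …, na`. -/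
def Na {S : Type} [NC S] (ix : S → ℕ) (O : Ops) (na : ℕ) : Prop :=
  na ≤ O.top ∧ 2 ≤ O.h ∧ ∀ s : S, NC.rk s = 1 ↔ 0 < ix s ∧ ix s ≤ na

/-- The check of the atoms is sound. -/
def SpNa : Prop := ∀ (D : Dat) [NC D.S], NC.Basic D.S → D.Ok →
  ∀ (O : Ops) (el : ℕ → ℕ) (reps : List ℕ) (ix : D.S → ℕ) (sf : ℕ → D.S) (na : ℕ),
    Enc O reps ix sf → (∀ i ≤ O.top, (sf i).1 = el i) → O.ckN D el na = true → Na ix O na

/-- The check of the finite property is sound. -/
def SpKL : Prop := ∀ (S : Type) [NC S] (O : Ops) (reps : List ℕ) (ix : S → ℕ) (sf : ℕ → S)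
  (na : ℕ), NC.Basic S → Enc O reps ix sf → Na ix O na →
  (∀ J ∈ reps, ∃ cp bd : ℕ → ℕ, O.ckK na J cp bd = true) → KL S

/-! ### Standard parabolic subgroups -/

/-- Conjugation of a simple element by an atom. -/
def Mv {S : Type} [NC S] (r J J' : S) : Prop := NC.rk r = 1 ∧ r ≤ K J ∧ J' = dv r (mu J r)

/-- Moves conjugate the parabolic subgroups. -/
def SpMv : Prop := ∀ (S : Type) [NC S] (G : Type) [Group G] [Gar G] (val : S → G),
  NC.Basic S → Gv val →
    (∀ r J J' : S, Mv r J J' → GJ val J = (GJ val J').map (MulAut.conj (val r)).toMonoidHom) ∧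
    ∀ J : S, GJ val J = (GJ val (tau J)).map (MulAut.conj (val ⊤)).toMonoidHom

/-- The parabolic subgroup of a product of generators. -/
def SpStd : Prop := ∀ (S : Type) [NC S] (G : Type) [Group G] [Gar G] (val : S → G),
  NC.Basic S → NC.Conn S → Gv val → ∀ (n : ℕ) (a : Fin n → S), (∀ i, NC.rk (a i) = 1) →
  ∀ (l : List (Fin n)) (c : S), Chain a l c →
    GJ val c = Subgroup.closure (val '' (a '' {i | i ∈ l}))

namespace Ops

variable (O : Ops)

/-- the result of a sequence of moves, `top` if a move is not allowed -/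
noncomputable def mvs (l : List ℕ) : ℕ → ℕ :=
  List.rec (motive := fun _ => ℕ → ℕ) (fun J => J) (fun r _ ih J =>
    Bool.rec (motive := fun _ => ℕ) O.top (ih (O.mt (O.kk r) (O.pr J r)))
      (Nat.beq (O.mt r (O.kk J)) r)) l

/-- `c` is the product of the atoms of the list -/
noncomputable def chn (l : List ℕ) : ℕ → Bool :=
  List.rec (motive := fun _ => ℕ → Bool) (fun c => Nat.beq c 0) (fun r _ ih c =>
    bi (Nat.beq (O.mt r c) r) (ih (O.mt (O.kk r) c)) false) l

/-- the moves lead from `J` to the rotated product of the generators of the list `s` -/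
noncomputable def ckX (na n : ℕ) (at_ : ℕ → ℕ) (J : ℕ) (mv : List ℕ) (k : ℕ) (s : List ℕ) : Bool :=
  ba (allL mv fun r => ba (Nat.blt 0 r) (Nat.ble r na)) <| ba (Nat.blt k O.h) <|
  ba (allL s fun i => Nat.blt i n) <| frc (O.mvs mv J) fun c => ba (Nat.blt c O.top)
    (O.chn (s.map at_) (O.tt k c))

end Ops

/-- Every proper parabolic subgroup of the germ is conjugate to a standard one. -/
def SpPar : Prop := ∀ (S : Type) [NC S] (G : Type) [Group G] [Gar G] (val : S → G)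
  (O : Ops) (reps : List ℕ) (ix : S → ℕ) (sf : ℕ → S) (na : ℕ),
  NC.Basic S → Gv val → Enc O reps ix sf → Na ix O na →
  ∀ (n : ℕ) (a : Fin n → S) (at_ : ℕ → ℕ), (∀ i : Fin n, ix (a i) = at_ i) →
  (∀ J ∈ reps, ∃ mv k s, O.ckX na n at_ J mv k s = true) →
  ∀ J : S, J ≠ bo S → J ≠ ⊤ → ∃ (l : List (Fin n)) (c : S) (y : G), Chain a l c ∧
    GJ val J = (GJ val c).map (MulAut.conj y).toMonoidHom

end Pool.Agent.H54.RF
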