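import Pool.Agent.H54.RF.SpecR

/-!
# Project RF (MP_35eb49): the universal property of the Artin group
-/

set_option autoImplicit false

namespace Pool.Agent.H54.RF

open NC

section Dih

variable {H : Type} [Group H]

theorem c9_iter_even (W y : H) (p : ℕ) :
    (fun x => x⁻¹ * W)^[2 * p] y = (W ^ p)⁻¹ * y * W ^ p := by
  induction p with
  | zero => simp
  | succ p ih =>
    have h1 : 2 * (p + 1) = (2 * p + 1) + 1 := by ring
    rw [h1, Function.iterate_succ_apply', Function.iterate_succ_apply', ih, pow_succ]
    group

theorem c9_iter_odd (W y : H) (p : ℕ) :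
    (fun x => x⁻¹ * W)^[2 * p + 1] y = (W ^ p)⁻¹ * (y⁻¹ * W) * W ^ p := by
  rw [Function.iterate_succ_apply, c9_iter_even]

theorem c9_inj (W : H) : Function.Injective (fun x : H => x⁻¹ * W) := by
  intro x y h
  have h1 : x⁻¹ * W = y⁻¹ * W := h
  exact inv_injective (mul_right_cancel h1)

variable {B : Type} (F : B → H)

theorem c9_alt_succ (i j : B) (m : ℕ) :
    ((CoxeterSystem.alternatingWord i j (m + 1)).map F).prod =
      ((CoxeterSystem.alternatingWord j i m).map F).prod * F j := by
  rw [CoxeterSystem.alternatingWord_succ, List.concat_eq_append, List.map_append, List.prod_append]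
  simp

theorem c9_alt_even (i j : B) (p : ℕ) :
    ((CoxeterSystem.alternatingWord i j (2 * p)).map F).prod = (F i * F j) ^ p := by
  induction p with
  | zero => simp [CoxeterSystem.alternatingWord]
  | succ p ih =>
    have h1 : 2 * (p + 1) = (2 * p + 1) + 1 := by ring
    rw [h1, c9_alt_succ, c9_alt_succ, ih, pow_succ, mul_assoc]

theorem c9_alt_odd (i j : B) (p : ℕ) :
    ((CoxeterSystem.alternatingWord i j (2 * p + 1)).map F).prod = (F j * F i) ^ p * F j := by
  rw [c9_alt_succ, c9_alt_even]

theorem c9_dih (i j : B) (m : ℕ) (h : (fun x => x⁻¹ * (F i * F j))^[m] (F i) = F i) :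
    ((CoxeterSystem.alternatingWord i j m).map F).prod =
      ((CoxeterSystem.alternatingWord j i m).map F).prod := by
  rcases Nat.even_or_odd' m with ⟨p, rfl | rfl⟩
  · rw [c9_iter_even] at h
    rw [c9_alt_even, c9_alt_even]
    have h1 : F i * (F i * F j) ^ p = (F i * F j) ^ p * F i := by
      have h2 : (F i * F j) ^ p * (((F i * F j) ^ p)⁻¹ * F i * (F i * F j) ^ p) =
          (F i * F j) ^ p * F i := by rw [h]
      rw [← h2]
      group
    have h3 : (F i * F j) ^ p * F i = F i * (F j * F i) ^ p := mul_pow_mul _ _ _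
    rw [h3] at h1
    exact mul_left_cancel h1
  · rw [c9_iter_odd] at h
    rw [c9_alt_odd, c9_alt_odd]
    have h1 : (F i)⁻¹ * (F i * F j) = F j := by group
    rw [h1] at h
    have h2 : (F i * F j) ^ p * (((F i * F j) ^ p)⁻¹ * F j * (F i * F j) ^ p) =
        (F i * F j) ^ p * F i := by rw [h]
    have h3 : (F j * F i) ^ p * F j = F j * (F i * F j) ^ p := mul_pow_mul _ _ _
    rw [h3, ← h2]
    group

end Dih

section MultLemmas

variable {S : Type} [NC S] {H : Type} [Group H] {f g : S → H}

theorem c9_bo (hB : NC.Basic S) (hf : Mult f) : f (bo S) = 1 := by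
  have h1 := hf (bo S) (bo S) le_rfl
  rw [hB.dv_self] at h1
  exact mul_eq_left.1 h1

theorem c9_chain (hB : NC.Basic S) (hf : Mult f) {n : ℕ} (a : Fin n → S) (l : List (Fin n)) :
    ∀ m : S, Chain a l m → f m = (l.map fun i => f (a i)).prod := by
  induction l with
  | nil =>
    intro m hm
    have h1 : m = bo S := hm
    rw [h1, c9_bo hB hf]
    rfl
  | cons i l ih =>
    intro m hm
    obtain ⟨h1, h2⟩ : a i ≤ m ∧ Chain a l (dv (a i) m) := hm
    rw [List.map_cons, List.prod_cons, ← ih _ h2]
    exact (hf _ _ h1).symm

theorem c9_tau (hB : NC.Basic S) (hf : Mult f) (s : S) : f (tau s) = (f ⊤)⁻¹ * f s * f ⊤ := by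
  have h1 := hf s ⊤ le_top
  have h2 := hf (K s) ⊤ le_top
  rw [hB.dv_top] at h1 h2
  have h3 : f (tau s) = (f (K s))⁻¹ * f ⊤ := by
    rw [← h2]
    unfold tau
    group
  rw [h3, ← h1]
  group

theorem c9_iter_tau (hB : NC.Basic S) (hf : Mult f) (hg : Mult g) (ht : f ⊤ = g ⊤) (k : ℕ) :
    ∀ s : S, f s = g s → f (tau^[k] s) = g (tau^[k] s) := by
  induction k with
  | zero => intro s hs; exact hs
  | succ k ih =>
    intro s hs
    rw [Function.iterate_succ_apply]
    apply ih
    rw [c9_tau hB hf, c9_tau hB hg, ht, hs]

theorem c9_ext (hB : NC.Basic S) (hC : NC.Conn S) (hf : Mult f) (hg : Mult g)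
    (hat : ∀ r : S, NC.rk r = 1 → f r = g r) : ∀ s : S, f s = g s := by
  have key : ∀ N : ℕ, ∀ s : S, NC.rk s = N → f s = g s := by
    intro N
    induction N using Nat.strong_induction_on with
    | _ N ih =>
      intro s hs
      by_cases hsb : s = bo S
      · rw [hsb, c9_bo hB hf, c9_bo hB hg]
      · obtain ⟨r, hr, hrs⟩ := hC.one s hsb
        have h1 := NC.rk_quo r s hrs
        have h2 : NC.rk (dv r s) < N := by
          have h3 : NC.rk (dv r s) = NC.rk (K r ⊓ s) := rfl
          omega
        have h4 := ih _ h2 (dv r s) rfl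
        rw [← hf r s hrs, ← hg r s hrs, hat r hr, h4]
  exact fun s => key _ s rfl

end MultLemmas

/-- The universal property. -/
theorem sp_uni : SpUni := by
  intro n M S _ a ol h val hB hC hR hval hge
  have htop : val ⊤ = wd M ol := by
    rw [c9_chain hB hval a ol ⊤ hR.top]
    unfold wd
    congr 1
    exact List.map_congr_left fun i _ => hge i
  refine ⟨⟨hval, ?_, ?_⟩, htop⟩
  · rw [eq_top_iff, ← PresentedGroup.closure_range_of (Rel M)]
    apply Subgroup.closure_mono
    rintro _ ⟨i, rfl⟩
    exact ⟨a i, hge i⟩
  · intro H _ f hf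
    have hrel : ∀ r ∈ Rel M, FreeGroup.lift (fun i => f (a i)) r = 1 := by
      rintro _ ⟨⟨i, j⟩, rfl⟩
      rw [map_mul, map_inv, mul_inv_eq_one, map_list_prod, map_list_prod, List.map_map,
        List.map_map]
      have e1 : (⇑(FreeGroup.lift fun i => f (a i)) ∘ FreeGroup.of) = fun i => f (a i) := by
        funext i
        simp
      rw [e1]
      by_cases hij : i = j
      · subst hij
        rfl
      · obtain ⟨w, hi, hj, hor, hit⟩ := hR.dih i j hij
        have hle : ∀ k, (fun x => dv x w)^[k] (a i) ≤ w := by
          intro k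
          cases k with
          | zero => exact hi
          | succ k =>
            rw [Function.iterate_succ_apply']
            exact inf_le_right
        have hy : ∀ k, f ((fun x => dv x w)^[k] (a i)) = (fun x => x⁻¹ * f w)^[k] (f (a i)) := by
          intro k
          induction k with
          | zero => rfl
          | succ k ih =>
            rw [Function.iterate_succ_apply', Function.iterate_succ_apply', ← ih,
              ← hf _ w (hle k)]
            group
        have hper : (fun x => x⁻¹ * f w)^[M i j] (f (a i)) = f (a i) := by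
          rw [← hy, hit]
        rcases hor with h1 | h1
        · have h2 := hf (a i) w hi
          rw [h1] at h2
          apply c9_dih (fun i => f (a i)) i j
          rw [← h2] at hper
          exact hper
        · have h2 := hf (a j) w hj
          rw [h1] at h2
          symm
          apply c9_dih (fun i => f (a i)) j i
          have h3 : (fun x => x⁻¹ * (f (a j) * f (a i))) (f (a j)) = f (a i) := by
            simp
          apply c9_inj (f (a j) * f (a i))
          have h4 := Function.Commute.iterate_self (fun x => x⁻¹ * (f (a j) * f (a i))) (M i j)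
          have h5 := h4 (f (a j))
          rw [h3] at h5 ⊢
          rw [← h2] at hper
          rw [hper] at h5
          exact h5.symm
    let ρ : Art M →* H := PresentedGroup.toGroup hrel
    have hρ : ∀ i, ρ (ge M i) = f (a i) := fun i => PresentedGroup.toGroup.of hrel
    refine ⟨ρ, ?_⟩
    have hg : Mult (fun s => ρ (val s)) := by
      intro s m hsm
      change ρ (val s) * ρ (val (dv s m)) = ρ (val m)
      rw [← map_mul, hval s m hsm]
    have hga : ∀ i, ρ (val (a i)) = f (a i) := fun i => by rw [hge i, hρ i]
    have hgt : ρ (val ⊤) = f ⊤ := by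
      have e1 := c9_chain hB hg a ol ⊤ hR.top
      have e2 := c9_chain hB hf a ol ⊤ hR.top
      rw [e2, e1]
      congr 1
      exact List.map_congr_left fun i _ => hga i
    apply c9_ext hB hC hg hf
    intro r hr
    obtain ⟨k, i, rfl⟩ := hR.orb r hr
    exact c9_iter_tau hB hg hf hgt k (a i) (hga i)

end Pool.Agent.H54.RF
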