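import Pool.Agent.H54.RF.SpecR

/-!
# Project RF (MP_35eb49): the function on the atoms of a realised germ
-/

set_option autoImplicit false

namespace Pool.Agent.H54.RF

open NC

section

variable {S : Type} [NC S]

theorem c8_inj (hB : Basic S) (k : ℕ) : Function.Injective (tau^[k] : S → S) :=
  hB.tau_bij.1.iterate k

theorem c8_surj (hB : Basic S) (k : ℕ) : Function.Surjective (tau^[k] : S → S) :=
  hB.tau_bij.2.iterate k

theorem c8_le (hB : Basic S) (k : ℕ) (x y : S) : tau^[k] x ≤ tau^[k] y ↔ x ≤ y := by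
  induction k generalizing x y with
  | zero => rfl
  | succ k ih => rw [Function.iterate_succ_apply, Function.iterate_succ_apply, ih, hB.tau_le]

theorem c8_dv (hB : Basic S) (k : ℕ) (x y : S) :
    tau^[k] (dv x y) = dv (tau^[k] x) (tau^[k] y) := by
  induction k generalizing x y with
  | zero => rfl
  | succ k ih =>
    rw [Function.iterate_succ_apply, Function.iterate_succ_apply, Function.iterate_succ_apply,
      hB.dv_tau, ih]

theorem c8_rk (hB : Basic S) (k : ℕ) (x : S) : NC.rk (tau^[k] x) = NC.rk x := by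
  induction k generalizing x with
  | zero => rfl
  | succ k ih => rw [Function.iterate_succ_apply, ih, hB.rk_tau]

theorem c8_isMul (hB : Basic S) (k : ℕ) (x y z : S) :
    IsMul (tau^[k] x) (tau^[k] y) (tau^[k] z) ↔ IsMul x y z := by
  unfold IsMul
  rw [c8_le hB, ← c8_dv hB]
  exact and_congr Iff.rfl (c8_inj hB k).eq_iff

theorem c8_per {h : ℕ} (hp : ∀ s : S, tau^[h] s = s) (q : ℕ) (s : S) : tau^[h * q] s = s := by
  rw [Function.iterate_mul]
  induction q generalizing s with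
  | zero => rfl
  | succ q ih => rw [Function.iterate_succ_apply, hp, ih]

end

section

variable {n : ℕ} {M : CoxeterMatrix (Fin n)} {S : Type} [NC S] {a : Fin n → S}
  {ol : List (Fin n)} {h : ℕ}

/-- the power `d ^ h` is central -/
theorem c8_cen (R : Rz M a ol h) (i : Fin n) :
    ge M i * wd M ol ^ h = wd M ol ^ h * ge M i :=
  R.P i i h R.pos le_rfl (R.per (a i))

theorem c8_cenq (R : Rz M a ol h) (i : Fin n) (q : ℕ) :
    ge M i * wd M ol ^ (h * q) = wd M ol ^ (h * q) * ge M i := by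
  rw [pow_mul]
  have h1 : Commute (ge M i) (wd M ol ^ h) := c8_cen R i
  exact h1.pow_right q

/-- the relations `P` for all exponents -/
theorem c8_P (R : Rz M a ol h) (i j : Fin n) (l : ℕ) (hl : tau^[l] (a j) = a i) :
    ge M j * wd M ol ^ l = wd M ol ^ l * ge M i := by
  have e : l = h * (l / h) + l % h := (Nat.div_add_mod l h).symm
  have h1 : tau^[l % h] (a j) = a i := by
    have h2 : tau^[l] (a j) = tau^[l % h] (a j) := by
      conv_lhs => rw [e, Function.iterate_add_apply]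
      rw [c8_per R.per]
    rw [← h2, hl]
  have h3 : ge M j * wd M ol ^ (l % h) = wd M ol ^ (l % h) * ge M i := by
    rcases Nat.eq_zero_or_pos (l % h) with h0 | h0
    · rw [h0] at h1 ⊢
      have h1' : a j = a i := h1
      have h4 := R.P i j h R.pos le_rfl (by rw [R.per, h1'])
      rw [c8_cen R j] at h4
      have h5 : ge M j = ge M i := mul_left_cancel h4
      rw [pow_zero, mul_one, one_mul, h5]
    · exact R.P i j (l % h) h0 (Nat.mod_lt _ R.pos).le h1
  calc ge M j * wd M ol ^ l = ge M j * wd M ol ^ (h * (l / h)) * wd M ol ^ (l % h) := by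
        rw [mul_assoc, ← pow_add, ← e]
    _ = wd M ol ^ (h * (l / h)) * (ge M j * wd M ol ^ (l % h)) := by
        rw [c8_cenq R j, mul_assoc]
    _ = wd M ol ^ l * ge M i := by
        rw [h3, ← mul_assoc, ← pow_add, ← e]

/-- the value at an atom -/
noncomputable def c8_v (M : CoxeterMatrix (Fin n)) (ol : List (Fin n)) (k : ℕ) (i : Fin n) :
    Art M := (wd M ol ^ k)⁻¹ * ge M i * wd M ol ^ k

theorem c8_v_wd1 (hB : Basic S) (R : Rz M a ol h) {k l : ℕ} {i j : Fin n} (hkl : k ≤ l)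
    (e : tau^[k] (a i) = tau^[l] (a j)) : c8_v M ol k i = c8_v M ol l j := by
  obtain ⟨c, rfl⟩ := Nat.exists_eq_add_of_le hkl
  rw [Function.iterate_add_apply] at e
  have h1 := c8_inj hB k e
  have h2 := c8_P R i j c h1.symm
  have h3 : ge M i = (wd M ol ^ c)⁻¹ * (ge M j * wd M ol ^ c) := by
    rw [h2, inv_mul_cancel_left]
  unfold c8_v
  rw [h3]
  have e1 : wd M ol ^ (k + c) = wd M ol ^ c * wd M ol ^ k := by
    rw [← pow_add, add_comm]
  rw [e1, mul_inv_rev]
  group

theorem c8_v_wd (hB : Basic S) (R : Rz M a ol h) {k l : ℕ} {i j : Fin n}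
    (e : tau^[k] (a i) = tau^[l] (a j)) : c8_v M ol k i = c8_v M ol l j := by
  rcases le_total k l with h1 | h1
  · exact c8_v_wd1 hB R h1 e
  · exact (c8_v_wd1 hB R h1 e.symm).symm

open Classical in
/-- the function on the atoms -/
noncomputable def c8_va (M : CoxeterMatrix (Fin n)) (a : Fin n → S) (ol : List (Fin n)) (r : S) :
    Art M :=
  if h : ∃ p : ℕ × Fin n, r = tau^[p.1] (a p.2) then c8_v M ol h.choose.1 h.choose.2 else 1

theorem c8_va_eq (hB : Basic S) (R : Rz M a ol h) (k : ℕ) (i : Fin n) :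
    c8_va M a ol (tau^[k] (a i)) = c8_v M ol k i := by
  have hex : ∃ p : ℕ × Fin n, tau^[k] (a i) = tau^[p.1] (a p.2) := ⟨(k, i), rfl⟩
  unfold c8_va
  rw [dif_pos hex]
  exact (c8_v_wd hB R hex.choose_spec).symm

theorem c8_va_a (hB : Basic S) (R : Rz M a ol h) (i : Fin n) :
    c8_va M a ol (a i) = ge M i := by
  have h1 := c8_va_eq hB R 0 i
  rw [Function.iterate_zero_apply] at h1
  rw [h1]
  unfold c8_v
  group

theorem c8_va_tau (hB : Basic S) (R : Rz M a ol h) (r : S) (hr : NC.rk r = 1) :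
    c8_va M a ol (tau r) = (wd M ol)⁻¹ * c8_va M a ol r * wd M ol := by
  obtain ⟨k, i, rfl⟩ := R.orb r hr
  rw [← Function.iterate_succ_apply' tau k (a i), c8_va_eq hB R, c8_va_eq hB R]
  unfold c8_v
  rw [pow_succ, mul_inv_rev]
  group

theorem c8_va_taus (hB : Basic S) (R : Rz M a ol h) (k : ℕ) (r : S) (hr : NC.rk r = 1) :
    c8_va M a ol (tau^[k] r) = (wd M ol ^ k)⁻¹ * c8_va M a ol r * wd M ol ^ k := by
  induction k with
  | zero => simp
  | succ k ih =>
    rw [Function.iterate_succ_apply', c8_va_tau hB R _ (by rw [c8_rk hB, hr]), ih, pow_succ,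
      mul_inv_rev]
    group

end

theorem sp_va : SpVa := by
  intro n M S _ a ol h hB R
  refine ⟨c8_va M a ol, c8_va_a hB R, c8_va_tau hB R, ?_⟩
  intro r s w q hr hs hq h1 h2
  obtain ⟨k, i, rfl⟩ := R.orb r hr
  obtain ⟨s, rfl⟩ := c8_surj hB k s
  obtain ⟨w, rfl⟩ := c8_surj hB k w
  obtain ⟨q, rfl⟩ := c8_surj hB k q
  rw [c8_rk hB] at hs hq hr
  rw [c8_isMul hB] at h1 h2
  obtain ⟨j, l, b, c, w', e1, e2, e3, e4⟩ := R.R i s hs (hB.mu_uniq h1).2
  have ew : w' = w := (hB.mu_uniq e2).1.symm.trans (hB.mu_uniq h1).1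
  subst ew
  have eq : q = tau^[c] (a l) := hB.cancel h2.1 e3.1 (h2.2.trans e3.2.symm)
  have hvs : c8_va M a ol s = wd M ol ^ b * ge M j * (wd M ol ^ b)⁻¹ := by
    have h3 := c8_va_taus hB R b s hs
    rw [e1, c8_va_a hB R] at h3
    rw [h3]
    group
  have hvq : c8_va M a ol q = (wd M ol ^ c)⁻¹ * ge M l * wd M ol ^ c := by
    rw [eq, c8_va_eq hB R]
    rfl
  have key : ge M i * c8_va M a ol s = c8_va M a ol q * ge M i := by
    rw [hvs, hvq]
    have h4 : ge M i * wd M ol ^ b * ge M j =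
        (wd M ol ^ c)⁻¹ * (ge M l * wd M ol ^ c * ge M i * wd M ol ^ b) := by
      rw [← e4]
      group
    calc ge M i * (wd M ol ^ b * ge M j * (wd M ol ^ b)⁻¹) =
        ge M i * wd M ol ^ b * ge M j * (wd M ol ^ b)⁻¹ := by group
      _ = (wd M ol ^ c)⁻¹ * (ge M l * wd M ol ^ c * ge M i * wd M ol ^ b) *
          (wd M ol ^ b)⁻¹ := by rw [h4]
      _ = (wd M ol ^ c)⁻¹ * ge M l * wd M ol ^ c * ge M i := by group
  rw [c8_va_taus hB R k s hs, c8_va_taus hB R k q hq, c8_va_taus hB R k (a i) hr,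
    c8_va_a hB R]
  calc (wd M ol ^ k)⁻¹ * ge M i * wd M ol ^ k *
        ((wd M ol ^ k)⁻¹ * c8_va M a ol s * wd M ol ^ k) =
      (wd M ol ^ k)⁻¹ * (ge M i * c8_va M a ol s) * wd M ol ^ k := by group
    _ = (wd M ol ^ k)⁻¹ * (c8_va M a ol q * ge M i) * wd M ol ^ k := by rw [key]
    _ = _ := by group

end Pool.Agent.H54.RF
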