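import Pool.Agent.H54.RF.NCB
import Pool.Agent.H54.RF.Laws
import Pool.Agent.H54.RF.Act
import Pool.Agent.H54.RF.HeadE
import Pool.Agent.H54.RF.GarE
import Pool.Agent.H54.RF.ExtV
import Pool.Agent.H54.RF.Va
import Pool.Agent.H54.RF.Uni
import Pool.Agent.H54.RF.CertOk
import Pool.Agent.H54.RF.SpecB

/-!
# Project RF (MP_35eb49): the Garside structure of a realised germ
-/

set_option autoImplicit false

namespace Pool.Agent.H54.RF

open NC

/-- The Garside structure of the group of a germ. -/
theorem gar : NC.SpGar := NC.gar_of NC.basic fun S _ =>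
  NC.head S (NC.basic S) (NC.laws S (NC.basic S)) (NC.carry S (NC.basic S) (NC.laws S (NC.basic S)))
    (NC.act S (NC.basic S) (NC.laws S (NC.basic S)))

/-- A realised germ gives the group of the germ. -/
theorem sp_rz : SpRz := by
  intro n M S _ a ol h hB hC hR
  obtain ⟨va, h1, _, h3⟩ := sp_va n M S a ol h hB hR
  obtain ⟨val, h4, h5⟩ := sp_extV S (Art M) va hB hC h3
  have h6 : ∀ i, val (a i) = ge M i := fun i => by rw [h5 _ (hR.rk_a i), h1]
  obtain ⟨h7, h8⟩ := sp_uni n M S a ol h val hB hC hR h4 h6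
  exact ⟨val, h7, h6, h8⟩

end Pool.Agent.H54.RF
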