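import Pool.Agent.H54.RF.SpecC

/-!
# Project RF (MP_35eb49): basic facts about the lattices `NC`
-/

set_option autoImplicit false

namespace Pool.Agent.H54.RF

namespace NC

section

variable {S : Type} [NC S]

private theorem c1_K_anti {s t : S} (h : s ≤ t) : K t ≤ K s := (K_le s t).2 h

private theorem c1_K_inj : Function.Injective (K : S → S) := fun x y h =>
  le_antisymm ((K_le x y).1 h.ge) ((K_le y x).1 h.le)

private theorem c1_K_bij : Function.Bijective (K : S → S) := by
  have : Finite S := NC.fin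
  exact Finite.injective_iff_bijective.1 c1_K_inj

private theorem c1_bo_le (s : S) : bo S ≤ s := by
  obtain ⟨x, rfl⟩ := (c1_K_bij (S := S)).2 s
  exact c1_K_anti le_top

private theorem c1_K_bo : K (bo S) = ⊤ := by
  obtain ⟨x, hx⟩ := (c1_K_bij (S := S)).2 ⊤
  refine top_le_iff.1 ?_
  rw [← hx]
  exact c1_K_anti (c1_bo_le x)

private theorem c1_tau_le (s t : S) : tau s ≤ tau t ↔ s ≤ t := by
  unfold tau
  rw [K_le, K_le]

private theorem c1_tau_bij : Function.Bijective (tau : S → S) :=
  (c1_K_bij (S := S)).comp (c1_K_bij (S := S))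

private theorem c1_tau_inf (s t : S) : tau (s ⊓ t) = tau s ⊓ tau t := by
  refine le_antisymm (le_inf ((c1_tau_le _ _).2 inf_le_left) ((c1_tau_le _ _).2 inf_le_right)) ?_
  obtain ⟨z, hz⟩ := (c1_tau_bij (S := S)).2 (tau s ⊓ tau t)
  rw [← hz]
  refine (c1_tau_le _ _).2 (le_inf ?_ ?_)
  · refine (c1_tau_le _ _).1 ?_
    rw [hz]
    exact inf_le_left
  · refine (c1_tau_le _ _).1 ?_
    rw [hz]
    exact inf_le_right

private theorem c1_per_tau (s : S) : tau^[per S] s = s := by
  have : Finite S := NC.fin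
  have h : (Equiv.ofBijective (tau : S → S) c1_tau_bij) ^ per S = 1 := by
    have h1 := pow_card_eq_one' (x := Equiv.ofBijective (tau : S → S) c1_tau_bij)
    rw [Nat.card_perm] at h1
    exact h1
  have h2 : ((Equiv.ofBijective (tau : S → S) c1_tau_bij) ^ per S) s = s := by
    rw [h]
    rfl
  rw [Equiv.Perm.coe_pow] at h2
  exact h2

private theorem c1_dv_le_iff {s m n : S} (hm : s ≤ m) (hn : s ≤ n) : dv s m ≤ dv s n ↔ m ≤ n := by
  constructor
  · intro h
    have h1 : K (K s ⊓ n) ≤ K (K s ⊓ m) := c1_K_anti h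
    have h2 : K (K s ⊓ n) ⊓ K s ≤ K (K s ⊓ m) ⊓ K s := inf_le_inf_right _ h1
    rw [star s n hn, star s m hm] at h2
    exact (K_le m n).1 h2
  · intro h
    exact inf_le_inf_left _ h

private theorem c1_dv_inj {s m n : S} (hm : s ≤ m) (hn : s ≤ n) (h : dv s m = dv s n) : m = n :=
  le_antisymm ((c1_dv_le_iff hm hn).1 h.le) ((c1_dv_le_iff hn hm).1 h.ge)

private theorem c1_ex {s t : S} (h : t ≤ K s) : ∃ m, IsMul s t m := by
  have : Finite S := NC.fin
  let f : {m : S // s ≤ m} → {t : S // t ≤ K s} := fun m => ⟨dv s m.1, inf_le_left⟩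
  let g : {m : S // s ≤ m} → {t : S // t ≤ K s} := fun m => ⟨K m.1, c1_K_anti m.2⟩
  have hf : Function.Injective f := by
    intro a b hab
    have := congrArg Subtype.val hab
    exact Subtype.ext (c1_dv_inj a.2 b.2 this)
  have hg : Function.Bijective g := by
    constructor
    · intro a b hab
      have := congrArg Subtype.val hab
      exact Subtype.ext (c1_K_inj this)
    · intro b
      obtain ⟨x, hx⟩ := (c1_K_bij (S := S)).2 b.1
      refine ⟨⟨x, (K_le s x).1 ?_⟩, Subtype.ext hx⟩
      rw [hx]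
      exact b.2
  have hc : Nat.card {m : S // s ≤ m} = Nat.card {t : S // t ≤ K s} :=
    Nat.card_congr (Equiv.ofBijective g hg)
  have hb : Function.Bijective f := hf.bijective_of_nat_card_le hc.ge
  obtain ⟨m, hm⟩ := hb.2 ⟨t, h⟩
  exact ⟨m.1, m.2, congrArg Subtype.val hm⟩

private theorem c1_dv_self (s : S) : dv s s = bo S := by
  obtain ⟨n, hn, hn'⟩ := c1_ex (c1_bo_le (K s))
  have h : dv s s ≤ dv s n := (c1_dv_le_iff le_rfl hn).2 hn
  rw [hn'] at h
  exact le_antisymm h (c1_bo_le _)

private theorem c1_mu_spec {s t : S} (h : t ≤ K s) : s ≤ mu s t ∧ dv s (mu s t) = t := by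
  have h1 := c1_ex h
  unfold mu
  rw [dif_pos h1]
  exact h1.choose_spec

private theorem c1_mu_uniq {s t m : S} (h : IsMul s t m) : mu s t = m ∧ t ≤ K s := by
  have h1 : t ≤ K s := by
    rw [← h.2]
    exact inf_le_left
  have h2 := c1_mu_spec h1
  exact ⟨c1_dv_inj h2.1 h.1 (h2.2.trans h.2.symm), h1⟩

private theorem c1_cancel {s s' m : S} (hs : s ≤ m) (hs' : s' ≤ m) (h : dv s m = dv s' m) :
    s = s' := by
  have h1 : K (dv s m) ⊓ K s = K m := star s m hs
  have h2 : K (dv s' m) ⊓ K s' = K m := star s' m hs'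
  rw [← h] at h2
  have h3 : dv s m ≤ K s := inf_le_left
  have h4 : dv s m ≤ K s' := by
    rw [h]
    exact inf_le_left
  have h5 : dv (dv s m) (K s) = dv (dv s m) (K s') := h1.trans h2.symm
  exact c1_K_inj (c1_dv_inj h3 h4 h5)

private theorem c1_left {t m : S} (h : t ≤ m) : ∃ s, s ≤ m ∧ dv s m = t := by
  have : Finite S := NC.fin
  let f : {s : S // s ≤ m} → {t : S // t ≤ m} := fun s => ⟨dv s.1 m, inf_le_right⟩
  have hf : Function.Injective f := by
    intro a b hab
    have := congrArg Subtype.val hab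
    exact Subtype.ext (c1_cancel a.2 b.2 this)
  have hs : Function.Surjective f := Finite.injective_iff_surjective.1 hf
  obtain ⟨s, hs⟩ := hs ⟨t, h⟩
  exact ⟨s.1, s.2, congrArg Subtype.val hs⟩

private theorem c1_rk_K (s : S) : rk s + rk (K s) = rk (⊤ : S) := by
  have := rk_quo s ⊤ le_top
  rwa [inf_top_eq] at this

private theorem c1_rk_lt {s m : S} (h : s < m) : rk s < rk m := by
  have h1 := rk_quo s m h.le
  have h2 : 0 < rk (K s ⊓ m) := by
    apply rk_pos
    intro h3
    have h4 : dv s m = dv s s := by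
      rw [c1_dv_self]
      exact h3
    exact h.ne (c1_dv_inj h.le le_rfl h4).symm
  omega

end

theorem basic (S : Type) [NC S] : Basic S where
  bo_le := c1_bo_le
  K_bo := c1_K_bo
  K_bij := c1_K_bij
  K_anti := c1_K_anti
  tau_le := c1_tau_le
  tau_bij := c1_tau_bij
  tau_top := c1_K_bo
  tau_bo := congrArg K c1_K_bo
  tau_inf := c1_tau_inf
  per_pos := Nat.factorial_pos _
  per_tau := c1_per_tau
  rk_bo := by
    have := c1_rk_K (⊤ : S)
    unfold bo
    omega
  rk_K := c1_rk_K
  rk_tau := fun s => by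
    have h1 := c1_rk_K s
    have h2 := c1_rk_K (K s)
    unfold tau
    omega
  rk_le := fun {s m} h => by
    have := rk_quo s m h
    omega
  rk_lt := c1_rk_lt
  dv_le_iff := c1_dv_le_iff
  dv_self := c1_dv_self
  dv_bo := fun s => by
    unfold dv
    rw [c1_K_bo, top_inf_eq]
  dv_top := fun s => by
    unfold dv
    rw [inf_top_eq]
  dv_dv := fun {s m n} hm hn => by
    have h := star s m hm
    unfold dv
    rw [← inf_assoc, h]
  dv_tau := fun s m => by
    unfold dv
    rw [c1_tau_inf]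
    rfl
  mu_spec := c1_mu_spec
  mu_uniq := c1_mu_uniq
  left := c1_left
  cancel := c1_cancel
  sup := fun s t => by
    obtain ⟨j, hj⟩ := (c1_K_bij (S := S)).2 (K s ⊓ K t)
    refine ⟨j, (K_le s j).1 ?_, (K_le t j).1 ?_, fun u hu hu' => (K_le j u).1 ?_⟩
    · rw [hj]
      exact inf_le_left
    · rw [hj]
      exact inf_le_right
    · rw [hj]
      exact le_inf (c1_K_anti hu) (c1_K_anti hu')

end NC

end Pool.Agent.H54.RF
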