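import Pool.Agent.H54.RF.SpecD
import Pool.Agent.H54.RF.NCB
import Pool.Agent.H54.RF.Laws

/-!
# Project RF (MP_35eb49), row D2: cores of flats
-/

set_option autoImplicit false

namespace Pool.Agent.H54.RF

open NC

theorem d2_frc {α : Type} (x : ℕ) (f : ℕ → α) : Ops.frc x f = f x := by
  cases x <;> rfl

theorem d2_dir : ∀ d f g : Fin 3, Di d f g → (f = d + 1 ∧ g = d + 2) ∨ (f = d + 2 ∧ g = d + 1) := by
  unfold Di
  decide

theorem d2_th : ∀ d f g : Fin 3, Di d f g → th d f = g := by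
  unfold Di th
  decide

section

variable {S : Type} [NC S] {F : (Fin 3 → ℤ) → Fin 3 → S} {D : ℕ}

theorem d2_aa (F : (Fin 3 → ℤ) → Fin 3 → S) (v : Fin 3 → ℤ) {d f g : Fin 3} (h : Di d f g) :
    aa F v d = F v f ⊓ F v g := by
  unfold aa
  rcases d2_dir d f g h with ⟨h1, h2⟩ | ⟨h1, h2⟩
  · rw [h1, h2]
  · rw [h1, h2, inf_comm]

theorem d2_key (hb : NC.Basic S) (hF : Fl F D) (v : Fin 3 → ℤ) {d f g : Fin 3}
    (h : Di d f g) :
    K (aa F v f) ⊓ F v g ≠ bo S ∧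
    K (aa F v f) ⊓ F (v + e f) g = K (aa F v f) ⊓ F v g ∧
    K (K (aa F v f) ⊓ F v g) ⊓ F (v + e d + e f) g ≠ bo S ∧
    N1 (K (aa F v f) ⊓ F v g) (F (v + e d + e f) g) = F (v + e f) g := by
  obtain ⟨hdf, hdg, hfg⟩ := h
  have e1 : aa F (v + e f) d = K (aa F v f) ⊓ F v g := by
    have h1 := hF.a_step v f d (Ne.symm hdf)
    rw [d2_th f d g ⟨Ne.symm hdf, hfg, hdg⟩] at h1
    exact h1
  have e2 : aa F (v + e f) d = K (aa F v f) ⊓ F (v + e f) g := by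
    rw [d2_aa F (v + e f) ⟨hdf, hdg, hfg⟩, hF.F_step]
  have e3 : K (K (aa F v f) ⊓ F v g) ⊓ F (v + e f) g = aa F (v + e f + e d) f := by
    have h1 := hF.a_step (v + e f) d f hdf
    rw [d2_th d f g ⟨hdf, hdg, hfg⟩, e1] at h1
    exact h1.symm
  have e4 : aa F (v + e f + e d) f = K (K (aa F v f) ⊓ F v g) ⊓ F (v + e d + e f) g := by
    rw [d2_aa F (v + e f + e d) ⟨Ne.symm hdf, hfg, hdg⟩, hF.F_step, e1, add_right_comm]
  have e5 : K (aa F v f) ⊓ F v g ≤ F (v + e f) g := by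
    rw [← e1, e2]
    exact inf_le_right
  refine ⟨?_, by rw [← e1, e2], ?_, ?_⟩
  · rw [← e1]
    exact hF.st_ne _ _
  · rw [← e4]
    exact hF.st_ne _ _
  · exact (hb.mu_uniq ⟨e5, by
      show K (K (aa F v f) ⊓ F v g) ⊓ F (v + e f) g = _
      rw [e3, e4]⟩).1

variable {O : Ops} {reps : List ℕ} {ix : S → ℕ} {sf : ℕ → S}

theorem d2_ix (hE : Enc O reps ix sf) {s t : S} (h : ix s = ix t) : s = t := by
  rw [← hE.sf_ix s, h, hE.sf_ix t]

theorem d2_pr (hb : NC.Basic S) (hE : Enc O reps ix sf) (hF : Fl F D) (v : Fin 3 → ℤ)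
    {d f g : Fin 3} (h : Di d f g) :
    O.pr (O.mt (O.kk (ix (aa F v f))) (ix (F v g))) (ix (F (v + e d + e f) g)) =
      ix (F (v + e f) g) := by
  obtain ⟨-, -, h3, h4⟩ := d2_key hb hF v h
  rw [hE.kk, hE.mt, hE.pr _ _ h3, h4]

theorem d2_co1 (hb : NC.Basic S) (hE : Enc O reps ix sf) (hF : Fl F D) (v : Fin 3 → ℤ)
    {d f g : Fin 3} (h : Di d f g) :
    O.co1 (ix (F v g)) (ix (aa F v f)) (ix (F (v + e d + e f) g)) = true := by
  obtain ⟨h1, h2, -, -⟩ := d2_key hb hF v h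
  have hP := d2_pr hb hE hF v h
  have n0 : F (v + e f) g ≠ bo S := by
    intro h0
    rw [h0] at h2
    refine h1 (le_antisymm ?_ (hb.bo_le _))
    rw [← h2]
    exact inf_le_right
  have n1 : Nat.beq (ix (F (v + e f) g)) 0 = false := by
    rw [← Bool.not_eq_true, Nat.beq_eq, ← hE.bo]
    exact fun h0 => n0 (d2_ix hE h0)
  have n2 : Nat.beq (ix (F (v + e f) g)) O.top = false := by
    rw [← Bool.not_eq_true, Nat.beq_eq, ← hE.top]
    exact fun h0 => hF.ne_top _ _ (d2_ix hE h0)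
  have n3 : Nat.beq (O.mt (O.kk (ix (aa F v f))) (ix (F (v + e f) g)))
      (O.mt (O.kk (ix (aa F v f))) (ix (F v g))) = true := by
    rw [Nat.beq_eq, hE.kk, hE.mt, hE.mt, h2]
  unfold Ops.co1
  simp only [d2_frc]
  rw [hP, n1, n2, n3]
  rfl

end

/-- Row D2. -/
theorem sp_core : SpCore := by
  intro S _ O reps ix sf F D hb hE hF v d f g h
  refine ⟨d2_pr hb hE hF v h, ?_⟩
  have h1 := d2_co1 hb hE hF v h
  have h2 := d2_co1 hb hE hF v (d := f) (f := d) (g := g) ⟨Ne.symm h.1, h.2.2, h.2.1⟩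
  rw [add_right_comm] at h2
  unfold Ops.core
  rw [h1, h2]
  rfl

end Pool.Agent.H54.RF
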