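import Pool.Agent.H54.RF.EncD
import Pool.Agent.H54.RF.NCB
import Pool.Agent.H54.RF.Laws

/-!
# Project RF (MP_35eb49), row D7: soundness of the checks of the operations on indices
-/

set_option autoImplicit false

namespace Pool.Agent.H54.RF

open NC

theorem d7_frc {α : Type} (x : ℕ) (f : ℕ → α) : Ops.frc x f = f x := by
  cases x <;> rfl

theorem d7_ba {a b : Bool} (h : Ops.ba a b = true) : a = true ∧ b = true := by
  cases a
  · exact absurd h (by simp [Ops.ba, Ops.bi])
  · exact ⟨rfl, h⟩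

theorem d7_bo {a b : Bool} (h : Ops.bo a b = true) : a = true ∨ b = true := by
  cases a
  · exact Or.inr h
  · exact Or.inl rfl

theorem d7_bi {c t e : Bool} (h : Ops.bi c t e = true) :
    (c = true ∧ t = true) ∨ (c = false ∧ e = true) := by
  cases c
  · exact Or.inr ⟨rfl, h⟩
  · exact Or.inl ⟨rfl, h⟩

theorem d7_allR {n : ℕ} {f : ℕ → Bool} (h : Ops.allR n f = true) : ∀ k < n, f k = true := by
  induction n with
  | zero => intro k hk; exact absurd hk (Nat.not_lt_zero k)
  | succ n ih =>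
    have h1 : Ops.ba (f n) (Ops.allR n f) = true := h
    obtain ⟨h2, h3⟩ := d7_ba h1
    intro k hk
    rcases Nat.lt_succ_iff_lt_or_eq.1 hk with h4 | h4
    · exact ih h3 k h4
    · rw [h4]; exact h2

theorem d7_exR {n : ℕ} {f : ℕ → Bool} (h : Ops.exR n f = true) : ∃ k < n, f k = true := by
  induction n with
  | zero => exact absurd h (by simp [Ops.exR])
  | succ n ih =>
    have h1 : Ops.bo (f n) (Ops.exR n f) = true := h
    rcases d7_bo h1 with h2 | h2
    · exact ⟨n, Nat.lt_succ_self n, h2⟩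
    · obtain ⟨k, hk, h3⟩ := ih h2
      exact ⟨k, Nat.lt_succ_of_lt hk, h3⟩

theorem d7_inL {l : List ℕ} {y : ℕ} (h : Ops.inL l y = true) : y ∈ l := by
  induction l with
  | nil => exact absurd h (by simp [Ops.inL])
  | cons x l ih =>
    have h1 : Ops.bo (Nat.beq x y) (Ops.inL l y) = true := h
    rcases d7_bo h1 with h2 | h2
    · rw [Nat.eq_of_beq_eq_true h2]
      exact List.mem_cons_self
    · exact List.mem_cons_of_mem _ (ih h2)

theorem d7_beq {a b : ℕ} (h : Nat.beq a b = true) : a = b := Nat.eq_of_beq_eq_true h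

theorem d7_ble {a b : ℕ} (h : Nat.ble a b = true) : a ≤ b := Nat.le_of_ble_eq_true h

theorem d7_blt {a b : ℕ} (h : Nat.blt a b = true) : a < b := Nat.le_of_ble_eq_true h

theorem d7_mem {l : List (ℕ × ℕ)} {x : ℕ} (h : Dat.mem l x = true) : x ∈ l.map Prod.fst := by
  induction l with
  | nil => exact absurd h (by simp [Dat.mem])
  | cons p l ih =>
    have h1 : cond (Nat.beq p.1 x) true (Dat.mem l x) = true := h
    rw [List.map_cons]
    cases h2 : Nat.beq p.1 x with
    | true =>
      rw [← d7_beq h2]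
      exact List.mem_cons_self
    | false =>
      rw [h2] at h1
      exact List.mem_cons_of_mem _ (ih h1)

/-- an injective list of members of the list that is as long as the list contains all members -/
theorem d7_onto (l : List (ℕ × ℕ)) (m : ℕ) (el : ℕ → ℕ) (hl : l.length = m)
    (h1 : ∀ i < m, Dat.mem l (el i) = true) (h2 : ∀ i < m, ∀ j < i, el i ≠ el j) (x : ℕ)
    (hx : Dat.mem l x = true) : ∃ i < m, el i = x := by
  have hinj : Set.InjOn el (Finset.range m : Set ℕ) := by
    intro i hi j hj hij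
    have hi' : i < m := Finset.mem_range.1 (Finset.mem_coe.1 hi)
    have hj' : j < m := Finset.mem_range.1 (Finset.mem_coe.1 hj)
    rcases Nat.lt_trichotomy i j with h | h | h
    · exact absurd hij.symm (h2 j hj' i h)
    · exact h
    · exact absurd hij (h2 i hi' j h)
  have hc : ((Finset.range m).image el).card = m := by
    rw [Finset.card_image_of_injOn hinj, Finset.card_range]
  have hsub : (Finset.range m).image el ⊆ (l.map Prod.fst).toFinset := by
    intro y hy
    obtain ⟨i, hi, rfl⟩ := Finset.mem_image.1 hy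
    exact List.mem_toFinset.2 (d7_mem (h1 i (Finset.mem_range.1 hi)))
  have hle : (l.map Prod.fst).toFinset.card ≤ ((Finset.range m).image el).card := by
    rw [hc]
    refine (List.toFinset_card_le _).trans ?_
    rw [List.length_map, hl]
  have heq := Finset.eq_of_subset_of_card_le hsub hle
  have hx' : x ∈ (Finset.range m).image el := by
    rw [heq]
    exact List.mem_toFinset.2 (d7_mem hx)
  obtain ⟨i, hi, hi'⟩ := Finset.mem_image.1 hx'
  exact ⟨i, Finset.mem_range.1 hi, hi'⟩

theorem sp_enc : SpEnc := by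
  intro D inst hb hok hchk O el reps hA hB hC hP
  -- unpack the checks
  obtain ⟨a1, hA⟩ := d7_ba hA
  obtain ⟨a2, hA⟩ := d7_ba hA
  obtain ⟨a3, hA⟩ := d7_ba hA
  obtain ⟨a4, hA⟩ := d7_ba hA
  obtain ⟨a5, hA⟩ := d7_ba hA
  obtain ⟨a6, a7⟩ := d7_ba hA
  have hm : O.m = O.top + 1 := d7_beq a1
  have hh : 0 < O.h := d7_blt a2
  have hlen : D.L.length = O.m := d7_beq a3
  have hmem : ∀ i < O.m, Dat.mem D.L (el i) = true := d7_allR a4
  have hne : ∀ i < O.m, ∀ j < i, el i ≠ el j := by
    intro i hi j hj h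
    have h1 := d7_allR (d7_allR a5 i hi) j hj
    rcases d7_bi h1 with h2 | h2
    · exact absurd h2.2 (by simp)
    · rw [h, Nat.beq_refl] at h2
      exact absurd h2.1 (by simp)
  have h0 : el 0 = 0 := d7_beq a6
  have htop : el O.top = D.full := d7_beq a7
  have lem : ∀ i, i ≤ O.top → i < O.m := fun i hi => by omega
  have hinj : ∀ i < O.m, ∀ j < O.m, el i = el j → i = j := by
    intro i hi j hj hij
    rcases Nat.lt_trichotomy i j with h | h | h
    · exact absurd hij.symm (hne j hj i h)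
    · exact h
    · exact absurd hij (hne i hi j h)
  have honto : ∀ s : D.S, ∃ i < O.m, el i = s.1 := fun s =>
    d7_onto D.L O.m el hlen hmem hne s.1 s.2
  choose ix hix hix' using honto
  let sf : ℕ → D.S := fun i => if h : Dat.mem D.L (el i) = true then ⟨el i, h⟩ else ⊤
  have hsf : ∀ i < O.m, (sf i).1 = el i := by
    intro i hi
    have : sf i = ⟨el i, hmem i hi⟩ := dif_pos (hmem i hi)
    rw [this]
  have hixsf : ∀ i < O.m, ix (sf i) = i := fun i hi =>
    hinj _ (hix _) i hi ((hix' _).trans (hsf i hi))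
  have hsfix : ∀ s, sf (ix s) = s := fun s =>
    Dat.S.ext ((hsf _ (hix s)).trans (hix' s))
  have hixinj : ∀ s t, ix s = ix t → s = t := fun s t h => by
    rw [← hsfix s, h, hsfix]
  -- an index is determined by its mask
  have key : ∀ (i : ℕ) (s : D.S), i ≤ O.top → el i = s.1 → i = ix s := fun i s hi h =>
    hinj i (lem i hi) _ (hix s) (h.trans (hix' s).symm)
  have hixbo : ix (NC.bo D.S) = 0 := (key 0 _ (Nat.zero_le _) (h0.trans hok.bo.symm)).symm
  have hixtop : ix (⊤ : D.S) = O.top := (key _ _ le_rfl (htop.trans hok.top.symm)).symm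
  have hmt : ∀ s t : D.S, O.mt (ix s) (ix t) = ix (s ⊓ t) := by
    intro s t
    have h1 := d7_allR (d7_allR (d7_ba hB).1 (ix s) (hix s)) (ix t) (hix t)
    rw [d7_frc] at h1
    obtain ⟨h2, h3⟩ := d7_ba h1
    refine key _ _ (d7_ble h2) ?_
    rw [d7_beq h3, hok.inf, hix', hix']
  have hkk : ∀ s : D.S, O.kk (ix s) = ix (K s) := by
    intro s
    have h1 := d7_allR (d7_ba hB).2 (ix s) (hix s)
    rw [d7_frc] at h1
    obtain ⟨h2, h3⟩ := d7_ba h1
    refine key _ _ (d7_ble h2) ?_
    rw [d7_beq h3, hok.K, hix']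
  -- the checks of the rotation
  have hC' : ∀ s : D.S, O.tt 0 (ix s) = ix s ∧ O.tt 1 (ix s) = ix (tau s) ∧
      O.orb (ix (tau s)) = O.orb (ix s) ∧
      (∀ k < O.h, (k + 1 < O.h → O.tt (k + 1) (ix s) = O.tt 1 (O.tt k (ix s))) ∧
        (¬ k + 1 < O.h → O.tt 1 (O.tt k (ix s)) = ix s)) ∧
      (ix s = 0 ∨ ix s = O.top ∨ ∃ k < O.h, O.tt k (ix s) ∈ reps) ∧
      (ix s ≤ O.nf → ix s = 0 ∨ (ix (tau s) ≤ O.nf ∧ ix (tau s) % O.h = (ix s + 1) % O.h)) ∧
      (O.nf < ix s → O.nf < ix (tau s)) := by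
    intro s
    have h1 := d7_allR hC (ix s) (hix s)
    rw [d7_frc] at h1
    obtain ⟨c1, h1⟩ := d7_ba h1
    obtain ⟨c2, h1⟩ := d7_ba h1
    obtain ⟨c3, h1⟩ := d7_ba h1
    obtain ⟨c4, h1⟩ := d7_ba h1
    obtain ⟨c5, h1⟩ := d7_ba h1
    obtain ⟨c6, h1⟩ := d7_ba h1
    have ht : O.tt 1 (ix s) = ix (tau s) := by
      refine key _ _ (d7_ble c2) ?_
      rw [d7_beq c3, hok.tau, hix']
    rw [ht] at c4 h1
    refine ⟨d7_beq c1, ht, d7_beq c4, ?_, ?_, ?_, ?_⟩
    · intro k hk
      have h2 := d7_allR c5 k hk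
      rw [d7_frc] at h2
      rcases d7_bi h2 with h3 | h3
      · refine ⟨fun _ => d7_beq h3.2, fun h => absurd (d7_blt h3.1) h⟩
      · refine ⟨fun h => ?_, fun _ => d7_beq h3.2⟩
        have h4 : Nat.blt (Nat.succ k) O.h = true := Nat.ble_eq_true_of_le h
        rw [h4] at h3
        exact absurd h3.1 (by simp)
    · rcases d7_bo c6 with h2 | h2
      · exact Or.inl (d7_beq h2)
      · rcases d7_bo h2 with h3 | h3
        · exact Or.inr (Or.inl (d7_beq h3))
        · obtain ⟨k, hk, h4⟩ := d7_exR h3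
          exact Or.inr (Or.inr ⟨k, hk, d7_inL h4⟩)
    · intro h
      rcases d7_bi h1 with h2 | h2
      · rcases d7_bo h2.2 with h3 | h3
        · exact Or.inl (d7_beq h3)
        · obtain ⟨h4, h5⟩ := d7_ba h3
          exact Or.inr ⟨d7_ble h4, d7_beq h5⟩
      · have h3 : Nat.ble (ix s) O.nf = true := Nat.ble_eq_true_of_le h
        rw [h3] at h2
        exact absurd h2.1 (by simp)
    · intro h
      rcases d7_bi h1 with h2 | h2
      · exact absurd (d7_ble h2.1) (not_le.2 h)
      · exact d7_blt h2.2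
  have htt : ∀ (k : ℕ) (s : D.S), k < O.h → O.tt k (ix s) = ix (tau^[k] s) := by
    intro k
    induction k with
    | zero => intro s _; exact (hC' s).1
    | succ k ih =>
      intro s hk
      have hk' : k < O.h := Nat.lt_of_succ_lt hk
      rw [((hC' s).2.2.2.1 k hk').1 hk, ih s hk', (hC' _).2.1, Function.iterate_succ_apply']
  refine ⟨ix, sf, ⟨hm, hh, fun i hi => hixsf i (lem i hi), hsfix, fun s => ?_, hixbo, hixtop, hmt,
    hkk, htt, fun s => (hC' s).2.1, ?_, ?_, fun s => (hC' s).2.2.1, ?_, ?_, fun s => (hC' s).2.2.2.2.2.2, ?_⟩,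
    fun i hi => hsf i (lem i hi)⟩
  · have := hix s
    omega
  · intro s
    obtain ⟨k, hk⟩ : ∃ k, O.h = k + 1 := ⟨O.h - 1, by omega⟩
    have hk' : k < O.h := by omega
    have h1 := ((hC' s).2.2.2.1 k hk').2 (by omega)
    rw [htt k s hk', (hC' _).2.1] at h1
    rw [hk, Function.iterate_succ_apply']
    exact hixinj _ _ h1
  · intro b R hbR
    have h1 := d7_allR (d7_ba hP).1 (ix b) (hix b)
    rw [d7_frc] at h1
    have h2 := d7_allR h1 (ix R) (hix R)
    rw [d7_frc, hkk, hmt] at h2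
    rcases d7_bo h2 with h3 | h3
    · exfalso
      apply hbR
      apply hixinj
      rw [hixbo]
      exact d7_beq h3
    · rw [d7_frc] at h3
      obtain ⟨h4, h3⟩ := d7_ba h3
      obtain ⟨h5, h6⟩ := d7_ba h3
      obtain ⟨p, hp⟩ : ∃ p : D.S, O.pr (ix b) (ix R) = ix p :=
        ⟨sf (O.pr (ix b) (ix R)), (hixsf _ (lem _ (d7_ble h4))).symm⟩
      rw [hp] at h5 h6 ⊢
      rw [hmt] at h5 h6
      have h7 : b ⊓ p = b := hixinj _ _ (d7_beq h5)
      have h8 : K b ⊓ p = K b ⊓ R := hixinj _ _ (d7_beq h6)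
      have h9 : IsMul b (K b ⊓ R) p := ⟨inf_eq_left.1 h7, h8⟩
      have h10 : N1 b R = p := (hb.mu_uniq h9).1
      rw [h10]
  · intro s hs hst
    rcases (hC' s).2.2.2.2.1 with h1 | h1 | ⟨k, hk, h1⟩
    · exact absurd (hixinj _ _ (h1.trans hixbo.symm)) hs
    · exact absurd (hixinj _ _ (h1.trans hixtop.symm)) hst
    · exact ⟨k, hk, by rw [← htt k s hk]; exact h1⟩
  · intro s hs hn
    rcases (hC' s).2.2.2.2.2.1 hn with h1 | h1
    · exact absurd (hixinj _ _ (h1.trans hixbo.symm)) hs
    · exact h1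
  · intro s t hst hs ht hns hnt _
    have hs' : ix s < O.top := by
      have h1 : ix s ≠ O.top := fun h => hs (hixinj _ _ (h.trans hixtop.symm))
      have := hix s
      omega
    have ht' : ix t < O.top := by
      have h1 : ix t ≠ O.top := fun h => ht (hixinj _ _ (h.trans hixtop.symm))
      have := hix t
      omega
    have h1 := d7_allR (d7_ba hP).2 (ix s) hs'
    rcases d7_bo h1 with h2 | h2
    · exact absurd (d7_ble h2) (not_le.2 hns)
    · have h3 := d7_allR h2 (ix t) ht'
      rcases d7_bo h3 with h4 | h4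
      · exact absurd (d7_ble h4) (not_le.2 hnt)
      · rcases d7_bo h4 with h5 | h5
        · exact absurd (hixinj _ _ (d7_beq h5)) hst
        · rw [← hmt]
          exact d7_ble h5

end Pool.Agent.H54.RF
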