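import Pool.Agent.H54.RF.SpecD

/-!
# Project RF (MP_35eb49), row D1: the flat in the germ of a flat in the group
-/

set_option autoImplicit false

namespace Pool.Agent.H54.RF

open NC

theorem d1_e (i j : Fin 3) : e i j = if j = i then 1 else 0 := by
  unfold e
  rw [Pi.single_apply]

theorem d1_le (v : Fin 3 → ℤ) (d : Fin 3) : v ≤ v + 1 - e d ∧ v + 1 - e d ≤ v + 1 := by
  constructor
  · intro i
    have h : (v + 1 - e d) i = v i + 1 - if i = d then 1 else 0 := by
      rw [Pi.sub_apply, Pi.add_apply, Pi.one_apply, d1_e]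
    rw [h]
    split_ifs
    · simp
    · simp
  · intro i
    have h : (v + 1 - e d) i = v i + 1 - if i = d then 1 else 0 := by
      rw [Pi.sub_apply, Pi.add_apply, Pi.one_apply, d1_e]
    rw [h, Pi.add_apply, Pi.one_apply]
    split_ifs
    · simp
    · simp

theorem d1_inf (v : Fin 3 → ℤ) (d : Fin 3) :
    (v + 1 - e (d + 1)) ⊓ (v + 1 - e (d + 2)) = v + e d := by
  funext i
  rw [Pi.inf_apply, Pi.sub_apply, Pi.sub_apply, Pi.add_apply, Pi.add_apply, Pi.one_apply, d1_e,
    d1_e, d1_e]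
  fin_cases d <;> fin_cases i <;> simp

theorem d1_tri (v : Fin 3 → ℤ) (d : Fin 3) : (v + e d) ⊓ (v + 1 - e d) = v := by
  funext i
  rw [Pi.inf_apply, Pi.sub_apply, Pi.add_apply, Pi.add_apply, Pi.one_apply, d1_e]
  fin_cases d <;> fin_cases i <;> simp

theorem d1_key : ∀ d f : Fin 3, d ≠ f → ∀ i : Fin 3,
    ((if i = th d f then (1 : ℤ) else 0) + (if i = d then 1 else 0) +
      (if i = f then 1 else 0)) = 1 := by
  decide

theorem d1_th {d f : Fin 3} (h : d ≠ f) (v : Fin 3 → ℤ) :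
    v + 1 - e (th d f) = v + e d + e f := by
  funext i
  rw [Pi.sub_apply, Pi.add_apply, Pi.add_apply, Pi.add_apply, Pi.one_apply, d1_e, d1_e, d1_e]
  have h1 := d1_key d f h i
  linarith

theorem sp_flOf : SpFlOf := by
  intro S _ G _ _ val hb hm hi hδ hx hle hinf Y D Z hY
  have hmono : ∀ {v w : Fin 3 → ℤ}, v ≤ w → Y v ≤ Y w := by
    intro v w h
    have h1 := hY.inf v w
    rw [inf_eq_left.2 h] at h1
    rw [h1]
    exact inf_le_right
  have hbt : ∀ v w : Fin 3 → ℤ, v ≤ w → w ≤ v + 1 → ∃ s, (Y v)⁻¹ * Y w = val s := by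
    intro v w h1 h2
    refine (hx _).1 ⟨?_, ?_⟩
    · have h3 := (Gar.mul_le_mul_iff (Y v)⁻¹).2 (hmono h1)
      rwa [inv_mul_cancel] at h3
    · have h3 := (Gar.mul_le_mul_iff (Y v)⁻¹).2 (hmono h2)
      rwa [hY.diag, inv_mul_cancel_left] at h3
  have hex : ∀ (v : Fin 3 → ℤ) (d : Fin 3), ∃ s, (Y v)⁻¹ * Y (v + 1 - e d) = val s :=
    fun v d => hbt v _ (d1_le v d).1 (d1_le v d).2
  choose F hF using hex
  have hF' : ∀ v d, val (F v d) = (Y v)⁻¹ * Y (v + 1 - e d) := fun v d => (hF v d).symm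
  have ha : ∀ v d, val (aa F v d) = (Y v)⁻¹ * Y (v + e d) := by
    intro v d
    unfold aa
    rw [hinf, hF', hF', ← Gar.mul_inf', ← hY.inf, d1_inf]
  have hdv : ∀ {s m : S}, s ≤ m → val (dv s m) = (val s)⁻¹ * val m := by
    intro s m h
    rw [← hm s m h, inv_mul_cancel_left]
  have hK : ∀ s : S, val (K s) = (val s)⁻¹ * Gar.δ := by
    intro s
    rw [hδ, ← hdv le_top, hb.dv_top]
  have hbo : val (bo S) = 1 := by
    have h1 := hm (bo S) (bo S) le_rfl
    rw [hb.dv_bo] at h1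
    exact mul_eq_left.1 h1
  have hlt : ∀ v i, Y v ≠ Y (v + e i) := fun v i => (hY.lt v i).ne
  refine ⟨F, ⟨hY.pos, ?_, ?_, ?_, ?_, ?_, ?_, ?_⟩, hF', ha⟩
  · intro v d h
    have h1 := hF' v d
    rw [h, ← hδ] at h1
    have h2 : Y (v + 1) = Y (v + 1 - e d) := by
      rw [hY.diag, h1, mul_inv_cancel_left]
    have h3 := hlt (v + 1 - e d) d
    rw [sub_add_cancel] at h3
    exact h3 h2.symm
  · intro v d h
    have h1 := ha v d
    rw [h, hbo] at h1
    exact hlt v d (inv_mul_eq_one.1 h1.symm)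
  · intro v d
    apply hi
    rw [hinf, ha, hF', ← Gar.mul_inf', ← hY.inf, d1_tri, inv_mul_cancel, hbo]
  · intro v d
    apply hi
    rw [hF', hK, ha, mul_inv_rev, inv_inv, mul_assoc, ← hY.diag]
    congr 2
    abel
  · intro v d f h
    have h1 : aa F v d ≤ F v (th d f) := by
      rw [← hle, ha, hF', Gar.mul_le_mul_iff]
      refine hmono ?_
      rw [d1_th h]
      intro i
      rw [Pi.add_apply (v + e d), d1_e f]
      split_ifs
      · simp
      · simp
    apply hi
    rw [ha, hdv h1, ha, hF', d1_th h, mul_inv_rev, inv_inv, mul_assoc, mul_inv_cancel_left]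
  · intro v d
    apply hi
    have h1 : v + 1 + 1 - e d = v + 1 - e d + 1 := by abel
    unfold tau
    rw [hF', hK, hK, hF', h1, hY.diag, hY.diag]
    group
  · intro v i
    funext d
    apply hi
    have h1 : v + (D : ℤ) • e i + 1 - e d = v + 1 - e d + (D : ℤ) • e i := by abel
    rw [hF', hF', h1, hY.per, hY.per, mul_inv_rev, mul_assoc, inv_mul_cancel_left]

end Pool.Agent.H54.RF
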