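import Pool.Agent.H54.RF.SpecD
import Pool.Agent.H54.RF.NCB

/-!
# Project RF (MP_35eb49), row D3: potentials, values and labels are invariant under the diagonal
shift
-/

set_option autoImplicit false

namespace Pool.Agent.H54.RF

open NC

theorem d3_frc {α : Type} (x : ℕ) (f : ℕ → α) : Ops.frc x f = f x := by
  cases x <;> rfl

theorem d3_gr_eq (O : Ops) (x : ℕ) : O.gr x = (O.h - (x - 1) % O.h) % O.h := rfl

theorem d3_cs_eq (O : Ops) (x0 x1 x2 : ℕ) : O.cs x0 x1 x2 =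
    if x0 ≤ O.nf then O.gr x0 else if x1 ≤ O.nf then O.gr x1 else
      if x2 ≤ O.nf then O.gr x2 else O.gr (O.mt x1 x2) := by
  have key : ∀ (x : ℕ) (a b : ℕ), Bool.rec (motive := fun _ => ℕ) b a (Nat.ble x O.nf) =
      if x ≤ O.nf then a else b := by
    intro x a b
    by_cases h : x ≤ O.nf
    · rw [Nat.ble_eq_true_of_le h, if_pos h]
    · have h1 : Nat.ble x O.nf = false := by
        rw [← Bool.not_eq_true, Nat.ble_eq]
        exact h
      rw [h1, if_neg h]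
  unfold Ops.cs
  rw [key, key, key]

theorem d3_num {h a a' : ℕ} (hh : 0 < h) (ha : 0 < a) (ha' : 0 < a')
    (hm : a' % h = (a + 1) % h) :
    ((h - (a' - 1) % h) % h + 1) % h = (h - (a - 1) % h) % h % h := by
  obtain ⟨b, rfl⟩ : ∃ b, a = b + 1 := ⟨a - 1, by omega⟩
  obtain ⟨b', rfl⟩ : ∃ b', a' = b' + 1 := ⟨a' - 1, by omega⟩
  simp only [Nat.add_sub_cancel]
  have h1 : b' % h = (b + 1) % h := by
    have h2 : b' + 1 ≡ (b + 1) + 1 [MOD h] := hm
    exact Nat.ModEq.add_right_cancel' 1 h2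
  rw [h1]
  have h3 : (b + 1) % h = (b % h + 1) % h := by rw [Nat.mod_add_mod]
  rw [h3]
  have h4 := Nat.mod_lt b hh
  generalize b % h = q at h4
  by_cases h5 : q + 1 < h
  · rw [Nat.mod_eq_of_lt h5, Nat.mod_mod, Nat.mod_eq_of_lt (show h - (q + 1) < h by omega)]
    congr 1
    omega
  · have h6 : q + 1 = h := by omega
    rw [h6, Nat.mod_self, Nat.sub_zero, Nat.mod_self, Nat.mod_mod, zero_add]
    congr 1
    omega

section

variable {S : Type} [NC S] {O : Ops} {reps : List ℕ} {ix : S → ℕ} {sf : ℕ → S}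

theorem d3_ix_inj (he : Enc O reps ix sf) : Function.Injective ix := fun a b h => by
  rw [← he.sf_ix a, ← he.sf_ix b, h]

theorem d3_ix_pos (he : Enc O reps ix sf) {s : S} (hs : s ≠ NC.bo S) : 0 < ix s := by
  refine Nat.pos_of_ne_zero fun h => hs (d3_ix_inj he ?_)
  rw [h, he.bo]

theorem d3_tau_ne (hb : Basic S) {s : S} (hs : s ≠ NC.bo S) : tau s ≠ NC.bo S := fun h =>
  hs (hb.tau_bij.1 (h.trans hb.tau_bo.symm))

theorem d3_gr (hb : Basic S) (he : Enc O reps ix sf) {s : S} (hs : s ≠ NC.bo S)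
    (hf : ix s ≤ O.nf) : (O.gr (ix (tau s)) + 1) % O.h = O.gr (ix s) % O.h := by
  rw [d3_gr_eq, d3_gr_eq]
  exact d3_num he.h_pos (d3_ix_pos he hs) (d3_ix_pos he (d3_tau_ne hb hs)) (he.free s hs hf).2

theorem d3_gr_lt (he : Enc O reps ix sf) (x : ℕ) : O.gr x < O.h := by
  rw [d3_gr_eq]
  exact Nat.mod_lt _ he.h_pos

theorem d3_cs_lt (he : Enc O reps ix sf) (x0 x1 x2 : ℕ) : O.cs x0 x1 x2 < O.h := by
  rw [d3_cs_eq]
  split_ifs <;> exact d3_gr_lt he _

/-- The three elements of a state. -/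
structure D3St (S : Type) [NC S] (x0 x1 x2 : S) : Prop where
  b0 : x0 ≠ NC.bo S
  b1 : x1 ≠ NC.bo S
  b2 : x2 ≠ NC.bo S
  t1 : x1 ≠ ⊤
  t2 : x2 ≠ ⊤
  n : x1 ≠ x2
  m : x1 ⊓ x2 ≠ NC.bo S

theorem d3_cs (hb : Basic S) (he : Enc O reps ix sf) {x0 x1 x2 : S} (h : D3St S x0 x1 x2) :
    (O.cs (ix (tau x0)) (ix (tau x1)) (ix (tau x2)) + 1) % O.h =
      O.cs (ix x0) (ix x1) (ix x2) % O.h := by
  have key : ∀ s : S, s ≠ NC.bo S → (ix (tau s) ≤ O.nf ↔ ix s ≤ O.nf) := by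
    intro s hs
    constructor
    · intro h1
      by_contra h2
      have h3 := he.nfree s (by omega)
      omega
    · intro h1
      exact (he.free s hs h1).1
  rw [d3_cs_eq, d3_cs_eq]
  by_cases c0 : ix x0 ≤ O.nf
  · rw [if_pos c0, if_pos ((key _ h.b0).2 c0)]
    exact d3_gr hb he h.b0 c0
  rw [if_neg c0, if_neg (fun c => c0 ((key _ h.b0).1 c))]
  by_cases c1 : ix x1 ≤ O.nf
  · rw [if_pos c1, if_pos ((key _ h.b1).2 c1)]
    exact d3_gr hb he h.b1 c1
  rw [if_neg c1, if_neg (fun c => c1 ((key _ h.b1).1 c))]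
  by_cases c2 : ix x2 ≤ O.nf
  · rw [if_pos c2, if_pos ((key _ h.b2).2 c2)]
    exact d3_gr hb he h.b2 c2
  rw [if_neg c2, if_neg (fun c => c2 ((key _ h.b2).1 c)), he.mt, he.mt, ← hb.tau_inf]
  exact d3_gr hb he h.m (he.some x1 x2 h.n h.t1 h.t2 (by omega) (by omega) h.m)

theorem d3_mod (he : Enc O reps ix sf) (s : S) {a b : ℕ} (h : a % O.h = b % O.h) :
    tau^[a] s = tau^[b] s := by
  have hp : Function.IsPeriodicPt (tau : S → S) O.h s := he.per s
  rw [← hp.iterate_mod_apply a, ← hp.iterate_mod_apply b, h]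

theorem d3_tt (he : Enc O reps ix sf) {c c' : ℕ} (hc : c < O.h) (hc' : c' < O.h)
    (h : (c' + 1) % O.h = c % O.h) (y : S) : O.tt c' (ix (tau y)) = O.tt c (ix y) := by
  rw [he.tt _ _ hc, he.tt _ _ hc', ← Function.iterate_succ_apply, d3_mod he y h]

theorem d3_phi (hb : Basic S) (he : Enc O reps ix sf) {x0 x1 x2 : S} (h : D3St S x0 x1 x2)
    (p : S) : O.phi (ix (tau x0)) (ix (tau x1)) (ix (tau x2)) (ix (tau p)) =
      O.phi (ix x0) (ix x1) (ix x2) (ix p) := by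
  have key := d3_tt he (d3_cs_lt he (ix x0) (ix x1) (ix x2))
    (d3_cs_lt he (ix (tau x0)) (ix (tau x1)) (ix (tau x2))) (d3_cs hb he h)
  unfold Ops.phi Ops.ks Ops.kx
  rw [d3_frc, d3_frc, key, key, key, key]

theorem d3_psi (hb : Basic S) (he : Enc O reps ix sf) {x0 x1 x2 : S} (h : D3St S x0 x1 x2)
    (p q r : S) : O.psi (ix (tau x0)) (ix (tau x1)) (ix (tau x2)) (ix (tau p)) (ix (tau q))
      (ix (tau r)) = O.psi (ix x0) (ix x1) (ix x2) (ix p) (ix q) (ix r) := by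
  have key := d3_tt he (d3_cs_lt he (ix x0) (ix x1) (ix x2))
    (d3_cs_lt he (ix (tau x0)) (ix (tau x1)) (ix (tau x2))) (d3_cs hb he h)
  unfold Ops.psi Ops.ks Ops.kx
  rw [d3_frc, d3_frc, key, key, key, key, key, key]

theorem d3_back {h c c' : ℕ} (hc : c < h) (hc' : c' < h)
    (hm : (c' + 1) % h = c % h) : (h - c') % h % h = ((h - c) % h + 1) % h := by
  rw [Nat.mod_mod, Nat.mod_eq_of_lt hc] at *
  by_cases h1 : c' + 1 < h
  · rw [Nat.mod_eq_of_lt h1] at hm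
    subst hm
    rw [Nat.mod_add_mod]
    congr 1
    omega
  · have h2 : c' + 1 = h := by omega
    rw [h2, Nat.mod_self] at hm
    subst hm
    rw [Nat.sub_zero, Nat.mod_self, zero_add]
    congr 1
    omega

theorem d3_lab (he : Enc O reps ix sf) {c c' l : ℕ} (hc : c < O.h) (hc' : c' < O.h)
    (h : (c' + 1) % O.h = c % O.h) (hl : l < O.top) : ∃ s : S,
    O.tt ((O.h - c) % O.h) l = ix s ∧ O.tt ((O.h - c') % O.h) l = ix (tau s) := by
  have h1 : l = ix (sf l) := (he.ix_sf l hl.le).symm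
  refine ⟨tau^[(O.h - c) % O.h] (sf l), ?_, ?_⟩
  · conv_lhs => rw [h1]
    exact he.tt _ _ (Nat.mod_lt _ he.h_pos)
  · conv_lhs => rw [h1]
    rw [he.tt _ _ (Nat.mod_lt _ he.h_pos), d3_mod he (sf l) (d3_back hc hc' h),
      Function.iterate_succ_apply']

theorem d3_di {d f g : Fin 3} (h : Di d f g) : (f = d + 1 ∧ g = d + 2) ∨
    (f = d + 2 ∧ g = d + 1) := by
  revert d f g
  unfold Di
  decide

theorem d3_aa (F : (Fin 3 → ℤ) → Fin 3 → S) (v : Fin 3 → ℤ) {d f g : Fin 3} (h : Di d f g) :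
    aa F v d = F v f ⊓ F v g := by
  rcases d3_di h with ⟨rfl, rfl⟩ | ⟨rfl, rfl⟩
  · rfl
  · rw [inf_comm]
    rfl

theorem d3_st {F : (Fin 3 → ℤ) → Fin 3 → S} {D : ℕ} (hb : Basic S) (hF : Fl F D)
    (v : Fin 3 → ℤ) {d f g : Fin 3} (h : Di d f g) : D3St S (F v d) (F v f) (F v g) := by
  have h0 := d3_aa F v h
  have hfg : Di f d g := ⟨h.1.symm, h.2.2, h.2.1⟩
  have hg : Di g d f := ⟨h.2.1.symm, h.2.2.symm, h.1⟩
  have h1 := d3_aa F v hfg
  have h2 := d3_aa F v hg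
  have hm : F v f ⊓ F v g ≠ NC.bo S := by
    rw [← h0]
    exact hF.st_ne v d
  have hbot : ∀ {x y : S}, x ⊓ y ≠ NC.bo S → x ≠ NC.bo S := by
    intro x y hxy hx
    rw [hx] at hxy
    exact hxy (inf_eq_left.2 (hb.bo_le y))
  have hdf : F v d ⊓ F v f ≠ NC.bo S := by
    rw [← h2]
    exact hF.st_ne v g
  refine ⟨hbot hdf, hbot hm, ?_, hF.ne_top v f, hF.ne_top v g, ?_, hm⟩
  · rw [inf_comm] at hm
    exact hbot hm
  · intro hn
    have h3 := hF.tri v d
    rw [h0, ← hn, inf_idem, inf_comm] at h3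
    exact hdf h3

theorem d3_sh {F : (Fin 3 → ℤ) → Fin 3 → S} {D : ℕ} (hF : Fl F D) :
    (fun w => F (w + 1)) = fun w d => tau (F w d) := by
  funext w d
  exact hF.diag w d

omit [NC S] in
theorem d3_nod (O : Ops) (ix : S → ℕ) (F : (Fin 3 → ℤ) → Fin 3 → S) (v : Fin 3 → ℤ)
    (d f g : Fin 3) : nod O ix F (v + 1) d f g = nod O ix (fun w => F (w + 1)) v d f g := by
  unfold nod
  rw [show v + 1 + e f = v + e f + 1 by abel]

omit [NC S] in
theorem d3_fac (O : Ops) (ix : S → ℕ) (F : (Fin 3 → ℤ) → Fin 3 → S) (v : Fin 3 → ℤ)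
    (d f g : Fin 3) : fac O ix F (v + 1) d f g = fac O ix (fun w => F (w + 1)) v d f g := by
  unfold fac
  rw [show v + 1 + e f = v + e f + 1 by abel, show v + 1 + e g = v + e g + 1 by abel,
    show v + e f + 1 + e g = v + e f + e g + 1 by abel]

omit [NC S] in
theorem d3_lab' (O : Ops) (ix : S → ℕ) (F : (Fin 3 → ℤ) → Fin 3 → S) (v : Fin 3 → ℤ)
    (d f g : Fin 3) : lab O ix F (v + 1) d f g = lab O ix (fun w => F (w + 1)) v d f g := by
  unfold lab
  rw [d3_fac]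

theorem d3_Lab (O : Ops) (ix : S → ℕ) (F : (Fin 3 → ℤ) → Fin 3 → S) (v : Fin 3 → ℤ)
    (d f g : Fin 3) : Lab O ix F (v + 1) d f g = Lab O ix (fun w => F (w + 1)) v d f g := by
  unfold Lab
  rw [d3_fac, d3_lab', show v + 1 + e d = v + e d + 1 by abel, d3_fac, d3_lab']
  rfl

theorem d3_step {F : (Fin 3 → ℤ) → Fin 3 → S} {D : ℕ} (hb : Basic S) (he : Enc O reps ix sf)
    (hF : Fl F D) (v : Fin 3 → ℤ) {d f g : Fin 3} (h : Di d f g) :
    nod O ix F (v + 1) d f g = nod O ix F v d f g ∧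
    fac O ix F (v + 1) d f g = fac O ix F v d f g ∧
    (Lab O ix F (v + 1) d f g → Lab O ix F v d f g) := by
  have hfac : ∀ w, fac O ix (fun w d => tau (F w d)) w d f g = fac O ix F w d f g := by
    intro w
    exact d3_psi hb he (d3_st hb hF w h) _ _ _
  rw [d3_nod, d3_fac, d3_Lab, d3_sh hF]
  refine ⟨d3_phi hb he (d3_st hb hF v h) _, hfac v, ?_⟩
  by_cases h1 : O.h = 1
  · have ht : ∀ s : S, tau s = s := by
      intro s
      have := he.per s
      rw [h1] at this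
      exact this
    simp only [ht]
    exact id
  · have h2 : 1 < O.h := by
      have := he.h_pos
      omega
    have haa : aa (fun w d => tau (F w d)) v d = tau (aa F v d) := (hb.tau_inf _ _).symm
    have hlab : ∀ w, fac O ix F w d f g / 32 < O.top → ∃ s : S, lab O ix F w d f g = ix s ∧
        lab O ix (fun w d => tau (F w d)) w d f g = ix (tau s) := by
      intro w hw
      unfold lab
      rw [hfac]
      exact d3_lab he (d3_cs_lt he _ _ _) (d3_cs_lt he _ _ _) (d3_cs hb he (d3_st hb hF w h)) hw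
    have hmt : ∀ s t : S, O.mt (ix (tau s)) (ix (tau t)) = ix (tau s) →
        O.mt (ix s) (ix t) = ix s := by
      intro s t hst
      rw [he.mt, ← hb.tau_inf] at hst
      rw [he.mt, hb.tau_bij.1 (d3_ix_inj he hst)]
    unfold Lab
    rw [hfac, hfac, haa]
    rintro ⟨h3, h4, h5, h6⟩
    obtain ⟨s, hs1, hs2⟩ := hlab v h3
    obtain ⟨t, ht1, ht2⟩ := hlab (v + e d) h4
    have htt : ∀ s : S, O.tt 1 (ix s) = ix (tau s) := fun s => he.tt 1 s h2
    rw [hs2, ht2] at h5 h6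
    rw [htt] at h6
    rw [hs1, ht1]
    rw [htt]
    refine ⟨h3, h4, fun h7 => ?_, fun h7 => ?_⟩
    · exact ⟨hmt _ _ (h5 h7).1, hmt _ _ (h5 h7).2⟩
    · exact ⟨hmt _ _ (h6 h7).1, hmt _ _ (h6 h7).2⟩

end

theorem sp_inv : SpInv := by
  intro S _ O reps ix sf F D hb he hF k v d f g h
  induction k with
  | zero => simp
  | succ k ih =>
    have h1 := d3_step hb he hF (v + (k : ℤ) • 1) h
    have h2 : v + ((k + 1 : ℕ) : ℤ) • 1 = v + (k : ℤ) • 1 + 1 := by
      push_cast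
      rw [add_smul, one_smul, add_assoc]
    rw [h2]
    exact ⟨h1.1.trans ih.1, h1.2.1.trans ih.2.1, fun h3 => ih.2.2 (h1.2.2 h3)⟩

end Pool.Agent.H54.RF
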