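import Pool.Agent.H54.RF.SpecD
import Pool.Agent.H54.RF.NCB

/-!
# Project RF (MP_35eb49): a line of a flat is contained in a proper element
-/

set_option autoImplicit false

namespace Pool.Agent.H54.RF

open NC

section

variable {S : Type} [NC S]

private theorem d6_iter_top (hb : NC.Basic S) (c : ℕ) (s : S) (h : tau^[c] s = ⊤) : s = ⊤ := by
  induction c with
  | zero => exact h
  | succ c ih =>
    apply ih
    rw [Function.iterate_succ_apply'] at h
    exact hb.tau_bij.1 (h.trans hb.tau_top.symm)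

variable {O : Ops} {reps : List ℕ} {ix : S → ℕ} {sf : ℕ → S}

private theorem d6_le (hE : Enc O reps ix sf) {s t : S} (h : O.mt (ix s) (ix t) = ix s) :
    s ≤ t := by
  rw [hE.mt] at h
  have h2 : s ⊓ t = s := by
    rw [← hE.sf_ix (s ⊓ t), h, hE.sf_ix]
  exact inf_eq_left.1 h2

private theorem d6_lab (hb : NC.Basic S) (hE : Enc O reps ix sf) (F : (Fin 3 → ℤ) → Fin 3 → S)
    (v : Fin 3 → ℤ) (d f g : Fin 3) (h : fac O ix F v d f g / 32 < O.top) :
    ∃ w : S, w ≠ ⊤ ∧ lab O ix F v d f g = ix w := by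
  refine ⟨tau^[(O.h - O.cs (ix (F v d)) (ix (F v f)) (ix (F v g))) % O.h]
    (sf (fac O ix F v d f g / 32)), ?_, ?_⟩
  · intro h2
    have h3 := d6_iter_top hb _ _ h2
    have h4 := hE.ix_sf _ h.le
    rw [h3, hE.top] at h4
    omega
  · rw [← hE.tt _ _ (Nat.mod_lt _ hE.h_pos), hE.ix_sf _ h.le]
    rfl

private theorem d6_line (hb : NC.Basic S) (hE : Enc O reps ix sf)
    (F : (Fin 3 → ℤ) → Fin 3 → S) (v : Fin 3 → ℤ) (d f g : Fin 3) (r : ℕ)
    (h : ∀ n : ℕ, fac O ix F (v + (n : ℤ) • e d) d f g % 32 = r ∧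
      Lab O ix F (v + (n : ℤ) • e d) d f g) :
    ∃ w : S, w ≠ ⊤ ∧ ((∀ n : ℕ, aa F (v + (n : ℤ) • e d) d ≤ w) ∨
      ∀ n : ℕ, F (v + (n : ℤ) • e d) d ≤ tau^[n] w) := by
  have hs : ∀ n : ℕ, v + ((n + 1 : ℕ) : ℤ) • e d = v + (n : ℤ) • e d + e d := by
    intro n
    rw [Nat.cast_add, Nat.cast_one, add_smul, one_smul, add_assoc]
  have hw : ∀ n : ℕ, ∃ w : S, w ≠ ⊤ ∧ lab O ix F (v + (n : ℤ) • e d) d f g = ix w :=
    fun n => d6_lab hb hE F _ d f g (h n).2.1
  choose w hw1 hw2 using hw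
  have hmod : ∀ n : ℕ, fac O ix F (v + (n : ℤ) • e d) d f g % 2 = r % 2 := by
    intro n
    have := (h n).1
    omega
  refine ⟨w 0, hw1 0, ?_⟩
  rcases Nat.mod_two_eq_zero_or_one r with hr | hr
  · left
    have h2 : ∀ n : ℕ, aa F (v + (n : ℤ) • e d) d ≤ w n ∧ w (n + 1) ≤ w n := by
      intro n
      obtain ⟨h3, h4⟩ := (h n).2.2.2.1 ((hmod n).trans hr)
      constructor
      · apply d6_le hE
        rw [hw2 n] at h3
        exact h3
      · apply d6_le hE
        rw [← hs n, hw2 n, hw2 (n + 1)] at h4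
        exact h4
    have h3 : ∀ n : ℕ, w n ≤ w 0 := by
      intro n
      induction n with
      | zero => exact le_rfl
      | succ n ih => exact (h2 n).2.trans ih
    intro n
    exact (h2 n).1.trans (h3 n)
  · right
    have h2 : ∀ n : ℕ, F (v + (n : ℤ) • e d) d ≤ w n ∧ w (n + 1) ≤ tau (w n) := by
      intro n
      obtain ⟨h3, h4⟩ := (h n).2.2.2.2 ((hmod n).trans hr)
      constructor
      · apply d6_le hE
        rw [hw2 n] at h3
        exact h3
      · apply d6_le hE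
        rw [← hs n, hw2 n, hw2 (n + 1), hE.t1] at h4
        exact h4
    have h3 : ∀ n : ℕ, w n ≤ tau^[n] (w 0) := by
      intro n
      induction n with
      | zero => exact le_rfl
      | succ n ih =>
        rw [Function.iterate_succ_apply']
        exact (h2 n).2.trans ((hb.tau_le _ _).2 ih)
    intro n
    exact (h2 n).1.trans (h3 n)

end

open Classical in
theorem sp_line (h : SpV2) : SpLine := by
  intro S _ O reps ix sf F D hb hE hF hc1 hc2
  have hne : ∃ r : ℕ, ∃ v d f g, Di d f g ∧ fac O ix F v d f g % 32 = r :=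
    ⟨_, 0, 0, 1, 2, ⟨by decide, by decide, by decide⟩, rfl⟩
  obtain ⟨v, d, f, g, hD, hr⟩ := Nat.find_spec hne
  have hmin : ∀ v d f g, Di d f g → Nat.find hne ≤ fac O ix F v d f g % 32 :=
    fun v d f g hD => Nat.find_min' hne ⟨v, d, f, g, hD, rfl⟩
  have hall : ∀ n : ℕ, fac O ix F (v + (n : ℤ) • e d) d f g % 32 = Nat.find hne := by
    intro n
    induction n with
    | zero =>
      rw [Nat.cast_zero, zero_smul, add_zero]
      exact hr
    | succ n ih =>
      have h2 := (h S O reps ix sf F D hb hE hF hc1 hc2 _ hmin _ d f g hD ih).1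
      rw [Nat.cast_add, Nat.cast_one, add_smul, one_smul, ← add_assoc]
      exact h2
  obtain ⟨w, hw⟩ := d6_line hb hE F v d f g (Nat.find hne) fun n =>
    ⟨hall n, (h S O reps ix sf F D hb hE hF hc1 hc2 _ hmin _ d f g hD (hall n)).2⟩
  exact ⟨v, d, w, hw⟩

end Pool.Agent.H54.RF
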