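import Pool.Agent.H54.RF.SpecB

/-!
# Project RF (MP_35eb49): moves conjugate the parabolic subgroups
-/

set_option autoImplicit false

namespace Pool.Agent.H54.RF

open NC

section

variable {S : Type} [NC S] {G : Type} [Group G] [Gar G]

theorem p1_map (val : S → G) (J J' : S) (g : G)
    (h1 : ∀ s, s ≤ J → ∃ s', s' ≤ J' ∧ val s = g * val s' * g⁻¹)
    (h2 : ∀ s', s' ≤ J' → ∃ s, s ≤ J ∧ val s = g * val s' * g⁻¹) :
    GJ val J = (GJ val J').map (MulAut.conj g).toMonoidHom := by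
  unfold GJ
  rw [MonoidHom.map_closure]
  congr 1
  ext x
  constructor
  · rintro ⟨s, hs, rfl⟩
    obtain ⟨s', hs', he⟩ := h1 s hs
    refine ⟨val s', ⟨s', hs', rfl⟩, ?_⟩
    rw [he]
    rfl
  · rintro ⟨_, ⟨s', hs', rfl⟩, rfl⟩
    obtain ⟨s, hs, he⟩ := h2 s' hs'
    refine ⟨s, hs, ?_⟩
    rw [he]
    rfl

theorem p1_ge (val : S → G) (hv : Gv val) (s : S) : 1 ≤ val s :=
  ((hv.simple (val s)).2 ⟨s, rfl⟩).1

theorem p1_a (hB : NC.Basic S) (val : S → G) (hv : Gv val) (r J : S) (hr : r ≤ K J) (s : S)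
    (hs : s ≤ J) : ∃ s', s' ≤ dv r (mu J r) ∧ val s = val r * val s' * (val r)⁻¹ := by
  obtain ⟨hJm, hdm⟩ := hB.mu_spec hr
  have hrs : r ≤ K s := hr.trans (hB.K_anti hs)
  obtain ⟨hsm, hds⟩ := hB.mu_spec hrs
  have hrm : r ≤ mu J r := by
    rw [← hdm]
    exact inf_le_right.trans (by rw [hdm])
  have hrms : r ≤ mu s r := by
    rw [← hds]
    exact inf_le_right.trans (by rw [hds])
  have hle : mu s r ≤ mu J r := by
    rw [← hB.dv_le_iff hsm (hs.trans hJm), hds]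
    exact le_inf hrs hrm
  refine ⟨dv r (mu s r), (hB.dv_le_iff hrms hrm).2 hle, ?_⟩
  have e1 := hv.mult s (mu s r) hsm
  rw [hds] at e1
  have e2 := hv.mult r (mu s r) hrms
  rw [e2, ← e1, mul_inv_cancel_right]

theorem p1_b (hB : NC.Basic S) (val : S → G) (hv : Gv val) (r J : S) (hr : r ≤ K J) (s' : S)
    (hs : s' ≤ dv r (mu J r)) : ∃ s, s ≤ J ∧ val s = val r * val s' * (val r)⁻¹ := by
  obtain ⟨hJm, hdm⟩ := hB.mu_spec hr
  have hrm : r ≤ mu J r := by
    rw [← hdm]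
    exact inf_le_right.trans (by rw [hdm])
  have hs' : s' ≤ K r := hs.trans inf_le_left
  obtain ⟨hrm', hdm'⟩ := hB.mu_spec hs'
  have hle : mu r s' ≤ mu J r := by
    rw [← hB.dv_le_iff hrm' hrm, hdm']
    exact hs
  obtain ⟨s, hsm', hds⟩ := hB.left hrm'
  have e1 := hv.mult s (mu r s') hsm'
  rw [hds] at e1
  have e2 := hv.mult r (mu r s') hrm'
  rw [hdm'] at e2
  refine ⟨s, ?_, ?_⟩
  · have hsm : s ≤ mu J r := hsm'.trans hle
    have hrq : r ≤ dv s (mu J r) := by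
      rw [← hds]
      have h3 := (hB.dv_le_iff hsm' hsm).2 hle
      rw [hds] at h3 ⊢
      exact h3
    obtain ⟨z, hz, hdz⟩ := hB.left hrq
    have e3 := hv.mult z (dv s (mu J r)) hz
    rw [hdz] at e3
    have e4 := hv.mult s (mu J r) hsm
    have e5 := hv.mult J (mu J r) hJm
    rw [hdm] at e5
    have e6 : val J = val s * val z := by
      apply mul_right_cancel (b := val r)
      rw [e5, ← e4, ← e3, mul_assoc]
    rw [← hv.le, e6]
    have h1 := (Gar.mul_le_mul_iff (val s)).2 (p1_ge val hv z)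
    rwa [mul_one] at h1
  · rw [e2, ← e1, mul_inv_cancel_right]

theorem p1_tau (hB : NC.Basic S) (val : S → G) (hv : Gv val) (s : S) :
    val s = val ⊤ * val (tau s) * (val ⊤)⁻¹ := by
  have e1 := hv.mult s ⊤ le_top
  rw [hB.dv_top] at e1
  have e2 := hv.mult (K s) ⊤ le_top
  rw [hB.dv_top] at e2
  have e3 : val ⊤ * val (tau s) = val s * val ⊤ := by
    calc val ⊤ * val (tau s) = val s * val (K s) * val (tau s) := by rw [e1]
      _ = val s * (val (K s) * val (K (K s))) := by rw [mul_assoc]; rfl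
      _ = val s * val ⊤ := by rw [e2]
  rw [e3, mul_inv_cancel_right]

end

theorem sp_mv : SpMv := by
  intro S _ G _ _ val hB hv
  refine ⟨?_, ?_⟩
  · rintro r J J' ⟨-, hr, rfl⟩
    exact p1_map val J _ (val r) (p1_a hB val hv r J hr) (p1_b hB val hv r J hr)
  · intro J
    refine p1_map val J _ (val ⊤) ?_ ?_
    · intro s hs
      exact ⟨tau s, (hB.tau_le s J).2 hs, p1_tau hB val hv s⟩
    · intro t ht
      obtain ⟨s, rfl⟩ := hB.tau_bij.2 t
      exact ⟨s, (hB.tau_le s J).1 ht, p1_tau hB val hv s⟩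

end Pool.Agent.H54.RF
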