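import Pool.Agent.H54.RF.SpecB

/-!
# Project RF (MP_35eb49), row B7: the check of the atoms (helper19)
-/

set_option autoImplicit false

namespace Pool.Agent.H54.RF

open NC

theorem b7_ba {a b : Bool} (h : Ops.ba a b = true) : a = true ∧ b = true := by
  cases a <;> cases b <;> simp_all [Ops.ba, Ops.bi]

theorem b7_bo {a b : Bool} (h : Ops.bo a b = true) : a = true ∨ b = true := by
  cases a <;> cases b <;> simp_all [Ops.bo, Ops.bi]

theorem b7_allR (f : ℕ → Bool) : ∀ (n : ℕ), Ops.allR n f = true → ∀ k < n, f k = true := by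
  intro n
  induction n with
  | zero => intro _ k hk; exact absurd hk (Nat.not_lt_zero k)
  | succ n ih =>
    intro h k hk
    have h' : Ops.bi (f n) (Ops.allR n f) false = true := h
    have h1 : f n = true ∧ Ops.allR n f = true := b7_ba h'
    rcases Nat.lt_succ_iff_lt_or_eq.1 hk with h2 | h2
    · exact ih h1.2 k h2
    · rw [h2]
      exact h1.1

/-- The check of the atoms is sound. -/
theorem sp_na : SpNa := by
  intro D _ _ hD O el reps ix sf na hE hel hck
  unfold Ops.ckN at hck
  obtain ⟨h1, hck⟩ := b7_ba hck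
  obtain ⟨h2, h3⟩ := b7_ba hck
  refine ⟨Nat.le_of_ble_eq_true h1, Nat.le_of_ble_eq_true h2, fun s => ?_⟩
  have h4 : ix s < O.m := by
    rw [hE.m]
    exact Nat.lt_succ_of_le (hE.lt s)
  have h5 := b7_allR _ _ h3 (ix s) h4
  have h6 : s.1 = el (ix s) := by
    rw [← hel (ix s) (hE.lt s), hE.sf_ix]
  have h7 : NC.rk s = Dat.rf D.L (el (ix s)) := by
    rw [hD.rk s, h6]
  rw [h7]
  cases h8 : Nat.beq (Dat.rf D.L (el (ix s))) 1 with
  | true =>
    rw [h8] at h5
    have h9 : Ops.ba (Nat.blt 0 (ix s)) (Nat.ble (ix s) na) = true := h5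
    obtain ⟨h10, h11⟩ := b7_ba h9
    have h12 := Nat.eq_of_beq_eq_true h8
    have h13 : 0 < ix s := Nat.le_of_ble_eq_true h10
    have h14 : ix s ≤ na := Nat.le_of_ble_eq_true h11
    exact ⟨fun _ => ⟨h13, h14⟩, fun _ => h12⟩
  | false =>
    rw [h8] at h5
    have h9 : Ops.bo (Nat.beq (ix s) 0) (Nat.blt na (ix s)) = true := h5
    have h12 : Dat.rf D.L (el (ix s)) ≠ 1 := Nat.ne_of_beq_eq_false h8
    constructor
    · intro h
      exact absurd h h12
    · rintro ⟨h13, h14⟩
      rcases b7_bo h9 with h10 | h10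
      · have := Nat.eq_of_beq_eq_true h10
        omega
      · have h15 : na < ix s := Nat.le_of_ble_eq_true h10
        omega

end Pool.Agent.H54.RF
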