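import Pool.Agent.H54.RF.SpecB

/-!
# Project RF (MP_35eb49): centralizers normalize the parabolic subgroup of the support
-/

set_option autoImplicit false
set_option linter.unusedSectionVars false

namespace Pool.Agent.H54.RF

open NC

section

variable {S : Type} [NC S] {G : Type} [Group G] [Gar G] {val : S → G}

theorem b5_bo (hB : NC.Basic S) (hv : Gv val) : val (bo S) = 1 := by
  have h := hv.mult (bo S) (bo S) le_rfl
  rw [hB.dv_self] at h
  exact mul_eq_left.1 h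

theorem b5_one_le (hv : Gv val) (s : S) : (1 : G) ≤ val s := ((hv.simple (val s)).2 ⟨s, rfl⟩).1

theorem b5_le_iff {x y : G} : x ≤ y ↔ (1 : G) ≤ x⁻¹ * y := by
  rw [Gar.one_le_iff, Gar.le_def]

theorem b5_conj_iff {x y : G} : y ≤ x * y ↔ (1 : G) ≤ y⁻¹ * x * y := by
  rw [b5_le_iff, mul_assoc]

theorem b5_uniq {x : G} {J J' : S} (h : Su val x J) (h' : Su val x J') : J = J' :=
  le_antisymm (h.2 _ h'.1) (h'.2 _ h.1)

/-- A positive element different from `1` has a nontrivial simple left factor. -/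
theorem b5_s (hB : NC.Basic S) (hv : Gv val) (hP : PJt val) (u : G) (hu : 1 ≤ u) (hu1 : u ≠ 1)
    (s : S) (hs : u ⊓ Gar.δ = val s) : s ≠ bo S := by
  intro h0
  rw [h0, b5_bo hB hv] at hs
  obtain ⟨l, hl, rfl⟩ := hP.list ⊤ u (hP.all u hu)
  cases l with
  | nil => exact hu1 rfl
  | cons r l =>
    have h1 : val r ≤ ((r :: l).map val).prod := by
      rw [List.map_cons, List.prod_cons, b5_le_iff, inv_mul_cancel_left]
      have h2 : ∀ l' : List S, (1 : G) ≤ (l'.map val).prod := by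
        intro l'
        induction l' with
        | nil => simp
        | cons a l' ih =>
          rw [List.map_cons, List.prod_cons]
          exact Gar.one_le_iff.2 (mul_mem (Gar.one_le_iff.1 (b5_one_le hv a))
            (Gar.one_le_iff.1 ih))
      exact h2 l
    have h2 : val r ≤ Gar.δ := ((hv.simple _).2 ⟨r, rfl⟩).2
    have h3 : val r ≤ 1 := by
      rw [← hs]
      exact le_inf h1 h2
    rw [← b5_bo hB hv, hv.le] at h3
    have h4 : r = bo S := le_antisymm h3 (hB.bo_le r)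
    have h5 := (hl r List.mem_cons_self).1
    rw [h4, hB.rk_bo] at h5
    exact absurd h5 (by norm_num)

/-- A minimal element that is not decreased by the conjugation. -/
theorem b5_min (hB : NC.Basic S) (x : G) (s : S) (hs : s ≠ bo S) (hsx : val s ≤ x * val s) :
    ∃ c, c ≤ s ∧ c ≠ bo S ∧ val c ≤ x * val c ∧
      ∀ c' : S, c' ≤ c → val c' ≤ x * val c' → c' = bo S ∨ c' = c := by
  classical
  have hex : ∃ n, ∃ c : S, c ≤ s ∧ c ≠ bo S ∧ val c ≤ x * val c ∧ NC.rk c = n :=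
    ⟨_, s, le_rfl, hs, hsx, rfl⟩
  obtain ⟨c, h1, h2, h3, h4⟩ := Nat.find_spec hex
  refine ⟨c, h1, h2, h3, fun c' hc' hx' => ?_⟩
  by_contra hne
  push Not at hne
  have h5 := hB.rk_lt (lt_of_le_of_ne hc' hne.2)
  rw [h4] at h5
  exact Nat.find_min hex h5 ⟨c', hc'.trans h1, hne.1, hx', rfl⟩

theorem b5_claim (hS0 : SpStep) (hB : NC.Basic S) (hC : NC.Conn S) (hv : Gv val)
    (hP : PJt val) (hS : Sut val) (hK : KL S) (n : ℕ) :
    ∀ (x u : G) (J J' : S), 1 ≤ x → 1 ≤ u → Gar.len u ≤ n → 1 ≤ u⁻¹ * x * u → Su val x J →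
      Su val (u⁻¹ * x * u) J' → NC.rk J' ≤ NC.rk J ∧
        (NC.rk J' = NC.rk J → ∀ y ∈ GJ val J, u⁻¹ * y * u ∈ GJ val J') := by
  induction n using Nat.strong_induction_on with
  | _ n ih =>
    intro x u J J' hx hu hn hx' hJ hJ'
    by_cases hu1 : u = 1
    · subst hu1
      have e : ∀ y : G, (1 : G)⁻¹ * y * 1 = y := fun y => by group
      rw [e] at hJ'
      have hJJ := b5_uniq hJ hJ'
      subst hJJ
      exact ⟨le_rfl, fun _ y hy => by rw [e]; exact hy⟩
    · obtain ⟨s, hs⟩ := (hv.simple (u ⊓ Gar.δ)).1 ⟨le_inf hu Gar.one_le_δ, inf_le_right⟩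
      have hs0 := b5_s hB hv hP u hu hu1 s hs
      have hδ : (Gar.δ : G) ≤ x * Gar.δ := by
        rw [b5_conj_iff, Gar.one_le_iff, Gar.conj]
        exact Gar.one_le_iff.1 hx
      have hsx : val s ≤ x * val s := by
        rw [← hs, Gar.mul_inf']
        exact inf_le_inf (b5_conj_iff.2 hx') hδ
      obtain ⟨c, hcs, hc0, hcx, hmin⟩ := b5_min hB x s hs0 hsx
      have hx1 : (1 : G) ≤ (val c)⁻¹ * x * val c := b5_conj_iff.1 hcx
      have hcu : val c ≤ u := ((hv.le c s).2 hcs).trans (hs ▸ inf_le_left)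
      have hu2 : (1 : G) ≤ (val c)⁻¹ * u := b5_le_iff.1 hcu
      obtain ⟨J1, hJ1⟩ := hS.ex _ hx1
      have hrc : 0 < NC.rk c := NC.rk_pos c hc0
      have hlen : Gar.len ((val c)⁻¹ * u) = Gar.len u - NC.rk c := by
        rw [Gar.len_mul, Gar.len_inv, hv.len]
        ring
      have h0 : 0 ≤ Gar.len ((val c)⁻¹ * u) := Gar.len_nonneg _ (Gar.one_le_iff.1 hu2)
      have hn1 : (Gar.len ((val c)⁻¹ * u)).toNat < n := by omega
      have e1 : ((val c)⁻¹ * u)⁻¹ * ((val c)⁻¹ * x * val c) * ((val c)⁻¹ * u) = u⁻¹ * x * u := by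
        group
      obtain ⟨a1, a2⟩ := hS0 S G val hB hC hv hP hS hK x J c J1 hx hJ hc0 hcx hmin hJ1
      obtain ⟨b1, b2⟩ := ih _ hn1 ((val c)⁻¹ * x * val c) ((val c)⁻¹ * u) J1 J' hx1 hu2
        (Int.self_le_toNat _) (by rw [e1]; exact hx') hJ1 (by rw [e1]; exact hJ')
      refine ⟨b1.trans a1, fun he y hy => ?_⟩
      have e2 : u⁻¹ * y * u =
          ((val c)⁻¹ * u)⁻¹ * ((val c)⁻¹ * y * val c) * ((val c)⁻¹ * u) := by group
      rw [e2]
      exact b2 (by omega) _ (a2 (by omega) y hy)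

end

theorem sp_norm (hS0 : SpStep) : SpNorm := by
  intro S _ G _ _ val hB hC hv hP hS hK x J u hx hsu hcom
  have key : ∀ u : G, Commute u x → ∀ y ∈ GJ val J, u⁻¹ * y * u ∈ GJ val J := by
    intro u hcom y hy
    obtain ⟨k, hk⟩ := Gar.cof u⁻¹
    rw [inv_inv] at hk
    have hz : ∀ z : G, Commute ((Gar.δ : G) ^ (ord G * k)) z := by
      intro z
      rw [pow_mul]
      exact (show Commute ((Gar.δ : G) ^ ord G) z from Gar.central z).pow_left k
    set D : G := (Gar.δ : G) ^ (ord G * k) with hD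
    have hu' : (1 : G) ≤ u * D := by
      have h1 : (1 : G) ≤ u * Gar.δ ^ k := Gar.one_le_iff.2 hk
      have h2 : k ≤ ord G * k := Nat.le_mul_of_pos_left k Gar.ord_pos
      obtain ⟨j, hj⟩ := Nat.exists_eq_add_of_le h2
      have h3 : u * D = u * Gar.δ ^ k * Gar.δ ^ j := by
        rw [hD, hj, pow_add, mul_assoc]
      rw [h3]
      exact h1.trans (Gar.le_mul_pow _ j)
    have hcom' : Commute (u * D) x := hcom.mul_left (hz x)
    have e1 : (u * D)⁻¹ * x * (u * D) = x := by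
      rw [mul_assoc, ← hcom'.eq, inv_mul_cancel_left]
    have h1 := (b5_claim hS0 hB hC hv hP hS hK (Gar.len (u * D)).toNat x (u * D) J J hx hu'
      (Int.self_le_toNat _) (by rw [e1]; exact hx) hsu (by rw [e1]; exact hsu)).2 rfl y hy
    have e2 : (u * D)⁻¹ * y * (u * D) = u⁻¹ * y * u := by
      have h2 : D⁻¹ * (u⁻¹ * y * u) * D = u⁻¹ * y * u := by
        rw [mul_assoc, ← (hz (u⁻¹ * y * u)).eq, inv_mul_cancel_left]
      calc (u * D)⁻¹ * y * (u * D) = D⁻¹ * (u⁻¹ * y * u) * D := by group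
        _ = u⁻¹ * y * u := h2
    rwa [e2] at h1
  apply le_antisymm
  · rintro _ ⟨y, hy, rfl⟩
    have h1 := key u⁻¹ hcom.inv_left y hy
    rw [inv_inv] at h1
    exact h1
  · intro y hy
    refine ⟨u⁻¹ * y * u, key u hcom y hy, ?_⟩
    show u * (u⁻¹ * y * u) * u⁻¹ = y
    group

end Pool.Agent.H54.RF
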