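import Pool.Agent.H54.RF.Defs2

/-!
# Project RF (MP_35eb49): greedy words
-/

set_option autoImplicit false

namespace Pool.Agent.H54.RF

namespace Gar

variable {G : Type} [Group G] [Gar G]

theorem gh5_compl {s : G} (h1 : 1 ≤ s) : s⁻¹ * δ ≤ δ := by
  rw [le_def, mul_inv_rev, inv_inv, conj]
  exact one_le_iff.mp h1

/-- the key step for heads -/
theorem gh5_head {s x : G} (h1 : 1 ≤ s) (h2 : s ≤ δ) (hx : 1 ≤ x) :
    (s * x) ⊓ δ = (s * (x ⊓ δ)) ⊓ δ := by
  have hsx : s ≤ s * x := by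
    have := (mul_le_mul_iff s).mpr hx
    rwa [mul_one] at this
  apply le_antisymm
  · refine le_inf ?_ inf_le_right
    have h3 : s ⊔ ((s * x) ⊓ δ) ≤ s * x := sup_le hsx inf_le_left
    have h4 : s ⊔ ((s * x) ⊓ δ) ≤ δ := sup_le h2 inf_le_right
    have h5 : s⁻¹ * (s ⊔ ((s * x) ⊓ δ)) ≤ x := by
      rw [← mul_le_mul_iff s, mul_inv_cancel_left]; exact h3
    have h6 : s⁻¹ * (s ⊔ ((s * x) ⊓ δ)) ≤ δ :=
      ((mul_le_mul_iff s⁻¹).mpr h4).trans (gh5_compl h1)
    have h7 : s ⊔ ((s * x) ⊓ δ) ≤ s * (x ⊓ δ) := by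
      rw [← mul_le_mul_iff s⁻¹, inv_mul_cancel_left]
      exact le_inf h5 h6
    exact le_sup_right.trans h7
  · exact inf_le_inf ((mul_le_mul_iff s).mpr inf_le_left) le_rfl

theorem Gr.one_le {s w s' : G} {n : ℕ} (h : Gr s w s' n) : 1 ≤ w := by
  induction h with
  | nil s => exact le_rfl
  | @cons s u w s' n h1 h2 h3 h4 ih =>
    refine h1.le.trans ?_
    have := (mul_le_mul_iff u).mpr ih
    rwa [mul_one] at this

theorem Gr.append {s w s' w' s'' : G} {n m : ℕ} (h : Gr s w s' n) (h' : Gr s' w' s'' m) :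
    Gr s (w * w') s'' (n + m) := by
  induction h with
  | nil s => rwa [one_mul, zero_add]
  | @cons s u w s' n h1 h2 h3 h4 ih =>
    rw [mul_assoc, Nat.add_right_comm]
    exact Gr.cons h1 h2 h3 (ih h')

theorem Gr.pow {s w : G} {n : ℕ} (h : Gr s w s n) (k : ℕ) : Gr s (w ^ k) s (k * n) := by
  induction k with
  | zero =>
    rw [pow_zero, zero_mul]
    exact Gr.nil s
  | succ k ih =>
    rw [pow_succ', Nat.succ_mul, add_comm]
    exact h.append ih

theorem gh5_after {s w s' : G} {n : ℕ} (h : Gr s w s' n) (h1 : 1 ≤ s) (h2 : s ≤ δ) :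
    (s * w) ⊓ δ = s := by
  induction h with
  | nil s => rw [mul_one]; exact inf_eq_left.mpr h2
  | @cons s u w s' n a1 a2 a3 a4 ih =>
    have h3 := ih a1.le a2.le
    rw [gh5_head h1 h2 ((Gr.cons a1 a2 a3 a4).one_le), h3, a3]

/-- A prefix of a greedy word is a meet with a power of `δ`. -/
theorem Gr.pre {s w s' w' s'' : G} {n m : ℕ} (h : Gr s w s' n) (h' : Gr s' w' s'' m) :
    (w * w') ⊓ δ ^ n = w := by
  induction h with
  | nil s =>
    rw [one_mul, pow_zero]
    exact inf_eq_right.mpr h'.one_le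
  | @cons s u w s' n h1 h2 h3 h4 ih =>
    have h5 : (u * (w * w')) ⊓ δ = u := gh5_after (h4.append h') h1.le h2.le
    have h6 := ih h'
    rw [mul_assoc]
    apply le_antisymm
    · have h7 : (u * (w * w')) ⊓ δ ^ (n + 1) ≤ u * δ ^ n := by
        have h8 : ((u * (w * w')) ⊓ δ) * δ ^ (n : ℤ) = u * δ ^ (n : ℤ) := by rw [h5]
        rw [inf_zpow, zpow_natCast, ← pow_succ'] at h8
        rw [← h8]
        exact inf_le_inf (le_mul_pow _ n) le_rfl
      have h9 : (u * (w * w')) ⊓ δ ^ (n + 1) ≤ u * ((w * w') ⊓ δ ^ n) := by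
        rw [mul_inf']
        exact le_inf inf_le_left h7
      rwa [h6] at h9
    · refine le_inf ((mul_le_mul_iff u).mpr ?_) ?_
      · have := (mul_le_mul_iff w).mpr h'.one_le
        rwa [mul_one] at this
      · have h7 : w ≤ δ ^ n := by
          rw [← h6]
          exact inf_le_right
        refine ((mul_le_mul_iff u).mpr h7).trans ?_
        rw [pow_succ', ← zpow_natCast, mul_zpow_le_iff]
        exact h2.le

theorem gh5_first {s w s' : G} {n : ℕ} (h : Gr s w s' n) (hn : 0 < n) :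
    ∃ u : G, 1 < u ∧ u < δ ∧ u ≤ w ∧ w ⊓ δ = u := by
  cases h with
  | nil => exact absurd hn (lt_irrefl 0)
  | @cons s u w s' n h1 h2 h3 h4 =>
    refine ⟨u, h1, h2, ?_, gh5_after h4 h1.le h2.le⟩
    have := (mul_le_mul_iff u).mpr h4.one_le
    rwa [mul_one] at this

theorem Gr.ne_zpow {s w s' : G} {n : ℕ} (h : Gr s w s' n) (hn : 0 < n) (k : ℤ) :
    w ≠ δ ^ k := by
  intro hk
  obtain ⟨u, h1, h2, h3, h4⟩ := gh5_first h hn
  have h5 : 0 < len w := by
    have := len_lt (h1.trans_le h3)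
    rwa [len_one] at this
  rw [hk, len_zpow, len_δ] at h5
  have h6 : 1 ≤ k := by
    by_contra hc
    push Not at hc
    have h8 := rkZ_pos (G := G)
    have h9 : k ≤ 0 := by omega
    nlinarith
  have h7 : (δ : G) ≤ w := by
    have := mul_zpow_mono (1 : G) h6
    rwa [one_mul, one_mul, zpow_one, ← hk] at this
  rw [inf_eq_right.mpr h7] at h4
  exact h2.ne h4.symm

theorem Gr.d_one {s w s' : G} {n : ℕ} (h : Gr s w s' n) : d w 1 = 0 := by
  have h0 : d w 1 ≤ 0 := by
    rw [d_le_iff, zpow_zero, mul_one]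
    exact h.one_le
  rcases Nat.eq_zero_or_pos n with hn | hn
  · subst hn
    cases h
    exact d_self 1
  · apply le_antisymm h0
    by_contra hc
    push Not at hc
    have h1 : d w 1 ≤ -1 := by omega
    rw [d_le_iff, le_mul_zpow_iff, neg_neg, one_mul, zpow_one] at h1
    obtain ⟨u, -, h2, -, h4⟩ := gh5_first h hn
    rw [inf_eq_right.mpr h1] at h4
    exact h2.ne h4.symm

end Gar

end Pool.Agent.H54.RF
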