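import Pool.Agent.H54.RF.SpecB
import Pool.Agent.H54.RF.Greedy

/-!
# Project RF (MP_35eb49): parabolic submonoids
-/

set_option autoImplicit false

namespace Pool.Agent.H54.RF

open NC

section

variable {S : Type} [NC S] {G : Type} [Group G] [Gar G] {val : S → G}

private theorem b1_bo (hB : NC.Basic S) (hV : Gv val) : val (bo S) = 1 := by
  have h := hV.mult (bo S) (bo S) le_rfl
  rw [hB.dv_bo] at h
  exact mul_eq_left.1 h

private theorem b1_one_val (hV : Gv val) (s : S) : 1 ≤ val s :=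
  ((hV.simple (val s)).2 ⟨s, rfl⟩).1

private theorem b1_mul {x y : G} (hx : 1 ≤ x) (hy : 1 ≤ y) : 1 ≤ x * y := by
  rw [Gar.one_le_iff] at *
  exact mul_mem hx hy

private theorem b1_le_mul {x y : G} (hy : 1 ≤ y) : x ≤ x * y := by
  have h := (Gar.mul_le_mul_iff x).2 hy
  rwa [mul_one] at h

private theorem b1_le_iff {x y z : G} : x * y ≤ z ↔ y ≤ x⁻¹ * z := by
  rw [← Gar.mul_le_mul_iff x⁻¹ (x := x * y), inv_mul_cancel_left]

private theorem b1_one_le_iff {x y : G} : 1 ≤ x⁻¹ * y ↔ x ≤ y := by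
  rw [← b1_le_iff, mul_one]

omit [Gar G] in
private theorem b1_gen {J s : S} (h : s ≤ J) : val s ∈ PJ val J :=
  Submonoid.subset_closure ⟨s, h, rfl⟩

private theorem b1_one_le (hV : Gv val) {J : S} {x : G} (hx : x ∈ PJ val J) : 1 ≤ x := by
  unfold PJ at hx
  induction hx using Submonoid.closure_induction with
  | mem x hx =>
    obtain ⟨s, _, rfl⟩ := hx
    exact b1_one_val hV s
  | one => exact le_rfl
  | mul x y _ _ h1 h2 => exact b1_mul h1 h2

private theorem b1_join (hV : Gv val) {s t j : S} (hj : ∀ u, s ≤ u → t ≤ u → j ≤ u) {z : G}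
    (hs : val s ≤ z) (ht : val t ≤ z) : val j ≤ z := by
  have h1 : ∀ u : S, val u ≤ Gar.δ := fun u => ((hV.simple (val u)).2 ⟨u, rfl⟩).2
  obtain ⟨u, hu⟩ := (hV.simple (z ⊓ Gar.δ)).1
    ⟨le_inf ((b1_one_val hV s).trans hs) ((b1_one_val hV s).trans (h1 s)), inf_le_right⟩
  have h2 : s ≤ u := by
    rw [← hV.le, ← hu]
    exact le_inf hs (h1 s)
  have h3 : t ≤ u := by
    rw [← hV.le, ← hu]
    exact le_inf ht (h1 t)
  refine ((hV.le _ _).2 (hj u h2 h3)).trans ?_
  rw [← hu]
  exact inf_le_left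

private theorem b1_hf (hB : NC.Basic S) (hV : Gv val) {J : S} {x : G} (hx : x ∈ PJ val J) :
    ∀ s, val s ≤ x → s ≤ J ∧ (val s)⁻¹ * x ∈ PJ val J := by
  unfold PJ at hx
  induction hx using Submonoid.closure_induction_left with
  | one =>
    intro s hs
    have h1 : val s = 1 := le_antisymm hs (b1_one_val hV s)
    have h2 : s = bo S := hV.inj (by rw [h1, b1_bo hB hV])
    refine ⟨h2 ▸ hB.bo_le J, ?_⟩
    rw [h1, inv_one, one_mul]
    exact one_mem _
  | mul_left a ha x hx ih =>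
    obtain ⟨s1, hs1, rfl⟩ := ha
    have hs1 : s1 ≤ J := hs1
    intro s hs
    have hx1 : 1 ≤ x := b1_one_le hV hx
    obtain ⟨j, hj1, hj2, hj3⟩ := hB.sup s1 s
    have hj : val j ≤ val s1 * x := b1_join hV hj3 (b1_le_mul hx1) hs
    have hm : val s1 * val (dv s1 j) = val j := hV.mult s1 j hj1
    have ht : val (dv s1 j) ≤ x := by
      rw [← hm, Gar.mul_le_mul_iff] at hj
      exact hj
    obtain ⟨h1, h2⟩ := ih _ ht
    have hjJ : j ≤ J := by
      rw [← hB.dv_le_iff hj1 hs1]
      exact le_inf inf_le_left h1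
    refine ⟨hj2.trans hjJ, ?_⟩
    have hm2 : val s * val (dv s j) = val j := hV.mult s j hj2
    have h3 : (val s)⁻¹ * (val s1 * x) = val (dv s j) * ((val (dv s1 j))⁻¹ * x) := by
      rw [inv_mul_eq_iff_eq_mul, ← mul_assoc, hm2, ← hm]
      group
    rw [h3]
    exact mul_mem (b1_gen (inf_le_right.trans hjJ)) h2

private theorem b1_all (hV : Gv val) : ∀ x : G, 1 ≤ x → x ∈ PJ val ⊤ := by
  have h1 : ∀ (k : ℕ) (x : G), 1 ≤ x → x ≤ Gar.δ ^ k → x ∈ PJ val (⊤ : S) := by
    intro k
    induction k with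
    | zero =>
      intro x hx hx'
      rw [pow_zero] at hx'
      rw [le_antisymm hx' hx]
      exact one_mem _
    | succ k ih =>
      intro x hx hx'
      obtain ⟨s, hs⟩ := (hV.simple (x ⊓ Gar.δ)).1 ⟨le_inf hx Gar.one_le_δ, inf_le_right⟩
      have h2 : (x ⊓ Gar.δ)⁻¹ * x ∈ PJ val (⊤ : S) := by
        refine ih _ ?_ ?_
        · rw [b1_one_le_iff]
          exact inf_le_left
        · rw [← Gar.mul_le_mul_iff (x ⊓ Gar.δ), mul_inv_cancel_left]
          have h3 : (x ⊓ Gar.δ) * Gar.δ ^ k = x * Gar.δ ^ k ⊓ Gar.δ * Gar.δ ^ k := by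
            rw [← zpow_natCast, Gar.inf_zpow]
          rw [h3, ← pow_succ']
          exact le_inf (Gar.le_mul_pow x k) hx'
      have h3 : x = val s * ((x ⊓ Gar.δ)⁻¹ * x) := by
        rw [← hs, mul_inv_cancel_left]
      rw [h3]
      exact mul_mem (b1_gen le_top) h2
  intro x hx
  obtain ⟨k, hk⟩ := Gar.exists_le_zpow x 1
  rw [one_mul] at hk
  exact h1 k x hx hk

private theorem b1_fac (hB : NC.Basic S) (hV : Gv val) {y : G} (hy : y ∈ PJ val (⊤ : S)) :
    ∀ J : S, ∀ x ∈ PJ val J, y ≤ x → y ∈ PJ val J ∧ y⁻¹ * x ∈ PJ val J := by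
  unfold PJ at hy
  induction hy using Submonoid.closure_induction_left with
  | one =>
    intro J x hx _
    refine ⟨one_mem _, ?_⟩
    rw [inv_one, one_mul]
    exact hx
  | mul_left a ha y hy ih =>
    obtain ⟨s, _, rfl⟩ := ha
    intro J x hx hyx
    have hy1 : 1 ≤ y := b1_one_le hV hy
    obtain ⟨h1, h2⟩ := b1_hf hB hV hx s ((b1_le_mul hy1).trans hyx)
    obtain ⟨h3, h4⟩ := ih J _ h2 (b1_le_iff.1 hyx)
    refine ⟨mul_mem (b1_gen h1) h3, ?_⟩
    rw [mul_inv_rev, mul_assoc]
    exact h4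

private theorem b1_conj (hV : Gv val) {J : S} {x : G} (hx : x ∈ PJ val J) :
    (val J)⁻¹ * x * val J ∈ PJ val J := by
  unfold PJ at hx
  induction hx using Submonoid.closure_induction with
  | mem x hx =>
    obtain ⟨s, hs, rfl⟩ := hx
    have hs : s ≤ J := hs
    have h1 : val s * val (dv s J) = val J := hV.mult s J hs
    have h2 : dv s J ≤ J := inf_le_right
    have h3 : val (dv s J) * val (dv (dv s J) J) = val J := hV.mult _ J h2
    have h4 : (val J)⁻¹ * val s * val J = val (dv (dv s J) J) := by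
      calc (val J)⁻¹ * val s * val J = (val J)⁻¹ * val s * (val (dv s J) *
          val (dv (dv s J) J)) := by rw [h3]
        _ = (val J)⁻¹ * (val s * val (dv s J)) * val (dv (dv s J) J) := by group
        _ = _ := by rw [h1, inv_mul_cancel, one_mul]
    rw [h4]
    exact b1_gen inf_le_right
  | one =>
    rw [mul_one, inv_mul_cancel]
    exact one_mem _
  | mul x y _ _ h1 h2 =>
    have h3 : (val J)⁻¹ * (x * y) * val J =
        ((val J)⁻¹ * x * val J) * ((val J)⁻¹ * y * val J) := by group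
    rw [h3]
    exact mul_mem h1 h2

private theorem b1_conj' (hB : NC.Basic S) (hV : Gv val) {J : S} {x : G}
    (hx : x ∈ PJ val J) : val J * x * (val J)⁻¹ ∈ PJ val J := by
  unfold PJ at hx
  induction hx using Submonoid.closure_induction with
  | mem x hx =>
    obtain ⟨s, hs, rfl⟩ := hx
    have hs : s ≤ J := hs
    obtain ⟨t, ht, rfl⟩ := hB.left hs
    obtain ⟨t', ht', rfl⟩ := hB.left ht
    have h1 : val (dv t' J) * val (dv (dv t' J) J) = val J := hV.mult _ J ht
    have h3 : val t' * val (dv t' J) = val J := hV.mult _ J ht'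
    have h4 : val J * val (dv (dv t' J) J) * (val J)⁻¹ = val t' := by
      calc val J * val (dv (dv t' J) J) * (val J)⁻¹ =
          (val t' * val (dv t' J)) * val (dv (dv t' J) J) * (val J)⁻¹ := by rw [h3]
        _ = val t' * (val (dv t' J) * val (dv (dv t' J) J)) * (val J)⁻¹ := by group
        _ = _ := by rw [h1, mul_inv_cancel_right]
    rw [h4]
    exact b1_gen ht'
  | one =>
    rw [mul_one, mul_inv_cancel]
    exact one_mem _
  | mul x y _ _ h1 h2 =>
    have h3 : val J * (x * y) * (val J)⁻¹ =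
        (val J * x * (val J)⁻¹) * (val J * y * (val J)⁻¹) := by group
    rw [h3]
    exact mul_mem h1 h2

private theorem b1_conj_pow (hB : NC.Basic S) (hV : Gv val) {J : S} {x : G}
    (hx : x ∈ PJ val J) (k : ℕ) : val J ^ k * x * (val J ^ k)⁻¹ ∈ PJ val J := by
  induction k with
  | zero =>
    rw [pow_zero, one_mul, inv_one, mul_one]
    exact hx
  | succ k ih =>
    have h1 : val J ^ (k + 1) * x * (val J ^ (k + 1))⁻¹ =
        val J * (val J ^ k * x * (val J ^ k)⁻¹) * (val J)⁻¹ := by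
      rw [pow_succ', mul_inv_rev]
      group
    rw [h1]
    exact b1_conj' hB hV ih

private theorem b1_frac (hB : NC.Basic S) (hV : Gv val) {J : S} {x : G}
    (hx : x ∈ GJ val J) : ∃ k : ℕ, val J ^ k * x ∈ PJ val J := by
  have hx1 : x ∈ (GJ val J).toSubmonoid := hx
  unfold GJ at hx1
  rw [Subgroup.closure_toSubmonoid] at hx1
  clear hx
  induction hx1 using Submonoid.closure_induction with
  | mem x hx =>
    rcases hx with hx | hx
    · obtain ⟨s, hs, rfl⟩ := hx
      exact ⟨0, by rw [pow_zero, one_mul]; exact b1_gen hs⟩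
    · rw [Set.mem_inv] at hx
      obtain ⟨s, hs, hsx⟩ := hx
      have hs : s ≤ J := hs
      obtain ⟨t, ht, rfl⟩ := hB.left hs
      refine ⟨1, ?_⟩
      have h1 : val t * val (dv t J) = val J := hV.mult _ J ht
      have h2 : val J ^ 1 * x = val t := by
        rw [pow_one, ← h1, hsx, inv_mul_cancel_right]
      rw [h2]
      exact b1_gen ht
  | one => exact ⟨0, by rw [pow_zero, one_mul]; exact one_mem _⟩
  | mul x y _ _ h1 h2 =>
    obtain ⟨k, hk⟩ := h1
    obtain ⟨l, hl⟩ := h2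
    refine ⟨l + k, ?_⟩
    have h3 : val J ^ (l + k) * (x * y) =
        (val J ^ l * (val J ^ k * x) * (val J ^ l)⁻¹) * (val J ^ l * y) := by
      rw [pow_add]
      group
    rw [h3]
    exact mul_mem (b1_conj_pow hB hV hk l) hl

omit [Gar G] in
private theorem b1_pow {J : S} (k : ℕ) : val J ^ k ∈ PJ val J :=
  pow_mem (b1_gen le_rfl) k

private theorem b1_pos (hB : NC.Basic S) (hV : Gv val) {J : S} {x : G}
    (hx : x ∈ GJ val J) (hx1 : 1 ≤ x) : x ∈ PJ val J := by
  obtain ⟨k, hk⟩ := b1_frac hB hV hx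
  have h1 := (b1_fac hB hV (b1_all hV (val J ^ k) (b1_one_le hV (b1_pow (J := J) k))) J _ hk
    (b1_le_mul hx1)).2
  rwa [inv_mul_cancel_left] at h1

private theorem b1_atoms (hB : NC.Basic S) (hC : NC.Conn S) (hV : Gv val) {J : S} :
    ∀ (n : ℕ) (s : S), NC.rk s = n → s ≤ J →
      ∃ l : List S, (∀ r ∈ l, NC.rk r = 1 ∧ r ≤ J) ∧ val s = (l.map val).prod := by
  intro n
  induction n with
  | zero =>
    intro s hs _
    have h1 : s = bo S := by
      by_contra h2
      have h3 := NC.rk_pos s h2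
      omega
    refine ⟨[], fun r hr => absurd hr (by simp), ?_⟩
    rw [h1, b1_bo hB hV]
    simp
  | succ n ih =>
    intro s hs hsJ
    have h1 : s ≠ bo S := by
      intro h2
      rw [h2, hB.rk_bo] at hs
      omega
    obtain ⟨r, hr1, hr2⟩ := hC.one s h1
    have h2 : NC.rk r + NC.rk (dv r s) = NC.rk s := NC.rk_quo r s hr2
    obtain ⟨l, hl1, hl2⟩ := ih (dv r s) (by omega) (inf_le_right.trans hsJ)
    refine ⟨r :: l, ?_, ?_⟩
    · intro q hq
      rcases List.mem_cons.1 hq with rfl | hq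
      · exact ⟨hr1, hr2.trans hsJ⟩
      · exact hl1 q hq
    · rw [List.map_cons, List.prod_cons, ← hl2]
      exact (hV.mult r s hr2).symm

private theorem b1_list (hB : NC.Basic S) (hC : NC.Conn S) (hV : Gv val) {J : S} {x : G}
    (hx : x ∈ PJ val J) :
    ∃ l : List S, (∀ r ∈ l, NC.rk r = 1 ∧ r ≤ J) ∧ x = (l.map val).prod := by
  unfold PJ at hx
  induction hx using Submonoid.closure_induction with
  | mem x hx =>
    obtain ⟨s, hs, rfl⟩ := hx
    exact b1_atoms hB hC hV _ s rfl hs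
  | one => exact ⟨[], fun r hr => absurd hr (by simp), by simp⟩
  | mul x y _ _ h1 h2 =>
    obtain ⟨l1, h3, h4⟩ := h1
    obtain ⟨l2, h5, h6⟩ := h2
    refine ⟨l1 ++ l2, ?_, ?_⟩
    · intro r hr
      rcases List.mem_append.1 hr with hr | hr
      · exact h3 r hr
      · exact h5 r hr
    · rw [List.map_append, List.prod_append, ← h4, ← h6]

end

/-- Parabolic submonoids. -/
theorem sp_pJ : SpPJ := by
  intro S _ G _ _ val hB hC hV
  refine ⟨?_, ?_, ?_, ?_, ?_, ?_, ?_, ?_, ?_⟩
  · exact fun J x hx => b1_one_le hV hx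
  · exact fun J x hx s hs => (b1_hf hB hV hx s hs).1
  · exact fun J x hx y hy hyx => b1_fac hB hV (b1_all hV y hy) J x hx hyx
  · exact b1_all hV
  · exact fun J x hx => b1_conj hV hx
  · exact fun J x hx => b1_frac hB hV hx
  · exact fun J x hx hx1 => b1_pos hB hV hx hx1
  · exact fun J x hx => b1_list hB hC hV hx
  · intro J hJ1 hJ2
    refine ⟨fun h => hJ1 ?_, fun h => hJ2 ?_⟩
    · have h1 : val (⊤ : S) ∈ GJ val J := by rw [h]; exact Subgroup.mem_top _
      have h2 := b1_pos hB hV h1 (b1_one_val hV _)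
      exact top_le_iff.1 (b1_hf hB hV h2 ⊤ le_rfl).1
    · have h1 : val J ∈ GJ val J := Subgroup.subset_closure ⟨J, le_refl J, rfl⟩
      rw [h, Subgroup.mem_bot] at h1
      exact hV.inj (by rw [h1, b1_bo hB hV])

end Pool.Agent.H54.RF
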