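import Pool.Agent.H54.RF.SpecB

/-!
# Project RF (MP_35eb49), row P3: every proper parabolic subgroup is conjugate to a standard one
-/

set_option autoImplicit false

namespace Pool.Agent.H54.RF

open NC

theorem p3_frc {α : Type} (x : ℕ) (f : ℕ → α) : Ops.frc x f = f x := by
  cases x <;> rfl

theorem p3_bi {c t : Bool} (h : Ops.bi c t false = true) : c = true ∧ t = true := by
  cases c
  · exact absurd (show false = true from h) Bool.false_ne_true
  · exact ⟨rfl, h⟩

theorem p3_ba {a b : Bool} (h : Ops.ba a b = true) : a = true ∧ b = true := p3_bi h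

theorem p3_allL (f : ℕ → Bool) : ∀ l : List ℕ, Ops.allL l f = true → ∀ x ∈ l, f x = true := by
  intro l
  induction l with
  | nil => intro _ x hx; exact absurd hx List.not_mem_nil
  | cons y l ih =>
    intro h x hx
    have h1 : Ops.bi (f y) (Ops.allL l f) false = true := h
    obtain ⟨h2, h3⟩ := p3_bi h1
    rcases List.mem_cons.mp hx with rfl | hx
    · exact h2
    · exact ih h3 x hx

section

variable {S : Type} [NC S] {G : Type} [Group G]

theorem p3_conj_conj (H : Subgroup G) (x y : G) :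
    (H.map (MulAut.conj y).toMonoidHom).map (MulAut.conj x).toMonoidHom =
      H.map (MulAut.conj (x * y)).toMonoidHom := by
  rw [Subgroup.map_map]
  congr 1
  ext z
  simp [mul_assoc]

theorem p3_conj_one (H : Subgroup G) : H.map (MulAut.conj (1 : G)).toMonoidHom = H := by
  have h : (MulAut.conj (1 : G)).toMonoidHom = MonoidHom.id G := by
    ext z
    simp
  rw [h, Subgroup.map_id]

/-- `GJ J` is conjugate to `GJ c`. -/
def p3_C (val : S → G) (J c : S) : Prop :=
  ∃ y : G, GJ val J = (GJ val c).map (MulAut.conj y).toMonoidHom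

theorem p3_refl (val : S → G) (J : S) : p3_C val J J := ⟨1, (p3_conj_one _).symm⟩

theorem p3_trans {val : S → G} {J c d : S} (h : p3_C val J c) (h' : p3_C val c d) :
    p3_C val J d := by
  obtain ⟨x, hx⟩ := h
  obtain ⟨y, hy⟩ := h'
  exact ⟨x * y, by rw [hx, hy, p3_conj_conj]⟩

theorem p3_tau {val : S → G}
    (h : ∀ J : S, GJ val J = (GJ val (tau J)).map (MulAut.conj (val ⊤)).toMonoidHom) (k : ℕ)
    (J : S) : p3_C val J (tau^[k] J) := by
  induction k with
  | zero => exact p3_refl val J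
  | succ k ih =>
    refine p3_trans ih ?_
    rw [Function.iterate_succ_apply']
    exact ⟨val ⊤, h _⟩

variable {O : Ops} {reps : List ℕ} {ix : S → ℕ} {sf : ℕ → S} {na : ℕ}

theorem p3_inj (hE : Enc O reps ix sf) {s t : S} (h : ix s = ix t) : s = t := by
  rw [← hE.sf_ix s, ← hE.sf_ix t, h]

theorem p3_le (hE : Enc O reps ix sf) {s t : S} (h : O.mt (ix s) (ix t) = ix s) : s ≤ t := by
  rw [hE.mt] at h
  exact inf_eq_left.mp (p3_inj hE h)

theorem p3_mvs (hB : NC.Basic S) (hE : Enc O reps ix sf) (hN : Na ix O na) {val : S → G}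
    (h : ∀ r J J' : S, Mv r J J' → GJ val J = (GJ val J').map (MulAut.conj (val r)).toMonoidHom) :
    ∀ (mv : List ℕ), (∀ r ∈ mv, 0 < r ∧ r ≤ na) → ∀ J : S, O.mvs mv (ix J) < O.top →
      ∃ c : S, O.mvs mv (ix J) = ix c ∧ p3_C val J c := by
  intro mv
  induction mv with
  | nil => intro _ J _; exact ⟨J, rfl, p3_refl val J⟩
  | cons r l ih =>
    intro hr J hlt
    have e1 : O.mvs (r :: l) (ix J) = Bool.rec (motive := fun _ => ℕ) O.top
        (O.mvs l (O.mt (O.kk r) (O.pr (ix J) r))) (Nat.beq (O.mt r (O.kk (ix J))) r) := rfl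
    rw [e1] at hlt ⊢
    cases hb : Nat.beq (O.mt r (O.kk (ix J))) r with
    | false =>
      rw [hb] at hlt
      exact absurd hlt (lt_irrefl _)
    | true =>
      rw [hb] at hlt
      have h1 : O.mt r (O.kk (ix J)) = r := Nat.eq_of_beq_eq_true hb
      obtain ⟨hr0, hrn⟩ := hr r List.mem_cons_self
      have h2 : ix (sf r) = r := hE.ix_sf r (hrn.trans hN.1)
      have hrk : NC.rk (sf r) = 1 := (hN.2.2 (sf r)).mpr (by rw [h2]; exact ⟨hr0, hrn⟩)
      have h3 : sf r ≤ K J := by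
        refine p3_le hE ?_
        rw [← hE.kk, h2, h1]
      have h4 : K J ⊓ sf r = sf r := inf_eq_right.mpr h3
      have h5 : K J ⊓ sf r ≠ NC.bo S := by
        rw [h4]
        intro h6
        rw [h6, hB.rk_bo] at hrk
        exact absurd hrk (by decide)
      have h6 : O.mt (O.kk r) (O.pr (ix J) r) = ix (dv (sf r) (mu J (sf r))) := by
        have h7 := hE.pr J (sf r) h5
        rw [h2] at h7
        rw [h7]
        have h8 := hE.kk (sf r)
        rw [h2] at h8
        rw [h8, hE.mt]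
        unfold N1 dv
        rw [h4]
      have hlt' : O.mvs l (ix (dv (sf r) (mu J (sf r)))) < O.top := by
        rw [← h6]
        exact hlt
      obtain ⟨c, hc1, hc2⟩ := ih (fun r' hr' => hr r' (List.mem_cons_of_mem _ hr')) _ hlt'
      refine ⟨c, ?_, p3_trans ⟨val (sf r), h (sf r) J _ ⟨hrk, h3, rfl⟩⟩ hc2⟩
      show O.mvs l (O.mt (O.kk r) (O.pr (ix J) r)) = ix c
      rw [h6]
      exact hc1

theorem p3_chn (hE : Enc O reps ix sf) {n : ℕ} (a : Fin n → S) (at_ : ℕ → ℕ)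
    (ha : ∀ i : Fin n, ix (a i) = at_ i) : ∀ (s : List ℕ), (∀ i ∈ s, i < n) → ∀ c : S,
      O.chn (s.map at_) (ix c) = true → ∃ l : List (Fin n), Chain a l c := by
  intro s
  induction s with
  | nil =>
    intro _ c hc
    have h1 : Nat.beq (ix c) 0 = true := hc
    have h2 : ix c = 0 := Nat.eq_of_beq_eq_true h1
    refine ⟨[], ?_⟩
    show c = NC.bo S
    refine p3_inj hE ?_
    rw [h2, hE.bo]
  | cons i s ih =>
    intro hs c hc
    have hi : i < n := hs i List.mem_cons_self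
    have hai : at_ i = ix (a ⟨i, hi⟩) := (ha ⟨i, hi⟩).symm
    have h1 : Ops.bi (Nat.beq (O.mt (at_ i) (ix c)) (at_ i))
        (O.chn (s.map at_) (O.mt (O.kk (at_ i)) (ix c))) false = true := hc
    obtain ⟨h2, h3⟩ := p3_bi h1
    have h4 : O.mt (at_ i) (ix c) = at_ i := Nat.eq_of_beq_eq_true h2
    rw [hai] at h4 h3
    rw [hE.kk, hE.mt] at h3
    obtain ⟨l, hl⟩ := ih (fun j hj => hs j (List.mem_cons_of_mem _ hj)) _ h3
    exact ⟨⟨i, hi⟩ :: l, p3_le hE h4, hl⟩

end

theorem sp_par (h : SpMv) : SpPar := by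
  intro S _ G _ _ val O reps ix sf na hB hG hE hN n a at_ ha hck J hJ0 hJ1
  obtain ⟨hm, ht⟩ := h S G val hB hG
  obtain ⟨k, -, hk⟩ := hE.rep J hJ0 hJ1
  obtain ⟨mv, k', s, hc⟩ := hck _ hk
  unfold Ops.ckX at hc
  obtain ⟨c1, hc⟩ := p3_ba hc
  obtain ⟨c2, hc⟩ := p3_ba hc
  obtain ⟨c3, hc⟩ := p3_ba hc
  rw [p3_frc] at hc
  obtain ⟨c4, c5⟩ := p3_ba hc
  have d1 : ∀ r ∈ mv, 0 < r ∧ r ≤ na := by
    intro r hr
    obtain ⟨e1, e2⟩ := p3_ba (p3_allL _ mv c1 r hr)
    exact ⟨Nat.le_of_ble_eq_true e1, Nat.le_of_ble_eq_true e2⟩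
  have d2 : k' < O.h := Nat.le_of_ble_eq_true c2
  have d3 : ∀ i ∈ s, i < n := fun i hi => Nat.le_of_ble_eq_true (p3_allL _ s c3 i hi)
  have d4 : O.mvs mv (ix (tau^[k] J)) < O.top := Nat.le_of_ble_eq_true c4
  obtain ⟨c, e1, e2⟩ := p3_mvs hB hE hN hm mv d1 _ d4
  rw [e1, hE.tt k' c d2] at c5
  obtain ⟨l, hl⟩ := p3_chn hE a at_ ha s d3 _ c5
  obtain ⟨y, hy⟩ := p3_trans (p3_trans (p3_tau ht k J) e2) (p3_tau ht k' c)
  exact ⟨l, tau^[k'] c, y, hl, hy⟩

end Pool.Agent.H54.RF
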