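import Pool.Agent.H54.RF.SpecB
import Pool.Agent.H54.RF.NCB

/-!
# Project RF (MP_35eb49): an element with proper support from a line
-/

set_option autoImplicit false

namespace Pool.Agent.H54.RF

open NC

private theorem b6_dd (d : Fin 3) : d + 1 + 2 = d := by
  revert d
  decide

private theorem b6_tel {G : Type} [Group G] (y : ℕ → G) (M : ℕ) :
    ((List.range M).map fun n => (y n)⁻¹ * y (n + 1)).prod = (y 0)⁻¹ * y M := by
  induction M with
  | zero => simp
  | succ M ih =>
    rw [List.range_succ, List.map_append, List.prod_append, ih]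
    simp [mul_assoc]

section

variable {S : Type} [NC S]

private theorem b6_join (hb : NC.Basic S) (l : List S) : ∃ J : S, Jn l J := by
  induction l with
  | nil => exact ⟨bo S, fun r hr => absurd hr List.not_mem_nil, fun J' _ => hb.bo_le J'⟩
  | cons a l ih =>
    obtain ⟨J0, h1, h2⟩ := ih
    obtain ⟨j, h3, h4, h5⟩ := hb.sup a J0
    refine ⟨j, fun r hr => ?_, fun J' hJ => ?_⟩
    · rcases List.mem_cons.1 hr with h | h
      · rw [h]
        exact h3
      · exact (h1 r h).trans h4
    · exact h5 J' (hJ a (List.mem_cons_self ..))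
        (h2 J' fun r hr => hJ r (List.mem_cons_of_mem _ hr))

private theorem b6_tau_le (hb : NC.Basic S) (k : ℕ) {s t : S} (h : s ≤ t) :
    tau^[k] s ≤ tau^[k] t := by
  induction k with
  | zero => exact h
  | succ k ih =>
    rw [Function.iterate_succ_apply', Function.iterate_succ_apply']
    exact (hb.tau_le _ _).2 ih

private theorem b6_per (hb : NC.Basic S) (j : ℕ) (s : S) : tau^[per S * j] s = s := by
  induction j with
  | zero => rfl
  | succ j ih => rw [Nat.mul_succ, Function.iterate_add_apply, hb.per_tau, ih]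

private theorem b6_F {F : (Fin 3 → ℤ) → Fin 3 → S} {D : ℕ} (hF : Fl F D) (v : Fin 3 → ℤ)
    (d : Fin 3) (k : ℕ) : F (v + (k : ℤ) • 1) d = tau^[k] (F v d) := by
  induction k with
  | zero => simp
  | succ k ih =>
    have h1 : v + ((k + 1 : ℕ) : ℤ) • (1 : Fin 3 → ℤ) = v + (k : ℤ) • 1 + 1 := by
      rw [Nat.cast_add, Nat.cast_one, add_smul, one_smul, add_assoc]
    rw [h1, hF.diag, ih, Function.iterate_succ_apply']

/-- the end of the proof: the join of a list below a proper element -/
private theorem b6_fin (hb : NC.Basic S) (l : List S) (w : S) (hw : w ≠ ⊤)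
    (hl : ∀ r ∈ l, r ≤ w) (a : S) (ha : a ∈ l) (ha0 : a ≠ bo S) :
    ∃ J : S, J ≠ ⊤ ∧ J ≠ bo S ∧ Jn l J := by
  obtain ⟨J, hJ⟩ := b6_join hb l
  have h1 : J ≤ w := hJ.2 w hl
  refine ⟨J, fun h => ?_, fun h => ?_, hJ⟩
  · rw [h] at h1
    exact hw (top_le_iff.1 h1)
  · have h2 := hJ.1 a ha
    rw [h] at h2
    exact ha0 (le_antisymm h2 (hb.bo_le a))

end

section

variable {G : Type} [Group G] [Gar G]

private theorem b6_Y {Y : (Fin 3 → ℤ) → G} {D : ℕ} {Z : Fin 3 → G} (hY : Gar.Flat3 Y D Z)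
    (v : Fin 3 → ℤ) (k : ℕ) : Y (v + (k : ℤ) • 1) = Y v * Gar.δ ^ k := by
  induction k with
  | zero => simp
  | succ k ih =>
    have h1 : v + ((k + 1 : ℕ) : ℤ) • (1 : Fin 3 → ℤ) = v + (k : ℤ) • 1 + 1 := by
      rw [Nat.cast_add, Nat.cast_one, add_smul, one_smul, add_assoc]
    rw [h1, hY.diag, ih, pow_succ, mul_assoc]

private theorem b6_Z {Y : (Fin 3 → ℤ) → G} {D : ℕ} {Z : Fin 3 → G} (hY : Gar.Flat3 Y D Z)
    (v : Fin 3 → ℤ) (d : Fin 3) (q : ℕ) : Y (v + ((D * q : ℕ) : ℤ) • e d) = Z d ^ q * Y v := by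
  induction q with
  | zero => simp
  | succ q ih =>
    have h1 : v + ((D * (q + 1) : ℕ) : ℤ) • e d = v + ((D * q : ℕ) : ℤ) • e d + (D : ℤ) • e d := by
      rw [Nat.mul_succ, Nat.cast_add, add_smul, add_assoc]
    rw [h1, hY.per, ih, pow_succ', mul_assoc]

private theorem b6_central (q : ℕ) (x : G) :
    Commute ((Gar.δ : G) ^ (ord G * q)) x := by
  have h : Commute (Gar.δ ^ (ord G) : G) x := Gar.central x
  rw [pow_mul]
  exact h.pow_left q

private theorem b6_conj {u x : G} (y : G) (h : Commute u x) :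
    Commute (y⁻¹ * u * y) (y⁻¹ * x * y) := by
  have h1 : y⁻¹ * u * y * (y⁻¹ * x * y) = y⁻¹ * (u * x) * y := by group
  have h2 : y⁻¹ * x * y * (y⁻¹ * u * y) = y⁻¹ * (x * u) * y := by group
  show y⁻¹ * u * y * (y⁻¹ * x * y) = y⁻¹ * x * y * (y⁻¹ * u * y)
  rw [h1, h2, h.eq]

end

theorem sp_rowJ : SpRowJ := by
  intro S _ G _ _ val hb _ _ Y D Z hY F hF hvF hvA v d w hw hcase
  rcases hcase with h | h
  · -- the line consists of steps
    set l : List S := (List.range D).map fun n : ℕ => aa F (v + (n : ℤ) • e d) d with hl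
    have hl1 : ∀ r ∈ l, r ≤ w := by
      intro r hr
      rw [hl] at hr
      obtain ⟨n, -, rfl⟩ := List.mem_map.1 hr
      exact h n
    have hl2 : aa F (v + ((0 : ℕ) : ℤ) • e d) d ∈ l := by
      rw [hl]
      exact List.mem_map.2 ⟨0, List.mem_range.2 hY.pos, rfl⟩
    obtain ⟨J, hJ1, hJ2, hJ3⟩ := b6_fin hb l w hw hl1 _ hl2 (hF.st_ne _ _)
    refine ⟨v, l, J, hJ1, hJ2, hJ3, fun u hu => ?_⟩
    have hp : (l.map val).prod = (Y v)⁻¹ * Z d * Y v := by
      have h1 : l.map val = (List.range D).map fun n : ℕ =>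
          ((fun n : ℕ => Y (v + (n : ℤ) • e d)) n)⁻¹ *
            (fun n : ℕ => Y (v + (n : ℤ) • e d)) (n + 1) := by
        rw [hl, List.map_map]
        refine List.map_congr_left fun n _ => ?_
        show val (aa F (v + (n : ℤ) • e d) d) = (Y (v + (n : ℤ) • e d))⁻¹ *
          Y (v + ((n + 1 : ℕ) : ℤ) • e d)
        rw [hvA, Nat.cast_add, Nat.cast_one, add_smul, one_smul, add_assoc]
      rw [h1, b6_tel]
      show (Y (v + ((0 : ℕ) : ℤ) • e d))⁻¹ * Y (v + (D : ℤ) • e d) = _
      rw [hY.per, Nat.cast_zero, zero_smul, add_zero, mul_assoc]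
    rw [hp]
    exact b6_conj (Y v) hu
  · -- the line consists of products of steps
    set q : ℕ := ord G * per S with hq
    set M : ℕ := D * q with hM
    have hq0 : 0 < q := Nat.mul_pos Gar.ord_pos hb.per_pos
    have hM0 : 0 < M := Nat.mul_pos hY.pos hq0
    set v' : Fin 3 → ℤ := v + (M : ℤ) • e d with hv'
    set x : ℕ → Fin 3 → ℤ := fun k => v' + (k : ℤ) • (1 - e d) with hx
    have hxs : ∀ k, x (k + 1) = x k + 1 - e d := by
      intro k
      simp only [hx]
      rw [Nat.cast_add, Nat.cast_one, add_smul, one_smul]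
      abel
    set l : List S := (List.range M).map fun k : ℕ => F (x k) d with hl
    have hl1 : ∀ r ∈ l, r ≤ w := by
      intro r hr
      rw [hl] at hr
      obtain ⟨k, hk, rfl⟩ := List.mem_map.1 hr
      have hk1 : k < M := List.mem_range.1 hk
      have h1 : x k = v + ((M - k : ℕ) : ℤ) • e d + (k : ℤ) • 1 := by
        simp only [hx, hv']
        rw [Nat.cast_sub hk1.le, sub_smul, smul_sub]
        abel
      rw [h1, b6_F hF]
      refine (b6_tau_le hb k (h (M - k))).trans (le_of_eq ?_)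
      rw [← Function.iterate_add_apply, Nat.add_sub_cancel' hk1.le]
      have h2 : M = per S * (D * ord G) := by
        rw [hM, hq]
        ring
      rw [h2]
      exact b6_per hb _ w
    have hl2 : F (x 0) d ∈ l := by
      rw [hl]
      exact List.mem_map.2 ⟨0, List.mem_range.2 hM0, rfl⟩
    have hl3 : F (x 0) d ≠ bo S := by
      intro h0
      have h1 : aa F (x 0) (d + 1) ≤ F (x 0) d := by
        unfold aa
        rw [b6_dd d]
        exact inf_le_right
      rw [h0] at h1
      exact hF.st_ne _ _ (le_antisymm h1 (hb.bo_le _))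
    obtain ⟨J, hJ1, hJ2, hJ3⟩ := b6_fin hb l w hw hl1 _ hl2 hl3
    refine ⟨v', l, J, hJ1, hJ2, hJ3, fun u hu => ?_⟩
    have hp : (l.map val).prod = (Y v')⁻¹ * (Z d ^ q)⁻¹ * Y v' * Gar.δ ^ M := by
      have h1 : l.map val = (List.range M).map fun n : ℕ =>
          ((fun n : ℕ => Y (x n)) n)⁻¹ * (fun n : ℕ => Y (x n)) (n + 1) := by
        rw [hl, List.map_map]
        refine List.map_congr_left fun n _ => ?_
        show val (F (x n) d) = (Y (x n))⁻¹ * Y (x (n + 1))
        rw [hvF, hxs]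
      have h2 : x 0 = v' := by
        simp only [hx]
        rw [Nat.cast_zero, zero_smul, add_zero]
      have h3 : x M = v + (M : ℤ) • 1 := by
        simp only [hx, hv']
        rw [smul_sub]
        abel
      have h4 : Y v' = Z d ^ q * Y v := by
        rw [hv', hM]
        exact b6_Z hY v d q
      have h5 : Y v = (Z d ^ q)⁻¹ * Y v' := by
        rw [h4, inv_mul_cancel_left]
      rw [h1, b6_tel]
      show (Y (x 0))⁻¹ * Y (x M) = _
      rw [h2, h3, b6_Y hY, h5, mul_assoc, mul_assoc, mul_assoc]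
    rw [hp]
    have hc : Commute ((Gar.δ : G) ^ M) ((Y v')⁻¹ * u * Y v') := by
      have h6 : M = ord G * (D * per S) := by
        rw [hM, hq]
        ring
      rw [h6]
      exact b6_central _ _
    exact (b6_conj (Y v') ((hu.pow_right q).inv_right)).mul_right hc.symm

end Pool.Agent.H54.RF
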