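import Pool.Agent.H54.RF.SpecB

/-!
# Project RF (MP_35eb49), row P2: the parabolic subgroup of a product of generators
-/

set_option autoImplicit false

namespace Pool.Agent.H54.RF

open NC

section

variable {S : Type} [NC S] {G : Type} [Group G] {val : S → G} (H : Subgroup G)

/-- all atoms below `p` lie in `H` -/
def p2_full (val : S → G) (p : S) : Prop := ∀ t : S, NC.rk t = 1 → t ≤ p → val t ∈ H

variable {H}

theorem p2_mono {p q : S} (h : p ≤ q) (hq : p2_full H val q) : p2_full H val p :=
  fun t ht htp => hq t ht (htp.trans h)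

theorem p2_bo (hB : NC.Basic S) (hM : Mult val) : val (bo S) = 1 := by
  have h1 := hM (bo S) (bo S) le_rfl
  rw [hB.dv_self] at h1
  exact mul_eq_left.1 h1

theorem p2_rk {s m : S} (h : s ≤ m) : NC.rk s + NC.rk (dv s m) = NC.rk m := NC.rk_quo s m h

theorem p2_all (hB : NC.Basic S) (hC : NC.Conn S) (hM : Mult val) {p : S}
    (hp : p2_full H val p) : ∀ s : S, s ≤ p → val s ∈ H := by
  have key : ∀ N : ℕ, ∀ s : S, NC.rk s = N → s ≤ p → val s ∈ H := by
    intro N
    induction N using Nat.strong_induction_on with
    | _ N ih =>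
      intro s hs hsp
      by_cases hsb : s = bo S
      · rw [hsb, p2_bo hB hM]
        exact H.one_mem
      · obtain ⟨r, hr, hrs⟩ := hC.one s hsb
        have h1 := p2_rk hrs
        have h2 := ih (NC.rk (dv r s)) (by omega) (dv r s) rfl
          (le_trans (inf_le_right : dv r s ≤ s) hsp)
        rw [← hM r s hrs]
        exact H.mul_mem (hp r hr (hrs.trans hsp)) h2
  exact fun s => key _ s rfl

theorem p2_eq (hB : NC.Basic S) {r j : S} (h : r ≤ j) (h1 : NC.rk j ≤ NC.rk r) : r = j := by
  by_contra hne
  have := hB.rk_lt (lt_of_le_of_ne h hne)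
  omega

theorem p2_claim (hB : NC.Basic S) (hC : NC.Conn S) (hM : Mult val) :
    ∀ (n : ℕ) (j r : S), NC.rk j = n → NC.rk r = 1 → r ≤ j → val r ∈ H →
      p2_full H val (dv r j) → p2_full H val j := by
  intro n
  induction n using Nat.strong_induction_on with
  | _ n ih =>
    intro j r hj hr hrj hrH hfull t ht htj
    have hrk := p2_rk hrj
    by_cases h3 : 3 ≤ n
    · obtain ⟨t', ht', htj', ⟨j1, h11, h12, h13⟩, j2, h21, h22, h23⟩ :=
        hC.three j (by omega) r t hr ht hrj htj
      have hj1 : NC.rk j1 < n := by
        have := hB.rk_lt h13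
        omega
      have hj2 : NC.rk j2 < n := by
        have := hB.rk_lt h23
        omega
      have hf1 : p2_full H val j1 := ih _ hj1 j1 r rfl hr h11 hrH
        (p2_mono ((hB.dv_le_iff h11 hrj).2 h13.le) hfull)
      have htH : val t' ∈ H := hf1 t' ht' h12
      -- products of full elements
      have hG : ∀ (N : ℕ) (p1 p : S), NC.rk p1 = N → p1 ≤ p → NC.rk p < n →
          p2_full H val p1 → p2_full H val (dv p1 p) → p2_full H val p := by
        intro N
        induction N using Nat.strong_induction_on with
        | _ N ihN =>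
          intro p1 p hp1 hpp hp hf hd
          by_cases hb : p1 = bo S
          · rw [hb, hB.dv_bo] at hd
            exact hd
          · obtain ⟨r1, hr1, hr1p⟩ := hC.one p1 hb
            have e1 := p2_rk hr1p
            have e2 := p2_rk (hr1p.trans hpp)
            refine ih _ hp p r1 rfl hr1 (hr1p.trans hpp) (hf r1 hr1 hr1p) ?_
            refine ihN _ (by omega) (dv r1 p1) (dv r1 p) rfl
              ((hB.dv_le_iff hr1p (hr1p.trans hpp)).2 hpp) (by omega)
              (p2_mono inf_le_right hf) ?_
            rw [hB.dv_dv hr1p hpp]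
            exact hd
      have hk : p2_full H val (dv j1 j) := by
        rw [← hB.dv_dv h11 h13.le]
        exact p2_mono inf_le_right hfull
      have htr := p2_rk htj'
      have hp : p2_full H val (dv t' j) := by
        refine hG _ (dv t' j1) (dv t' j) rfl ((hB.dv_le_iff h12 htj').2 h13.le) (by omega)
          (p2_mono inf_le_right hf1) ?_
        rw [hB.dv_dv h12 h13.le]
        exact hk
      have hf2 : p2_full H val j2 := ih _ hj2 j2 t' rfl ht' h22 htH
        (p2_mono ((hB.dv_le_iff h22 htj').2 h23.le) hp)
      exact hf2 t ht h21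
    · by_cases h2 : n = 2
      · have hd : NC.rk (dv r j) = 1 := by omega
        have hdH : val (dv r j) ∈ H := hfull _ hd le_rfl
        have hjH : val j ∈ H := by
          rw [← hM r j hrj]
          exact H.mul_mem hrH hdH
        obtain ⟨k, hk⟩ := hC.two j (by omega) r t hr ht hrj htj
        have hit : ∀ k : ℕ, (fun x => dv x j)^[k] r ≤ j ∧ val ((fun x => dv x j)^[k] r) ∈ H := by
          intro k
          induction k with
          | zero => exact ⟨hrj, hrH⟩
          | succ k ihk =>
            rw [Function.iterate_succ_apply']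
            refine ⟨inf_le_right, ?_⟩
            have e1 := hM _ j ihk.1
            have e2 : val (dv ((fun x => dv x j)^[k] r) j) =
                (val ((fun x => dv x j)^[k] r))⁻¹ * val j := by
              rw [← e1, inv_mul_cancel_left]
            show val (dv ((fun x => dv x j)^[k] r) j) ∈ H
            rw [e2]
            exact H.mul_mem (H.inv_mem ihk.2) hjH
        have h4 := (hit k).2
        rwa [hk] at h4
      · have h5 : r = j := p2_eq hB hrj (by omega)
        have h6 : t = j := p2_eq hB htj (by omega)
        rw [h6, ← h5]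
        exact hrH

theorem p2_chain (hB : NC.Basic S) (hC : NC.Conn S) (hM : Mult val) {n : ℕ} (a : Fin n → S)
    (ha : ∀ i, NC.rk (a i) = 1) : ∀ (l : List (Fin n)) (c : S), Chain a l c →
      (∀ i ∈ l, val (a i) ∈ H) → p2_full H val c := by
  intro l
  induction l with
  | nil =>
    intro c hc _ t ht htc
    have h1 : c = bo S := hc
    have h2 := hB.rk_le htc
    rw [h1, hB.rk_bo] at h2
    omega
  | cons i l ih =>
    intro c hc hl
    obtain ⟨h1, h2⟩ : a i ≤ c ∧ Chain a l (dv (a i) c) := hc
    exact p2_claim hB hC hM _ c (a i) rfl (ha i) h1 (hl i List.mem_cons_self)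
      (ih _ h2 fun j hj => hl j (List.mem_cons_of_mem _ hj))

theorem p2_le {n : ℕ} (a : Fin n → S) : ∀ (l : List (Fin n)) (c : S), Chain a l c →
    ∀ i ∈ l, a i ≤ c := by
  intro l
  induction l with
  | nil =>
    intro c _ i hi
    exact absurd hi List.not_mem_nil
  | cons j l ih =>
    intro c hc i hi
    obtain ⟨h1, h2⟩ : a j ≤ c ∧ Chain a l (dv (a j) c) := hc
    rcases List.mem_cons.1 hi with h3 | h3
    · rw [h3]
      exact h1
    · exact (ih _ h2 i h3).trans inf_le_right

end

/-- Row P2. -/
theorem sp_std : SpStd := by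
  intro S _ G _ _ val hB hC hV n a ha l c hc
  apply le_antisymm
  · unfold GJ
    rw [Subgroup.closure_le]
    rintro _ ⟨s, hs, rfl⟩
    have hf : p2_full (Subgroup.closure (val '' (a '' {i | i ∈ l}))) val c :=
      p2_chain hB hC hV.mult a ha l c hc fun i hi =>
        Subgroup.subset_closure ⟨a i, ⟨i, hi, rfl⟩, rfl⟩
    exact p2_all hB hC hV.mult hf s hs
  · apply Subgroup.closure_mono
    rintro _ ⟨_, ⟨i, hi, rfl⟩, rfl⟩
    exact ⟨a i, p2_le a l c hc i hi, rfl⟩

end Pool.Agent.H54.RF
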