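import Pool.Agent.H54.RF.SpecB

/-!
# Project RF (MP_35eb49): conjugation of the support by a minimal element
-/

set_option autoImplicit false
set_option linter.unusedSectionVars false

namespace Pool.Agent.H54.RF

open NC

section

variable {S : Type} [NC S] {G : Type} [Group G] [Gar G] {val : S → G}

theorem b4_bo (hB : NC.Basic S) (hv : Gv val) : val (bo S) = 1 := by
  have h := hv.mult (bo S) (bo S) le_rfl
  rw [hB.dv_self] at h
  exact mul_eq_left.1 h

theorem b4_one_le (hv : Gv val) (s : S) : (1 : G) ≤ val s := ((hv.simple (val s)).2 ⟨s, rfl⟩).1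

theorem b4_mul {x y : G} (hx : (1 : G) ≤ x) (hy : (1 : G) ≤ y) : (1 : G) ≤ x * y :=
  Gar.one_le_iff.2 (mul_mem (Gar.one_le_iff.1 hx) (Gar.one_le_iff.1 hy))

theorem b4_le_iff {x y : G} : x ≤ y ↔ (1 : G) ≤ x⁻¹ * y := by
  rw [Gar.one_le_iff, Gar.le_def]

theorem b4_conj_iff {x y : G} : y ≤ x * y ↔ (1 : G) ≤ y⁻¹ * x * y := by
  rw [b4_le_iff, mul_assoc]

theorem b4_PJ (J s : S) (h : s ≤ J) : val s ∈ PJ val J :=
  Submonoid.subset_closure ⟨s, h, rfl⟩

theorem b4_GJ (J s : S) (h : s ≤ J) : val s ∈ GJ val J :=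
  Subgroup.subset_closure ⟨s, h, rfl⟩

theorem b4_PG (J : S) (x : G) (h : x ∈ PJ val J) : x ∈ GJ val J := by
  have h1 : PJ val J ≤ (GJ val J).toSubmonoid := by
    unfold PJ
    rw [Submonoid.closure_le]
    exact Subgroup.subset_closure
  exact h1 h

/-- If conjugation by `g` maps the generators to `PJ J2`, it maps `PJ J` to `PJ J2`. -/
theorem b4_conjP (J J2 : S) (g : G) (h : ∀ s, s ≤ J → g⁻¹ * val s * g ∈ PJ val J2) (x : G)
    (hx : x ∈ PJ val J) : g⁻¹ * x * g ∈ PJ val J2 := by
  unfold PJ at hx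
  induction hx using Submonoid.closure_induction with
  | mem x hx =>
    obtain ⟨s, hs, rfl⟩ := hx
    exact h s hs
  | one =>
    rw [mul_one, inv_mul_cancel]
    exact one_mem _
  | mul x y _ _ hx hy =>
    have e : g⁻¹ * (x * y) * g = (g⁻¹ * x * g) * (g⁻¹ * y * g) := by group
    rw [e]
    exact mul_mem hx hy

/-- If conjugation by `g` maps the generators to `GJ J2`, it maps `GJ J` to `GJ J2`. -/
theorem b4_conjG (J J2 : S) (g : G) (h : ∀ s, s ≤ J → g⁻¹ * val s * g ∈ GJ val J2) (x : G)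
    (hx : x ∈ GJ val J) : g⁻¹ * x * g ∈ GJ val J2 := by
  unfold GJ at hx
  induction hx using Subgroup.closure_induction with
  | mem x hx =>
    obtain ⟨s, hs, rfl⟩ := hx
    exact h s hs
  | one =>
    rw [mul_one, inv_mul_cancel]
    exact one_mem _
  | mul x y _ _ hx hy =>
    have e : g⁻¹ * (x * y) * g = (g⁻¹ * x * g) * (g⁻¹ * y * g) := by group
    rw [e]
    exact mul_mem hx hy
  | inv x _ hx =>
    have e : g⁻¹ * x⁻¹ * g = (g⁻¹ * x * g)⁻¹ := by group
    rw [e]
    exact inv_mem hx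

theorem b4_eq_of_rk (hB : NC.Basic S) {s t : S} (h : s ≤ t) (hr : NC.rk s = NC.rk t) : s = t := by
  by_contra hne
  have := hB.rk_lt (lt_of_le_of_ne h hne)
  omega

end

theorem sp_step (hW : SpWk) : SpStep := by
  intro S _ G _ _ val hB hC hv hP hS hK x J c J' hx hsu hc hcx hmin hJ'
  have hJx : val J ≤ x * val J := b4_conj_iff.2 (hP.one_le J _ (hP.conj J x hsu.1))
  have hcJ : val (c ⊓ J) ≤ x * val (c ⊓ J) := by
    rw [hv.inf, Gar.mul_inf']
    exact inf_le_inf hcx hJx
  have hx' : (1 : G) ≤ (val c)⁻¹ * x * val c := b4_conj_iff.1 hcx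
  rcases hmin (c ⊓ J) inf_le_left hcJ with h0 | h0
  · -- `c ⊓ J = bo`
    obtain ⟨l, hl, hxl⟩ := hP.list J x hsu.1
    have hjn : Jn l J := hS.jn l J (hxl ▸ hsu)
    obtain ⟨d, hd, hd'⟩ := hW S G val hB hv l c
    rw [← hxl] at hd'
    have hdc : d ≤ c := (hv.le d c).1 ((hd' (val c) (b4_one_le hv c)).1 hcx)
    have hcd : val c ≤ x * val d := (hd' (val d) (b4_one_le hv d)).2 le_rfl
    have hdd : val d ≤ x * val d := ((hv.le d c).2 hdc).trans hcd
    have hdc2 : d = c := by
      rcases hmin d hdc hdd with h1 | h1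
      · exfalso
        have h2 : val c ≤ x * 1 := (hd' 1 le_rfl).2 (by rw [h1, b4_bo hB hv])
        rw [mul_one] at h2
        have h3 := hP.head J x hsu.1 c h2
        rw [inf_eq_left.2 h3] at h0
        exact hc h0
      · exact h1
    rw [hdc2] at hd
    obtain ⟨hcK, hT⟩ := hK J c l hc h0 (fun r hr => (hl r hr).1) hjn hd
    -- every element of `PJ J` does not decrease under conjugation by `c`
    have hr : ∀ r, NC.rk r = 1 → r ≤ J → val c ≤ val r * val c := by
      intro r hr1 hrJ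
      obtain ⟨d1, hd1, hd2⟩ := hW S G val hB hv [r] c
      have h1 : d1 ≤ c := by
        cases hd1 with
        | cons h h' =>
          cases h' with
          | nil => exact hT r hr1 hrJ _ h
      have h2 := (hd2 (val c) (b4_one_le hv c)).2 ((hv.le d1 c).2 h1)
      simpa using h2
    have hp : ∀ p ∈ PJ val J, val c ≤ p * val c := by
      intro p hp
      obtain ⟨l', hl', rfl⟩ := hP.list J p hp
      clear hp
      induction l' with
      | nil => simp
      | cons r l' ih =>
        have h1 := ih fun r' hr' => hl' r' (List.mem_cons_of_mem _ hr')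
        have h2 := hr r (hl' r List.mem_cons_self).1 (hl' r List.mem_cons_self).2
        rw [List.map_cons, List.prod_cons, mul_assoc]
        exact h2.trans ((Gar.mul_le_mul_iff (val r)).2 h1)
    obtain ⟨hm1, hm2⟩ := hB.mu_spec hcK
    set m := mu J c with hm
    have hvm : val m = val J * val c := by
      have h1 := hv.mult J m hm1
      rw [hm2] at h1
      exact h1.symm
    have hcm : c ≤ m := by
      rw [← hv.le, hvm]
      exact hp (val J) (b4_PJ J J le_rfl)
    have hJ2 : val (dv c m) = (val c)⁻¹ * val J * val c := by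
      have h1 := hv.mult c m hcm
      rw [hvm] at h1
      rw [mul_assoc, ← h1, inv_mul_cancel_left]
    have hrk : NC.rk (dv c m) = NC.rk J := by
      have h1 := hv.len (dv c m)
      rw [hJ2, Gar.len_mul, Gar.len_mul, Gar.len_inv] at h1
      have h2 := hv.len J
      rw [h2] at h1
      have h3 : ((NC.rk J : ℕ) : ℤ) = ((NC.rk (dv c m) : ℕ) : ℤ) := by linarith
      exact_mod_cast h3.symm
    have hgen : ∀ s, s ≤ J → (val c)⁻¹ * val s * val c ∈ PJ val (dv c m) := by
      intro s hs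
      have h1 : val s * val (dv s J) = val J := hv.mult s J hs
      have h2 : val (dv s J) ∈ PJ val J := b4_PJ J _ inf_le_right
      have h3 : (1 : G) ≤ (val c)⁻¹ * val s * val c := b4_conj_iff.1 (hp _ (b4_PJ J s hs))
      have h4 : (1 : G) ≤ (val c)⁻¹ * val (dv s J) * val c := b4_conj_iff.1 (hp _ h2)
      have h5 : (val c)⁻¹ * val s * val c ≤ val (dv c m) := by
        rw [b4_le_iff, hJ2, ← h1]
        have e : ((val c)⁻¹ * val s * val c)⁻¹ * ((val c)⁻¹ * (val s * val (dv s J)) * val c) =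
            (val c)⁻¹ * val (dv s J) * val c := by group
        rw [e]
        exact h4
      have h6 : val (dv c m) ≤ Gar.δ := ((hv.simple _).2 ⟨_, rfl⟩).2
      obtain ⟨s2, hs2⟩ := (hv.simple _).1 ⟨h3, h5.trans h6⟩
      rw [hs2] at h5 ⊢
      exact b4_PJ _ _ ((hv.le _ _).1 h5)
    have hxP : (val c)⁻¹ * x * val c ∈ PJ val (dv c m) := b4_conjP J _ _ hgen x hsu.1
    have hle : J' ≤ dv c m := hJ'.2 _ hxP
    have hle2 := hB.rk_le hle
    refine ⟨by omega, fun he y hy => ?_⟩
    have he2 : J' = dv c m := b4_eq_of_rk hB hle (by omega)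
    rw [he2]
    exact b4_conjG J _ _ (fun s hs => b4_PG _ _ (hgen s hs)) y hy
  · -- `c ≤ J`
    have hcJ2 : c ≤ J := inf_eq_left.1 h0
    have hcG : val c ∈ GJ val J := b4_GJ J c hcJ2
    have hconj : ∀ y ∈ GJ val J, (val c)⁻¹ * y * val c ∈ GJ val J := fun y hy =>
      mul_mem (mul_mem (inv_mem hcG) hy) hcG
    have h1 := hP.pos J _ (hconj x (b4_PG J x hsu.1)) hx'
    have h2 : J' ≤ J := hJ'.2 J h1
    refine ⟨hB.rk_le h2, fun he y hy => ?_⟩
    rw [b4_eq_of_rk hB h2 he]
    exact hconj y hy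

end Pool.Agent.H54.RF
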