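import Pool.Agent.H54.RF.SpecB

/-!
# Project RF (MP_35eb49), row B2: supports
-/

set_option autoImplicit false

namespace Pool.Agent.H54.RF

open NC

section

variable {S : Type} [NC S] {G : Type} [Group G] [Gar G] {val : S → G}

theorem b2_jn (hb : NC.Basic S) (l : List S) : ∃ J, Jn l J := by
  induction l with
  | nil => exact ⟨bo S, by simp, fun J' _ => hb.bo_le J'⟩
  | cons r l ih =>
    obtain ⟨J, h1, h2⟩ := ih
    obtain ⟨j, h3, h4, h5⟩ := hb.sup r J
    refine ⟨j, fun t ht => ?_, fun J' hJ' => ?_⟩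
    · rcases List.mem_cons.1 ht with h | h
      · rw [h]
        exact h3
      · exact (h1 t h).trans h4
    · exact h5 J' (hJ' r List.mem_cons_self) (h2 J' fun t ht => hJ' t (List.mem_cons_of_mem _ ht))

theorem b2_mem {J : S} {l : List S} (h : ∀ r ∈ l, r ≤ J) : (l.map val).prod ∈ PJ val J := by
  refine Submonoid.list_prod_mem _ fun x hx => ?_
  obtain ⟨r, hr, rfl⟩ := List.mem_map.1 hx
  exact Submonoid.subset_closure ⟨r, h r hr, rfl⟩

theorem b2_one (hP : PJt val) (l : List S) : 1 ≤ (l.map val).prod :=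
  hP.one_le ⊤ _ (b2_mem fun _ _ => le_top)

theorem b2_le (hv : Gv val) (hP : PJt val) {J : S} (l : List S)
    (h : (l.map val).prod ∈ PJ val J) : ∀ r ∈ l, r ≤ J := by
  induction l with
  | nil => simp
  | cons r l ih =>
    rw [List.map_cons, List.prod_cons] at h
    have h0 : 1 ≤ val r := ((hv.simple (val r)).2 ⟨r, rfl⟩).1
    have h1 : val r ≤ val r * (l.map val).prod := by
      have := (Gar.mul_le_mul_iff (val r)).2 (b2_one hP l)
      rwa [mul_one] at this
    have h2 := (hP.fac J _ h (val r) h0 h1).2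
    rw [inv_mul_cancel_left] at h2
    intro t ht
    rcases List.mem_cons.1 ht with h3 | h3
    · rw [h3]
      exact hP.head J _ h r h1
    · exact ih h2 t h3

end

/-- Row B2. -/
theorem sp_su : SpSu := by
  intro S _ G _ _ val hb _ hv hP
  have hprod : ∀ (l : List S) (J : S), Jn l J → Su val (l.map val).prod J := fun l J h =>
    ⟨b2_mem h.1, fun J' hJ' => h.2 J' (b2_le hv hP l hJ')⟩
  refine ⟨fun x hx => ?_, hprod, fun l J h => ⟨b2_le hv hP l h.1, fun J' hJ' =>
    h.2 J' (b2_mem hJ')⟩⟩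
  obtain ⟨l, -, rfl⟩ := hP.list ⊤ x (hP.all x hx)
  obtain ⟨J, hJ⟩ := b2_jn hb l
  exact ⟨J, hprod l J hJ⟩

end Pool.Agent.H54.RF
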