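import Pool.Agent.H54.RF.SpecD

/-!
# Project RF (MP_35eb49): the potentials are constant
-/

set_option autoImplicit false

namespace Pool.Agent.H54.RF

open NC

private theorem d4_frc {α : Type} (x : ℕ) (f : ℕ → α) : Ops.frc x f = f x := by
  cases x <;> rfl

private theorem d4_bi_neg {c t e : Bool} (hc : c = false) : Ops.bi c t e = e := by
  subst hc; rfl

private theorem d4_bi_pos {c t e : Bool} (hc : c = true) : Ops.bi c t e = t := by
  subst hc; rfl

private theorem d4_allR {n : ℕ} {f : ℕ → Bool} (h : Ops.allR n f = true) :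
    ∀ k < n, f k = true := by
  induction n with
  | zero => intro k hk; omega
  | succ n ih =>
    have h' : Ops.bi (f n) (Ops.allR n f) false = true := h
    have hf : f n = true := by
      cases hfn : f n with
      | true => rfl
      | false => rw [d4_bi_neg hfn] at h'; exact absurd h' (by decide)
    rw [d4_bi_pos hf] at h'
    intro k hk
    rcases Nat.lt_succ_iff_lt_or_eq.1 hk with hk | rfl
    · exact ih h' k hk
    · exact hf

private theorem d4_allL {l : List ℕ} {f : ℕ → Bool} (h : Ops.allL l f = true) :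
    ∀ x ∈ l, f x = true := by
  induction l with
  | nil => intro x hx; exact absurd hx (by simp)
  | cons a l ih =>
    have h' : Ops.bi (f a) (Ops.allL l f) false = true := h
    have hf : f a = true := by
      cases hfn : f a with
      | true => rfl
      | false => rw [d4_bi_neg hfn] at h'; exact absurd h' (by decide)
    rw [d4_bi_pos hf] at h'
    intro x hx
    rcases List.mem_cons.1 hx with rfl | hx
    · exact hf
    · exact ih h' x hx

private theorem d4_fl {n : ℕ} {f : ℕ → Bool} {x : ℕ} (hx : x < n) (hf : f x = true) :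
    x ∈ Ops.fl n f := by
  induction n with
  | zero => omega
  | succ n ih =>
    change x ∈ Bool.rec (motive := fun _ => List ℕ) (Ops.fl n f) (n :: Ops.fl n f) (f n)
    rcases Nat.lt_succ_iff_lt_or_eq.1 hx with hx | rfl
    · cases f n with
      | true => exact List.mem_cons_of_mem _ (ih hx)
      | false => exact ih hx
    · rw [hf]
      exact List.mem_cons_self

private theorem d4_di {d f g : Fin 3} (h : Di d f g) :
    (d + 1 = f ∧ d + 2 = g) ∨ (d + 1 = g ∧ d + 2 = f) := by
  obtain ⟨h1, h2, h3⟩ := h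
  revert d f g
  decide

private theorem d4_th {d f g : Fin 3} (h : Di d f g) : th d g = f := by
  obtain ⟨h1, h2, h3⟩ := h
  revert d f g
  decide

section

variable {S : Type} [NC S] {O : Ops} {reps : List ℕ} {ix : S → ℕ} {sf : ℕ → S}
  {F : (Fin 3 → ℤ) → Fin 3 → S} {D : ℕ}

private theorem d4_aa {d f g : Fin 3} (h : Di d f g) (v : Fin 3 → ℤ) :
    F v f ⊓ F v g = aa F v d := by
  unfold aa
  rcases d4_di h with ⟨h1, h2⟩ | ⟨h1, h2⟩
  · rw [h1, h2]
  · rw [h1, h2, inf_comm]

private theorem d4_ix_ne (hE : Enc O reps ix sf) {s : S} (hs : s ≠ bo S) : ix s ≠ 0 := by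
  intro h
  apply hs
  rw [← hE.sf_ix s, h, ← hE.bo, hE.sf_ix]

private theorem d4_ix_lt (hE : Enc O reps ix sf) {s : S} (hs : s ≠ ⊤) : ix s < O.top := by
  refine lt_of_le_of_ne (hE.lt s) fun h => hs ?_
  rw [← hE.sf_ix s, h, ← hE.top, hE.sf_ix]

private theorem d4_diag (hF : Fl F D) (v : Fin 3 → ℤ) (d : Fin 3) (k : ℕ) :
    F (v + (k : ℤ) • 1) d = tau^[k] (F v d) := by
  induction k with
  | zero => simp
  | succ k ih =>
    have h1 : v + ((k + 1 : ℕ) : ℤ) • (1 : Fin 3 → ℤ) = v + (k : ℤ) • 1 + 1 := by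
      push_cast
      rw [add_smul, one_smul]
      abel
    rw [h1, hF.diag, ih, Function.iterate_succ_apply']

private theorem d4_key (hC : SpCore) (hB : NC.Basic S) (hE : Enc O reps ix sf) (hF : Fl F D)
    (hk : Ck1 O reps) {v : Fin 3 → ℤ} {d f g : Fin 3} (hd : Di d f g)
    (hr : ix (F v d) ∈ reps) : nod O ix F (v + e d) d f g ≤ nod O ix F v d f g := by
  have hd1 : Di f d g := ⟨hd.1.symm, hd.2.2, hd.2.1⟩
  have hd2 : Di g d f := ⟨hd.2.1.symm, hd.2.2.symm, hd.1⟩
  have hd3 : Di d f g := hd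
  have hne : ∀ u (i j k : Fin 3), Di i j k → F u j ≠ bo S := by
    intro u i j k hi h
    have h1 := hF.st_ne u i
    rw [← d4_aa hi u, h] at h1
    exact h1 (le_antisymm inf_le_left (hB.bo_le _))
  have hf0 : 0 < ix (F v f) := Nat.pos_of_ne_zero (d4_ix_ne hE (hne v d f g hd))
  have hft : ix (F v f) < O.top := d4_ix_lt hE (hF.ne_top v f)
  have hgt : ix (F v g) < O.top := d4_ix_lt hE (hF.ne_top v g)
  have h := hk _ hr _ hf0 hft
  unfold Ops.chk1 at h
  rw [d4_frc, hE.mt, d4_aa hd2 v] at h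
  have ha2 : Nat.beq (ix (aa F v g)) 0 = false := by
    rw [Bool.eq_false_iff, ne_eq, Nat.beq_eq]
    exact d4_ix_ne hE (hF.st_ne v g)
  rw [d4_bi_neg ha2] at h
  have h := d4_allR h _ hgt
  beta_reduce at h
  rw [d4_frc, hE.mt, d4_aa hd1 v] at h
  have ha1 : Nat.beq (ix (aa F v f)) 0 = false := by
    rw [Bool.eq_false_iff, ne_eq, Nat.beq_eq]
    exact d4_ix_ne hE (hF.st_ne v f)
  rw [d4_bi_neg ha1, d4_frc, hE.mt, d4_aa hd v] at h
  have ha0 : Nat.beq (ix (aa F v d)) 0 = false := by
    rw [Bool.eq_false_iff, ne_eq, Nat.beq_eq]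
    exact d4_ix_ne hE (hF.st_ne v d)
  rw [d4_bi_neg ha0] at h
  have h00 : Nat.beq (O.mt (ix (aa F v d)) (ix (F v d))) 0 = true := by
    rw [hE.mt, hF.tri, hE.bo, Nat.beq_eq]
  rw [d4_bi_pos h00, d4_frc, hE.kk, ← hF.F_step, d4_frc, hE.mt] at h
  have hb : F (v + e d) d ⊓ F v f = aa F (v + e d) g := by
    rw [hF.a_step v d g hd.2.1, d4_th hd, hF.F_step]
    rfl
  rw [hb] at h
  have hC1 := hC S O reps ix sf F D hB hE hF v d f g hd
  have hC2 := hC S O reps ix sf F D hB hE hF v f d g hd1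
  have hcomm : v + e f + e d = v + e d + e f := by abel
  rw [hcomm] at hC2
  have hmem : ix (F (v + e d + e f) g) ∈
      O.cl (ix (F v g)) (ix (aa F v d)) (ix (aa F v f)) :=
    d4_fl (d4_ix_lt hE (hF.ne_top _ g)) hC1.2
  have h := d4_allL h _ hmem
  beta_reduce at h
  rw [d4_frc, hC1.1, d4_frc, d4_frc, hC2.1] at h
  have hq : ix (F (v + e d) f) ∈ O.ql (ix (F (v + e d) d)) (ix (aa F (v + e d) g)) := by
    refine d4_fl (d4_ix_lt hE (hF.ne_top _ f)) ?_
    rw [hE.mt, d4_aa hd2, Nat.beq_eq]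
  have h := d4_allL h _ hq
  beta_reduce at h
  rw [hE.mt, d4_aa hd] at h
  have ha0' : Nat.beq (ix (aa F (v + e d) d)) 0 = false := by
    rw [Bool.eq_false_iff, ne_eq, Nat.beq_eq]
    exact d4_ix_ne hE (hF.st_ne _ d)
  rw [d4_bi_neg ha0', Nat.ble_eq] at h
  exact h

end

/-- The potentials are constant. -/
theorem sp_v1 (hC : SpCore) (hI : SpInv) : SpV1 := by
  intro S _ O reps ix sf F D hB hE hF hk
  -- the inequality
  have hle : ∀ v d f g, Di d f g → nod O ix F (v + e d) d f g ≤ nod O ix F v d f g := by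
    intro v d f g hd
    have hne : F v d ≠ bo S := by
      intro h
      have h1 := hF.st_ne v g
      rw [← d4_aa (⟨hd.2.1.symm, hd.2.2.symm, hd.1⟩ : Di g d f) v, h] at h1
      exact h1 (le_antisymm inf_le_left (hB.bo_le _))
    obtain ⟨k, _, hr⟩ := hE.rep (F v d) hne (hF.ne_top v d)
    rw [← d4_diag hF] at hr
    have h1 := d4_key hC hB hE hF hk hd hr
    have h2 := (hI S O reps ix sf F D hB hE hF k v d f g hd).1
    have h3 := (hI S O reps ix sf F D hB hE hF k (v + e d) d f g hd).1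
    have h4 : v + e d + (k : ℤ) • (1 : Fin 3 → ℤ) = v + (k : ℤ) • 1 + e d := by abel
    rw [h4] at h3
    rw [← h2, ← h3]
    exact h1
  intro v d f g hd
  refine le_antisymm (hle v d f g hd) ?_
  -- iterates
  have hit : ∀ n : ℕ, nod O ix F (v + e d + (n : ℤ) • e d) d f g ≤
      nod O ix F (v + e d) d f g := by
    intro n
    induction n with
    | zero => simp
    | succ n ih =>
      have h1 := hle (v + e d + (n : ℤ) • e d) d f g hd
      have h2 : v + e d + ((n + 1 : ℕ) : ℤ) • e d = v + e d + (n : ℤ) • e d + e d := by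
        push_cast
        rw [add_smul, one_smul]
        abel
      rw [h2]
      exact h1.trans ih
  obtain ⟨n, hn⟩ : ∃ n, D = n + 1 := ⟨D - 1, by have := hF.pos; omega⟩
  have h1 := hit n
  have h2 : v + e d + (n : ℤ) • e d = v + (D : ℤ) • e d := by
    rw [hn]
    push_cast
    rw [add_smul, one_smul]
    abel
  rw [h2] at h1
  have h3 : nod O ix F (v + (D : ℤ) • e d) d f g = nod O ix F v d f g := by
    unfold nod
    have h4 : v + (D : ℤ) • e d + e f = v + e f + (D : ℤ) • e d := by abel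
    rw [h4, hF.per, hF.per]
  rw [h3] at h1
  exact h1

end Pool.Agent.H54.RF
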