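import Pool.Agent.H54.RF.SpecD

/-!
# Project RF (MP_35eb49): the condition for the cubes
-/

set_option autoImplicit false

namespace Pool.Agent.H54.RF

open NC

/-! ### the recursors -/

theorem d5_frc {α : Type} (x : ℕ) (f : ℕ → α) : Ops.frc x f = f x := by
  cases x <;> rfl

theorem d5_bi (c t e : Bool) : Ops.bi c t e = true ↔
    (c = true → t = true) ∧ (c = false → e = true) := by
  cases c <;> simp [Ops.bi]

theorem d5_and (c t : Bool) : Ops.bi c t false = true ↔ c = true ∧ t = true := by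
  cases c <;> simp [Ops.bi]

theorem d5_or (c t : Bool) : Ops.bi c true t = true ↔ c = true ∨ t = true := by
  cases c <;> simp [Ops.bi]

theorem d5_allR (n : ℕ) (f : ℕ → Bool) : Ops.allR n f = true ↔ ∀ k < n, f k = true := by
  induction n with
  | zero => simp [Ops.allR]
  | succ n ih =>
    have h : Ops.allR (n + 1) f = Ops.bi (f n) (Ops.allR n f) false := rfl
    rw [h, d5_and, ih]
    constructor
    · rintro ⟨h1, h2⟩ k hk
      rcases Nat.lt_succ_iff_lt_or_eq.1 hk with hk | rfl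
      · exact h2 k hk
      · exact h1
    · intro h1
      exact ⟨h1 n (Nat.lt_succ_self n), fun k hk => h1 k (Nat.lt_succ_of_lt hk)⟩

theorem d5_allL (l : List ℕ) (f : ℕ → Bool) : Ops.allL l f = true ↔ ∀ x ∈ l, f x = true := by
  induction l with
  | nil => simp [Ops.allL]
  | cons x l ih =>
    have h : Ops.allL (x :: l) f = Ops.bi (f x) (Ops.allL l f) false := rfl
    rw [h, d5_and, ih]
    simp

theorem d5_fl (n : ℕ) (f : ℕ → Bool) (x : ℕ) : x ∈ Ops.fl n f ↔ x < n ∧ f x = true := by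
  induction n with
  | zero => simp [Ops.fl]
  | succ n ih =>
    have h : Ops.fl (n + 1) f = Bool.rec (motive := fun _ => List ℕ) (Ops.fl n f)
      (n :: Ops.fl n f) (f n) := rfl
    rw [h]
    cases hn : f n
    · show x ∈ Ops.fl n f ↔ _
      rw [ih]
      constructor
      · rintro ⟨h1, h2⟩
        exact ⟨Nat.lt_succ_of_lt h1, h2⟩
      · rintro ⟨h1, h2⟩
        refine ⟨?_, h2⟩
        rcases Nat.lt_succ_iff_lt_or_eq.1 h1 with h3 | rfl
        · exact h3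
        · rw [hn] at h2
          exact absurd h2 (by decide)
    · show x ∈ n :: Ops.fl n f ↔ _
      rw [List.mem_cons, ih]
      constructor
      · rintro (rfl | ⟨h1, h2⟩)
        · exact ⟨Nat.lt_succ_self x, hn⟩
        · exact ⟨Nat.lt_succ_of_lt h1, h2⟩
      · rintro ⟨h1, h2⟩
        rcases Nat.lt_succ_iff_lt_or_eq.1 h1 with h3 | rfl
        · exact Or.inr ⟨h3, h2⟩
        · exact Or.inl rfl

theorem d5_mn (a b : ℕ) : Ops.mn a b = min a b := by
  unfold Ops.mn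
  cases h : Nat.ble a b
  · have : ¬ a ≤ b := fun h1 => by
      rw [Nat.ble_eq_true_of_le h1] at h
      exact absurd h (by decide)
    show b = min a b
    omega
  · have := Nat.le_of_ble_eq_true h
    show a = min a b
    omega

theorem d5_rh (x : ℕ) : Ops.rh x = x % 32 := by
  unfold Ops.rh
  exact Nat.and_two_pow_sub_one_eq_mod x 5

theorem d5_one (x : ℕ) : Nat.land x 1 = x % 2 := Nat.and_two_pow_sub_one_eq_mod x 1

theorem d5_beq (a b : ℕ) : Nat.beq a b = true ↔ a = b :=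
  ⟨Nat.eq_of_beq_eq_true, fun h => by rw [h]; exact Nat.beq_refl b⟩

theorem d5_blt (a b : ℕ) : Nat.blt a b = true ↔ a < b :=
  ⟨fun h => Nat.le_of_ble_eq_true h, fun h => Nat.ble_eq_true_of_le h⟩

theorem d5_ble (a b : ℕ) : Nat.ble a b = true ↔ a ≤ b :=
  ⟨fun h => Nat.le_of_ble_eq_true h, fun h => Nat.ble_eq_true_of_le h⟩

theorem d5_beqf (a b : ℕ) : Nat.beq a b = false ↔ a ≠ b := by
  rw [← Bool.not_eq_true, d5_beq]

theorem d5_bltf (a b : ℕ) : Nat.blt a b = false ↔ b ≤ a := by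
  rw [← Bool.not_eq_true, d5_blt, not_lt]

theorem d5_blef (a b : ℕ) : Nat.ble a b = false ↔ b < a := by
  rw [← Bool.not_eq_true, d5_ble, not_le]

/-! ### directions -/

theorem d5_swap {d f g : Fin 3} (h : Di d f g) : Di d g f := ⟨h.2.1, h.1, h.2.2.symm⟩

theorem d5_rot {d f g : Fin 3} (h : Di d f g) : Di f g d := ⟨h.2.2, h.1.symm, h.2.1.symm⟩

theorem d5_123 (d : Fin 3) : Di d (d + 1) (d + 2) := by
  unfold Di
  revert d
  decide

theorem d5_six {i j l d f g : Fin 3} (h : Di i j l) (h' : Di d f g) :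
    (d = i ∧ f = j ∧ g = l) ∨ (d = i ∧ f = l ∧ g = j) ∨ (d = j ∧ f = i ∧ g = l) ∨
    (d = j ∧ f = l ∧ g = i) ∨ (d = l ∧ f = i ∧ g = j) ∨ (d = l ∧ f = j ∧ g = i) := by
  obtain ⟨a, b, c⟩ := h
  obtain ⟨a', b', c'⟩ := h'
  revert i j l d f g
  decide

section

variable {S : Type} [NC S] {O : Ops} {reps : List ℕ} {ix : S → ℕ} {sf : ℕ → S}
  {F : (Fin 3 → ℤ) → Fin 3 → S} {D : ℕ}

theorem d5_aa (v : Fin 3 → ℤ) {d f g : Fin 3} (h : Di d f g) : aa F v d = F v f ⊓ F v g := by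
  obtain ⟨a, b, c⟩ := h
  have h3 : (f = d + 1 ∧ g = d + 2) ∨ (f = d + 2 ∧ g = d + 1) := by
    revert d f g
    decide
  unfold aa
  rcases h3 with ⟨rfl, rfl⟩ | ⟨rfl, rfl⟩
  · rfl
  · exact inf_comm _ _

/-- the index of the third element of the opposite corner -/
def d5_R (ix : S → ℕ) (F : (Fin 3 → ℤ) → Fin 3 → S) (v : Fin 3 → ℤ) (d : Fin 3) : ℕ :=
  ix (F (v + e (d + 1) + e (d + 2)) d)

omit [NC S] in
theorem d5_Re (v : Fin 3 → ℤ) {d f g : Fin 3} (h : Di d f g) :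
    d5_R ix F v g = ix (F (v + e d + e f) g) := by
  obtain ⟨a, b, c⟩ := h
  have h3 : (d = g + 1 ∧ f = g + 2) ∨ (d = g + 2 ∧ f = g + 1) := by
    revert d f g
    decide
  unfold d5_R
  rcases h3 with ⟨rfl, rfl⟩ | ⟨rfl, rfl⟩
  · rfl
  · rw [add_right_comm]

theorem d5_ix (hE : Enc O reps ix sf) {s t : S} (h : ix s = ix t) : s = t := by
  rw [← hE.sf_ix s, ← hE.sf_ix t, h]

theorem d5_ne0 (hE : Enc O reps ix sf) {s : S} (h : s ≠ NC.bo S) : ix s ≠ 0 := fun h0 =>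
  h (d5_ix hE (h0.trans hE.bo.symm))

theorem d5_lt (hE : Enc O reps ix sf) {s : S} (h : s ≠ ⊤) : ix s < O.top :=
  lt_of_le_of_ne (hE.lt s) fun h0 => h (d5_ix hE (h0.trans hE.top.symm))

/-! ### the values of the checks -/

theorem d5_p (hb : NC.Basic S) (hE : Enc O reps ix sf) (hF : Fl F D) (hC : SpCore)
    (v : Fin 3 → ℤ) {d f g : Fin 3} (h : Di d f g) :
    O.pp (ix (aa F v f)) (ix (F v g)) (d5_R ix F v g) = ix (F (v + e f) g) := by
  rw [d5_Re v h]
  exact (hC S O reps ix sf F D hb hE hF v d f g h).1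

theorem d5_nr (hb : NC.Basic S) (hE : Enc O reps ix sf) (hF : Fl F D) (hC : SpCore)
    (v : Fin 3 → ℤ) {d f g : Fin 3} (h : Di d f g) :
    O.nr (ix (F v d)) (ix (F v f)) (ix (F v g)) (ix (aa F v f)) (ix (aa F v g)) (d5_R ix F v d)
      (d5_R ix F v f) (d5_R ix F v g) = fac O ix F v d f g := by
  unfold Ops.nr
  rw [d5_frc, d5_frc, d5_p hb hE hF hC v h, d5_p hb hE hF hC v (d5_swap h),
    d5_Re v (d5_rot h)]
  rfl

theorem d5_fr (hb : NC.Basic S) (hE : Enc O reps ix sf) (hF : Fl F D) (hC : SpCore)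
    (v : Fin 3 → ℤ) {d f g : Fin 3} (h : Di d f g) :
    O.fr (ix (F v d)) (ix (F v f)) (ix (F v g)) (ix (aa F v d)) (d5_R ix F v f) (d5_R ix F v g) =
      fac O ix F (v + e d) d f g := by
  unfold Ops.fr
  have h1 : Di g d f := d5_rot (d5_rot h)
  have h2 : Di f d g := d5_swap (d5_rot h)
  rw [d5_frc, d5_frc, d5_p hb hE hF hC v h1, d5_p hb hE hF hC v h2, hE.kk, ← hF.F_step,
    d5_Re v h, d5_Re v (d5_swap h), hE.t1, ← hF.diag]
  have h3 : v + e d + e f + e g = v + 1 := by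
    obtain ⟨a, b, c⟩ := h
    have h4 : e d + e f + e g = 1 := by
      have key : ∀ d f g : Fin 3, d ≠ f → d ≠ g → f ≠ g → ∀ x : Fin 3,
          (if x = d then (1 : ℤ) else 0) + (if x = f then 1 else 0) +
            (if x = g then 1 else 0) = 1 := by decide
      funext x
      simpa [e, Pi.single_apply] using key d f g a b c x
    rw [← h4]
    ring
  rw [← h3]
  rfl

theorem d5_pc1 (hb : NC.Basic S) (hE : Enc O reps ix sf) (hF : Fl F D) (hC : SpCore)
    (hV : ∀ v d f g, Di d f g → nod O ix F (v + e d) d f g = nod O ix F v d f g)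
    (v : Fin 3 → ℤ) {d f g : Fin 3} (h : Di d f g) :
    O.pc1 (ix (F v d)) (ix (F v f)) (ix (F v g)) (ix (aa F v d)) (ix (aa F v f))
      (d5_R ix F v g) (ix (F (v + e d) f)) = true := by
  unfold Ops.pc1
  have h1 : Di g d f := d5_rot (d5_rot h)
  have h2 : Di f d g := d5_swap (d5_rot h)
  rw [d5_frc, d5_frc, d5_p hb hE hF hC v h2, hE.kk, ← hF.F_step, d5_p hb hE hF hC v h,
    d5_Re v h, hE.mt, ← d5_aa (v + e d) (d5_swap h), d5_bi]
  refine ⟨fun h3 => absurd ((d5_beq _ _).1 h3) (d5_ne0 hE (hF.st_ne _ _)), fun _ => ?_⟩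
  rw [d5_beq]
  exact (hV v d f g h).symm

theorem d5_pc (hb : NC.Basic S) (hE : Enc O reps ix sf) (hF : Fl F D) (hC : SpCore)
    (hV : ∀ v d f g, Di d f g → nod O ix F (v + e d) d f g = nod O ix F v d f g)
    (v : Fin 3 → ℤ) {d f g : Fin 3} (h : Di d f g) :
    O.pc (ix (F v d)) (ix (F v f)) (ix (F v g)) (ix (aa F v d)) (ix (aa F v f)) (ix (aa F v g))
      (d5_R ix F v f) (d5_R ix F v g) = true := by
  unfold Ops.pc
  have h1 : Di g d f := d5_rot (d5_rot h)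
  have h2 : Di f d g := d5_swap (d5_rot h)
  rw [d5_frc, d5_frc, d5_p hb hE hF hC v h1, d5_p hb hE hF hC v h2, d5_and]
  exact ⟨d5_pc1 hb hE hF hC hV v h, d5_pc1 hb hE hF hC hV v (d5_swap h)⟩

theorem d5_lb (hb : NC.Basic S) (hE : Enc O reps ix sf) (hF : Fl F D) (hC : SpCore)
    (v : Fin 3 → ℤ) {d f g : Fin 3} (h : Di d f g)
    (hl : O.lb (ix (F v d)) (ix (F v f)) (ix (F v g)) (ix (aa F v d)) (d5_R ix F v f)
      (d5_R ix F v g) (fac O ix F v d f g) (fac O ix F (v + e d) d f g) = true) :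
    Lab O ix F v d f g := by
  have h1 : Di g d f := d5_rot (d5_rot h)
  have h2 : Di f d g := d5_swap (d5_rot h)
  unfold Ops.lb at hl
  simp only [d5_frc] at hl
  rw [d5_p hb hE hF hC v h1, d5_p hb hE hF hC v h2, hE.kk, ← hF.F_step, d5_and, d5_blt,
    d5_and, d5_blt, d5_one] at hl
  obtain ⟨hl1, hl0, hl2⟩ := hl
  refine ⟨hl1, hl0, fun hp => ?_, fun hp => ?_⟩
  · have h0 : Nat.beq (fac O ix F v d f g % 2) 1 = false := by
      rw [d5_beqf, hp]
      decide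
    rw [h0] at hl2
    have hl3 := (d5_and _ _).1 hl2
    rw [d5_beq, d5_beq] at hl3
    exact hl3
  · have h0 : Nat.beq (fac O ix F v d f g % 2) 1 = true := by
      rw [d5_beq, hp]
    rw [h0] at hl2
    have hl3 := (d5_and _ _).1 hl2
    rw [d5_beq, d5_beq] at hl3
    exact hl3

theorem d5_cd (hb : NC.Basic S) (hE : Enc O reps ix sf) (hF : Fl F D) (hC : SpCore) {r : ℕ}
    (hr : ∀ v d f g, Di d f g → r ≤ fac O ix F v d f g % 32)
    (v : Fin 3 → ℤ) {d f g : Fin 3} (h : Di d f g) (hv : fac O ix F v d f g % 32 = r)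
    (hl : O.cd (ix (F v d)) (ix (F v f)) (ix (F v g)) (ix (aa F v d)) (d5_R ix F v f)
      (d5_R ix F v g) (fac O ix F v d f g) r = true) :
    fac O ix F (v + e d) d f g % 32 = r ∧ Lab O ix F v d f g := by
  unfold Ops.cd at hl
  rw [d5_frc, d5_fr hb hE hF hC v h, d5_bi, d5_bi, d5_rh, d5_rh, d5_beq, d5_beq, d5_beqf,
    d5_blt] at hl
  have h1 := hl.1 hv
  have h2 : fac O ix F (v + e d) d f g % 32 = r := by
    by_contra h3
    exact absurd (h1.2 h3) (not_lt.2 (hr _ _ _ _ h))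
  exact ⟨h2, d5_lb hb hE hF hC v h (h1.1 h2)⟩

theorem d5_fd (hb : NC.Basic S) (hE : Enc O reps ix sf) (hF : Fl F D) (hC : SpCore) {r : ℕ}
    (hr : ∀ v d f g, Di d f g → r ≤ fac O ix F v d f g % 32)
    (v : Fin 3 → ℤ) {d f g : Fin 3} (h : Di d f g) :
    ¬ O.fd (ix (F v d)) (ix (F v f)) (ix (F v g)) (ix (aa F v d)) (d5_R ix F v f)
      (d5_R ix F v g) r = true := by
  unfold Ops.fd
  rw [d5_fr hb hE hF hC v h, d5_blt, d5_rh, not_lt]
  exact hr _ _ _ _ h

theorem d5_cb (hb : NC.Basic S) (hE : Enc O reps ix sf) (hF : Fl F D) (hC : SpCore) {r : ℕ}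
    (hr : ∀ v d f g, Di d f g → r ≤ fac O ix F v d f g % 32)
    (v : Fin 3 → ℤ) {i j l : Fin 3} (h : Di i j l)
    (hc : O.cb (ix (F v i)) (ix (F v j)) (ix (F v l)) (ix (aa F v i)) (ix (aa F v j))
      (ix (aa F v l)) (d5_R ix F v i) (d5_R ix F v j) (d5_R ix F v l) = true)
    {d f g : Fin 3} (h' : Di d f g) (hv : fac O ix F v d f g % 32 = r) :
    fac O ix F (v + e d) d f g % 32 = r ∧ Lab O ix F v d f g := by
  have h1 : Di i j l := h
  have h2 : Di i l j := d5_swap h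
  have h4 : Di j l i := d5_rot h
  have h3 : Di j i l := d5_swap h4
  have h5 : Di l i j := d5_rot h4
  have h6 : Di l j i := d5_swap h5
  unfold Ops.cb at hc
  simp only [d5_frc] at hc
  rw [d5_nr hb hE hF hC v h1, d5_nr hb hE hF hC v h2, d5_nr hb hE hF hC v h3,
    d5_nr hb hE hF hC v h4, d5_nr hb hE hF hC v h5, d5_nr hb hE hF hC v h6] at hc
  simp only [d5_rh, d5_mn] at hc
  have hm : min (fac O ix F v i j l % 32) (min (fac O ix F v i l j % 32)
      (min (fac O ix F v j i l % 32) (min (fac O ix F v j l i % 32)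
      (min (fac O ix F v l i j % 32) (fac O ix F v l j i % 32))))) = r := by
    have g1 := hr v i j l h1
    have g2 := hr v i l j h2
    have g3 := hr v j i l h3
    have g4 := hr v j l i h4
    have g5 := hr v l i j h5
    have g6 := hr v l j i h6
    have g0 := d5_six h h'
    rcases g0 with ⟨rfl, rfl, rfl⟩ | ⟨rfl, rfl, rfl⟩ | ⟨rfl, rfl, rfl⟩ | ⟨rfl, rfl, rfl⟩ |
      ⟨rfl, rfl, rfl⟩ | ⟨rfl, rfl, rfl⟩ <;> omega
  rw [hm] at hc
  rw [d5_or, d5_or, d5_or, d5_or, d5_or, d5_or] at hc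
  rcases hc with hc | hc | hc | hc | hc | hc | hc
  · rw [d5_and, d5_and, d5_and, d5_and, d5_and, d5_and] at hc
    obtain ⟨_, c1, c2, c3, c4, c5, c6⟩ := hc
    rcases d5_six h h' with ⟨rfl, rfl, rfl⟩ | ⟨rfl, rfl, rfl⟩ | ⟨rfl, rfl, rfl⟩ |
      ⟨rfl, rfl, rfl⟩ | ⟨rfl, rfl, rfl⟩ | ⟨rfl, rfl, rfl⟩
    · exact d5_cd hb hE hF hC hr v h1 hv c1
    · exact d5_cd hb hE hF hC hr v h2 hv c2
    · exact d5_cd hb hE hF hC hr v h3 hv c3
    · exact d5_cd hb hE hF hC hr v h4 hv c4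
    · exact d5_cd hb hE hF hC hr v h5 hv c5
    · exact d5_cd hb hE hF hC hr v h6 hv c6
  · exact absurd hc (d5_fd hb hE hF hC hr v h1)
  · exact absurd hc (d5_fd hb hE hF hC hr v h2)
  · exact absurd hc (d5_fd hb hE hF hC hr v h3)
  · exact absurd hc (d5_fd hb hE hF hC hr v h4)
  · exact absurd hc (d5_fd hb hE hF hC hr v h5)
  · exact absurd hc (d5_fd hb hE hF hC hr v h6)

theorem d5_mem (hb : NC.Basic S) (hE : Enc O reps ix sf) (hF : Fl F D) (hC : SpCore)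
    (v : Fin 3 → ℤ) {d f g : Fin 3} (h : Di d f g) :
    d5_R ix F v g ∈ O.cl (ix (F v g)) (ix (aa F v d)) (ix (aa F v f)) := by
  unfold Ops.cl
  rw [d5_fl, d5_Re v h]
  exact ⟨d5_lt hE (hF.ne_top _ _), (hC S O reps ix sf F D hb hE hF v d f g h).2⟩

/-- the check of the cube at `v` -/
theorem d5_chk (hb : NC.Basic S) (hE : Enc O reps ix sf) (hF : Fl F D) (hC : SpCore)
    (hV : ∀ v d f g, Di d f g → nod O ix F (v + e d) d f g = nod O ix F v d f g)
    (v : Fin 3 → ℤ) {i j l : Fin 3} (h : Di i j l) (hlt : ix (F v j) < ix (F v l))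
    (ho : O.orb (ix (F v i)) ≤ O.orb (ix (F v l)))
    (hk : O.chk2 (ix (F v i)) (ix (F v j)) = true) :
    O.cb (ix (F v i)) (ix (F v j)) (ix (F v l)) (ix (aa F v i)) (ix (aa F v j))
      (ix (aa F v l)) (d5_R ix F v i) (d5_R ix F v j) (d5_R ix F v l) = true := by
  have h1 : Di i j l := h
  have h2 : Di i l j := d5_swap h
  have h4 : Di j l i := d5_rot h
  have h3 : Di j i l := d5_swap h4
  have h5 : Di l i j := d5_rot h4
  have h6 : Di l j i := d5_swap h5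
  unfold Ops.chk2 at hk
  simp only [d5_frc] at hk
  rw [hE.mt, ← d5_aa v h5, d5_bi] at hk
  have k1 := hk.2 ((d5_beqf _ _).2 (d5_ne0 hE (hF.st_ne _ _)))
  rw [d5_allR] at k1
  have k2 := k1 (ix (F v l)) (d5_lt hE (hF.ne_top _ _))
  rw [d5_bi] at k2
  have k3 := k2.2 ((d5_blef _ _).2 hlt)
  rw [d5_bi] at k3
  have k4 := k3.2 ((d5_bltf _ _).2 ho)
  rw [hE.mt, ← d5_aa v h3, d5_bi] at k4
  have k5 := k4.2 ((d5_beqf _ _).2 (d5_ne0 hE (hF.st_ne _ _)))
  rw [hE.mt, ← d5_aa v h1, d5_bi] at k5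
  have k6 := k5.2 ((d5_beqf _ _).2 (d5_ne0 hE (hF.st_ne _ _)))
  rw [hE.mt, hF.tri, hE.bo, d5_bi] at k6
  have k7 := k6.1 rfl
  rw [d5_allL] at k7
  have k8 := k7 _ (d5_mem hb hE hF hC v h4)
  rw [d5_allL] at k8
  have k9 := k8 _ (d5_mem hb hE hF hC v h2)
  rw [d5_bi] at k9
  have k10 := k9.1 (d5_pc hb hE hF hC hV v h5)
  rw [d5_allL] at k10
  have k11 := k10 _ (d5_mem hb hE hF hC v h1)
  rw [d5_bi] at k11
  have k12 := k11.1 (d5_pc hb hE hF hC hV v h1)
  rw [d5_bi] at k12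
  exact k12.1 (d5_pc hb hE hF hC hV v h4)

theorem d5_diag (hF : Fl F D) (v : Fin 3 → ℤ) (d : Fin 3) (k : ℕ) :
    F (v + (k : ℤ) • 1) d = tau^[k] (F v d) := by
  induction k with
  | zero => simp
  | succ k ih =>
    rw [Function.iterate_succ_apply', ← ih, ← hF.diag]
    congr 1
    push_cast
    rw [add_smul, one_smul, add_assoc]

theorem d5_orb (hE : Enc O reps ix sf) (s : S) (k : ℕ) :
    O.orb (ix (tau^[k] s)) = O.orb (ix s) := by
  induction k with
  | zero => rfl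
  | succ k ih => rw [Function.iterate_succ_apply', hE.orb, ih]

theorem d5_nebo (hb : NC.Basic S) (hF : Fl F D) (v : Fin 3 → ℤ) (d : Fin 3) :
    F v d ≠ NC.bo S := by
  intro h0
  have h1 : Di (d + 1) (d + 2) d := d5_rot (d5_123 d)
  have h2 := hF.st_ne v (d + 1)
  rw [d5_aa v h1, h0] at h2
  exact h2 (le_antisymm inf_le_right (hb.bo_le _))

theorem d5_dist (hF : Fl F D) (v : Fin 3 → ℤ) {i j l : Fin 3} (h : Di i j l) :
    F v j ≠ F v l := by
  intro h0
  have h2 : Di j i l := d5_swap (d5_rot h)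
  have h3 := hF.tri v j
  rw [d5_aa v h2, inf_assoc, ← h0, inf_idem, h0, ← d5_aa v h2] at h3
  exact hF.st_ne _ _ h3

theorem d5_main (hC : SpCore) (hI : SpInv) (hV : SpV1) : SpV2 := by
  intro S _ O reps ix sf F D hb hE hF hk1 hk2 r hr v d f g hd hv
  have hV' := hV S O reps ix sf F D hb hE hF hk1
  have hI' := hI S O reps ix sf F D hb hE hF
  -- a direction with minimal orbit, and the two others
  obtain ⟨i, j, l, h, hj, hl, -⟩ : ∃ i j l : Fin 3, Di i j l ∧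
      O.orb (ix (F v i)) ≤ O.orb (ix (F v j)) ∧ O.orb (ix (F v i)) ≤ O.orb (ix (F v l)) ∧
      True := by
    obtain ⟨i, -, hi⟩ := Finset.exists_min_image (Finset.univ : Finset (Fin 3))
      (fun i => O.orb (ix (F v i))) ⟨0, Finset.mem_univ 0⟩
    exact ⟨i, i + 1, i + 2, d5_123 i, hi _ (Finset.mem_univ _), hi _ (Finset.mem_univ _),
      trivial⟩
  obtain ⟨k, hk, hrep⟩ := hE.rep (F v i) (d5_nebo hb hF v i) (hF.ne_top v i)
  have hF' : ∀ x, F (v + (k : ℤ) • 1) x = tau^[k] (F v x) := fun x => d5_diag hF v x k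
  rw [← hF'] at hrep
  have hj' : O.orb (ix (F (v + (k : ℤ) • 1) i)) ≤ O.orb (ix (F (v + (k : ℤ) • 1) j)) := by
    rw [hF', hF', d5_orb hE, d5_orb hE]
    exact hj
  have hl' : O.orb (ix (F (v + (k : ℤ) • 1) i)) ≤ O.orb (ix (F (v + (k : ℤ) • 1) l)) := by
    rw [hF', hF', d5_orb hE, d5_orb hE]
    exact hl
  have hvk : fac O ix F (v + (k : ℤ) • 1) d f g % 32 = r := by
    rw [(hI' k v d f g hd).2.1]
    exact hv
  obtain ⟨w, hw⟩ : ∃ w, w = v + (k : ℤ) • (1 : Fin 3 → ℤ) := ⟨_, rfl⟩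
  have hpos : ∀ x, 0 < ix (F w x) := fun x => Nat.pos_of_ne_zero (d5_ne0 hE (d5_nebo hb hF w x))
  have htop : ∀ x, ix (F w x) < O.top := fun x => d5_lt hE (hF.ne_top w x)
  rw [← hw] at hrep hj' hl' hvk
  have key : fac O ix F (w + e d) d f g % 32 = r ∧ Lab O ix F w d f g := by
    rcases lt_trichotomy (ix (F w j)) (ix (F w l)) with h1 | h1 | h1
    · exact d5_cb hb hE hF hC hr w h (d5_chk hb hE hF hC hV' w h h1 hl'
        (hk2 _ hrep _ (hpos j) (htop j) hj')) hd hvk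
    · exact absurd (d5_ix hE h1) (d5_dist hF w h)
    · exact d5_cb hb hE hF hC hr w (d5_swap h) (d5_chk hb hE hF hC hV' w (d5_swap h) h1 hj'
        (hk2 _ hrep _ (hpos l) (htop l) hl')) hd hvk
  refine ⟨?_, ?_⟩
  · have h3 := key.1
    rw [hw, add_right_comm, (hI' k (v + e d) d f g hd).2.1] at h3
    exact h3
  · have h3 := key.2
    rw [hw] at h3
    exact (hI' k v d f g hd).2.2 h3

end

theorem sp_v2 (hC : SpCore) (hI : SpInv) (hV : SpV1) : SpV2 := d5_main hC hI hV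

end Pool.Agent.H54.RF
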