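import Pool.Agent.H54.RF.SpecB

/-!
# Project RF (MP_35eb49), B3: the steps of a word
-/

set_option autoImplicit false

namespace Pool.Agent.H54.RF

open NC

section

variable {S : Type} [NC S] {G : Type} [Group G] [Gar G] {val : S → G}

theorem b3_one_le (hv : Gv val) (s : S) : 1 ≤ val s := ((hv.simple (val s)).2 ⟨s, rfl⟩).1

theorem b3_le_δ (hv : Gv val) (s : S) : val s ≤ Gar.δ := ((hv.simple (val s)).2 ⟨s, rfl⟩).2

theorem b3_le_mul {x y : G} (hy : 1 ≤ y) : x ≤ x * y := by
  have h := (Gar.mul_le_mul_iff x).mpr hy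
  rwa [mul_one] at h

theorem b3_prod (hv : Gv val) (l : List S) : 1 ≤ (l.map val).prod := by
  induction l with
  | nil => exact le_of_eq (by simp)
  | cons r l ih =>
    rw [List.map_cons, List.prod_cons]
    exact (b3_one_le hv r).trans (b3_le_mul ih)

/-- the join of simple elements is their join in the group -/
theorem b3_join (hv : Gv val) {r c j : S} (hj : IsJ r c j) {z : G} (h1 : val r ≤ z)
    (h2 : val c ≤ z) : val j ≤ z := by
  obtain ⟨s, hs⟩ := (hv.simple (z ⊓ Gar.δ)).1
    ⟨le_inf ((b3_one_le hv r).trans h1) Gar.one_le_δ, inf_le_right⟩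
  have hr : r ≤ s := by
    rw [← hv.le, ← hs]
    exact le_inf h1 (b3_le_δ hv r)
  have hc : c ≤ s := by
    rw [← hv.le, ← hs]
    exact le_inf h2 (b3_le_δ hv c)
  have h3 := (hv.le j s).2 (hj.2.2 s hr hc)
  rw [← hs] at h3
  exact h3.trans inf_le_left

/-- one step -/
theorem b3_step (hv : Gv val) {r c j : S} (hj : IsJ r c j) {y : G} (hy : 1 ≤ y) :
    val c ≤ val r * y ↔ val (dv r j) ≤ y := by
  have hm : val r * val (dv r j) = val j := hv.mult r j hj.1
  constructor
  · intro h
    have h1 := b3_join hv hj (b3_le_mul hy) h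
    rwa [← hm, Gar.mul_le_mul_iff] at h1
  · intro h
    refine ((hv.le c j).2 hj.2.1).trans ?_
    rw [← hm, Gar.mul_le_mul_iff]
    exact h

end

theorem sp_wk : SpWk := by
  intro S _ G _ _ val hb hv l
  induction l with
  | nil =>
    intro c
    refine ⟨c, Wk.nil c, fun y _ => ?_⟩
    rw [List.map_nil, List.prod_nil, one_mul]
  | cons r l ih =>
    intro c
    obtain ⟨j, hj⟩ := hb.sup r c
    obtain ⟨d, hd, hd'⟩ := ih (dv r j)
    refine ⟨d, Wk.cons ⟨j, hj, rfl⟩ hd, fun y hy => ?_⟩
    rw [List.map_cons, List.prod_cons, mul_assoc,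
      b3_step hv hj ((b3_prod hv l).trans (b3_le_mul hy))]
    exact hd' y hy

end Pool.Agent.H54.RF
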