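import Pool.Agent.H54.RF.AllA
import Pool.Agent.H54.RF.AllC
import Pool.Agent.H54.RF.FlOf
import Pool.Agent.H54.RF.Line
import Pool.Agent.H54.RF.V2
import Pool.Agent.H54.RF.V1
import Pool.Agent.H54.RF.Inv
import Pool.Agent.H54.RF.CoreF
import Pool.Agent.H54.RF.EncOk
import Pool.Agent.H54.RF.PJ
import Pool.Agent.H54.RF.Su
import Pool.Agent.H54.RF.WkL
import Pool.Agent.H54.RF.Step
import Pool.Agent.H54.RF.Norm
import Pool.Agent.H54.RF.RowJ
import Pool.Agent.H54.RF.NaL
import Pool.Agent.H54.RF.KLL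
import Pool.Agent.H54.RF.MvL
import Pool.Agent.H54.RF.Std
import Pool.Agent.H54.RF.Par
import Pool.Agent.H54.RF.DatOk

/-!
# Project RF (MP_35eb49): assembly
-/

set_option autoImplicit false

namespace Pool.Agent.H54.RF

open NC

/-- The conclusion for one Artin group: if no positive power of `g` normalizes a proper nontrivial
parabolic subgroup, then the subgroup generated by `g` and the center has finite index in the
centralizer of `g`. -/
def Concl {n : ℕ} (M : CoxeterMatrix (Fin n)) : Prop := ∀ g : Art M,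
  (∀ P : Subgroup (Art M),
    (∃ (X : Set (Fin n)) (a : Art M),
      P = (Subgroup.closure (PresentedGroup.of '' X)).map (MulAut.conj a).toMonoidHom) →
    P ≠ ⊤ → P ≠ ⊥ → ∀ k : ℕ, 0 < k → P.map (MulAut.conj (g ^ k)).toMonoidHom ≠ P) →
  (Subgroup.zpowers g ⊔ Subgroup.center (Art M)).relIndex (Subgroup.centralizer {g}) ≠ 0

theorem asm_map_map {G : Type} [Group G] (P : Subgroup G) (x y : G) :
    (P.map (MulAut.conj x).toMonoidHom).map (MulAut.conj y).toMonoidHom =
      P.map (MulAut.conj (y * x)).toMonoidHom := by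
  rw [Subgroup.map_map]
  congr 1
  ext z
  simp [mul_assoc]

/-- The assembly, from the properties of the germ. -/
theorem asm {n : ℕ} (M : CoxeterMatrix (Fin n)) (hn : 0 < n) {S : Type} [NC S]
    (hB : NC.Basic S) (hC : NC.Conn S) (hne : bo S ≠ ⊤) (hrk : 2 ≤ NC.rk (⊤ : S))
    (a : Fin n → S) (ol : List (Fin n)) (h : ℕ)
    (hR : Rz M a ol h) (hcone : SpCone) (O : Ops) (reps : List ℕ) (ix : S → ℕ) (sf : ℕ → S)
    (na : ℕ) (hE : Enc O reps ix sf) (hN : Na ix O na) (h1 : Ck1 O reps) (h2 : Ck2 O reps)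
    (hK : ∀ J ∈ reps, ∃ cp bd : ℕ → ℕ, O.ckK na J cp bd = true)
    (at_ : ℕ → ℕ) (ha : ∀ i : Fin n, ix (a i) = at_ i)
    (hX : ∀ J ∈ reps, ∃ mv k s, O.ckX na n at_ J mv k s = true) : Concl M := by
  intro g hg hidx
  obtain ⟨val, hgrp, hval, htop⟩ := sp_rz n M S a ol h hB hC hR
  obtain ⟨gr, hδ, hgrk, hlen, hinj, hsimple, hle, hinf⟩ := gar S (Art M) val hgrp hne
  let _ := gr
  have hG : Gv val := ⟨hgrp.mult, hinj, hδ, hsimple, hle, hinf, hlen⟩
  have hP : PJt val := sp_pJ S (Art M) val hB hC hG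
  have hS : Sut val := sp_su S (Art M) val hB hC hG hP
  have hKL : KL S := sp_kL S O reps ix sf na hB hE hN hK
  have himg : ∀ l : List (Fin n), val '' (a '' {i | i ∈ l}) =
      (PresentedGroup.of '' {i : Fin n | i ∈ l} : Set (Art M)) := by
    intro l
    rw [Set.image_image]
    exact Set.image_congr fun i _ => hval i
  -- parabolic subgroups of the germ are parabolic
  have hpar : ∀ J : S, J ≠ bo S → J ≠ ⊤ → ∀ y : Art M,
      (∃ (X : Set (Fin n)) (b : Art M), (GJ val J).map (MulAut.conj y).toMonoidHom =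
        (Subgroup.closure (PresentedGroup.of '' X)).map (MulAut.conj b).toMonoidHom) ∧
      (GJ val J).map (MulAut.conj y).toMonoidHom ≠ ⊤ ∧
      (GJ val J).map (MulAut.conj y).toMonoidHom ≠ ⊥ := by
    intro J hJ1 hJ2 y
    obtain ⟨l, c, z, hch, hz⟩ := sp_par sp_mv S (Art M) val O reps ix sf na hB hG hE hN n a at_ ha
      hX J hJ1 hJ2
    have hstd := sp_std S (Art M) val hB hC hG n a hR.rk_a l c hch
    obtain ⟨hne1, hne2⟩ := hP.ne J hJ2 hJ1
    refine ⟨⟨{i | i ∈ l}, y * z, ?_⟩, ?_, ?_⟩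
    · rw [hz, hstd, himg, asm_map_map]
    · intro h3
      apply hne1
      rw [eq_top_iff]
      intro x _
      have h4 : y * x * y⁻¹ ∈ (GJ val J).map (MulAut.conj y).toMonoidHom := by rw [h3]; trivial
      obtain ⟨w, hw, hw2⟩ := h4
      have h5 : y * w * y⁻¹ = y * x * y⁻¹ := by simpa using hw2
      have h6 : w = x := by
        have := mul_right_cancel h5
        exact mul_left_cancel this
      exact h6 ▸ hw
    · intro h3
      apply hne2
      rw [eq_bot_iff]
      intro x hx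
      have h4 : (MulAut.conj y).toMonoidHom x ∈ (GJ val J).map (MulAut.conj y).toMonoidHom :=
        ⟨x, hx, rfl⟩
      rw [h3, Subgroup.mem_bot] at h4
      have h5 : y * x * y⁻¹ = 1 := by simpa using h4
      rw [Subgroup.mem_bot]
      have h6 : y * x = y := by rw [mul_inv_eq_one] at h5; exact h5
      exact mul_eq_left.mp h6
  -- `g` is not periodic
  have hper : ∀ m : ℕ, 0 < m → ∀ k : ℤ, g ^ m ≠ Gar.δ ^ k := by
    intro m hm k hk
    let i0 : Fin n := ⟨0, hn⟩
    have hai1 : a i0 ≠ bo S := by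
      intro h3
      have := hR.rk_a i0
      rw [h3, hB.rk_bo] at this
      omega
    have hai2 : a i0 ≠ ⊤ := by
      intro h3
      have := hR.rk_a i0
      rw [h3] at this
      omega
    obtain ⟨hp1, hp2, hp3⟩ := hpar (a i0) hai1 hai2 1
    refine hg _ hp1 hp2 hp3 (m * ord (Art M)) (Nat.mul_pos hm Gar.ord_pos) ?_
    have hcen : ∀ x : Art M, g ^ (m * ord (Art M)) * x = x * g ^ (m * ord (Art M)) := by
      intro x
      rw [pow_mul, hk, ← zpow_natCast, ← zpow_mul, mul_comm k, zpow_mul, zpow_natCast]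
      have h4 := Gar.central_zpow k x
      rw [zpow_mul, zpow_natCast] at h4
      exact h4
    ext x
    constructor
    · rintro ⟨w, hw, rfl⟩
      have : (MulAut.conj (g ^ (m * ord (Art M)))).toMonoidHom w = w := by
        simp only [MulEquiv.coe_toMonoidHom, MulAut.conj_apply]
        rw [hcen w, mul_assoc, mul_inv_cancel, mul_one]
      rw [this]
      exact hw
    · intro hx
      refine ⟨x, hx, ?_⟩
      simp only [MulEquiv.coe_toMonoidHom, MulAut.conj_apply]
      rw [hcen x, mul_assoc, mul_inv_cancel, mul_one]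
  obtain ⟨Y, D, Z, N, hF, hN0, hcomm⟩ := flat3_of hcone (Art M) g hper hidx
  obtain ⟨F, hFl, hF1, hF2⟩ := sp_flOf S (Art M) val hB hgrp.mult hinj hδ hsimple hle hinf Y D Z hF
  obtain ⟨v, d, w, hw, hline⟩ := sp_line (sp_v2 sp_core sp_inv (sp_v1 sp_core sp_inv)) S O reps ix
    sf F D hB hE hFl h1 h2
  obtain ⟨v', l, J, hJ1, hJ2, hJl, hu⟩ := sp_rowJ S (Art M) val hB hC hG Y D Z hF F hFl hF1 hF2 v d
    w hw hline
  have hSu : Su val (l.map val).prod J := hS.prod l J hJl
  have hcom := hu (g ^ N) (hcomm d)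
  have hnorm := sp_norm (sp_step sp_wk) S (Art M) val hB hC hG hP hS hKL (l.map val).prod J
    ((Y v')⁻¹ * g ^ N * Y v') (hP.one_le J _ hSu.1) hSu hcom
  obtain ⟨hp1, hp2, hp3⟩ := hpar J hJ2 hJ1 (Y v')
  refine hg _ hp1 hp2 hp3 N hN0 ?_
  rw [asm_map_map]
  have h3 : g ^ N * Y v' = Y v' * ((Y v')⁻¹ * g ^ N * Y v') := by group
  rw [h3, ← asm_map_map, hnorm]

end Pool.Agent.H54.RF
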