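import Pool.Agent.H54.RF.Pk

/-!
# Project RF (MP_35eb49): ranges of checks
-/

set_option autoImplicit false

namespace Pool.Agent.H54.RF

namespace Ops

variable (O : Ops)

/-- the checks of the strips for the second elements `lo + 1, …, lo + n` -/
noncomputable def t1 (X0 lo n : ℕ) : Bool :=
  allR n fun i => frc (Nat.succ (Nat.add lo i)) fun X1 => O.chk1 X0 X1

/-- the checks of the cubes for the second elements `lo + 1, …, lo + n` -/
noncomputable def t2 (X0 lo n : ℕ) : Bool :=
  allR n fun i => frc (Nat.succ (Nat.add lo i)) fun X1 =>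
    bi (Nat.blt (O.orb X1) (O.orb X0)) true (O.chk2 X0 X1)

theorem frc_eq {α : Type} (x : ℕ) (f : ℕ → α) : frc x f = f x := by
  cases x <;> rfl

theorem allR_iff (n : ℕ) (f : ℕ → Bool) : allR n f = true ↔ ∀ k < n, f k = true := by
  induction n with
  | zero => simp [allR]
  | succ n ih =>
    have h : allR (n + 1) f = bi (f n) (allR n f) false := rfl
    rw [h]
    constructor
    · intro h1 k hk
      cases hf : f n with
      | false => rw [hf] at h1; exact absurd h1 (by simp [bi])
      | true =>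
        rw [hf] at h1
        rcases Nat.lt_succ_iff_lt_or_eq.mp hk with h2 | h2
        · exact ih.mp h1 k h2
        · rw [h2, hf]
    · intro h1
      rw [h1 n (Nat.lt_succ_self n)]
      exact ih.mpr fun k hk => h1 k (Nat.lt_succ_of_lt hk)

theorem t1_spec {X0 lo n : ℕ} (h : O.t1 X0 lo n = true) (X1 : ℕ) (h1 : lo < X1)
    (h2 : X1 ≤ lo + n) : O.chk1 X0 X1 = true := by
  have h3 := (allR_iff _ _).mp h (X1 - lo - 1) (by omega)
  rw [frc_eq] at h3
  have h4 : Nat.succ (Nat.add lo (X1 - lo - 1)) = X1 := by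
    show lo + (X1 - lo - 1) + 1 = X1
    omega
  rwa [h4] at h3

theorem t2_spec {X0 lo n : ℕ} (h : O.t2 X0 lo n = true) (X1 : ℕ) (h1 : lo < X1)
    (h2 : X1 ≤ lo + n) (h5 : O.orb X0 ≤ O.orb X1) : O.chk2 X0 X1 = true := by
  have h3 := (allR_iff _ _).mp h (X1 - lo - 1) (by omega)
  rw [frc_eq] at h3
  have h4 : Nat.succ (Nat.add lo (X1 - lo - 1)) = X1 := by
    show lo + (X1 - lo - 1) + 1 = X1
    omega
  rw [h4] at h3
  have h6 : Nat.blt (O.orb X1) (O.orb X0) = false := by
    rw [Bool.eq_false_iff]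
    intro h7
    have h8 : O.orb X1 + 1 ≤ O.orb X0 := Nat.le_of_ble_eq_true h7
    omega
  rw [h6] at h3
  exact h3

end Ops

end Pool.Agent.H54.RF
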