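import Pool.Agent.H54.RF.Asm
import Pool.Agent.H54.RF.Tst

/-!
# Project RF (MP_35eb49): assembly from the checks
-/

set_option autoImplicit false

namespace Pool.Agent.H54.RF

open NC

/-- The assembly, from the checks. -/
theorem asmD (hcone : SpCone) {n : ℕ} (M : CoxeterMatrix (Fin n)) (hn : 0 < n)
    (D : Dat) (hD : D.check = true) (X : Cert) (hX : X.check D = true) (hm : X.m.length = n)
    (hM : ∀ i j : Fin n, M i j = Wd.en X.m i j) (hr : Nat.ble 2 (Dat.rf D.L D.full) = true)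
    (O : Ops) (el : ℕ → ℕ) (reps : List ℕ) (hA : O.ckA D el = true) (hB : O.ckB D el = true)
    (hC : O.ckC D el reps = true) (hP : O.ckP = true) (na : ℕ) (hN : O.ckN D el na = true)
    (h1 : Ck1 O reps) (h2 : Ck2 O reps)
    (hK : ∀ J ∈ reps, ∃ cp bd : ℕ → ℕ, O.ckK na J cp bd = true)
    (at_ : ℕ → ℕ) (hat : Ops.allR n (fun i => Ops.ba (Nat.ble (at_ i) O.top)
      (Nat.beq (el (at_ i)) (Nat.pow 2 (X.a.getD i 0)))) = true)
    (hXX : ∀ J ∈ reps, ∃ mv k s, O.ckX na n at_ J mv k s = true) : Concl M := by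
  obtain ⟨inst, hOk, hConn⟩ := sp_dat (fun S _ => NC.basic S) D hD
  have hBas : NC.Basic D.S := NC.basic D.S
  obtain ⟨a, ol, hR, ha, -⟩ := sp_cert D hBas hOk hD X hX n M hm hM
  obtain ⟨ix, sf, hE, hsf⟩ := sp_enc D hBas hOk hD O el reps hA hB hC hP
  have hNa := sp_na D hBas hOk O el reps ix sf na hE hsf hN
  have hrk : 2 ≤ NC.rk (⊤ : D.S) := by
    rw [hOk.rk, hOk.top]
    exact Nat.le_of_ble_eq_true hr
  have hne : bo D.S ≠ ⊤ := by
    intro h3
    rw [← h3, hBas.rk_bo] at hrk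
    omega
  have hai : ∀ i : Fin n, ix (a i) = at_ i := by
    intro i
    have h6 := (Ops.allR_iff _ _).mp hat i i.2
    have h7 : Nat.ble (at_ i) O.top = true ∧
        Nat.beq (el (at_ i)) (Nat.pow 2 (X.a.getD i 0)) = true := by
      cases h8 : Nat.ble (at_ i) O.top with
      | false => rw [h8] at h6; exact absurd h6 (by simp [Ops.ba, Ops.bi])
      | true => rw [h8] at h6; exact ⟨rfl, h6⟩
    have h3 := Nat.le_of_ble_eq_true h7.1
    have h4 : el (at_ i) = 2 ^ X.a.getD i 0 := Nat.eq_of_beq_eq_true h7.2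
    have h5 : sf (at_ i) = a i := by
      apply Dat.S.ext
      rw [hsf _ h3, h4, ha i]
    rw [← h5, hE.ix_sf _ h3]
  exact asm M hn hBas hConn hne hrk a ol X.h hR hcone O reps ix sf na hE hNa h1 h2 hK at_ hai hXX

end Pool.Agent.H54.RF
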