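import Pool.Agent.H54.RF.Art

/-!
# Project RF (MP_35eb49): data of type D4
-/

set_option autoImplicit false
set_option maxRecDepth 100000
set_option maxHeartbeats 0

namespace Pool.Agent.H54.RF

/-- Data of type `D4`. -/
def dD4 : Dat where
  N := 12
  Kr := [
    0x6d4, 0xda1, 0xb4a, 0x241, 0x482, 0x904, 0x713, 0xc66, 0xa8d, 0x8d3, 0x3a6, 0x54d]
  tb := [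
    1, 2, 0, 4, 5, 3, 7, 8, 6, 10, 11, 9]
  L := [
    (0x0, 0), (0x1, 1), (0x2, 1), (0x4, 1), (0x8, 1), (0x10, 1), (0x20, 1), (0x40, 1), (0x80, 1),
    (0x100, 1), (0x200, 1), (0x400, 1), (0x800, 1), (0xd, 2), (0x13, 2), (0x26, 2), (0x41, 2),
    (0x82, 2), (0xd0, 2), (0x104, 2), (0x148, 2), (0x1a0, 2), (0x201, 2), (0x240, 2), (0x284, 2),
    (0x302, 2), (0x402, 2), (0x444, 2), (0x480, 2), (0x501, 2), (0x610, 2), (0x804, 2),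
    (0x842, 2), (0x881, 2), (0x900, 2), (0xa08, 2), (0xc20, 2), (0x241, 3), (0x3a6, 3),
    (0x482, 3), (0x54d, 3), (0x6d4, 3), (0x713, 3), (0x8d3, 3), (0x904, 3), (0xa8d, 3),
    (0xb4a, 3), (0xc66, 3), (0xda1, 3), (0xfff, 4)]

/-- Certificates of type `D4`. -/
def xD4 : Cert where
  m := [[1, 3, 2, 2], [3, 1, 3, 3], [2, 3, 1, 2], [2, 3, 2, 1]]
  a := [0, 3, 6, 9]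
  ol := [1, 0, 2, 3]
  h := 3
  dh := [
    (0, 1, 0xd), (0, 2, 0x41), (0, 3, 0x201), (1, 0, 0xd), (1, 2, 0x148), (1, 3, 0xa08),
    (2, 0, 0x41), (2, 1, 0x148), (2, 3, 0x240), (3, 0, 0x201), (3, 1, 0xa08), (3, 2, 0x240)]
  P := [
    ⟨0, 3, 0, [0, 7, 6, 4, 2, 4, 7, 5, 3, 7, 6, 5, 6, 10, 11]⟩,
    ⟨1, 3, 1, [7, 6, 4, 7, 8, 6, 5, 3, 1, 3, 8, 9, 7, 6, 4, 2, 6, 5, 4, 8, 6, 9, 10, 8, 7, 5, 3,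
    7, 6, 5, 6]⟩, ⟨2, 3, 2, [2, 0, 7, 6, 4, 2, 1, 4, 5, 3, 5, 7, 6, 9, 11]⟩,
    ⟨3, 3, 3, [3, 2, 0, 6, 4, 2, 1, 4, 5, 3, 2, 5, 7, 9, 10]⟩]
  R := [
    ⟨0, 2, 0xd, 1, 0, 0, 1, [0, 4, 3]⟩,
    ⟨0, 4, 0x13, 2, 1, 1, 0, [4, 7, 10, 8, 6, 5, 3, 8, 11, 9, 7, 6, 11, 10, 9, 7, 5, 4, 2, 0, 4,
    7, 6, 8, 10, 9, 7, 5, 9, 8, 12, 11]⟩, ⟨0, 6, 0x41, 0, 2, 0, 2, [0]⟩,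
    ⟨0, 7, 0x881, 2, 2, 2, 3, [2, 1, 5, 3, 8, 11, 14, 12, 10, 9, 7, 5, 4, 2, 0, 2, 4, 3, 6, 9,
    12, 16]⟩, ⟨0, 9, 0x201, 0, 3, 0, 3, [0]⟩,
    ⟨0, 10, 0x501, 2, 3, 2, 2, [1, 6, 5, 3, 8, 15, 14, 12, 10, 9, 7, 5, 4, 2, 0, 2, 4, 6, 7, 9]⟩,
    ⟨1, 0, 0xd, 0, 0, 2, 0, [6, 5, 3, 6, 7, 5, 4, 2, 0, 4, 7, 6, 7]⟩,
    ⟨1, 6, 0x148, 0, 2, 2, 2, [1, 6, 5, 3, 7, 5, 4, 2, 0, 2, 4, 6, 7]⟩,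
    ⟨1, 9, 0xa08, 0, 3, 2, 3, [2, 1, 5, 3, 7, 5, 4, 2, 0, 2, 4, 3, 6]⟩,
    ⟨2, 0, 0x41, 0, 0, 0, 0, [0]⟩,
    ⟨2, 1, 0x842, 2, 0, 2, 3, [2, 1, 5, 3, 10, 8, 11, 12, 10, 9, 7, 5, 4, 2, 0, 2, 4, 3, 6, 9,
    12, 11, 16, 15]⟩,
    ⟨2, 4, 0xd0, 2, 1, 1, 2, [1, 6, 4, 7, 8, 6, 5, 3, 8, 11, 9, 7, 6, 11, 10, 9, 7, 5, 4, 2, 0,
    2, 4, 7, 6, 8, 10, 9, 7, 5, 9, 8, 7, 12]⟩, ⟨2, 8, 0x148, 1, 2, 0, 1, [2, 0, 4]⟩,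
    ⟨2, 9, 0x240, 0, 3, 0, 3, [0]⟩,
    ⟨2, 10, 0x444, 2, 3, 2, 0, [6, 5, 3, 6, 10, 8, 15, 14, 12, 10, 9, 7, 5, 4, 2, 0, 4, 7, 6, 7,
    9, 11]⟩, ⟨3, 0, 0x201, 0, 0, 0, 0, [0]⟩,
    ⟨3, 1, 0x302, 2, 0, 2, 2, [1, 6, 5, 3, 11, 10, 8, 11, 12, 10, 9, 7, 5, 4, 2, 0, 2, 4, 6, 7,
    9, 12, 11, 12, 16, 15]⟩,
    ⟨3, 4, 0x610, 2, 1, 1, 3, [2, 1, 7, 6, 4, 7, 8, 6, 5, 3, 8, 9, 7, 6, 11, 10, 9, 7, 5, 4, 2,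
    0, 2, 4, 3, 7, 6, 8, 10, 9, 7, 5, 9, 8, 7, 8]⟩, ⟨3, 6, 0x240, 0, 2, 0, 2, [0]⟩,
    ⟨3, 7, 0x284, 2, 2, 2, 0, [6, 5, 3, 6, 11, 10, 8, 14, 12, 10, 9, 7, 5, 4, 2, 0, 4, 7, 6, 7,
    9, 11, 12, 16]⟩, ⟨3, 11, 0xa08, 1, 3, 0, 1, [3, 2, 0]⟩]

end Pool.Agent.H54.RF
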