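import Pool.Agent.H54.RF.OpsF4
import Pool.Agent.H54.RF.DtF4
import Pool.Agent.H54.RF.SpecB

/-!
# Project RF (MP_35eb49): checks of the operations of type F4
-/

set_option autoImplicit false
set_option maxRecDepth 100000
set_option maxHeartbeats 0

namespace Pool.Agent.H54.RF

theorem oaF4 : oF4.ckA dF4 eF4 = true := by decide +kernel

theorem obF4 : oF4.ckB dF4 eF4 = true := by decide +kernel

theorem ocF4 : oF4.ckC dF4 eF4 rF4 = true := by decide +kernel

theorem opF4 : oF4.ckP = true := by decide +kernel

theorem onF4 : oF4.ckN dF4 eF4 24 = true := by decide +kernel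

theorem orF4 : Nat.ble 2 (Dat.rf dF4.L dF4.full) = true := by decide +kernel

/-- the indices of the generators -/
def atF4 (i : ℕ) : ℕ := [1, 7, 13, 19].getD i 0

theorem ogF4 : Ops.allR 4 (fun i => Ops.ba (Nat.ble (atF4 i) oF4.top)
    (Nat.beq (eF4 (atF4 i)) (Nat.pow 2 (xF4.a.getD i 0)))) = true := by decide +kernel

end Pool.Agent.H54.RF
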