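import Mathlib

/-!
# Project RF (MP_35eb49): kernel checks for the classification of flats

All functions are written with recursors, so that the kernel evaluates them quickly.
-/

set_option autoImplicit false

namespace Pool.Agent.H54.RF

/-- Operations on the indices of the simple elements. `0` is the least element, `top` the
greatest one, the indices from `1` to `nf` are the elements with a free orbit under `tau`. -/
structure Ops where
  m : ℕ
  h : ℕ
  top : ℕ
  nf : ℕ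
  mt : ℕ → ℕ → ℕ
  kk : ℕ → ℕ
  tt : ℕ → ℕ → ℕ
  pr : ℕ → ℕ → ℕ
  orb : ℕ → ℕ
  f1 : ℕ → ℕ
  f2 : ℕ → ℕ

namespace Ops

/-- evaluate the argument first -/
noncomputable def frc {α : Type} (x : ℕ) (f : ℕ → α) : α :=
  Nat.rec (motive := fun _ => α) (f 0) (fun n _ => f (Nat.succ n)) x

/-- if then else -/
noncomputable def bi (c t e : Bool) : Bool := Bool.rec (motive := fun _ => Bool) e t c

/-- all numbers below `n` -/
noncomputable def allR (n : ℕ) (f : ℕ → Bool) : Bool :=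
  Nat.rec (motive := fun _ => Bool) true (fun k ih => bi (f k) ih false) n

/-- the numbers below `n` that satisfy the test -/
noncomputable def fl (n : ℕ) (f : ℕ → Bool) : List ℕ :=
  Nat.rec (motive := fun _ => List ℕ) []
    (fun k ih => Bool.rec (motive := fun _ => List ℕ) ih (k :: ih) (f k)) n

/-- all elements of the list -/
noncomputable def allL (l : List ℕ) (f : ℕ → Bool) : Bool :=
  List.rec (motive := fun _ => Bool) true (fun x _ ih => bi (f x) ih false) l

section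

variable (O : Ops)

/-- the rotation that moves a free element to the first element of its orbit -/
noncomputable def gr (x : ℕ) : ℕ := Nat.mod (Nat.sub O.h (Nat.mod (Nat.sub x 1) O.h)) O.h

/-- canonical rotation of a state -/
noncomputable def cs (x0 x1 x2 : ℕ) : ℕ :=
  Bool.rec (motive := fun _ => ℕ) (Bool.rec (motive := fun _ => ℕ)
    (Bool.rec (motive := fun _ => ℕ) (O.gr (O.mt x1 x2)) (O.gr x2) (Nat.ble x2 O.nf))
    (O.gr x1) (Nat.ble x1 O.nf)) (O.gr x0) (Nat.ble x0 O.nf)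

/-- part of a key -/
noncomputable def kx (w c x : ℕ) : ℕ := Nat.mul (O.tt c x) w

/-- part of the key of a state -/
noncomputable def ks (c x0 x1 x2 : ℕ) : ℕ :=
  Nat.add (O.kx (Nat.mul O.m (Nat.mul O.m O.m)) c x0)
    (Nat.add (O.kx (Nat.mul O.m O.m) c x1) (O.kx O.m c x2))

/-- potential of the edge of a strip -/
noncomputable def phi (x0 x1 x2 p : ℕ) : ℕ :=
  frc (O.cs x0 x1 x2) fun c => O.f1 (Nat.add (O.ks c x0 x1 x2) (O.tt c p))

/-- value of a face -/
noncomputable def psi (x0 x1 x2 p q r : ℕ) : ℕ :=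
  frc (O.cs x0 x1 x2) fun c => O.f2 (Nat.add (Nat.mul (O.ks c x0 x1 x2) (Nat.mul O.m O.m))
    (Nat.add (O.kx (Nat.mul O.m O.m) c p) (Nat.add (O.kx O.m c q) (O.tt c r))))

/-- one side of a core -/
noncomputable def co1 (F a R : ℕ) : Bool :=
  frc (O.kk a) fun ka => frc (O.mt ka F) fun b => frc (O.pr b R) fun P =>
    bi (Nat.beq P 0) false (bi (Nat.beq P O.top) false (Nat.beq (O.mt ka P) b))

/-- a core -/
noncomputable def core (F a a' R : ℕ) : Bool := bi (O.co1 F a R) (O.co1 F a' R) false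

/-- the list of cores -/
noncomputable def cl (F a a' : ℕ) : List ℕ := fl O.top (O.core F a a')

/-- the elements whose meet with `k` is `b` -/
noncomputable def ql (k b : ℕ) : List ℕ := fl O.top fun q => Nat.beq (O.mt k q) b

/-- the element `F (v + e a)` determined by the core `R` -/
noncomputable def pp (a F R : ℕ) : ℕ := O.pr (O.mt (O.kk a) F) R

/-- the potential does not increase along the strips at the states with given first two
elements -/
noncomputable def chk1 (X0 X1 : ℕ) : Bool :=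
  frc (O.mt X0 X1) fun a2 => bi (Nat.beq a2 0) true <|
  allR O.top fun X2 => frc (O.mt X0 X2) fun a1 => bi (Nat.beq a1 0) true <|
  frc (O.mt X1 X2) fun a0 => bi (Nat.beq a0 0) true <| bi (Nat.beq (O.mt a0 X0) 0) (
    frc (O.kk a0) fun k0 => frc (O.mt k0 X1) fun b02 =>
    allL (O.cl X2 a0 a1) fun R =>
      frc (O.pp a1 X2 R) fun P => frc (O.phi X0 X1 X2 P) fun u => frc (O.pp a0 X2 R) fun P2 =>
      allL (O.ql k0 b02) fun q => bi (Nat.beq (O.mt q P2) 0) true
        (Nat.ble (O.phi k0 q P2 R) u)) true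

/-- the strip in direction `d` on the side of `e` has constant potential -/
noncomputable def pc1 (Xd Xe Xg ad ae Rg Q : ℕ) : Bool :=
  frc (O.kk ad) fun kd => frc (O.pp ad Xg Rg) fun P => bi (Nat.beq (O.mt P Q) 0) false <|
    Nat.beq (O.phi Xd Xe Xg (O.pp ae Xg Rg)) (O.phi kd Q P Rg)

/-- the two strips in direction `d` have constant potential -/
noncomputable def pc (Xd Xe Xg ad ae ag Re Rg : ℕ) : Bool :=
  frc (O.pp ad Xe Re) fun Q => frc (O.pp ad Xg Rg) fun P =>
    bi (O.pc1 Xd Xe Xg ad ae Rg Q) (O.pc1 Xd Xg Xe ad ag Re P) false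

/-- the value of the near face -/
noncomputable def nr (Xd Xe Xg ae ag Rd Re Rg : ℕ) : ℕ :=
  frc (O.pp ae Xg Rg) fun P => frc (O.pp ag Xe Re) fun Q => O.psi Xd Xe Xg P Q Rd

/-- the value of the far face -/
noncomputable def fr (Xd Xe Xg ad Re Rg : ℕ) : ℕ :=
  frc (O.pp ad Xe Re) fun Q => frc (O.pp ad Xg Rg) fun P =>
    O.psi (O.kk ad) Q P Rg Re (O.tt 1 Xd)

/-- the round -/
noncomputable def rh (v : ℕ) : ℕ := Nat.land v 31

/-- minimum -/
noncomputable def mn (a b : ℕ) : ℕ := Bool.rec (motive := fun _ => ℕ) b a (Nat.ble a b)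

/-- the condition for the labels: `u` is the value of the near face, `v` the one of the far face -/
noncomputable def lb (Xd Xe Xg ad Re Rg u v : ℕ) : Bool :=
  frc (Nat.sub O.h (O.cs Xd Xe Xg)) fun cu =>
  frc (O.pp ad Xe Re) fun Q => frc (O.pp ad Xg Rg) fun P =>
  frc (Nat.sub O.h (O.cs (O.kk ad) Q P)) fun cv =>
  frc (Nat.div u 32) fun lu => frc (Nat.div v 32) fun lv =>
  bi (Nat.blt lu O.top) (bi (Nat.blt lv O.top) (
  frc (O.tt (Nat.mod cu O.h) lu) fun wu => frc (O.tt (Nat.mod cv O.h) lv) fun wv =>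
  Bool.rec (motive := fun _ => Bool)
    (bi (Nat.beq (O.mt ad wu) ad) (Nat.beq (O.mt wv wu) wv) false)
    (frc (O.tt 1 wu) fun wt => bi (Nat.beq (O.mt Xd wu) Xd) (Nat.beq (O.mt wv wt) wv) false)
    (Nat.beq (Nat.land u 1) 1)) false) false

/-- the condition for a near face with value `u`, where `r` is the minimal round -/
noncomputable def cd (Xd Xe Xg ad Re Rg u r : ℕ) : Bool :=
  bi (Nat.beq (rh u) r) (frc (O.fr Xd Xe Xg ad Re Rg) fun v =>
    bi (Nat.beq (rh v) r) (O.lb Xd Xe Xg ad Re Rg u v) (Nat.blt (rh v) r)) true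

/-- the far face has an earlier round -/
noncomputable def fd (Xd Xe Xg ad Re Rg r : ℕ) : Bool := Nat.blt (rh (O.fr Xd Xe Xg ad Re Rg)) r

/-- the condition for a cube -/
noncomputable def cb (X0 X1 X2 a0 a1 a2 R0 R1 R2 : ℕ) : Bool :=
  frc (O.nr X0 X1 X2 a1 a2 R0 R1 R2) fun u1 => frc (O.nr X0 X2 X1 a2 a1 R0 R2 R1) fun u2 =>
  frc (O.nr X1 X0 X2 a0 a2 R1 R0 R2) fun u3 => frc (O.nr X1 X2 X0 a2 a0 R1 R2 R0) fun u4 =>
  frc (O.nr X2 X0 X1 a0 a1 R2 R0 R1) fun u5 => frc (O.nr X2 X1 X0 a1 a0 R2 R1 R0) fun u6 =>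
  frc (mn (rh u1) (mn (rh u2) (mn (rh u3) (mn (rh u4) (mn (rh u5) (rh u6)))))) fun r =>
  bi (bi (Nat.blt r 31) (bi (O.cd X0 X1 X2 a0 R1 R2 u1 r) (bi (O.cd X0 X2 X1 a0 R2 R1 u2 r)
    (bi (O.cd X1 X0 X2 a1 R0 R2 u3 r) (bi (O.cd X1 X2 X0 a1 R2 R0 u4 r)
    (bi (O.cd X2 X0 X1 a2 R0 R1 u5 r) (O.cd X2 X1 X0 a2 R1 R0 u6 r) false)
      false) false) false) false) false)
    true (bi (O.fd X0 X1 X2 a0 R1 R2 r) true (bi (O.fd X0 X2 X1 a0 R2 R1 r) true
    (bi (O.fd X1 X0 X2 a1 R0 R2 r) true (bi (O.fd X1 X2 X0 a1 R2 R0 r) true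
    (bi (O.fd X2 X0 X1 a2 R0 R1 r) true (O.fd X2 X1 X0 a2 R1 R0 r))))))

/-- the conditions for the cubes at the states with given first two elements -/
noncomputable def chk2 (X0 X1 : ℕ) : Bool :=
  frc (O.mt X0 X1) fun a2 => bi (Nat.beq a2 0) true <|
  allR O.top fun X2 => bi (Nat.ble X2 X1) true <| bi (Nat.blt (O.orb X2) (O.orb X0)) true <|
  frc (O.mt X0 X2) fun a1 => bi (Nat.beq a1 0) true <|
  frc (O.mt X1 X2) fun a0 => bi (Nat.beq a0 0) true <| bi (Nat.beq (O.mt a0 X0) 0) (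
    allL (O.cl X0 a1 a2) fun R0 => allL (O.cl X1 a0 a2) fun R1 =>
      bi (O.pc X2 X0 X1 a2 a0 a1 R0 R1) (allL (O.cl X2 a0 a1) fun R2 =>
        bi (O.pc X0 X1 X2 a0 a1 a2 R1 R2) (bi (O.pc X1 X2 X0 a1 a2 a0 R2 R0)
          (O.cb X0 X1 X2 a0 a1 a2 R0 R1 R2) true) true) true) true

end

end Ops

end Pool.Agent.H54.RF
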