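import Pool.Agent.H54.RF.SpecA

/-!
# Project RF (MP_35eb49), row A9: every direction is contained in a cone
-/

set_option autoImplicit false

namespace Pool.Agent.H54.RF

open Gar

/-- Bounded decreasing integer sequences stabilise. -/
theorem a9_stab (f : ℕ → ℤ) (hf : ∀ n, f (n + 1) ≤ f n) (b : ℤ) (hb : ∀ n, b ≤ f n) :
    ∃ N, ∀ n, N ≤ n → f n = f N := by
  have hanti : Antitone f := antitone_nat_of_succ_le hf
  obtain ⟨N, hN⟩ : ∃ N, ∀ n, (f N - b).toNat ≤ (f n - b).toNat := by
    have := WellFounded.has_min (measure (fun n : ℕ => (f n - b).toNat)).wf Set.univ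
      ⟨0, Set.mem_univ 0⟩
    obtain ⟨N, -, hN⟩ := this
    exact ⟨N, fun n => not_lt.mp (hN n (Set.mem_univ n))⟩
  refine ⟨N, fun n hn => le_antisymm (hanti hn) ?_⟩
  have h1 := hN n
  have h2 := hb n
  have h3 := hb N
  omega

variable {r : ℕ}

/-- `σ` is linear in the direction `z`. -/
def A9Lin (σ : (Fin r → ℤ) → ℤ) (z : Fin r → ℤ) : Prop := ∀ y, σ (y + z) = σ y + σ z

theorem a9_zero {σ : (Fin r → ℤ) → ℤ} (h : Sublin σ) : σ 0 = 0 := by
  have h1 := h.hom 0 0
  simpa using h1

theorem a9_nsmul {σ : (Fin r → ℤ) → ℤ} {z : Fin r → ℤ} (h : A9Lin σ z) (n : ℕ)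
    (y : Fin r → ℤ) : σ (n • z + y) = n * σ z + σ y := by
  induction n with
  | zero => simp
  | succ n ih =>
    have h1 : (n + 1) • z + y = n • z + y + z := by
      rw [add_smul, one_smul]
      abel
    rw [h1, h, ih]
    push_cast
    ring

/-- One step: make the functional linear in the direction `x`. -/
theorem a9_step {σ : (Fin r → ℤ) → ℤ} (h : Sublin σ) (x : Fin r → ℤ) :
    ∃ σ1 : (Fin r → ℤ) → ℤ, Sublin σ1 ∧ (∀ y, σ1 y ≤ σ y) ∧ A9Lin σ1 x ∧ σ1 x = σ x ∧
      (∀ z, A9Lin σ z → A9Lin σ1 z ∧ σ1 z = σ z) ∧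
      ∀ y, ∃ N : ℕ, ∀ n : ℕ, N ≤ n → σ (n • x + y) = n * σ x + σ1 y := by
  have hst : ∀ y, ∃ N : ℕ, ∀ n : ℕ, N ≤ n → σ (n • x + y) - n * σ x = σ (N • x + y) - N * σ x := by
    intro y
    refine a9_stab (fun n => σ (n • x + y) - n * σ x) (fun n => ?_) (-σ (-y)) fun n => ?_
    · have h1 := h.add (n • x + y) x
      have h2 : (n + 1) • x + y = n • x + y + x := by
        rw [add_smul, one_smul]
        abel
      have h3 : ((n + 1 : ℕ) : ℤ) * σ x = n * σ x + σ x := by push_cast; ring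
      change σ ((n + 1) • x + y) - ((n + 1 : ℕ) : ℤ) * σ x ≤ σ (n • x + y) - n * σ x
      rw [h2, h3]
      linarith
    · have h1 := h.add (n • x + y) (-y)
      rw [add_neg_cancel_right, h.hom] at h1
      change -σ (-y) ≤ σ (n • x + y) - n * σ x
      linarith
  choose N hN using hst
  have hk : ∀ y, ∀ n : ℕ, N y ≤ n →
      σ (n • x + y) = n * σ x + (σ (N y • x + y) - N y * σ x) := by
    intro y n hn
    have := hN y n hn
    linarith
  set σ1 : (Fin r → ℤ) → ℤ := fun y => σ (N y • x + y) - N y * σ x with hσ1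
  have hk' : ∀ y, ∀ n : ℕ, N y ≤ n → σ (n • x + y) = n * σ x + σ1 y := hk
  -- uniqueness
  have hu : ∀ y c, (∃ M : ℕ, ∀ n : ℕ, M ≤ n → σ (n • x + y) = n * σ x + c) → σ1 y = c := by
    rintro y c ⟨M, hM⟩
    have h1 := hk' y (max (N y) M) (le_max_left _ _)
    have h2 := hM (max (N y) M) (le_max_right _ _)
    linarith
  have hle : ∀ y, σ1 y ≤ σ y := by
    intro y
    have h1 := hk' y (N y) le_rfl
    have h2 := h.add (N y • x) y
    rw [h.hom] at h2
    linarith
  have hx : σ1 x = σ x := by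
    refine hu x (σ x) ⟨0, fun n _ => ?_⟩
    have h2 : n • x + x = (n + 1) • x := by rw [add_smul, one_smul]
    rw [h2, h.hom]
    push_cast
    ring
  refine ⟨σ1, ⟨fun m y => ?_, fun y z => ?_⟩, hle, ?_, hx, ?_, fun y => ⟨N y, hk' y⟩⟩
  · -- homogeneity
    rcases Nat.eq_zero_or_pos m with h0 | h0
    · subst h0
      have : σ1 0 = 0 := by
        refine hu 0 0 ⟨0, fun n _ => ?_⟩
        rw [add_zero, h.hom, add_zero]
      simpa using this
    · have h1 := hk' y (N y + N (m • y)) (Nat.le_add_right _ _)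
      have h2 := hk' (m • y) (m * (N y + N (m • y))) (by nlinarith)
      have h3 : (m * (N y + N (m • y))) • x + m • y = m • ((N y + N (m • y)) • x + y) := by
        rw [smul_add, smul_smul]
      rw [h3, h.hom, h1] at h2
      push_cast at h2
      linarith
  · -- subadditivity
    set n := N y + N z + N (y + z) with hn
    have h1 := hk' y n (by omega)
    have h2 := hk' z n (by omega)
    have h3 := hk' (y + z) (n + n) (by omega)
    have h4 : (n + n) • x + (y + z) = (n • x + y) + (n • x + z) := by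
      rw [add_smul]
      abel
    have h5 := h.add (n • x + y) (n • x + z)
    rw [h4] at h3
    push_cast at h3
    linarith
  · intro y
    rw [hx]
    refine hu (y + x) _ ⟨N y, fun n hn => ?_⟩
    have h1 := hk' y (n + 1) (by omega)
    have h2 : n • x + (y + x) = (n + 1) • x + y := by
      rw [add_smul, one_smul]
      abel
    rw [h2, h1]
    push_cast
    ring
  · intro z hz
    have h0 : ∀ y, σ1 (y + z) = σ1 y + σ z := by
      intro y
      refine hu (y + z) _ ⟨N y, fun n hn => ?_⟩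
      have h1 := hk' y n hn
      have h2 : n • x + (y + z) = (n • x + y) + z := by abel
      rw [h2, hz, h1]
      ring
    have h00 : σ1 0 = 0 := by
      refine hu 0 0 ⟨0, fun n _ => ?_⟩
      rw [add_zero, h.hom, add_zero]
    have h1 : σ1 z = σ z := by
      have := h0 0
      rwa [zero_add, h00, zero_add] at this
    exact ⟨fun y => by rw [h0, h1], h1⟩

/-- Make the functional linear in finitely many directions. -/
theorem a9_list (l : List (Fin r → ℤ)) : ∀ σ : (Fin r → ℤ) → ℤ, Sublin σ →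
    ∃ σ' : (Fin r → ℤ) → ℤ, Sublin σ' ∧ (∀ y, σ' y ≤ σ y) ∧
      (∀ z, A9Lin σ z → A9Lin σ' z ∧ σ' z = σ z) ∧ (∀ z ∈ l, A9Lin σ' z) ∧
      (∀ z ∈ l.head?, σ' z = σ z) ∧ ∀ y, ∃ p, σ' p = σ p ∧ σ' (p + y) = σ (p + y) := by
  induction l with
  | nil =>
    intro σ h
    exact ⟨σ, h, fun _ => le_rfl, fun z hz => ⟨hz, rfl⟩, by simp, by simp,
      fun y => ⟨0, rfl, rfl⟩⟩
  | cons x l ih =>
    intro σ h
    obtain ⟨σ1, h1, hle1, hx1, hxx, hL1, hN1⟩ := a9_step h x
    obtain ⟨σ2, h2, hle2, hL2, hl2, -, hp2⟩ := ih σ1 h1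
    obtain ⟨hx2, hxx2⟩ := hL2 x hx1
    refine ⟨σ2, h2, fun y => (hle2 y).trans (hle1 y), fun z hz => ?_, fun z hz => ?_,
      fun z hz => ?_, fun y => ?_⟩
    · obtain ⟨a, b⟩ := hL1 z hz
      obtain ⟨c, d⟩ := hL2 z a
      exact ⟨c, d.trans b⟩
    · rcases List.mem_cons.1 hz with rfl | hz
      · exact hx2
      · exact hl2 z hz
    · have hz' : x = z := by simpa using hz
      rw [← hz', hxx2, hxx]
    · obtain ⟨p, hp, hpy⟩ := hp2 y
      obtain ⟨M, hM⟩ := hN1 p
      obtain ⟨M', hM'⟩ := hN1 (p + y)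
      refine ⟨(M + M') • x + p, ?_, ?_⟩
      · rw [hM (M + M') (by omega), a9_nsmul hx2, hp, hxx2, hxx]
      · rw [add_assoc, hM' (M + M') (by omega), a9_nsmul hx2, hpy, hxx2, hxx]

/-- Every direction is contained in a cone. -/
theorem sp_cone : SpCone := by
  intro r τ h x
  obtain ⟨σ, hσ, hle, hL, hl, hx, hp⟩ :=
    a9_list (x :: (Finset.univ : Finset (Fin r)).toList.map fun i => Pi.single i (1 : ℤ)) τ h
  have h0 : σ 0 = 0 := a9_zero hσ
  let S : AddSubgroup (Fin r → ℤ) :=
    { carrier := {z | A9Lin σ z}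
      add_mem' := by
        intro a b ha hb y
        have h1 : σ (y + (a + b)) = σ y + σ a + σ b := by
          rw [← add_assoc, hb, ha]
        have h2 : σ (a + b) = σ a + σ b := hb a
        rw [h1, h2]
        ring
      zero_mem' := by
        intro y
        rw [add_zero, h0, add_zero]
      neg_mem' := by
        intro a ha y
        have h1 := ha (y + -a)
        have h2 := ha (-a)
        rw [neg_add_cancel, h0] at h2
        rw [neg_add_cancel_right] at h1
        linarith }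
  have hS : ∀ z, z ∈ S := by
    intro z
    have hz : z = ∑ i, z i • (Pi.single i (1 : ℤ) : Fin r → ℤ) := by
      funext j
      simp [Finset.sum_apply, Pi.single_apply]
    rw [hz]
    refine S.sum_mem fun i _ => S.zsmul_mem ?_ _
    refine hl _ (List.mem_cons_of_mem _ (List.mem_map.2 ⟨i, ?_, rfl⟩))
    simp
  have hadd : ∀ y z, σ (y + z) = σ y + σ z := fun y z => hS z y
  refine ⟨{ toFun := σ, map_zero' := h0, map_add' := hadd }, ⟨fun y => hle y, fun y => hp y⟩, ?_⟩
  exact hx x (by simp)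

end Pool.Agent.H54.RF
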