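import Pool.Agent.H54.RF.SpecC

/-!
# Project RF (MP_35eb49): noncrossing partition lattices from bit masks

The atoms are the numbers below `N`, a set of atoms is a bit mask. `Kr` is the list of the masks
of the complements of the atoms.
-/

set_option autoImplicit false

namespace Pool.Agent.H54.RF

/-- Data of a lattice of noncrossing partitions: the number of atoms, the complements of the
atoms, conjugation by `δ` on the atoms, and the simple elements with their ranks. -/
structure Dat where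
  N : ℕ
  Kr : List ℕ
  tb : List ℕ
  L : List (ℕ × ℕ)

namespace Dat

/-- The bit of `u` at position `r`. -/
def bt (u r : ℕ) : Bool := Nat.beq (Nat.mod (Nat.shiftRight u r) 2) 1

/-- Intersection of the masks in the list at the positions of the bits of `u`. -/
def Kf : List ℕ → ℕ → ℕ → ℕ
  | [], _, acc => acc
  | k :: ks, u, acc => Kf ks (Nat.div u 2) (cond (Nat.beq (Nat.mod u 2) 1) (Nat.land acc k) acc)

/-- The image of a mask. -/
def tf : List ℕ → ℕ → ℕ → ℕ
  | [], _, acc => acc
  | k :: ks, u, acc => tf ks (Nat.div u 2)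
      (cond (Nat.beq (Nat.mod u 2) 1) (Nat.lor acc (Nat.pow 2 k)) acc)

/-- The full mask. -/
def full (D : Dat) : ℕ := 2 ^ D.N - 1

/-- The complement of a mask. -/
def Km (D : Dat) (u : ℕ) : ℕ := Kf D.Kr u D.full

/-- Conjugation by `δ` on masks. -/
def tm (D : Dat) (u : ℕ) : ℕ := tf D.tb u 0

/-- The rank of a mask. -/
def rf : List (ℕ × ℕ) → ℕ → ℕ
  | [], _ => 0
  | p :: ps, u => cond (Nat.beq p.1 u) p.2 (rf ps u)

/-- Membership in the list. -/
def mem : List (ℕ × ℕ) → ℕ → Bool
  | [], _ => false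
  | p :: ps, u => cond (Nat.beq p.1 u) true (mem ps u)

/-- All elements of a list satisfy a test. -/
def allL {α : Type} (p : α → Bool) : List α → Bool
  | [] => true
  | x :: xs => cond (p x) (allL p xs) false

/-- `p i k` for all elements `k` of the list, where `i` is the position, starting from `i`. -/
def allI (p : ℕ → ℕ → Bool) : ℕ → List ℕ → Bool
  | _, [] => true
  | i, k :: ks => cond (p i k) (allI p (Nat.succ i) ks) false

/-- `p i k` for some element `k` of the list, where `i` is the position, starting from `i`. -/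
def exI (p : ℕ → ℕ → Bool) : ℕ → List ℕ → Bool
  | _, [] => false
  | i, k :: ks => cond (p i k) true (exI p (Nat.succ i) ks)

/-- `r s` is simple if and only if `s (tau r)` is. -/
def ckSym (D : Dat) : Bool :=
  Nat.beq D.Kr.length D.N && Nat.beq D.tb.length D.N &&
  allL (fun t => Nat.blt t D.N) D.tb &&
  allI (fun r t => allI (fun s t' => Nat.beq r s || !(Nat.beq t t')) 0 D.tb) 0 D.tb &&
  allI (fun r k => Nat.blt k (Nat.pow 2 D.N) &&
    allI (fun s k' => Nat.beq (Nat.mod (Nat.shiftRight k s) 2)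
      (Nat.mod (Nat.shiftRight k' (D.tb.getD r 0)) 2)) 0 D.Kr) 0 D.Kr

/-- The elements of the list are closed, the full mask is in the list, and the list is closed
under intersections with the complements of atoms. The masks of rank one are the atoms. -/
def ckCl (D : Dat) : Bool :=
  mem D.L D.full &&
  allL (fun p => Nat.blt p.1 (Nat.pow 2 D.N) && Nat.beq (D.Km (D.Km p.1)) (D.tm p.1) &&
    (cond (Nat.beq p.2 1) (exI (fun r _ => Nat.beq p.1 (Nat.pow 2 r)) 0 D.Kr) true) &&
    allL (fun k => mem D.L (Nat.land p.1 k)) D.Kr) D.L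

/-- The rule for the complement, and the ranks. -/
def ckStar (D : Dat) : Bool :=
  allL (fun p => allI (fun r k => cond (bt p.1 r)
    (Nat.beq (Nat.land (D.Km (Nat.land k p.1)) k) (D.Km p.1) &&
      Nat.beq (Nat.succ (rf D.L (Nat.land k p.1))) p.2) true) 0 D.Kr) D.L &&
  allL (fun p => (Nat.beq p.1 0 || Nat.blt 0 p.2) && Nat.beq (rf D.L p.1) p.2) D.L &&
  Nat.beq (rf D.L 0) 0 && mem D.L 0 &&
  allI (fun r _ => mem D.L (Nat.pow 2 r) && Nat.beq (rf D.L (Nat.pow 2 r)) 1) 0 D.Kr

/-- The union of the masks of the iterates of `x ↦ K x ⊓ m`. -/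
def orb (D : Dat) (m : ℕ) : ℕ → ℕ → ℕ → ℕ
  | 0, _, acc => acc
  | f + 1, x, acc => orb D m f (Nat.land (D.Km x) m) (Nat.lor acc x)

/-- Connectedness of the atoms below an element of rank at least two. -/
def ckConn (D : Dat) : Bool :=
  allL (fun p => cond (Nat.ble 3 p.2) (
    allI (fun r k => cond (bt p.1 r)
      (allI (fun r1 k1 => cond (bt p.1 r1)
        (exI (fun r2 k2 => bt p.1 r2 && !(Nat.beq (Nat.land k k2) (D.Km p.1)) &&
          !(Nat.beq (Nat.land k1 k2) (D.Km p.1))) 0 D.Kr) true) 0 D.Kr) true) 0 D.Kr)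
    (cond (Nat.beq p.2 2) (allI (fun r _ => cond (bt p.1 r)
      (Nat.beq (orb D p.1 8 (Nat.pow 2 r) 0) p.1) true) 0 D.Kr) true)) D.L

/-- All checks. -/
def check (D : Dat) : Bool := ckSym D && ckCl D && ckStar D && ckConn D

end Dat

/-- The simple elements. -/
@[ext] structure Dat.S (D : Dat) : Type where
  val : ℕ
  property : Dat.mem D.L val = true

/-- The lattice is described by the data. -/
structure Dat.Ok (D : Dat) [NC D.S] : Prop where
  le : ∀ x y : D.S, x ≤ y ↔ Nat.land x.1 y.1 = x.1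
  inf : ∀ x y : D.S, (x ⊓ y).1 = Nat.land x.1 y.1
  top : (⊤ : D.S).1 = D.full
  bo : (NC.bo D.S).1 = 0
  K : ∀ x : D.S, (NC.K x).1 = D.Km x.1
  tau : ∀ x : D.S, (NC.tau x).1 = D.tm x.1
  rk : ∀ x : D.S, NC.rk x = Dat.rf D.L x.1
  atom : ∀ r < D.N, Dat.mem D.L (2 ^ r) = true
  rk_one : ∀ x : D.S, NC.rk x = 1 ↔ ∃ r < D.N, x.1 = 2 ^ r

namespace NC

/-- The atoms below an element of rank at least two are connected. -/
structure Conn (S : Type) [NC S] : Prop where
  one : ∀ m : S, m ≠ bo S → ∃ r : S, rk r = 1 ∧ r ≤ m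
  two : ∀ m : S, rk m = 2 → ∀ r s : S, rk r = 1 → rk s = 1 → r ≤ m → s ≤ m →
    ∃ k : ℕ, (fun x => dv x m)^[k] r = s
  three : ∀ m : S, 3 ≤ rk m → ∀ r s : S, rk r = 1 → rk s = 1 → r ≤ m → s ≤ m →
    ∃ t : S, rk t = 1 ∧ t ≤ m ∧ (∃ j, r ≤ j ∧ t ≤ j ∧ j < m) ∧ ∃ j, s ≤ j ∧ t ≤ j ∧ j < m

end NC

/-- The checks are sound. -/
def SpDat : Prop := ∀ D : Dat, D.check = true → ∃ inst : NC D.S, @Dat.Ok D inst ∧ @NC.Conn D.S inst

end Pool.Agent.H54.RF
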