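import Pool.Agent.H54.RF.Basic

/-!
# Project RF (MP_35eb49): translation numbers, greedy words, abelian subgroups, flats
-/

set_option autoImplicit false

namespace Pool.Agent.H54.RF

namespace Gar

variable {G : Type} [Group G] [Gar G]

/-- `t` is the translation number of `h`, with bounded error. -/
def IsT (h : G) (t : ℤ) : Prop :=
  ∃ C : ℤ, ∀ n : ℕ, n * t ≤ d 1 (h ^ n) ∧ d 1 (h ^ n) ≤ n * t + C

/-- The symmetric distance; it is invariant under right multiplication by powers of `δ`. -/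
noncomputable def dd (x y : G) : ℤ := d x y + d y x

/-- The points that `g` moves no more than it moves `1`. -/
def MM (g : G) : Set G := {y | d y (g * y) ≤ d 1 g ∧ d y (g⁻¹ * y) ≤ d 1 g⁻¹}

/-- `Gr s w s' n`: `w` is the product of `n` proper letters, the first one may follow the letter
`s` and the last one is `s'` (or `s' = s` if `n = 0`). -/
inductive Gr : G → G → G → ℕ → Prop
  | nil (s : G) : Gr s 1 s 0
  | cons {s u w s' : G} {n : ℕ} (h1 : 1 < u) (h2 : u < δ) (h3 : (s * u) ⊓ δ = s)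
      (h4 : Gr u w s' n) : Gr s (u * w) s' (n + 1)

/-- The letter from `y i` to `y (i + 1)`. -/
def st (y : ℕ → G) (i : ℕ) : G := (y i)⁻¹ * y (i + 1)

/-- `κ` is an injective homomorphism from `ℤ ^ r` to `G`, and `κ ω` is a central power of `δ`. -/
structure Ab {r : ℕ} (κ : (Fin r → ℤ) → G) (ω : Fin r → ℤ) (W : ℤ) : Prop where
  add : ∀ x y, κ (x + y) = κ x * κ y
  inj : ∀ x, κ x = 1 → x = 0
  pos : 0 < W
  dvd : (ord G : ℤ) ∣ W
  om : κ ω = δ ^ W

/-- `u` commutes with all elements of the abelian subgroup. -/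
def Cen {r : ℕ} (κ : (Fin r → ℤ) → G) (u : G) : Prop := ∀ x, Commute (κ x) u

/-- The elements that commute with the abelian subgroup have a power in it. -/
def Tor {r : ℕ} (κ : (Fin r → ℤ) → G) : Prop :=
  ∀ u : G, Cen κ u → ∃ (b : ℕ) (x : Fin r → ℤ), 0 < b ∧ u ^ b = κ x

/-- The points that the generators of the abelian subgroup and their inverses move no more than
they move `1`. -/
def ML {r : ℕ} (κ : (Fin r → ℤ) → G) : Set G := {y | ∀ i, y ∈ MM (κ (Pi.single i 1))}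

/-- A greedy ray of points of `ML κ` that goes away from the abelian subgroup. -/
structure Ray {r : ℕ} (κ : (Fin r → ℤ) → G) (y : ℕ → G) : Prop where
  zero : y 0 = 1
  pre : ∀ i j, i ≤ j → y j ⊓ δ ^ i = y i
  mem : ∀ i, y i ∈ ML κ
  far : ∀ (i : ℕ) (x : Fin r → ℤ), (i : ℤ) ≤ dd 1 (κ x * y i)

/-- `I` is the horoball of a horofunction that grows like `φ` along the abelian subgroup. -/
structure Bus {r : ℕ} (κ : (Fin r → ℤ) → G) (φ : (Fin r → ℤ) →+ ℤ) (I : Set G) : Prop where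
  down : ∀ x ∈ I, ∀ y ≤ x, y ∈ I
  sup : ∀ x ∈ I, ∀ y ∈ I, x ⊔ y ∈ I
  shift : ∀ (x : Fin r → ℤ) (z : G), κ x * z * δ ^ (-φ x) ∈ I ↔ z ∈ I
  delta : ∀ c : ℤ, δ ^ c ∈ I ↔ c ≤ 0

end Gar

/-- `φ` agrees with `τ` on a cone that generates the group, and is a minorant of `τ`. -/
def IsCone {r : ℕ} (τ : (Fin r → ℤ) → ℤ) (φ : (Fin r → ℤ) →+ ℤ) : Prop :=
  (∀ y, φ y ≤ τ y) ∧ ∀ y, ∃ p, φ p = τ p ∧ φ (p + y) = τ (p + y)

/-- `τ` is positively homogeneous and subadditive. -/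
structure Sublin {r : ℕ} (τ : (Fin r → ℤ) → ℤ) : Prop where
  hom : ∀ (n : ℕ) (x : Fin r → ℤ), τ (n • x) = n * τ x
  add : ∀ x y, τ (x + y) ≤ τ x + τ y

/-- Unit vectors of `ℤ³`. -/
def e (i : Fin 3) : Fin 3 → ℤ := Pi.single i 1

namespace Gar

variable {G : Type} [Group G] [Gar G]

/-- A frame: finitely many horofunctions that separate the abelian subgroup. -/
structure Frame {r : ℕ} (κ : (Fin r → ℤ) → G) (k : ℕ) (φ : Fin k → (Fin r → ℤ) →+ ℤ)
    (I : Fin k → Set G) : Prop where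
  bus : ∀ i, Bus κ (φ i) (I i)
  sep : ∀ i, ∃ x, ∀ j, j ≠ i → φ j x < φ i x
  inj : ∀ x, (∀ i, φ i x = 0) → x = 0
  bdd : ∃ C : ℤ, ∀ x, ∃ i, d 1 (κ x) ≤ φ i x + C

/-- A periodic flat: a meet-preserving map from `ℤ³` to `G`, and the elements `Z i` of the group
translate it. -/
structure Flat3 (Y : (Fin 3 → ℤ) → G) (D : ℕ) (Z : Fin 3 → G) : Prop where
  pos : 0 < D
  inf : ∀ v w, Y (v ⊓ w) = Y v ⊓ Y w
  lt : ∀ v i, Y v < Y (v + e i)
  diag : ∀ v, Y (v + 1) = Y v * δ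
  per : ∀ v i, Y (v + (D : ℤ) • e i) = Z i * Y v

end Gar

end Pool.Agent.H54.RF
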