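import Pool.Agent.H54.RF.SpecD

/-!
# Project RF (MP_35eb49): checks of the operations on indices
-/

set_option autoImplicit false

namespace Pool.Agent.H54.RF

namespace Ops

/-- disjunction -/
noncomputable def bo (a b : Bool) : Bool := bi a true b

/-- conjunction -/
noncomputable def ba (a b : Bool) : Bool := bi a b false

/-- some number below `n` -/
noncomputable def exR (n : ℕ) (f : ℕ → Bool) : Bool :=
  Nat.rec (motive := fun _ => Bool) false (fun k ih => bi (f k) true ih) n

/-- some element of the list -/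
noncomputable def inL (l : List ℕ) (y : ℕ) : Bool :=
  List.rec (motive := fun _ => Bool) false (fun x _ ih => bi (Nat.beq x y) true ih) l

variable (O : Ops) (D : Dat) (el : ℕ → ℕ) (reps : List ℕ)

/-- the masks of the indices -/
noncomputable def ckA : Bool :=
  ba (Nat.beq O.m (Nat.succ O.top)) <| ba (Nat.blt 0 O.h) <| ba (Nat.beq D.L.length O.m) <|
  ba (allR O.m fun i => Dat.mem D.L (el i)) <|
  ba (allR O.m fun i => allR i fun j => bi (Nat.beq (el i) (el j)) false true) <|
  ba (Nat.beq (el 0) 0) (Nat.beq (el O.top) D.full)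

/-- meets and complements -/
noncomputable def ckB : Bool :=
  ba (allR O.m fun i => allR O.m fun j => frc (O.mt i j) fun k => ba (Nat.ble k O.top)
    (Nat.beq (el k) (Nat.land (el i) (el j))))
  (allR O.m fun i => frc (O.kk i) fun k => ba (Nat.ble k O.top) (Nat.beq (el k) (D.Km (el i))))

/-- rotation -/
noncomputable def ckC : Bool :=
  allR O.m fun i => frc (O.tt 1 i) fun t => ba (Nat.beq (O.tt 0 i) i) <|
    ba (Nat.ble t O.top) <| ba (Nat.beq (el t) (D.tm (el i))) <|
    ba (Nat.beq (O.orb t) (O.orb i)) <|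
    ba (allR O.h fun k => frc (O.tt k i) fun x =>
      bi (Nat.blt (Nat.succ k) O.h) (Nat.beq (O.tt (Nat.succ k) i) (O.tt 1 x))
        (Nat.beq (O.tt 1 x) i)) <|
    ba (bo (Nat.beq i 0) (bo (Nat.beq i O.top) (exR O.h fun k => inL reps (O.tt k i)))) <|
    bi (Nat.ble i O.nf) (bo (Nat.beq i 0)
      (ba (Nat.ble t O.nf) (Nat.beq (Nat.mod t O.h) (Nat.mod (Nat.succ i) O.h))))
      (Nat.blt O.nf t)

/-- products, and pairs of elements without free orbit -/
noncomputable def ckP : Bool :=
  ba (allR O.m fun b => frc (O.kk b) fun kb => allR O.m fun R => frc (O.mt kb R) fun r =>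
    bo (Nat.beq r 0) (frc (O.pr b R) fun P => ba (Nat.ble P O.top)
      (ba (Nat.beq (O.mt b P) b) (Nat.beq (O.mt kb P) r))))
  (allR O.top fun i => bo (Nat.ble i O.nf) <| allR O.top fun j => bo (Nat.ble j O.nf) <|
    bo (Nat.beq i j) (Nat.ble (O.mt i j) O.nf))

end Ops

/-- The checks of the operations are sound. -/
def SpEnc : Prop := ∀ (D : Dat) [NC D.S], NC.Basic D.S → D.Ok → D.check = true →
  ∀ (O : Ops) (el : ℕ → ℕ) (reps : List ℕ), O.ckA D el = true → O.ckB D el = true →
    O.ckC D el reps = true → O.ckP = true →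
    ∃ (ix : D.S → ℕ) (sf : ℕ → D.S), Enc O reps ix sf ∧ ∀ i ≤ O.top, (sf i).1 = el i

end Pool.Agent.H54.RF
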