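import Pool.Agent.H54.RF.SpecA

/-!
# Project RF (MP_35eb49), row A1: translation numbers exist

Adapted from `Pool/Agent/H88/GH/IsTEx.lean`, where the rank is three.
-/

set_option autoImplicit false

namespace Pool.Agent.H54.RF

open Gar

open Filter Topology

variable {G : Type} [Group G] [Gar G]

theorem a1_conj (g y : G) (i : ℕ) : d 1 ((y⁻¹ * g * y) ^ i) = d y (g ^ i * y) := by
  have h : (y⁻¹ * g * y) ^ i = y⁻¹ * g ^ i * y := by
    have := conj_pow (i := i) (a := y⁻¹) (b := g)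
    rwa [inv_inv] at this
  rw [h, ← d_mul_left y, mul_one]
  congr 1
  group

/-- A join of points on the orbit, for a slope `t'` above the growth of the orbit. -/
theorem a1_lub (g : G) (t' : ℝ) (K : ℤ) (hK : ∀ n : ℕ, d 1 (g ^ n) ≤ ⌊(n : ℝ) * t'⌋ + K) :
    ∃ Y ∈ MM g, ∀ i : ℕ, d Y (g ^ i * Y) ≤ ⌊(i : ℝ) * t'⌋ + 1 := by
  obtain ⟨Y, h1, h2, h3⟩ := exists_lub
    (Set.range (fun n : ℕ => g ^ n * δ ^ (-⌊(n : ℝ) * t'⌋))) (Set.range_nonempty _) (δ ^ K)
    (by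
      rintro _ ⟨n, rfl⟩
      have h : d 1 (g ^ n * δ ^ (-⌊(n : ℝ) * t'⌋)) ≤ K := by
        rw [d_mul_zpow]
        have := hK n
        omega
      rw [d_le_iff, one_mul] at h
      exact h)
  refine ⟨Y, h3 (MM g) (fun x hx y hy => MM_sup hx hy) ?_, fun i => ?_⟩
  · rintro _ ⟨n, rfl⟩
    have h4 : g ^ n * 1 ∈ MM g := MM_comm ((Commute.refl g).pow_right n) (MM_one g)
    rw [mul_one] at h4
    exact MM_zpow h4 _
  · rw [d_le_iff]
    have h5 : Y ≤ (g ^ i)⁻¹ * (Y * δ ^ (⌊(i : ℝ) * t'⌋ + 1)) := by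
      apply h2
      rintro _ ⟨n, rfl⟩
      rw [← mul_le_mul_iff (g ^ i), mul_inv_cancel_left]
      have h6 : g ^ (i + n) * δ ^ (-⌊((i + n : ℕ) : ℝ) * t'⌋) ≤ Y := h1 _ ⟨i + n, rfl⟩
      have h7 : ⌊((i + n : ℕ) : ℝ) * t'⌋ - ⌊(n : ℝ) * t'⌋ ≤ ⌊(i : ℝ) * t'⌋ + 1 := by
        have h8 : ((i + n : ℕ) : ℝ) * t' = (i : ℝ) * t' + (n : ℝ) * t' := by
          push_cast
          ring
        have h9 := Int.le_floor_add_floor ((i : ℝ) * t') ((n : ℝ) * t')
        rw [h8]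
        omega
      have h10 : g ^ i * (g ^ n * δ ^ (-⌊(n : ℝ) * t'⌋)) =
          g ^ (i + n) * δ ^ (-⌊((i + n : ℕ) : ℝ) * t'⌋) *
            δ ^ (⌊((i + n : ℕ) : ℝ) * t'⌋ - ⌊(n : ℝ) * t'⌋) := by
        rw [mul_assoc (g ^ (i + n)), ← zpow_add, pow_add, mul_assoc]
        congr 3
        ring
      rw [h10]
      exact ((mul_zpow_le_iff _).mpr h6).trans (mul_zpow_mono Y h7)
    have h11 := (mul_le_mul_iff (g ^ i)).mpr h5
    rwa [mul_inv_cancel_left] at h11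

theorem a1_slope (t : ℝ) (N : ℕ) :
    ∃ t' : ℝ, t < t' ∧ ∀ i : ℕ, i ≤ N → ⌊(i : ℝ) * t'⌋ ≤ ⌊(i : ℝ) * t⌋ := by
  have h : ∀ᶠ t' in 𝓝[>] t, ∀ i ∈ Finset.range (N + 1), (i : ℝ) * t' < ⌊(i : ℝ) * t⌋ + 1 := by
    rw [Filter.eventually_all_finset]
    intro i _
    have hc : Tendsto (fun t' : ℝ => (i : ℝ) * t') (𝓝[>] t) (𝓝 ((i : ℝ) * t)) :=
      ((continuous_const.mul continuous_id).tendsto t).mono_left nhdsWithin_le_nhds
    exact hc.eventually_lt_const (Int.lt_floor_add_one _)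
  obtain ⟨t', h1, h2⟩ := (h.and self_mem_nhdsWithin).exists
  refine ⟨t', h2, fun i hi => ?_⟩
  have h3 := h1 i (Finset.mem_range.mpr (by omega))
  have h4 : ⌊(i : ℝ) * t'⌋ < ⌊(i : ℝ) * t⌋ + 1 := by
    rw [Int.floor_lt]
    push_cast
    exact h3
  omega

theorem a1_point (g : G) (t : ℝ)
    (hup : ∀ t' : ℝ, t < t' → ∀ᶠ n : ℕ in atTop, (d 1 (g ^ n) : ℝ) ≤ n * t') :
    ∃ y ∈ MM g, ∀ i : ℕ, d y (g ^ i * y) ≤ ⌊(i : ℝ) * t⌋ + 1 := by
  by_contra hcon
  push Not at hcon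
  have hF : ∀ h ∈ {h : G | ∃ y ∈ MM g, h = y⁻¹ * g * y}, ∃ i : ℕ,
      ⌊(i : ℝ) * t⌋ + 1 < d 1 (h ^ i) := by
    rintro h ⟨y, hy, rfl⟩
    obtain ⟨i, hi⟩ := hcon y hy
    refine ⟨i, ?_⟩
    rw [a1_conj]
    exact hi
  choose! i hi using hF
  obtain ⟨N, hN⟩ := ((MM_finite g).image i).bddAbove
  obtain ⟨t', ht', hfl⟩ := a1_slope t N
  obtain ⟨N0, hN0⟩ := Filter.eventually_atTop.mp (hup t' ht')
  obtain ⟨K, hK⟩ := ((Finset.range N0).image
    (fun n : ℕ => d 1 (g ^ n) - ⌊(n : ℝ) * t'⌋)).exists_le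
  have hK' : ∀ n : ℕ, d 1 (g ^ n) ≤ ⌊(n : ℝ) * t'⌋ + max K 0 := by
    intro n
    rcases lt_or_ge n N0 with hn | hn
    · have := hK _ (Finset.mem_image_of_mem _ (Finset.mem_range.mpr hn))
      have h2 := le_max_left K 0
      omega
    · have h1 : d 1 (g ^ n) ≤ ⌊(n : ℝ) * t'⌋ := by
        rw [Int.le_floor]
        exact hN0 n hn
      have h2 := le_max_right K 0
      omega
  obtain ⟨Y, hY, hYi⟩ := a1_lub g t' _ hK'
  have h1 := hi (Y⁻¹ * g * Y) ⟨Y, hY, rfl⟩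
  rw [a1_conj] at h1
  have h2 := hYi (i (Y⁻¹ * g * Y))
  have h3 := hfl (i (Y⁻¹ * g * Y)) (hN ⟨Y⁻¹ * g * Y, ⟨Y, hY, rfl⟩, rfl⟩)
  omega

/-- The bounded error. -/
theorem a1_error (g : G) (t : ℝ)
    (hup : ∀ t' : ℝ, t < t' → ∀ᶠ n : ℕ in atTop, (d 1 (g ^ n) : ℝ) ≤ n * t') :
    ∃ C : ℤ, ∀ n : ℕ, (d 1 (g ^ n) : ℝ) ≤ n * t + C := by
  obtain ⟨y, _, hy⟩ := a1_point g t hup
  refine ⟨d 1 y + 1 + d y 1, fun n => ?_⟩
  have h1 := d_triangle 1 y (g ^ n)
  have h2 := d_triangle y (g ^ n * y) (g ^ n)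
  have h3 := d_mul_left (g ^ n) y 1
  rw [mul_one] at h3
  have h4 := hy n
  have h5 : d 1 (g ^ n) ≤ ⌊(n : ℝ) * t⌋ + (d 1 y + 1 + d y 1) := by omega
  have h6 : (d 1 (g ^ n) : ℝ) ≤ (⌊(n : ℝ) * t⌋ : ℝ) + ((d 1 y + 1 + d y 1 : ℤ) : ℝ) := by
    exact_mod_cast h5
  have h7 := Int.floor_le ((n : ℝ) * t)
  linarith

/-- The join of the first points. -/
noncomputable def a1_Z (z : ℕ → G) : ℕ → G
  | 0 => z 0
  | i + 1 => a1_Z z i ⊔ z (i + 1)

/-- The chain. -/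
noncomputable def a1_y (z : ℕ → G) (Z : G) : ℕ → G
  | 0 => z 0 ⊔ Z * δ ^ (-1 : ℤ)
  | i + 1 => a1_y z Z i ⊔ z (i + 1)

theorem a1_le_Z (z : ℕ → G) (n i : ℕ) (hi : i ≤ n) : z i ≤ a1_Z z n := by
  induction n with
  | zero =>
    have : i = 0 := by omega
    subst this
    exact le_rfl
  | succ n ih =>
    rcases Nat.lt_or_ge n i with h | h
    · have : i = n + 1 := by omega
      subst this
      exact le_sup_right
    · exact (ih h).trans le_sup_left

/-- Many different horoball levels below the shift by `δ` are impossible. -/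
theorem a1_no_many {n : ℕ} {z : ℕ → G} {r : ℕ → ℝ} (hr : ∀ i j, i < j → j ≤ n → r i < r j)
    (h0n : r n < r 0 + 1)
    (J : ℝ → Set G) (down : ∀ s, ∀ x ∈ J s, ∀ y ≤ x, y ∈ J s)
    (hsup : ∀ s, ∀ x ∈ J s, ∀ y ∈ J s, x ⊔ y ∈ J s)
    (delta : ∀ s (k : ℤ) z, z * δ ^ k ∈ J (s + k) ↔ z ∈ J s)
    (hin : ∀ i ≤ n, ∀ s, r i < s → z i ∈ J s) (hout : ∀ i ≤ n, ∀ s, s < r i → z i ∉ J s) :
    n + 1 ≤ rk G := by
  have hrle : ∀ i j, i ≤ j → j ≤ n → r i ≤ r j := by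
    intro i j hij hj
    rcases Nat.lt_or_ge i j with h | h
    · exact (hr i j h hj).le
    · have : i = j := by omega
      rw [this]
  obtain ⟨s4, hs4, hs4'⟩ := exists_between h0n
  have hZ : ∀ i ≤ n, ∀ s, r i < s → a1_Z z i ∈ J s := by
    intro i
    induction i with
    | zero => intro hi s hs; exact hin 0 hi s hs
    | succ i ih =>
      intro hi s hs
      exact hsup s _ (ih (by omega) s (lt_of_le_of_lt (hrle i (i + 1) (by omega) hi) hs)) _
        (hin (i + 1) hi s hs)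
  obtain ⟨Z, hZdef⟩ : ∃ Z, Z = a1_Z z n := ⟨_, rfl⟩
  have hzZ : ∀ i ≤ n, z i ≤ Z := fun i hi => by rw [hZdef]; exact a1_le_Z z n i hi
  have hZd : ∀ s, r n - 1 < s → Z * δ ^ (-1 : ℤ) ∈ J s := by
    intro s hs
    have h1 := hZ n le_rfl (s + 1) (by linarith)
    rw [← hZdef] at h1
    have h := (delta (s + 1) (-1) Z).mpr h1
    have h2 : s + 1 + ((-1 : ℤ) : ℝ) = s := by push_cast; ring
    rwa [h2] at h
  have my : ∀ i ≤ n, ∀ s, r i < s → a1_y z Z i ∈ J s := by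
    intro i
    induction i with
    | zero =>
      intro hi s hs
      exact hsup s _ (hin 0 hi s hs) _ (hZd s (by linarith))
    | succ i ih =>
      intro hi s hs
      exact hsup s _ (ih (by omega) s (lt_of_le_of_lt (hrle i (i + 1) (by omega) hi) hs)) _
        (hin (i + 1) hi s hs)
  have hlt : ∀ i, i + 1 ≤ n → a1_y z Z i < a1_y z Z (i + 1) := by
    intro i hi
    obtain ⟨s, hs, hs'⟩ := exists_between (hr i (i + 1) (by omega) hi)
    refine lt_of_le_of_ne le_sup_left (fun h => hout (i + 1) hi s hs'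
      (down s (a1_y z Z i) (my i (by omega) s hs) _ ?_))
    rw [h]
    exact le_sup_right
  have hlen : ∀ i ≤ n, len (a1_y z Z 0) + i ≤ len (a1_y z Z i) := by
    intro i
    induction i with
    | zero => intro _; simp
    | succ i ih =>
      intro hi
      have h1 := ih (by omega)
      have h2 := len_lt (hlt i hi)
      push_cast
      omega
  have h00 : a1_y z Z 0 = z 0 ⊔ Z * δ ^ (-1 : ℤ) := rfl
  have hZle : Z ≤ a1_y z Z 0 * δ := by
    have h1 : Z * δ ^ (-1 : ℤ) ≤ a1_y z Z 0 := by rw [h00]; exact le_sup_right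
    have h2 := (mul_zpow_le_iff 1).mpr h1
    rwa [mul_assoc, ← zpow_add, neg_add_cancel, zpow_zero, mul_one, zpow_one] at h2
  have hle : ∀ i ≤ n, a1_y z Z i ≤ a1_y z Z 0 * δ := by
    intro i
    induction i with
    | zero => intro _; exact le_mul_δ _
    | succ i ih =>
      intro hi
      exact sup_le (ih (by omega)) ((hzZ (i + 1) hi).trans hZle)
  have hlast : a1_y z Z n < a1_y z Z 0 * δ := lt_of_le_of_ne (hle n le_rfl) (fun h => by
    have h1 := my n le_rfl s4 hs4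
    rw [h] at h1
    have h2 : z 0 * δ ^ (1 : ℤ) ∈ J s4 := by
      refine down s4 _ h1 _ ?_
      rw [zpow_one, mul_δ_le_iff, h00]
      exact le_sup_left
    have h3 : s4 = (s4 - 1) + ((1 : ℤ) : ℝ) := by push_cast; ring
    rw [h3] at h2
    exact hout 0 (Nat.zero_le _) (s4 - 1) (by linarith) ((delta (s4 - 1) 1 (z 0)).mp h2))
  have e1 := hlen n le_rfl
  have e2 := len_lt hlast
  rw [len_mul, len_δ] at e2
  change len (a1_y z Z n) < len (a1_y z Z 0) + (rk G : ℤ) at e2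
  omega

/-- The translation number has denominator at most the rank. -/
theorem a1_rat (g : G) (t : ℝ) (hlow : ∀ n : ℕ, (n : ℝ) * t ≤ d 1 (g ^ n)) (C : ℤ)
    (hC : ∀ n : ℕ, (d 1 (g ^ n) : ℝ) ≤ n * t + C) :
    ∃ T : ℤ, ((rk G).factorial : ℝ) * t = T := by
  by_contra hcon
  have hk : ∀ k : ℕ, 0 < k → k ≤ rk G → ∀ m : ℤ, (k : ℝ) * t ≠ m := by
    intro k hk0 hk3 m hm
    apply hcon
    obtain ⟨c, hc⟩ := Nat.dvd_factorial hk0 hk3
    refine ⟨c * m, ?_⟩
    rw [hc]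
    push_cast
    rw [← hm]
    ring
  set J : ℝ → Set G := fun s => {z | ∃ N : ℕ, ∀ n ≥ N, (d 1 (g ^ n * z) : ℝ) < n * t + s} with hJ
  have down : ∀ s, ∀ x ∈ J s, ∀ y ≤ x, y ∈ J s := by
    rintro s x ⟨N, hN⟩ y hy
    refine ⟨N, fun n hn => ?_⟩
    have h1 : d 1 (g ^ n * y) ≤ d 1 (g ^ n * x) := d_mono 1 ((mul_le_mul_iff _).mpr hy)
    have h2 : (d 1 (g ^ n * y) : ℝ) ≤ d 1 (g ^ n * x) := by exact_mod_cast h1
    exact lt_of_le_of_lt h2 (hN n hn)
  have hsup : ∀ s, ∀ x ∈ J s, ∀ y ∈ J s, x ⊔ y ∈ J s := by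
    rintro s x ⟨N, hN⟩ y ⟨N', hN'⟩
    refine ⟨max N N', fun n hn => ?_⟩
    rw [mul_sup', d_sup]
    push_cast
    exact max_lt (hN n (le_trans (le_max_left _ _) hn)) (hN' n (le_trans (le_max_right _ _) hn))
  have delta : ∀ s (k : ℤ) z, z * δ ^ k ∈ J (s + k) ↔ z ∈ J s := by
    intro s k z
    constructor
    · rintro ⟨N, hN⟩
      refine ⟨N, fun n hn => ?_⟩
      have h := hN n hn
      rw [← mul_assoc, d_mul_zpow] at h
      push_cast at h
      linarith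
    · rintro ⟨N, hN⟩
      refine ⟨N, fun n hn => ?_⟩
      have h := hN n hn
      rw [← mul_assoc, d_mul_zpow]
      push_cast
      linarith
  have shift : ∀ s z, g * z ∈ J (s + t) ↔ z ∈ J s := by
    intro s z
    constructor
    · rintro ⟨N, hN⟩
      refine ⟨N + 1, fun n hn => ?_⟩
      obtain ⟨m, rfl⟩ : ∃ m, n = m + 1 := ⟨n - 1, by omega⟩
      have h := hN m (by omega)
      rw [← mul_assoc, ← pow_succ] at h
      push_cast
      linarith
    · rintro ⟨N, hN⟩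
      refine ⟨N, fun n hn => ?_⟩
      have h := hN (n + 1) (by omega)
      rw [← mul_assoc, ← pow_succ]
      push_cast at h
      linarith
  have shiftn : ∀ (i : ℕ) s z, g ^ i * z ∈ J (s + i * t) ↔ z ∈ J s := by
    intro i
    induction i with
    | zero => intro s z; simp
    | succ i ih =>
      intro s z
      rw [← ih s z, ← shift (s + i * t) (g ^ i * z), pow_succ', mul_assoc]
      have h : s + ((i + 1 : ℕ) : ℝ) * t = s + i * t + t := by push_cast; ring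
      rw [h]
  set R : Set ℝ := {s | (1 : G) ∈ J s} with hR
  have hRne : R.Nonempty := by
    refine ⟨C + 1, 0, fun n _ => ?_⟩
    rw [mul_one]
    have := hC n
    linarith
  have hRb : BddBelow R := by
    refine ⟨0, ?_⟩
    rintro s ⟨N, hN⟩
    have h1 := hN N le_rfl
    rw [mul_one] at h1
    have h2 := hlow N
    linarith
  have hRup : ∀ s, sInf R < s → (1 : G) ∈ J s := by
    intro s hs
    obtain ⟨s', ⟨N, hN⟩, hs'⟩ := exists_lt_of_csInf_lt hRne hs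
    refine ⟨N, fun n hn => ?_⟩
    have := hN n hn
    linarith
  have hRlo : ∀ s, s < sInf R → (1 : G) ∉ J s := fun s hs h => notMem_of_lt_csInf hs hRb h
  set v : Fin (rk G + 1) → ℝ := fun i => Int.fract ((i : ℕ) * t) with hv
  have hvinj : Function.Injective v := by
    have key : ∀ i j : ℕ, i < j → j < rk G + 1 → Int.fract ((i : ℝ) * t) ≠ Int.fract ((j : ℝ) * t) := by
      intro i j hij hj h
      have h1 : ((j - i : ℕ) : ℝ) * t = ((⌊(j : ℝ) * t⌋ - ⌊(i : ℝ) * t⌋ : ℤ) : ℝ) := by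
        have h2 := Int.floor_add_fract ((i : ℝ) * t)
        have h3 := Int.floor_add_fract ((j : ℝ) * t)
        rw [Nat.cast_sub hij.le]
        push_cast
        linarith
      exact hk (j - i) (by omega) (by omega) _ h1
    intro i j h
    rcases lt_trichotomy (i : ℕ) (j : ℕ) with h1 | h1 | h1
    · exact absurd h (key i j h1 j.2)
    · exact Fin.ext h1
    · exact absurd h.symm (key j i h1 i.2)
  have hmono : StrictMono (v ∘ Tuple.sort v) :=
    (Tuple.monotone_sort v).strictMono_of_injective (hvinj.comp (Tuple.sort v).injective)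
  have hzin : ∀ (i : Fin (rk G + 1)) (s : ℝ), g ^ (i : ℕ) * δ ^ (-⌊((i : ℕ) : ℝ) * t⌋) ∈
      J (s + v i) ↔ (1 : G) ∈ J s := by
    intro i s
    rw [← shiftn i s 1, mul_one, ← delta (s + ((i : ℕ) : ℝ) * t) (-⌊((i : ℕ) : ℝ) * t⌋) (g ^ (i : ℕ))]
    have h : s + v i = s + ((i : ℕ) : ℝ) * t + ((-⌊((i : ℕ) : ℝ) * t⌋ : ℤ) : ℝ) := by
      rw [hv]
      have h2 := Int.floor_add_fract (((i : ℕ) : ℝ) * t)
      push_cast
      linarith
    rw [h]
  have hfin := a1_no_many (n := rk G)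
    (z := fun i => if h : i < rk G + 1 then
      g ^ ((Tuple.sort v ⟨i, h⟩ : Fin (rk G + 1)) : ℕ) *
        δ ^ (-⌊(((Tuple.sort v ⟨i, h⟩ : Fin (rk G + 1)) : ℕ) : ℝ) * t⌋) else 1)
    (r := fun i => if h : i < rk G + 1 then sInf R + v (Tuple.sort v ⟨i, h⟩) else 0)
    ?_ ?_ J down hsup delta ?_ ?_
  · omega
  · intro i j hij hj
    have hi' : i < rk G + 1 := by omega
    have hj' : j < rk G + 1 := by omega
    have := hmono (show (⟨i, hi'⟩ : Fin (rk G + 1)) < ⟨j, hj'⟩ from hij)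
    simp only [Function.comp_apply] at this
    simp only [hi', hj', dif_pos]
    linarith
  · have hn' : rk G < rk G + 1 := by omega
    have h0' : 0 < rk G + 1 := by omega
    have h1 : v (Tuple.sort v ⟨rk G, hn'⟩) < 1 := Int.fract_lt_one _
    have h2 : 0 ≤ v (Tuple.sort v ⟨0, h0'⟩) := Int.fract_nonneg _
    simp only [hn', h0', dif_pos]
    linarith
  · intro i hi s hs
    have hi' : i < rk G + 1 := by omega
    simp only [hi', dif_pos] at hs ⊢
    have h := (hzin (Tuple.sort v ⟨i, hi'⟩) (s - v (Tuple.sort v ⟨i, hi'⟩))).mpr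
      (hRup _ (by linarith))
    rwa [sub_add_cancel] at h
  · intro i hi s hs h
    have hi' : i < rk G + 1 := by omega
    simp only [hi', dif_pos] at hs h
    have h1 : s = (s - v (Tuple.sort v ⟨i, hi'⟩)) + v (Tuple.sort v ⟨i, hi'⟩) := by ring
    rw [h1] at h
    exact hRlo _ (by linarith) ((hzin (Tuple.sort v ⟨i, hi'⟩) _).mp h)

theorem a1_main (g : G) : ∃ t : ℤ, IsT (g ^ (rk G).factorial) t := by
  have hsub : Subadditive (fun n : ℕ => (d 1 (g ^ n) : ℝ)) := by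
    intro m n
    change (d 1 (g ^ (m + n)) : ℝ) ≤ d 1 (g ^ m) + d 1 (g ^ n)
    rw [pow_add]
    exact_mod_cast d_one_mul_le (g ^ m) (g ^ n)
  have hneg : ∀ n : ℕ, -(n * (d 1 g⁻¹ : ℝ)) ≤ d 1 (g ^ n) := by
    intro n
    have h1 : ∀ n : ℕ, d 1 (g⁻¹ ^ n) ≤ n * d 1 g⁻¹ := by
      intro n
      induction n with
      | zero => simp [d_self]
      | succ n ih =>
        rw [pow_succ]
        have := d_one_mul_le (g⁻¹ ^ n) g⁻¹
        push_cast
        linarith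
    have h2 := d_one_mul_le (g ^ n) (g⁻¹ ^ n)
    rw [inv_pow, mul_inv_cancel, d_self] at h2
    have h3 := h1 n
    rw [inv_pow] at h3
    have h4 : 0 ≤ d 1 (g ^ n) + n * d 1 g⁻¹ := by linarith
    have h5 : (0 : ℝ) ≤ d 1 (g ^ n) + n * d 1 g⁻¹ := by exact_mod_cast h4
    linarith
  have hbdd : BddBelow (Set.range fun n : ℕ => (d 1 (g ^ n) : ℝ) / n) := by
    refine ⟨-|(d 1 g⁻¹ : ℝ)|, ?_⟩
    rintro _ ⟨n, rfl⟩
    rcases Nat.eq_zero_or_pos n with rfl | hn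
    · simp
    · have hn' : (0 : ℝ) < n := by exact_mod_cast hn
      simp only
      rw [le_div_iff₀ hn']
      have h1 := hneg n
      have h2 := le_abs_self (d 1 g⁻¹ : ℝ)
      nlinarith
  set t := hsub.lim with ht
  have hlow : ∀ n : ℕ, (n : ℝ) * t ≤ d 1 (g ^ n) := by
    intro n
    rcases Nat.eq_zero_or_pos n with rfl | hn
    · simp [d_self]
    · have h1 := hsub.lim_le_div hbdd hn.ne'
      have hn' : (0 : ℝ) < n := by exact_mod_cast hn
      rw [le_div_iff₀ hn'] at h1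
      linarith
  have hup : ∀ t' : ℝ, t < t' → ∀ᶠ n : ℕ in atTop, (d 1 (g ^ n) : ℝ) ≤ n * t' := by
    intro t' ht'
    have h1 := (hsub.tendsto_lim hbdd).eventually_lt_const ht'
    filter_upwards [h1, Filter.eventually_gt_atTop 0] with n hn hn0
    have hn' : (0 : ℝ) < n := by exact_mod_cast hn0
    rw [div_lt_iff₀ hn'] at hn
    linarith
  obtain ⟨C, hC⟩ := a1_error g t hup
  obtain ⟨T, hT⟩ := a1_rat g t hlow C hC
  refine ⟨T, C, fun n => ?_⟩
  rw [← pow_mul]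
  have h1 := hlow ((rk G).factorial * n)
  have h2 := hC ((rk G).factorial * n)
  push_cast at h1 h2
  have h3 : (((rk G).factorial : ℝ) * (n : ℝ)) * t = n * T := by
    rw [← hT]
    ring
  rw [h3] at h1 h2
  constructor
  · exact_mod_cast h1
  · exact_mod_cast h2

/-- Row A1. -/
theorem sp_isT (G : Type) [Group G] [Gar G] : SpIsT G := fun g => a1_main g

end Pool.Agent.H54.RF
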