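import Pool.Agent.H54.RF.SpecB
import Pool.Agent.H54.RF.NCB

/-!
# Project RF (MP_35eb49), row B8: the check of the finite property of closed sequences is sound
-/

set_option autoImplicit false

namespace Pool.Agent.H54.RF

open NC

theorem b8_frc {α : Type} (x : ℕ) (f : ℕ → α) : Ops.frc x f = f x := by
  cases x <;> rfl

theorem b8_bi {c t e : Bool} : Ops.bi c t e = true ↔ (c = true → t = true) ∧
    (c = false → e = true) := by
  cases c <;> simp [Ops.bi]

theorem b8_ba {a b : Bool} : Ops.ba a b = true ↔ a = true ∧ b = true := by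
  cases a <;> simp [Ops.ba, Ops.bi]

theorem b8_bo {a b : Bool} : Ops.bo a b = true ↔ a = true ∨ b = true := by
  cases a <;> simp [Ops.bo, Ops.bi]

theorem b8_not {a : Bool} : Ops.bi a false true = true ↔ ¬ a = true := by
  cases a <;> simp [Ops.bi]

theorem b8_imp {a b : Bool} : Ops.bi a b true = true ↔ (a = true → b = true) := by
  cases a <;> simp [Ops.bi]

theorem b8_allR {n : ℕ} {f : ℕ → Bool} : Ops.allR n f = true ↔ ∀ k < n, f k = true := by
  induction n with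
  | zero => simp [Ops.allR]
  | succ n ih =>
    have h1 : Ops.allR (n + 1) f = Ops.bi (f n) (Ops.allR n f) false := rfl
    rw [h1]
    constructor
    · intro h k hk
      have h2 : f n = true ∧ Ops.allR n f = true := by
        cases h3 : f n
        · rw [h3] at h
          exact absurd h Bool.false_ne_true
        · rw [h3] at h
          exact ⟨rfl, h⟩
      rcases Nat.lt_succ_iff_lt_or_eq.1 hk with h4 | h4
      · exact ih.1 h2.2 k h4
      · rw [h4]
        exact h2.1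
    · intro h
      rw [h n (Nat.lt_succ_self n)]
      exact ih.2 fun k hk => h k (Nat.lt_succ_of_lt hk)

theorem b8_ck {O : Ops} {na J : ℕ} {cp bd : ℕ → ℕ} (h : O.ckK na J cp bd = true) :
    (∀ d < O.m, bd (cp d) ≤ O.top ∧ ∀ r, 0 < r → r ≤ na → O.mt r J = r →
      cp (O.tj r d) ≤ cp d ∧ (cp d = cp (O.tj r d) → O.mt r (bd (cp d)) = r)) ∧
    (∀ c < O.m, c ≠ 0 → O.mt c J = 0 → O.mt J (bd (cp c)) = J →
      O.mt c (O.kk J) = c ∧ ∀ r, 0 < r → r ≤ na → O.mt r J = r →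
        O.mt (O.tj r c) c = O.tj r c) := by
  unfold Ops.ckK at h
  rw [b8_ba, b8_allR, b8_allR] at h
  obtain ⟨h1, h2⟩ := h
  constructor
  · intro d hd
    have h3 := h1 d hd
    rw [b8_frc, b8_frc, b8_ba, b8_allR, Nat.ble_eq] at h3
    refine ⟨h3.1, fun r hr hr' hm => ?_⟩
    have h4 := h3.2 (r - 1) (by omega)
    have hs : Nat.succ (r - 1) = r := by omega
    rw [b8_frc, hs, b8_imp, Nat.beq_eq] at h4
    have h5 := h4 hm
    rw [b8_frc, b8_frc, b8_ba, b8_imp, Nat.ble_eq, Nat.beq_eq, Nat.beq_eq] at h5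
    exact h5
  · intro c hc h0 hJ hB
    have h3 := h2 c hc
    rw [b8_bo, b8_bo, b8_bo, b8_not, b8_not, b8_ba, b8_allR, Nat.beq_eq, Nat.beq_eq, Nat.beq_eq,
      Nat.beq_eq] at h3
    rcases h3 with h3 | h3 | h3 | h3
    · exact absurd h3 h0
    · exact absurd hJ h3
    · exact absurd hB h3
    · refine ⟨h3.1, fun r hr hr' hm => ?_⟩
      have h4 := h3.2 (r - 1) (by omega)
      have hs : Nat.succ (r - 1) = r := by omega
      rw [b8_frc, hs, b8_imp, Nat.beq_eq] at h4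
      have h5 := h4 hm
      rw [b8_frc, Nat.beq_eq] at h5
      exact h5

section

variable {S : Type} [NC S] {O : Ops} {reps : List ℕ} {ix : S → ℕ} {sf : ℕ → S}

theorem b8_ix_inj (he : Enc O reps ix sf) : Function.Injective ix := fun a b h => by
  rw [← he.sf_ix a, ← he.sf_ix b, h]

theorem b8_join (hb : Basic S) {r d j : S} (h : K j = K r ⊓ K d) : IsJ r d j := by
  refine ⟨(K_le r j).1 ?_, (K_le d j).1 ?_, fun u h1 h2 => (K_le j u).1 ?_⟩
  · rw [h]
    exact inf_le_left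
  · rw [h]
    exact inf_le_right
  · rw [h]
    exact le_inf (hb.K_anti h1) (hb.K_anti h2)

theorem b8_ts (hb : Basic S) (he : Enc O reps ix sf) {r d d' : S} (h : Ts r d d') :
    O.tj (ix r) (ix d) = ix d' := by
  obtain ⟨j', hj', rfl⟩ := h
  obtain ⟨j, hj⟩ := hb.K_bij.2 (K r ⊓ K d)
  have h1 := b8_join hb hj
  have h2 : j' = j := le_antisymm (hj'.2.2 j h1.1 h1.2.1) (h1.2.2 j' hj'.1 hj'.2.1)
  rw [h2]
  have hh : Nat.sub O.h 1 < O.h := Nat.sub_lt he.h_pos one_pos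
  unfold Ops.tj
  rw [he.kk, he.kk, he.mt, he.kk, he.tt _ _ hh, he.mt, ← hj]
  have h3 : tau^[Nat.sub O.h 1] (K (K j)) = j := by
    have h4 := he.per j
    obtain ⟨n, hn⟩ : ∃ n, O.h = n + 1 := ⟨O.h - 1, by have := he.h_pos; omega⟩
    rw [hn] at h4 ⊢
    rw [Function.iterate_succ_apply] at h4
    exact h4
  rw [h3]
  rfl

theorem b8_ts_tau (hb : Basic S) {r d d' : S} (h : Ts r d d') : Ts (tau r) (tau d) (tau d') := by
  obtain ⟨j, hj, rfl⟩ := h
  refine ⟨tau j, ⟨(hb.tau_le _ _).2 hj.1, (hb.tau_le _ _).2 hj.2.1, fun u h1 h2 => ?_⟩,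
    hb.dv_tau r j⟩
  obtain ⟨v, rfl⟩ := hb.tau_bij.2 u
  exact (hb.tau_le _ _).2 (hj.2.2 v ((hb.tau_le _ _).1 h1) ((hb.tau_le _ _).1 h2))

theorem b8_wk_tau (hb : Basic S) {c d : S} {l : List S} (h : Wk c l d) :
    Wk (tau c) (l.map tau) (tau d) := by
  induction h with
  | nil d => exact Wk.nil _
  | cons h h' ih =>
    rw [List.map_cons]
    exact Wk.cons (b8_ts_tau hb h) ih

/-- the property for one `J` -/
def b8_P (J : S) : Prop := ∀ (c : S) (l : List S), c ≠ NC.bo S → c ⊓ J = NC.bo S →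
  (∀ r ∈ l, NC.rk r = 1) → Jn l J → Wk c l c →
    c ≤ K J ∧ ∀ r, NC.rk r = 1 → r ≤ J → ∀ d, Ts r c d → d ≤ c

theorem b8_P_tau (hb : Basic S) {J : S} (h : b8_P (tau J)) : b8_P J := by
  intro c l hc hcJ hl hJ hw
  have h1 := h (tau c) (l.map tau) (fun h1 => hc (hb.tau_bij.1 (h1.trans hb.tau_bo.symm)))
    (by rw [← hb.tau_inf, hcJ, hb.tau_bo]) (fun r hr => by
      obtain ⟨s, hs, rfl⟩ := List.mem_map.1 hr
      rw [hb.rk_tau]
      exact hl s hs) (by
      constructor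
      · intro r hr
        obtain ⟨s, hs, rfl⟩ := List.mem_map.1 hr
        exact (hb.tau_le _ _).2 (hJ.1 s hs)
      · intro J' hJ'
        obtain ⟨J'', rfl⟩ := hb.tau_bij.2 J'
        refine (hb.tau_le _ _).2 (hJ.2 J'' fun r hr => ?_)
        exact (hb.tau_le _ _).1 (hJ' _ (List.mem_map_of_mem hr))) (b8_wk_tau hb hw)
  refine ⟨(hb.tau_le _ _).1 h1.1, fun r hr hrJ d hd => ?_⟩
  refine (hb.tau_le _ _).1 (h1.2 (tau r) ?_ ((hb.tau_le _ _).2 hrJ) (tau d) (b8_ts_tau hb hd))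
  rw [hb.rk_tau]
  exact hr

theorem b8_P_iter (hb : Basic S) (k : ℕ) {J : S} (h : b8_P (tau^[k] J)) : b8_P J := by
  induction k with
  | zero => exact h
  | succ k ih =>
    rw [Function.iterate_succ_apply'] at h
    exact ih (b8_P_tau hb h)

theorem b8_le (he : Enc O reps ix sf) {s t : S} : O.mt (ix s) (ix t) = ix s ↔ s ≤ t := by
  rw [he.mt]
  constructor
  · intro h
    exact inf_eq_left.1 (b8_ix_inj he h)
  · intro h
    rw [inf_eq_left.2 h]

theorem b8_walk (hb : Basic S) (he : Enc O reps ix sf) {na : ℕ} (hna : Na ix O na) {J : S}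
    {cp bd : ℕ → ℕ} (h : O.ckK na (ix J) cp bd = true) {c d : S} {l : List S} (hw : Wk c l d)
    (hl : ∀ r ∈ l, NC.rk r = 1 ∧ r ≤ J) : cp (ix d) ≤ cp (ix c) ∧
      (cp (ix d) = cp (ix c) → ∀ r ∈ l, r ≤ sf (bd (cp (ix c)))) := by
  have hm : ∀ s : S, ix s < O.m := fun s => by
    rw [he.m]
    exact Nat.lt_succ_of_le (he.lt s)
  induction hw with
  | nil d =>
    refine ⟨le_rfl, fun _ r hr => ?_⟩
    exact absurd hr List.not_mem_nil
  | @cons r d d' d'' l h1 h2 ih =>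
    have h3 := ih fun r hr => hl r (List.mem_cons_of_mem _ hr)
    obtain ⟨h4, h5⟩ := hl r List.mem_cons_self
    obtain ⟨h6, h7⟩ := (b8_ck h).1 (ix d) (hm d)
    have h8 := h7 (ix r) ((hna.2.2 r).1 h4).1 ((hna.2.2 r).1 h4).2 ((b8_le he).2 h5)
    rw [b8_ts hb he h1] at h8
    refine ⟨h3.1.trans h8.1, fun h9 => ?_⟩
    have h10 : cp (ix d) = cp (ix d') := le_antisymm (h9 ▸ h3.1) h8.1
    have h11 : cp (ix d'') = cp (ix d') := by rw [h9, h10]
    intro s hs
    rcases List.mem_cons.1 hs with rfl | hs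
    · have h12 := h8.2 h10
      rw [← b8_le he, he.ix_sf _ h6]
      exact h12
    · rw [h10]
      exact h3.2 h11 s hs

theorem b8_rep (hb : Basic S) (he : Enc O reps ix sf) {na : ℕ} (hna : Na ix O na) {J : S}
    {cp bd : ℕ → ℕ} (h : O.ckK na (ix J) cp bd = true) : b8_P J := by
  have hm : ∀ s : S, ix s < O.m := fun s => by
    rw [he.m]
    exact Nat.lt_succ_of_le (he.lt s)
  intro c l hc hcJ hl hJ hw
  have h1 := (b8_walk hb he hna h hw fun r hr => ⟨hl r hr, hJ.1 r hr⟩).2 rfl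
  have h2 := hJ.2 _ h1
  have hbd := ((b8_ck h).1 (ix c) (hm c)).1
  have h0 : ix c ≠ 0 := by
    rw [← he.bo]
    exact fun h3 => hc (b8_ix_inj he h3)
  have h3 : O.mt (ix c) (ix J) = 0 := by
    rw [he.mt, hcJ, he.bo]
  have h4 : O.mt (ix J) (bd (cp (ix c))) = ix J := by
    rw [← b8_le he, he.ix_sf _ hbd] at h2
    exact h2
  obtain ⟨h5, h6⟩ := (b8_ck h).2 (ix c) (hm c) h0 h3 h4
  rw [he.kk, b8_le he] at h5
  refine ⟨h5, fun r hr hrJ d hd => ?_⟩
  have h7 := h6 (ix r) ((hna.2.2 r).1 hr).1 ((hna.2.2 r).1 hr).2 ((b8_le he).2 hrJ)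
  rw [b8_ts hb he hd, b8_le he] at h7
  exact h7

end

theorem sp_kL : SpKL := by
  intro S _ O reps ix sf na hb he hna h J
  change b8_P J
  by_cases hJ : J = NC.bo S
  · intro c l hc hcJ hl hJn hw
    rw [hJ]
    refine ⟨?_, fun r hr hrJ => ?_⟩
    · rw [hb.K_bo]
      exact le_top
    · have h1 := hb.rk_le hrJ
      rw [hr, hb.rk_bo] at h1
      omega
  by_cases hT : J = ⊤
  · intro c l hc hcJ
    rw [hT, inf_top_eq] at hcJ
    exact absurd hcJ hc
  obtain ⟨k, -, hk⟩ := he.rep J hJ hT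
  obtain ⟨cp, bd, h1⟩ := h _ hk
  exact b8_P_iter hb k (b8_rep hb he hna h1)

end Pool.Agent.H54.RF
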