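import Mathlib

/-!
# Project RF (MP_35eb49): the Coxeter matrix of type `D₄`
-/

set_option autoImplicit false

namespace Pool.Agent.H54.RF

/-- The Coxeter matrix of type `D₄`: the generator `1` is joined to `0`, `2` and `3`. -/
def MD4 : CoxeterMatrix (Fin 4) where
  M := !![1, 3, 2, 2;
          3, 1, 3, 3;
          2, 3, 1, 2;
          2, 3, 2, 1]
  isSymm := by decide
  diagonal := by decide
  off_diagonal := by decide

end Pool.Agent.H54.RF
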