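import Pool.Agent.H54.RF.OpsD4
import Pool.Agent.H54.RF.Tst

/-!
# Project RF (MP_35eb49): checks of the cubes of type D4
-/

set_option autoImplicit false
set_option maxRecDepth 100000
set_option maxHeartbeats 0

namespace Pool.Agent.H54.RF

theorem s2D4_1_0 : oD4.t2 1 0 48 = true := by decide +kernel

theorem s2D4_4_0 : oD4.t2 4 0 48 = true := by decide +kernel

theorem s2D4_7_0 : oD4.t2 7 0 48 = true := by decide +kernel

theorem s2D4_10_0 : oD4.t2 10 0 48 = true := by decide +kernel

theorem s2D4_13_0 : oD4.t2 13 0 48 = true := by decide +kernel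

theorem s2D4_16_0 : oD4.t2 16 0 48 = true := by decide +kernel

theorem s2D4_19_0 : oD4.t2 19 0 48 = true := by decide +kernel

theorem s2D4_22_0 : oD4.t2 22 0 48 = true := by decide +kernel

theorem s2D4_25_0 : oD4.t2 25 0 48 = true := by decide +kernel

theorem s2D4_28_0 : oD4.t2 28 0 48 = true := by decide +kernel

theorem s2D4_31_0 : oD4.t2 31 0 48 = true := by decide +kernel

theorem s2D4_34_0 : oD4.t2 34 0 48 = true := by decide +kernel

theorem s2D4_37_0 : oD4.t2 37 0 48 = true := by decide +kernel

theorem s2D4_40_0 : oD4.t2 40 0 48 = true := by decide +kernel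

theorem s2D4_43_0 : oD4.t2 43 0 48 = true := by decide +kernel

theorem s2D4_46_0 : oD4.t2 46 0 48 = true := by decide +kernel

end Pool.Agent.H54.RF
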