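import Pool.Agent.H54.RF.MatD4
import Pool.Agent.H54.RF.AsmD
import Pool.Agent.H54.RF.CaD4
import Pool.Agent.H54.RF.CbD4
import Pool.Agent.H54.RF.CkD4
import Pool.Agent.H54.RF.S1D4_0
import Pool.Agent.H54.RF.S2D4_0

/-!
# Project RF (MP_35eb49): result of type D4
-/

set_option autoImplicit false
set_option maxHeartbeats 0
set_option maxRecDepth 100000

namespace Pool.Agent.H54.RF

theorem ck1D4 : Ck1 oD4 rD4 := by
  intro X0 hX X1 h1 h2
  have h3 : X1 < 49 := h2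
  simp only [rD4, List.mem_cons, List.not_mem_nil, or_false] at hX
  rcases hX with rfl | rfl | rfl | rfl | rfl | rfl | rfl | rfl | rfl | rfl | rfl | rfl | rfl | rfl | rfl | rfl
  · exact Ops.t1_spec _ s1D4_1_0 X1 (by omega) (by omega)
  · exact Ops.t1_spec _ s1D4_4_0 X1 (by omega) (by omega)
  · exact Ops.t1_spec _ s1D4_7_0 X1 (by omega) (by omega)
  · exact Ops.t1_spec _ s1D4_10_0 X1 (by omega) (by omega)
  · exact Ops.t1_spec _ s1D4_13_0 X1 (by omega) (by omega)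
  · exact Ops.t1_spec _ s1D4_16_0 X1 (by omega) (by omega)
  · exact Ops.t1_spec _ s1D4_19_0 X1 (by omega) (by omega)
  · exact Ops.t1_spec _ s1D4_22_0 X1 (by omega) (by omega)
  · exact Ops.t1_spec _ s1D4_25_0 X1 (by omega) (by omega)
  · exact Ops.t1_spec _ s1D4_28_0 X1 (by omega) (by omega)
  · exact Ops.t1_spec _ s1D4_31_0 X1 (by omega) (by omega)
  · exact Ops.t1_spec _ s1D4_34_0 X1 (by omega) (by omega)
  · exact Ops.t1_spec _ s1D4_37_0 X1 (by omega) (by omega)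
  · exact Ops.t1_spec _ s1D4_40_0 X1 (by omega) (by omega)
  · exact Ops.t1_spec _ s1D4_43_0 X1 (by omega) (by omega)
  · exact Ops.t1_spec _ s1D4_46_0 X1 (by omega) (by omega)

theorem ck2D4 : Ck2 oD4 rD4 := by
  intro X0 hX X1 h1 h2 h4
  have h3 : X1 < 49 := h2
  simp only [rD4, List.mem_cons, List.not_mem_nil, or_false] at hX
  rcases hX with rfl | rfl | rfl | rfl | rfl | rfl | rfl | rfl | rfl | rfl | rfl | rfl | rfl | rfl | rfl | rfl
  · exact Ops.t2_spec _ s2D4_1_0 X1 (by omega) (by omega) h4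
  · exact Ops.t2_spec _ s2D4_4_0 X1 (by omega) (by omega) h4
  · exact Ops.t2_spec _ s2D4_7_0 X1 (by omega) (by omega) h4
  · exact Ops.t2_spec _ s2D4_10_0 X1 (by omega) (by omega) h4
  · exact Ops.t2_spec _ s2D4_13_0 X1 (by omega) (by omega) h4
  · exact Ops.t2_spec _ s2D4_16_0 X1 (by omega) (by omega) h4
  · exact Ops.t2_spec _ s2D4_19_0 X1 (by omega) (by omega) h4
  · exact Ops.t2_spec _ s2D4_22_0 X1 (by omega) (by omega) h4
  · exact Ops.t2_spec _ s2D4_25_0 X1 (by omega) (by omega) h4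
  · exact Ops.t2_spec _ s2D4_28_0 X1 (by omega) (by omega) h4
  · exact Ops.t2_spec _ s2D4_31_0 X1 (by omega) (by omega) h4
  · exact Ops.t2_spec _ s2D4_34_0 X1 (by omega) (by omega) h4
  · exact Ops.t2_spec _ s2D4_37_0 X1 (by omega) (by omega) h4
  · exact Ops.t2_spec _ s2D4_40_0 X1 (by omega) (by omega) h4
  · exact Ops.t2_spec _ s2D4_43_0 X1 (by omega) (by omega) h4
  · exact Ops.t2_spec _ s2D4_46_0 X1 (by omega) (by omega) h4

theorem conclD4 (hcone : SpCone) : Concl MD4 :=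
  asmD hcone MD4 (by decide) dD4 dcD4 xD4 xcD4 rfl
    (by intro i j; fin_cases i <;> fin_cases j <;> rfl) orD4 oD4 eD4 rD4 oaD4 obD4 ocD4
    opD4 12 onD4 ck1D4 ck2D4 kkD4 atD4 ogD4 xxD4

end Pool.Agent.H54.RF
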