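import Pool.Agent.H54.RF.OpsF4
import Pool.Agent.H54.RF.Tst

/-!
# Project RF (MP_35eb49): checks of the strips of type F4
-/

set_option autoImplicit false
set_option maxRecDepth 100000
set_option maxHeartbeats 0

namespace Pool.Agent.H54.RF

theorem s1F4_1_0 : oF4.t1 1 0 103 = true := by decide +kernel

theorem s1F4_7_0 : oF4.t1 7 0 103 = true := by decide +kernel

theorem s1F4_13_0 : oF4.t1 13 0 103 = true := by decide +kernel

theorem s1F4_19_0 : oF4.t1 19 0 103 = true := by decide +kernel

theorem s1F4_25_0 : oF4.t1 25 0 103 = true := by decide +kernel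

theorem s1F4_31_0 : oF4.t1 31 0 103 = true := by decide +kernel

theorem s1F4_37_0 : oF4.t1 37 0 103 = true := by decide +kernel

theorem s1F4_43_0 : oF4.t1 43 0 103 = true := by decide +kernel

theorem s1F4_49_0 : oF4.t1 49 0 103 = true := by decide +kernel

theorem s1F4_55_0 : oF4.t1 55 0 99 = true := by decide +kernel

theorem s1F4_55_99 : oF4.t1 55 99 4 = true := by decide +kernel

theorem s1F4_61_0 : oF4.t1 61 0 100 = true := by decide +kernel

theorem s1F4_61_100 : oF4.t1 61 100 3 = true := by decide +kernel

theorem s1F4_67_0 : oF4.t1 67 0 103 = true := by decide +kernel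

theorem s1F4_73_0 : oF4.t1 73 0 103 = true := by decide +kernel

theorem s1F4_79_0 : oF4.t1 79 0 103 = true := by decide +kernel

end Pool.Agent.H54.RF
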