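import Pool.Agent.H54.RF.OpsF4
import Pool.Agent.H54.RF.Tst

/-!
# Project RF (MP_35eb49): checks of the strips of type F4
-/

set_option autoImplicit false
set_option maxRecDepth 100000
set_option maxHeartbeats 0

namespace Pool.Agent.H54.RF

theorem s1F4_85_0 : oF4.t1 85 0 75 = true := by decide +kernel

theorem s1F4_85_75 : oF4.t1 85 75 28 = true := by decide +kernel

theorem s1F4_91_0 : oF4.t1 91 0 73 = true := by decide +kernel

theorem s1F4_91_73 : oF4.t1 91 73 30 = true := by decide +kernel

theorem s1F4_97_0 : oF4.t1 97 0 103 = true := by decide +kernel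

theorem s1F4_99_0 : oF4.t1 99 0 89 = true := by decide +kernel

theorem s1F4_99_89 : oF4.t1 99 89 14 = true := by decide +kernel

theorem s1F4_102_0 : oF4.t1 102 0 103 = true := by decide +kernel

end Pool.Agent.H54.RF
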