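import Pool.Agent.H54.RF.OpsF4
import Pool.Agent.H54.RF.Tst

/-!
# Project RF (MP_35eb49): checks of the cubes of type F4
-/

set_option autoImplicit false
set_option maxRecDepth 100000
set_option maxHeartbeats 0

namespace Pool.Agent.H54.RF

theorem s2F4_1_0 : oF4.t2 1 0 103 = true := by decide +kernel

theorem s2F4_7_0 : oF4.t2 7 0 103 = true := by decide +kernel

theorem s2F4_13_0 : oF4.t2 13 0 103 = true := by decide +kernel

theorem s2F4_19_0 : oF4.t2 19 0 103 = true := by decide +kernel

theorem s2F4_25_0 : oF4.t2 25 0 48 = true := by decide +kernel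

theorem s2F4_25_48 : oF4.t2 25 48 13 = true := by decide +kernel

theorem s2F4_25_61 : oF4.t2 25 61 22 = true := by decide +kernel

theorem s2F4_25_83 : oF4.t2 25 83 12 = true := by decide +kernel

theorem s2F4_25_95 : oF4.t2 25 95 8 = true := by decide +kernel

theorem s2F4_31_0 : oF4.t2 31 0 77 = true := by decide +kernel

theorem s2F4_31_77 : oF4.t2 31 77 26 = true := by decide +kernel

theorem s2F4_37_0 : oF4.t2 37 0 77 = true := by decide +kernel

theorem s2F4_37_77 : oF4.t2 37 77 12 = true := by decide +kernel

end Pool.Agent.H54.RF
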