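import Pool.Agent.H54.RF.OpsF4
import Pool.Agent.H54.RF.Tst

/-!
# Project RF (MP_35eb49): checks of the cubes of type F4
-/

set_option autoImplicit false
set_option maxRecDepth 100000
set_option maxHeartbeats 0

namespace Pool.Agent.H54.RF

theorem s2F4_37_89 : oF4.t2 37 89 14 = true := by decide +kernel

theorem s2F4_43_0 : oF4.t2 43 0 73 = true := by decide +kernel

theorem s2F4_43_73 : oF4.t2 43 73 16 = true := by decide +kernel

theorem s2F4_43_89 : oF4.t2 43 89 14 = true := by decide +kernel

theorem s2F4_49_0 : oF4.t2 49 0 88 = true := by decide +kernel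

theorem s2F4_49_88 : oF4.t2 49 88 15 = true := by decide +kernel

theorem s2F4_55_0 : oF4.t2 55 0 67 = true := by decide +kernel

theorem s2F4_55_67 : oF4.t2 55 67 7 = true := by decide +kernel

theorem s2F4_55_74 : oF4.t2 55 74 6 = true := by decide +kernel

end Pool.Agent.H54.RF
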