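import Pool.Agent.H54.RF.OpsF4
import Pool.Agent.H54.RF.Tst

/-!
# Project RF (MP_35eb49): checks of the cubes of type F4
-/

set_option autoImplicit false
set_option maxRecDepth 100000
set_option maxHeartbeats 0

namespace Pool.Agent.H54.RF

theorem s2F4_55_80 : oF4.t2 55 80 9 = true := by decide +kernel

theorem s2F4_55_89 : oF4.t2 55 89 14 = true := by decide +kernel

theorem s2F4_61_0 : oF4.t2 61 0 77 = true := by decide +kernel

theorem s2F4_61_77 : oF4.t2 61 77 6 = true := by decide +kernel

theorem s2F4_61_83 : oF4.t2 61 83 6 = true := by decide +kernel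

theorem s2F4_61_89 : oF4.t2 61 89 14 = true := by decide +kernel

theorem s2F4_67_0 : oF4.t2 67 0 87 = true := by decide +kernel

theorem s2F4_67_87 : oF4.t2 67 87 16 = true := by decide +kernel

theorem s2F4_73_0 : oF4.t2 73 0 86 = true := by decide +kernel

end Pool.Agent.H54.RF
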