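import Pool.Agent.H54.RF.OpsF4
import Pool.Agent.H54.RF.Tst

/-!
# Project RF (MP_35eb49): checks of the cubes of type F4
-/

set_option autoImplicit false
set_option maxRecDepth 100000
set_option maxHeartbeats 0

namespace Pool.Agent.H54.RF

theorem s2F4_73_86 : oF4.t2 73 86 7 = true := by decide +kernel

theorem s2F4_73_93 : oF4.t2 73 93 10 = true := by decide +kernel

theorem s2F4_79_0 : oF4.t2 79 0 86 = true := by decide +kernel

theorem s2F4_79_86 : oF4.t2 79 86 6 = true := by decide +kernel

theorem s2F4_79_92 : oF4.t2 79 92 11 = true := by decide +kernel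

theorem s2F4_85_0 : oF4.t2 85 0 93 = true := by decide +kernel

theorem s2F4_85_93 : oF4.t2 85 93 10 = true := by decide +kernel

theorem s2F4_91_0 : oF4.t2 91 0 103 = true := by decide +kernel

theorem s2F4_97_0 : oF4.t2 97 0 103 = true := by decide +kernel

theorem s2F4_99_0 : oF4.t2 99 0 103 = true := by decide +kernel

theorem s2F4_102_0 : oF4.t2 102 0 103 = true := by decide +kernel

end Pool.Agent.H54.RF
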