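import Pool.Agent.H54.RF.AsmD
import Pool.Agent.H54.RF.CaF4
import Pool.Agent.H54.RF.CbF4
import Pool.Agent.H54.RF.CkF4
import Pool.Agent.H54.RF.S1F4_0
import Pool.Agent.H54.RF.S1F4_1
import Pool.Agent.H54.RF.S2F4_0
import Pool.Agent.H54.RF.S2F4_1
import Pool.Agent.H54.RF.S2F4_2
import Pool.Agent.H54.RF.S2F4_3

/-!
# Project RF (MP_35eb49): result of type F4
-/

set_option autoImplicit false
set_option maxHeartbeats 0
set_option maxRecDepth 100000

namespace Pool.Agent.H54.RF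

theorem ck1F4 : Ck1 oF4 rF4 := by
  intro X0 hX X1 h1 h2
  have h3 : X1 < 104 := h2
  simp only [rF4, List.mem_cons, List.not_mem_nil, or_false] at hX
  rcases hX with rfl | rfl | rfl | rfl | rfl | rfl | rfl | rfl | rfl | rfl | rfl | rfl | rfl | rfl | rfl | rfl | rfl | rfl | rfl
  · exact Ops.t1_spec _ s1F4_1_0 X1 (by omega) (by omega)
  · exact Ops.t1_spec _ s1F4_7_0 X1 (by omega) (by omega)
  · exact Ops.t1_spec _ s1F4_13_0 X1 (by omega) (by omega)
  · exact Ops.t1_spec _ s1F4_19_0 X1 (by omega) (by omega)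
  · exact Ops.t1_spec _ s1F4_25_0 X1 (by omega) (by omega)
  · exact Ops.t1_spec _ s1F4_31_0 X1 (by omega) (by omega)
  · exact Ops.t1_spec _ s1F4_37_0 X1 (by omega) (by omega)
  · exact Ops.t1_spec _ s1F4_43_0 X1 (by omega) (by omega)
  · exact Ops.t1_spec _ s1F4_49_0 X1 (by omega) (by omega)
  · rcases Nat.lt_or_ge 99 X1 with h5 | h5
    swap
    · exact Ops.t1_spec _ s1F4_55_0 X1 (by omega) (by omega)
    exact Ops.t1_spec _ s1F4_55_99 X1 (by omega) (by omega)
  · rcases Nat.lt_or_ge 100 X1 with h5 | h5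
    swap
    · exact Ops.t1_spec _ s1F4_61_0 X1 (by omega) (by omega)
    exact Ops.t1_spec _ s1F4_61_100 X1 (by omega) (by omega)
  · exact Ops.t1_spec _ s1F4_67_0 X1 (by omega) (by omega)
  · exact Ops.t1_spec _ s1F4_73_0 X1 (by omega) (by omega)
  · exact Ops.t1_spec _ s1F4_79_0 X1 (by omega) (by omega)
  · rcases Nat.lt_or_ge 75 X1 with h5 | h5
    swap
    · exact Ops.t1_spec _ s1F4_85_0 X1 (by omega) (by omega)
    exact Ops.t1_spec _ s1F4_85_75 X1 (by omega) (by omega)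
  · rcases Nat.lt_or_ge 73 X1 with h5 | h5
    swap
    · exact Ops.t1_spec _ s1F4_91_0 X1 (by omega) (by omega)
    exact Ops.t1_spec _ s1F4_91_73 X1 (by omega) (by omega)
  · exact Ops.t1_spec _ s1F4_97_0 X1 (by omega) (by omega)
  · rcases Nat.lt_or_ge 89 X1 with h5 | h5
    swap
    · exact Ops.t1_spec _ s1F4_99_0 X1 (by omega) (by omega)
    exact Ops.t1_spec _ s1F4_99_89 X1 (by omega) (by omega)
  · exact Ops.t1_spec _ s1F4_102_0 X1 (by omega) (by omega)

theorem ck2F4 : Ck2 oF4 rF4 := by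
  intro X0 hX X1 h1 h2 h4
  have h3 : X1 < 104 := h2
  simp only [rF4, List.mem_cons, List.not_mem_nil, or_false] at hX
  rcases hX with rfl | rfl | rfl | rfl | rfl | rfl | rfl | rfl | rfl | rfl | rfl | rfl | rfl | rfl | rfl | rfl | rfl | rfl | rfl
  · exact Ops.t2_spec _ s2F4_1_0 X1 (by omega) (by omega) h4
  · exact Ops.t2_spec _ s2F4_7_0 X1 (by omega) (by omega) h4
  · exact Ops.t2_spec _ s2F4_13_0 X1 (by omega) (by omega) h4
  · exact Ops.t2_spec _ s2F4_19_0 X1 (by omega) (by omega) h4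
  · rcases Nat.lt_or_ge 48 X1 with h5 | h5
    swap
    · exact Ops.t2_spec _ s2F4_25_0 X1 (by omega) (by omega) h4
    rcases Nat.lt_or_ge 61 X1 with h5 | h5
    swap
    · exact Ops.t2_spec _ s2F4_25_48 X1 (by omega) (by omega) h4
    rcases Nat.lt_or_ge 83 X1 with h5 | h5
    swap
    · exact Ops.t2_spec _ s2F4_25_61 X1 (by omega) (by omega) h4
    rcases Nat.lt_or_ge 95 X1 with h5 | h5
    swap
    · exact Ops.t2_spec _ s2F4_25_83 X1 (by omega) (by omega) h4
    exact Ops.t2_spec _ s2F4_25_95 X1 (by omega) (by omega) h4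
  · rcases Nat.lt_or_ge 77 X1 with h5 | h5
    swap
    · exact Ops.t2_spec _ s2F4_31_0 X1 (by omega) (by omega) h4
    exact Ops.t2_spec _ s2F4_31_77 X1 (by omega) (by omega) h4
  · rcases Nat.lt_or_ge 77 X1 with h5 | h5
    swap
    · exact Ops.t2_spec _ s2F4_37_0 X1 (by omega) (by omega) h4
    rcases Nat.lt_or_ge 89 X1 with h5 | h5
    swap
    · exact Ops.t2_spec _ s2F4_37_77 X1 (by omega) (by omega) h4
    exact Ops.t2_spec _ s2F4_37_89 X1 (by omega) (by omega) h4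
  · rcases Nat.lt_or_ge 73 X1 with h5 | h5
    swap
    · exact Ops.t2_spec _ s2F4_43_0 X1 (by omega) (by omega) h4
    rcases Nat.lt_or_ge 89 X1 with h5 | h5
    swap
    · exact Ops.t2_spec _ s2F4_43_73 X1 (by omega) (by omega) h4
    exact Ops.t2_spec _ s2F4_43_89 X1 (by omega) (by omega) h4
  · rcases Nat.lt_or_ge 88 X1 with h5 | h5
    swap
    · exact Ops.t2_spec _ s2F4_49_0 X1 (by omega) (by omega) h4
    exact Ops.t2_spec _ s2F4_49_88 X1 (by omega) (by omega) h4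
  · rcases Nat.lt_or_ge 67 X1 with h5 | h5
    swap
    · exact Ops.t2_spec _ s2F4_55_0 X1 (by omega) (by omega) h4
    rcases Nat.lt_or_ge 74 X1 with h5 | h5
    swap
    · exact Ops.t2_spec _ s2F4_55_67 X1 (by omega) (by omega) h4
    rcases Nat.lt_or_ge 80 X1 with h5 | h5
    swap
    · exact Ops.t2_spec _ s2F4_55_74 X1 (by omega) (by omega) h4
    rcases Nat.lt_or_ge 89 X1 with h5 | h5
    swap
    · exact Ops.t2_spec _ s2F4_55_80 X1 (by omega) (by omega) h4
    exact Ops.t2_spec _ s2F4_55_89 X1 (by omega) (by omega) h4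
  · rcases Nat.lt_or_ge 77 X1 with h5 | h5
    swap
    · exact Ops.t2_spec _ s2F4_61_0 X1 (by omega) (by omega) h4
    rcases Nat.lt_or_ge 83 X1 with h5 | h5
    swap
    · exact Ops.t2_spec _ s2F4_61_77 X1 (by omega) (by omega) h4
    rcases Nat.lt_or_ge 89 X1 with h5 | h5
    swap
    · exact Ops.t2_spec _ s2F4_61_83 X1 (by omega) (by omega) h4
    exact Ops.t2_spec _ s2F4_61_89 X1 (by omega) (by omega) h4
  · rcases Nat.lt_or_ge 87 X1 with h5 | h5
    swap
    · exact Ops.t2_spec _ s2F4_67_0 X1 (by omega) (by omega) h4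
    exact Ops.t2_spec _ s2F4_67_87 X1 (by omega) (by omega) h4
  · rcases Nat.lt_or_ge 86 X1 with h5 | h5
    swap
    · exact Ops.t2_spec _ s2F4_73_0 X1 (by omega) (by omega) h4
    rcases Nat.lt_or_ge 93 X1 with h5 | h5
    swap
    · exact Ops.t2_spec _ s2F4_73_86 X1 (by omega) (by omega) h4
    exact Ops.t2_spec _ s2F4_73_93 X1 (by omega) (by omega) h4
  · rcases Nat.lt_or_ge 86 X1 with h5 | h5
    swap
    · exact Ops.t2_spec _ s2F4_79_0 X1 (by omega) (by omega) h4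
    rcases Nat.lt_or_ge 92 X1 with h5 | h5
    swap
    · exact Ops.t2_spec _ s2F4_79_86 X1 (by omega) (by omega) h4
    exact Ops.t2_spec _ s2F4_79_92 X1 (by omega) (by omega) h4
  · rcases Nat.lt_or_ge 93 X1 with h5 | h5
    swap
    · exact Ops.t2_spec _ s2F4_85_0 X1 (by omega) (by omega) h4
    exact Ops.t2_spec _ s2F4_85_93 X1 (by omega) (by omega) h4
  · exact Ops.t2_spec _ s2F4_91_0 X1 (by omega) (by omega) h4
  · exact Ops.t2_spec _ s2F4_97_0 X1 (by omega) (by omega) h4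
  · exact Ops.t2_spec _ s2F4_99_0 X1 (by omega) (by omega) h4
  · exact Ops.t2_spec _ s2F4_102_0 X1 (by omega) (by omega) h4

theorem conclF4 (hcone : SpCone) : Concl CoxeterMatrix.F₄ :=
  asmD hcone CoxeterMatrix.F₄ (by decide) dF4 dcF4 xF4 xcF4 rfl
    (by intro i j; fin_cases i <;> fin_cases j <;> rfl) orF4 oF4 eF4 rF4 oaF4 obF4 ocF4
    opF4 24 onF4 ck1F4 ck2F4 kkF4 atF4 ogF4 xxF4

end Pool.Agent.H54.RF
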