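import Pool.Agent.H54.RF.Defs2

/-!
# Project RF (MP_35eb49): abstract lattices of noncrossing partitions and their groups
-/

set_option autoImplicit false

namespace Pool.Agent.H54.RF

/-- A finite lattice with a Kreweras complement `K` (the simple elements of a dual Garside
structure; `K s` is the element `s⁻¹ δ`). -/
class NC (S : Type) extends SemilatticeInf S, OrderTop S where
  fin : Finite S
  K : S → S
  K_le : ∀ x y, K y ≤ K x ↔ x ≤ y
  star : ∀ s m, s ≤ m → K (K s ⊓ m) ⊓ K s = K m
  rk : S → ℕ
  rk_quo : ∀ s m, s ≤ m → rk s + rk (K s ⊓ m) = rk m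
  rk_pos : ∀ s, s ≠ K ⊤ → 0 < rk s

namespace NC

variable {S : Type} [NC S]

/-- The least element. -/
def bo (S : Type) [NC S] : S := K (⊤ : S)

/-- Conjugation by `δ`: `tau s = δ⁻¹ s δ`. -/
def tau (s : S) : S := K (K s)

/-- The quotient `s⁻¹ m`, for `s ≤ m`. -/
def dv (s m : S) : S := K s ⊓ m

/-- `s t` is simple and equal to `m`. -/
def IsMul (s t m : S) : Prop := s ≤ m ∧ dv s m = t

open Classical in
/-- The product `s t` if it is simple (that is, if `t ≤ K s`). -/
noncomputable def mu (s t : S) : S := if h : ∃ m, IsMul s t m then h.choose else ⊤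

/-- The left factor of the normal form of `s u`. -/
noncomputable def N1 (s u : S) : S := mu s (K s ⊓ u)

/-- The right factor of the normal form of `s u`. -/
def N2 (s u : S) : S := dv (K s ⊓ u) u

/-- Multiplicative functions on the simple elements. -/
def Mult {H : Type} [Group H] (f : S → H) : Prop := ∀ s m, s ≤ m → f s * f (dv s m) = f m

/-- `A` is the group of the germ `S`. -/
structure IsGrp {A : Type} [Group A] (val : S → A) : Prop where
  mult : Mult val
  gen : Subgroup.closure (Set.range val) = ⊤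
  lift : ∀ (H : Type) [Group H] (f : S → H), Mult f → ∃ ρ : A →* H, ∀ s, ρ (val s) = f s

/-- The positive elements. -/
def Pos {A : Type} [Group A] (val : S → A) : Submonoid A := Submonoid.closure (Set.range val)

/-- Bi-infinite normal words, equal to `⊤` far on the left. -/
def Str (S : Type) [NC S] : Type := {f : ℤ → S // (∀ i, N1 (f i) (f (i + 1)) = f i) ∧
  ∃ k : ℤ, ∀ i ≤ k, f i = ⊤}

/-- Existence of the Garside structure of the group of a germ. -/
def SpGar : Prop := ∀ (S : Type) [NC S] (A : Type) [Group A] (val : S → A), IsGrp val →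
  bo S ≠ ⊤ → ∃ g : Gar A, letI := g
    (Gar.δ : A) = val ⊤ ∧ Gar.rk (G := A) = rk (⊤ : S) ∧ (∀ s, Gar.len (val s) = rk s) ∧
    Function.Injective val ∧
    (∀ x : A, (1 ≤ x ∧ x ≤ Gar.δ) ↔ ∃ s, x = val s) ∧ (∀ s t, val s ≤ val t ↔ s ≤ t) ∧
    (∀ s t, val (s ⊓ t) = val s ⊓ val t)

end NC

end Pool.Agent.H54.RF
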