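import Pool.Agent.H54.RF.SpecA

/-!
# Project RF (MP_35eb49): pigeonhole for periods
-/

set_option autoImplicit false

namespace Pool.Agent.H54.RF

open Gar

theorem sp_per (G : Type) [Group G] : SpPer G := by
  intro r κ F hF k φ Y hκ hcov hper hinj v
  choose x f hf hY using hcov
  have : Finite F := hF
  let c : ℕ → F := fun t => ⟨f ((t : ℤ) • v), hf _⟩
  obtain ⟨s, t, hst, hc⟩ := Finite.exists_ne_map_eq_of_infinite c
  have key : ∀ s t : ℕ, s < t → c s = c t →
      ∃ (n : ℕ) (x : Fin r → ℤ), 0 < n ∧ ∀ i, φ i x = n * v i := by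
    intro s t hlt hc
    have hfe : f ((s : ℤ) • v) = f ((t : ℤ) • v) := congrArg Subtype.val hc
    refine ⟨t - s, x ((t : ℤ) • v) - x ((s : ℤ) • v), by omega, ?_⟩
    have h1 : Y ((t : ℤ) • v) = Y ((s : ℤ) • v + fun i => φ i (x ((t : ℤ) • v) - x ((s : ℤ) • v))) := by
      rw [hper, hY ((t : ℤ) • v), hY ((s : ℤ) • v), ← hfe, ← mul_assoc, ← hκ, sub_add_cancel]
    have h2 := hinj h1
    intro i
    have h3 := congrFun h2 i
    simp only [Pi.add_apply, Pi.smul_apply, smul_eq_mul] at h3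
    have h4 : ((t - s : ℕ) : ℤ) = (t : ℤ) - s := by
      rw [Nat.cast_sub hlt.le]
    rw [h4, sub_mul]
    omega
  rcases lt_or_gt_of_ne hst with h | h
  · exact key s t h hc
  · exact key t s h hc.symm

end Pool.Agent.H54.RF
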