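import Pool.Agent.H54.RF.EncD

/-!
# Project RF (MP_35eb49): packed tables
-/

set_option autoImplicit false

namespace Pool.Agent.H54.RF

namespace Ops

/-- row `i` of a table with rows of `w` bits -/
noncomputable def rw_ (T w i : ℕ) : ℕ := Nat.mod (Nat.shiftRight T (Nat.mul i w)) (Nat.pow 2 w)

/-- entry of eight bits -/
noncomputable def g8 (T i : ℕ) : ℕ := Nat.land (Nat.shiftRight T (Nat.mul i 8)) 255

/-- entry of sixteen bits -/
noncomputable def g16 (T i : ℕ) : ℕ := Nat.land (Nat.shiftRight T (Nat.mul i 16)) 65535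

/-- entry of sixty-four bits -/
noncomputable def g64 (T i : ℕ) : ℕ := Nat.mod (Nat.shiftRight T (Nat.mul i 64)) (Nat.pow 2 64)

/-- entry of eight bits of a large table -/
noncomputable def b8 (T i : ℕ) : ℕ := frc (Nat.div i 256) fun c => g8 (rw_ T 2048 c) (Nat.mod i 256)

/-- entry of sixteen bits of a large table -/
noncomputable def b16 (T i : ℕ) : ℕ :=
  frc (Nat.div i 128) fun c => g16 (rw_ T 2048 c) (Nat.mod i 128)

/-- entry of sixteen bits of a very large table -/
noncomputable def h16 (T i : ℕ) : ℕ :=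
  frc (Nat.div i 8192) fun b => frc (Nat.mod (Nat.div i 128) 64) fun c =>
    g16 (rw_ (rw_ T 131072 b) 2048 c) (Nat.mod i 128)

/-- hash function with displacements, values of eight bits -/
noncomputable def hs1 (D V p q k : ℕ) : ℕ :=
  frc k fun k => b8 V (Nat.mod (Nat.add (Nat.mod k q) (b16 D (Nat.mod k p))) q)

/-- hash function with displacements, values of sixteen bits -/
noncomputable def hs2 (D V p q k : ℕ) : ℕ :=
  frc k fun k => h16 V (Nat.mod (Nat.add (Nat.mod k q) (h16 D (Nat.mod k p))) q)

end Ops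

end Pool.Agent.H54.RF
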