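import Pool.Agent.H54.RF.AbB
import Pool.Agent.H54.RF.Greedy

/-!
# Project RF (MP_35eb49): statements of the general part
-/

set_option autoImplicit false

namespace Pool.Agent.H54.RF

open Gar

/-- The rank of the group is not larger than the number of separating functionals. -/
def SpLin : Prop := ∀ (r k : ℕ) (φ : Fin k → (Fin r → ℤ) →+ ℤ),
  (∀ x, (∀ i, φ i x = 0) → x = 0) → r ≤ k

/-- Every direction is contained in a cone. -/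
def SpCone : Prop := ∀ (r : ℕ) (τ : (Fin r → ℤ) → ℤ), Sublin τ → ∀ x, ∃ φ, IsCone τ φ ∧ φ x = τ x

/-- Distinct cone functionals are separated. -/
def SpSep : Prop := ∀ (r : ℕ) (τ : (Fin r → ℤ) → ℤ), Sublin τ →
  ∀ (k : ℕ) (φ : Fin k → (Fin r → ℤ) →+ ℤ), (∀ i, IsCone τ (φ i)) → Function.Injective φ →
    ∀ i, ∃ x, ∀ j, j ≠ i → φ j x < φ i x

section

variable (G : Type) [Group G] [Gar G]

/-- Translation numbers exist, and have bounded denominators. -/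
def SpIsT : Prop := ∀ g : G, ∃ t : ℤ, IsT (g ^ (rk G).factorial) t

/-- Existence of rays. -/
def SpRay : Prop := ∀ (r : ℕ) (κ : (Fin r → ℤ) → G) (ω : Fin r → ℤ) (W : ℤ), Ab κ ω W →
  (∀ N : ℤ, ∃ z ∈ ML κ, ∀ x, N ≤ dd 1 (κ x * z)) → ∃ y, Ray κ y

/-- Rays do not exist in the torsion case. -/
def SpNoRay : Prop := ∀ (r : ℕ) (κ : (Fin r → ℤ) → G) (ω : Fin r → ℤ) (W : ℤ), Ab κ ω W →
  Tor κ → ∀ y, ¬ Ray κ y

/-- In the torsion case the abelian subgroup acts cocompactly. -/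
def SpFin : Prop := ∀ (r : ℕ) (κ : (Fin r → ℤ) → G) (ω : Fin r → ℤ) (W : ℤ), Ab κ ω W →
  Tor κ → ∃ F : Set G, F.Finite ∧ ∀ z ∈ ML κ, ∃ x, ∃ f ∈ F, z = κ x * f

/-- Extension of an abelian subgroup. -/
def SpExt : Prop := ∀ (r : ℕ) (κ : (Fin r → ℤ) → G) (ω : Fin r → ℤ) (W : ℤ), Ab κ ω W →
  ∀ u : G, Cen κ u → (∀ (b : ℕ) (x : Fin r → ℤ), 0 < b → u ^ b ≠ κ x) →
    ∃ (κ' : (Fin (r + 1) → ℤ) → G) (ω' : Fin (r + 1) → ℤ), Ab κ' ω' W ∧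
      ∀ x, ∃ x', κ' x' = κ x

/-- A large centralizer contains a free abelian group of rank three. -/
def SpThree : Prop := ∀ g : G, (∀ m : ℕ, 0 < m → ∀ k : ℤ, g ^ m ≠ δ ^ k) →
  (Subgroup.zpowers g ⊔ Subgroup.center G).relIndex (Subgroup.centralizer {g}) = 0 →
    ∃ (κ : (Fin 3 → ℤ) → G) (ω : Fin 3 → ℤ) (W : ℤ), Ab κ ω W ∧ ∃ x, κ x = g

/-- The translation numbers are sublinear. -/
def SpTau : Prop := ∀ (r : ℕ) (κ : (Fin r → ℤ) → G) (ω : Fin r → ℤ) (W : ℤ) (τ : (Fin r → ℤ) → ℤ),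
  Ab κ ω W → (∀ x, IsT (κ x) (τ x)) → Sublin τ ∧ τ ω = W ∧
    ∀ x, τ x ≤ 0 → τ (-x) ≤ 0 → x = 0

/-- The error of the translation numbers is uniformly bounded. -/
def SpUnif : Prop := ∀ (r : ℕ) (κ : (Fin r → ℤ) → G) (ω : Fin r → ℤ) (W : ℤ)
  (τ : (Fin r → ℤ) → ℤ), Ab κ ω W → (∀ x, IsT (κ x) (τ x)) → ∃ C : ℤ, ∀ x, d 1 (κ x) ≤ τ x + C

/-- Existence of horofunctions. -/
def SpBus : Prop := ∀ (r : ℕ) (κ : (Fin r → ℤ) → G) (ω : Fin r → ℤ) (W : ℤ)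
  (τ : (Fin r → ℤ) → ℤ), Ab κ ω W → Sublin τ → (∀ x, τ x ≤ d 1 (κ x)) → ∀ C : ℤ,
    (∀ x, d 1 (κ x) ≤ τ x + C) → ∀ φ, IsCone τ φ → ∃ I : Set G, Bus κ φ I

/-- The number of horofunctions is at most the rank of the Garside structure. -/
def SpMany : Prop := ∀ (r : ℕ) (κ : (Fin r → ℤ) → G) (ω : Fin r → ℤ) (W : ℤ), Ab κ ω W →
  ∀ (k : ℕ) (φ : Fin k → (Fin r → ℤ) →+ ℤ) (I : Fin k → Set G), (∀ i, Bus κ (φ i) (I i)) →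
    (∀ i, ∃ x, ∀ j, j ≠ i → φ j x < φ i x) → k ≤ rk G

/-- Frames exist. -/
def SpFrame : Prop := ∀ (r : ℕ) (κ : (Fin r → ℤ) → G) (ω : Fin r → ℤ) (W : ℤ)
  (τ : (Fin r → ℤ) → ℤ), Ab κ ω W → (∀ x, IsT (κ x) (τ x)) →
    ∃ (k : ℕ) (φ : Fin k → (Fin r → ℤ) →+ ℤ) (I : Fin k → Set G), Frame κ k φ I

/-- The rank of an abelian subgroup is at most the rank of the Garside structure. -/
def SpRank : Prop := ∀ (r : ℕ) (κ : (Fin r → ℤ) → G) (ω : Fin r → ℤ) (W : ℤ), Ab κ ω W → r ≤ rk G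

/-- Maximal abelian subgroups. -/
def SpMax : Prop := ∀ g : G, (∀ m : ℕ, 0 < m → ∀ k : ℤ, g ^ m ≠ δ ^ k) →
  (Subgroup.zpowers g ⊔ Subgroup.center G).relIndex (Subgroup.centralizer {g}) = 0 →
    ∃ (r : ℕ) (κ : (Fin r → ℤ) → G) (ω : Fin r → ℤ) (W : ℤ), Ab κ ω W ∧ 3 ≤ r ∧ Tor κ ∧
      (∃ (N : ℕ) (x : Fin r → ℤ), 0 < N ∧ κ x = g ^ N) ∧ ∀ x, ∃ t : ℤ, IsT (κ x) t

/-- The meet-preserving map of a frame. -/
def SpY : Prop := ∀ (r : ℕ) (κ : (Fin r → ℤ) → G) (ω : Fin r → ℤ) (W : ℤ), Ab κ ω W →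
  ∀ F : Set G, F.Finite → (∀ z ∈ ML κ, ∃ x, ∃ f ∈ F, z = κ x * f) →
  ∀ (k : ℕ) (φ : Fin k → (Fin r → ℤ) →+ ℤ) (I : Fin k → Set G), Frame κ k φ I →
    ∃ Y : (Fin k → ℤ) → G, (∀ v, Y v ∈ ML κ) ∧ (∀ v w, Y (v ⊓ w) = Y v ⊓ Y w) ∧
      (∀ v, Y (v + 1) = Y v * δ) ∧ (∀ v x, Y (v + fun i => φ i x) = κ x * Y v) ∧
      ∀ v w, Y v ≤ Y w → v ≤ w

/-- Every vector has a multiple that is a translation. -/
def SpPer : Prop := ∀ (r : ℕ) (κ : (Fin r → ℤ) → G) (F : Set G), F.Finite →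
  ∀ (k : ℕ) (φ : Fin k → (Fin r → ℤ) →+ ℤ) (Y : (Fin k → ℤ) → G),
    (∀ x y, κ (x + y) = κ x * κ y) → (∀ v, ∃ x, ∃ f ∈ F, Y v = κ x * f) →
    (∀ v x, Y (v + fun i => φ i x) = κ x * Y v) → Function.Injective Y →
    ∀ v : Fin k → ℤ, ∃ (n : ℕ) (x : Fin r → ℤ), 0 < n ∧ ∀ i, φ i x = n * v i

/-- The result of the general part: a large centralizer yields a periodic flat. -/
def SpFlat3 : Prop := ∀ g : G, (∀ m : ℕ, 0 < m → ∀ k : ℤ, g ^ m ≠ δ ^ k) →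
  (Subgroup.zpowers g ⊔ Subgroup.center G).relIndex (Subgroup.centralizer {g}) = 0 →
    ∃ (Y : (Fin 3 → ℤ) → G) (D : ℕ) (Z : Fin 3 → G) (N : ℕ), Flat3 Y D Z ∧ 0 < N ∧
      ∀ i, Commute (g ^ N) (Z i)

end

end Pool.Agent.H54.RF
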