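import Pool.Agent.H54.RF.NC

/-!
# Project RF (MP_35eb49): statements of the part about germs
-/

set_option autoImplicit false

namespace Pool.Agent.H54.RF

namespace NC

/-- a period of `tau` -/
noncomputable def per (S : Type) : ℕ := (Nat.card S).factorial

/-- Basic facts. -/
structure Basic (S : Type) [NC S] : Prop where
  bo_le : ∀ s : S, bo S ≤ s
  K_bo : K (bo S) = ⊤
  K_bij : Function.Bijective (K : S → S)
  K_anti : ∀ {s t : S}, s ≤ t → K t ≤ K s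
  tau_le : ∀ s t : S, tau s ≤ tau t ↔ s ≤ t
  tau_bij : Function.Bijective (tau : S → S)
  tau_top : tau (⊤ : S) = ⊤
  tau_bo : tau (bo S) = bo S
  tau_inf : ∀ s t : S, tau (s ⊓ t) = tau s ⊓ tau t
  per_pos : 0 < per S
  per_tau : ∀ s : S, tau^[per S] s = s
  rk_bo : rk (bo S) = 0
  rk_K : ∀ s : S, rk s + rk (K s) = rk (⊤ : S)
  rk_tau : ∀ s : S, rk (tau s) = rk s
  rk_le : ∀ {s m : S}, s ≤ m → rk s ≤ rk m
  rk_lt : ∀ {s m : S}, s < m → rk s < rk m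
  dv_le_iff : ∀ {s m n : S}, s ≤ m → s ≤ n → (dv s m ≤ dv s n ↔ m ≤ n)
  dv_self : ∀ s : S, dv s s = bo S
  dv_bo : ∀ s : S, dv (bo S) s = s
  dv_top : ∀ s : S, dv s ⊤ = K s
  dv_dv : ∀ {s m n : S}, s ≤ m → m ≤ n → dv (dv s m) (dv s n) = dv m n
  dv_tau : ∀ s m : S, tau (dv s m) = dv (tau s) (tau m)
  mu_spec : ∀ {s t : S}, t ≤ K s → s ≤ mu s t ∧ dv s (mu s t) = t
  mu_uniq : ∀ {s t m : S}, IsMul s t m → mu s t = m ∧ t ≤ K s
  left : ∀ {t m : S}, t ≤ m → ∃ s, s ≤ m ∧ dv s m = t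
  cancel : ∀ {s s' m : S}, s ≤ m → s' ≤ m → dv s m = dv s' m → s = s'
  sup : ∀ s t : S, ∃ j, s ≤ j ∧ t ≤ j ∧ ∀ u, s ≤ u → t ≤ u → j ≤ u

/-- The laws of the normal form of products of two simple elements. -/
structure Laws (S : Type) [NC S] : Prop where
  A1 : ∀ {s m : S} (u : S), s ≤ m → N1 m u = N1 s (N1 (dv s m) u)
  A2 : ∀ {s m : S} (u : S), s ≤ m →
    IsMul (N2 s (N1 (dv s m) u)) (N2 (dv s m) u) (N2 m u)
  B1 : ∀ {u v : S}, N1 u v = u → N2 u v = v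
  B2 : ∀ {u v : S}, N1 u v = u → ∀ s, N1 (N1 s u) (N1 (N2 s u) v) = N1 s u
  C1 : ∀ s : S, N1 ⊤ s = ⊤
  C2 : ∀ s : S, N2 ⊤ s = s
  C3 : ∀ s : S, N1 s ⊤ = ⊤
  C4 : ∀ s : S, N2 s ⊤ = tau s
  C5 : ∀ s : S, N1 s (bo S) = s
  C6 : ∀ s : S, N2 s (bo S) = bo S
  C7 : ∀ s : S, N1 (bo S) s = s
  C8 : ∀ s : S, N2 (bo S) s = bo S
  D1 : ∀ s u : S, IsMul s (K s ⊓ u) (N1 s u)
  D2 : ∀ s u : S, IsMul (K s ⊓ u) (N2 s u) u

/-- `c` is the sequence of carries when the simple element `s` is multiplied on the left of `f`. -/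
structure Carry {S : Type} [NC S] (s : S) (f c : ℤ → S) : Prop where
  step : ∀ i, c (i + 1) = N2 (c i) (f i)
  init : ∃ k : ℤ, ∀ i ≤ k, c i = tau^[(i % (per S : ℤ)).toNat] s

/-- The action of the simple elements on normal words. -/
def SpAct (S : Type) [NC S] : Prop := ∃ p : S → Equiv.Perm (Str S), Mult p ∧
  ∀ (s : S) (f : Str S) (c : ℤ → S), Carry s f.1 c → ∀ i, (p s f).1 i = N1 (c i) (f.1 i)

/-- Existence of carries. -/
def SpCarry (S : Type) [NC S] : Prop := ∀ (s : S) (f : Str S), ∃ c, Carry s f.1 c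

/-- Heads of positive elements. -/
def SpHead (S : Type) [NC S] : Prop := ∀ (A : Type) [Group A] (val : S → A), IsGrp val →
  bo S ≠ ⊤ → Function.Injective val ∧ ∀ x ∈ Pos val, ∃ h : S, (∃ y ∈ Pos val, x = val h * y) ∧
    ∀ s, (val s)⁻¹ * x ∈ Pos val → s ≤ h

end NC

end Pool.Agent.H54.RF
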