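import Pool.Agent.H54.RF.Chk
import Pool.Agent.H54.RF.Dat

/-!
# Project RF (MP_35eb49): statements about flats in a germ
-/

set_option autoImplicit false

namespace Pool.Agent.H54.RF

open NC

/-- The third direction. -/
def th (d f : Fin 3) : Fin 3 := -(d + f)

/-- Three distinct directions. -/
def Di (d f g : Fin 3) : Prop := d ≠ f ∧ d ≠ g ∧ f ≠ g

section

variable {S : Type} [NC S]

/-- The step of a flat in direction `d`. -/
def aa (F : (Fin 3 → ℤ) → Fin 3 → S) (v : Fin 3 → ℤ) (d : Fin 3) : S := F v (d + 1) ⊓ F v (d + 2)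

/-- A periodic flat in the germ `S`: `F v d` is the product of the two steps at `v` in the
directions different from `d`. -/
structure Fl (F : (Fin 3 → ℤ) → Fin 3 → S) (D : ℕ) : Prop where
  pos : 0 < D
  ne_top : ∀ v d, F v d ≠ ⊤
  st_ne : ∀ v d, aa F v d ≠ bo S
  tri : ∀ v d, aa F v d ⊓ F v d = bo S
  F_step : ∀ v d, F (v + e d) d = K (aa F v d)
  a_step : ∀ v d f, d ≠ f → aa F (v + e d) f = dv (aa F v d) (F v (th d f))
  diag : ∀ v d, F (v + 1) d = tau (F v d)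
  per : ∀ v i, F (v + (D : ℤ) • e i) = F v

/-- The operations `O` describe the germ `S`; `ix` is the index of an element and `sf` the element
of an index. -/
structure Enc (O : Ops) (reps : List ℕ) (ix : S → ℕ) (sf : ℕ → S) : Prop where
  m : O.m = O.top + 1
  h_pos : 0 < O.h
  ix_sf : ∀ i ≤ O.top, ix (sf i) = i
  sf_ix : ∀ s, sf (ix s) = s
  lt : ∀ s, ix s ≤ O.top
  bo : ix (bo S) = 0
  top : ix ⊤ = O.top
  mt : ∀ s t : S, O.mt (ix s) (ix t) = ix (s ⊓ t)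
  kk : ∀ s : S, O.kk (ix s) = ix (K s)
  tt : ∀ (k : ℕ) (s : S), k < O.h → O.tt k (ix s) = ix (tau^[k] s)
  t1 : ∀ s : S, O.tt 1 (ix s) = ix (tau s)
  per : ∀ s : S, tau^[O.h] s = s
  pr : ∀ b R : S, K b ⊓ R ≠ NC.bo S → O.pr (ix b) (ix R) = ix (N1 b R)
  orb : ∀ s : S, O.orb (ix (tau s)) = O.orb (ix s)
  rep : ∀ s : S, s ≠ NC.bo S → s ≠ ⊤ → ∃ k < O.h, ix (tau^[k] s) ∈ reps
  free : ∀ s : S, s ≠ NC.bo S → ix s ≤ O.nf → ix (tau s) ≤ O.nf ∧
    ix (tau s) % O.h = (ix s + 1) % O.h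
  nfree : ∀ s : S, O.nf < ix s → O.nf < ix (tau s)
  some : ∀ s t : S, s ≠ t → s ≠ ⊤ → t ≠ ⊤ → O.nf < ix s → O.nf < ix t → s ⊓ t ≠ NC.bo S →
    ix (s ⊓ t) ≤ O.nf

variable (O : Ops) (ix : S → ℕ) (F : (Fin 3 → ℤ) → Fin 3 → S)

/-- The potential at `v` of the strip in direction `d` on the side of `f`. -/
noncomputable def nod (v : Fin 3 → ℤ) (d f g : Fin 3) : ℕ :=
  O.phi (ix (F v d)) (ix (F v f)) (ix (F v g)) (ix (F (v + e f) g))

/-- The value at `v` of the tube in direction `d`. -/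
noncomputable def fac (v : Fin 3 → ℤ) (d f g : Fin 3) : ℕ :=
  O.psi (ix (F v d)) (ix (F v f)) (ix (F v g)) (ix (F (v + e f) g)) (ix (F (v + e g) f))
    (ix (F (v + e f + e g) d))

/-- The label at `v` of the tube in direction `d`. -/
noncomputable def lab (v : Fin 3 → ℤ) (d f g : Fin 3) : ℕ :=
  O.tt ((O.h - O.cs (ix (F v d)) (ix (F v f)) (ix (F v g))) % O.h) (fac O ix F v d f g / 32)

/-- The condition for the labels. -/
def Lab (v : Fin 3 → ℤ) (d f g : Fin 3) : Prop :=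
  fac O ix F v d f g / 32 < O.top ∧ fac O ix F (v + e d) d f g / 32 < O.top ∧
  (fac O ix F v d f g % 2 = 0 → O.mt (ix (aa F v d)) (lab O ix F v d f g) = ix (aa F v d) ∧
    O.mt (lab O ix F (v + e d) d f g) (lab O ix F v d f g) = lab O ix F (v + e d) d f g) ∧
  (fac O ix F v d f g % 2 = 1 → O.mt (ix (F v d)) (lab O ix F v d f g) = ix (F v d) ∧
    O.mt (lab O ix F (v + e d) d f g) (O.tt 1 (lab O ix F v d f g)) = lab O ix F (v + e d) d f g)

end

/-- The checks of the strips. -/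
def Ck1 (O : Ops) (reps : List ℕ) : Prop := ∀ X0 ∈ reps, ∀ X1, 0 < X1 → X1 < O.top →
  O.chk1 X0 X1 = true

/-- The checks of the cubes. -/
def Ck2 (O : Ops) (reps : List ℕ) : Prop := ∀ X0 ∈ reps, ∀ X1, 0 < X1 → X1 < O.top →
  O.orb X0 ≤ O.orb X1 → O.chk2 X0 X1 = true

/-- Cores of flats. -/
def SpCore : Prop := ∀ (S : Type) [NC S] (O : Ops) (reps : List ℕ) (ix : S → ℕ) (sf : ℕ → S)
  (F : (Fin 3 → ℤ) → Fin 3 → S) (D : ℕ), NC.Basic S → Enc O reps ix sf → Fl F D →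
  ∀ v d f g, Di d f g →
    O.pp (ix (aa F v f)) (ix (F v g)) (ix (F (v + e d + e f) g)) = ix (F (v + e f) g) ∧
    O.core (ix (F v g)) (ix (aa F v d)) (ix (aa F v f)) (ix (F (v + e d + e f) g)) = true

/-- Invariance of potentials, values and labels. -/
def SpInv : Prop := ∀ (S : Type) [NC S] (O : Ops) (reps : List ℕ) (ix : S → ℕ) (sf : ℕ → S)
  (F : (Fin 3 → ℤ) → Fin 3 → S) (D : ℕ), NC.Basic S → Enc O reps ix sf → Fl F D →
  ∀ (k : ℕ) v d f g, Di d f g →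
    nod O ix F (v + (k : ℤ) • 1) d f g = nod O ix F v d f g ∧
    fac O ix F (v + (k : ℤ) • 1) d f g = fac O ix F v d f g ∧
    (Lab O ix F (v + (k : ℤ) • 1) d f g → Lab O ix F v d f g)

/-- The potentials are constant. -/
def SpV1 : Prop := ∀ (S : Type) [NC S] (O : Ops) (reps : List ℕ) (ix : S → ℕ) (sf : ℕ → S)
  (F : (Fin 3 → ℤ) → Fin 3 → S) (D : ℕ), NC.Basic S → Enc O reps ix sf → Fl F D → Ck1 O reps →
  ∀ v d f g, Di d f g → nod O ix F (v + e d) d f g = nod O ix F v d f g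

/-- The cubes with the minimal value. -/
def SpV2 : Prop := ∀ (S : Type) [NC S] (O : Ops) (reps : List ℕ) (ix : S → ℕ) (sf : ℕ → S)
  (F : (Fin 3 → ℤ) → Fin 3 → S) (D : ℕ), NC.Basic S → Enc O reps ix sf → Fl F D → Ck1 O reps →
  Ck2 O reps →
  ∀ r : ℕ, (∀ v d f g, Di d f g → r ≤ fac O ix F v d f g % 32) →
  ∀ v d f g, Di d f g → fac O ix F v d f g % 32 = r →
    fac O ix F (v + e d) d f g % 32 = r ∧ Lab O ix F v d f g

/-- Some line of a flat is contained in a proper element. -/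
def SpLine : Prop := ∀ (S : Type) [NC S] (O : Ops) (reps : List ℕ) (ix : S → ℕ) (sf : ℕ → S)
  (F : (Fin 3 → ℤ) → Fin 3 → S) (D : ℕ), NC.Basic S → Enc O reps ix sf → Fl F D → Ck1 O reps →
  Ck2 O reps → ∃ v d, ∃ w : S, w ≠ ⊤ ∧ ((∀ n : ℕ, aa F (v + (n : ℤ) • e d) d ≤ w) ∨
    ∀ n : ℕ, F (v + (n : ℤ) • e d) d ≤ tau^[n] w)

/-- The flat in the germ of a flat in the group. -/
def SpFlOf : Prop := ∀ (S : Type) [NC S] (G : Type) [Group G] [Gar G] (val : S → G),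
  NC.Basic S → NC.Mult val → Function.Injective val → (Gar.δ : G) = val ⊤ →
  (∀ x : G, (1 ≤ x ∧ x ≤ Gar.δ) ↔ ∃ s, x = val s) → (∀ s t, val s ≤ val t ↔ s ≤ t) →
  (∀ s t, val (s ⊓ t) = val s ⊓ val t) →
  ∀ (Y : (Fin 3 → ℤ) → G) (D : ℕ) (Z : Fin 3 → G), Gar.Flat3 Y D Z →
    ∃ F : (Fin 3 → ℤ) → Fin 3 → S, Fl F D ∧
      (∀ v d, val (F v d) = (Y v)⁻¹ * Y (v + 1 - e d)) ∧
      ∀ v d, val (aa F v d) = (Y v)⁻¹ * Y (v + e d)

end Pool.Agent.H54.RF
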