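import Pool.Agent.H54.RF.Art

/-!
# Project RF (MP_35eb49): statements about realisations
-/

set_option autoImplicit false

namespace Pool.Agent.H54.RF

open NC

/-- The dual relations for a function on the atoms. -/
def DualRel {S : Type} [NC S] {H : Type} [Group H] (va : S → H) : Prop :=
  ∀ r s w q : S, NC.rk r = 1 → NC.rk s = 1 → NC.rk q = 1 → IsMul r s w → IsMul q r w →
    va r * va s = va q * va r

/-- Functions on the atoms that satisfy the dual relations extend. -/
def SpExtV : Prop := ∀ (S : Type) [NC S] (H : Type) [Group H] (va : S → H), NC.Basic S →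
  NC.Conn S → DualRel va → ∃ val : S → H, Mult val ∧ ∀ r, NC.rk r = 1 → val r = va r

/-- The function on the atoms. -/
def SpVa : Prop := ∀ (n : ℕ) (M : CoxeterMatrix (Fin n)) (S : Type) [NC S] (a : Fin n → S)
  (ol : List (Fin n)) (h : ℕ), NC.Basic S → Rz M a ol h →
    ∃ va : S → Art M, (∀ i, va (a i) = ge M i) ∧
      (∀ r, NC.rk r = 1 → va (tau r) = (wd M ol)⁻¹ * va r * wd M ol) ∧ DualRel va

/-- The universal property. -/
def SpUni : Prop := ∀ (n : ℕ) (M : CoxeterMatrix (Fin n)) (S : Type) [NC S] (a : Fin n → S)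
  (ol : List (Fin n)) (h : ℕ) (val : S → Art M), NC.Basic S → NC.Conn S → Rz M a ol h →
    Mult val →
    (∀ i, val (a i) = ge M i) → IsGrp val ∧ val ⊤ = wd M ol

end Pool.Agent.H54.RF
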